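import Mathlib

open MeasureTheory Set Filter Topology
open scoped ENNReal NNReal

namespace Pool.Agent.Q196.BmoX

/-- A cube in `ℝ^d` with sides parallel to the axes: a corner and a side length. -/
structure Cube (d : ℕ) where
  corner : Fin d → ℝ
  side : ℝ
  side_pos : 0 < side

/-- The set of points of a cube. -/
def Cube.set {d : ℕ} (Q : Cube d) : Set (Fin d → ℝ) :=
  Set.pi univ (fun i => Icc (Q.corner i) (Q.corner i + Q.side))

/-- A quasi-Banach function space over the cube `Q`, given by its quasi-norm `N`, which takes the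
value `∞` exactly at the functions outside the space; functions are identified when they agree
almost everywhere on `Q`. -/
structure QuasiBanachFunctionSpace {d : ℕ} (Q : Cube d) where
  /-- The quasi-norm. -/
  N : ((Fin d → ℝ) → ℝ) → ℝ≥0∞
  congr_ae : ∀ f g, f =ᵐ[volume.restrict Q.set] g → N f = N g
  eq_zero : ∀ f, AEMeasurable f (volume.restrict Q.set) → N f = 0 → f =ᵐ[volume.restrict Q.set] 0
  smul : ∀ (c : ℝ) f, AEMeasurable f (volume.restrict Q.set) →
    N (fun x => c * f x) = ENNReal.ofReal |c| * N f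
  quasi_add : ∃ K : ℝ≥0, ∀ f g, AEMeasurable f (volume.restrict Q.set) →
    AEMeasurable g (volume.restrict Q.set) → N (fun x => f x + g x) ≤ K * (N f + N g)
  mono : ∀ f g, AEMeasurable f (volume.restrict Q.set) → AEMeasurable g (volume.restrict Q.set) →
    (∀ᵐ x ∂(volume.restrict Q.set), |f x| ≤ |g x|) → N f ≤ N g
  exists_pos : ∃ f, AEMeasurable f (volume.restrict Q.set) ∧ N f < ∞ ∧
    ∀ᵐ x ∂(volume.restrict Q.set), 0 < f x
  fatou : ∀ (f : ℕ → (Fin d → ℝ) → ℝ) (g : (Fin d → ℝ) → ℝ),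
    (∀ k, AEMeasurable (f k) (volume.restrict Q.set)) →
    (∀ᵐ x ∂(volume.restrict Q.set), 0 ≤ f 0 x ∧ Monotone (fun k => f k x) ∧
      Tendsto (fun k => f k x) atTop (𝓝 (g x))) → N g = ⨆ k, N (f k)
  complete : ∀ f : ℕ → (Fin d → ℝ) → ℝ,
    (∀ n, AEMeasurable (f n) (volume.restrict Q.set) ∧ N (f n) < ∞) →
    (∀ ε > 0, ∃ n₀, ∀ m ≥ n₀, ∀ n ≥ n₀, N (fun x => f m x - f n x) < ε) →
    ∃ g, AEMeasurable g (volume.restrict Q.set) ∧ N g < ∞ ∧
      Tendsto (fun n => N (fun x => f n x - g x)) atTop (𝓝 0)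

/-- A family of quasi-Banach function spaces, one per cube. -/
abbrev Family (d : ℕ) : Type := ∀ Q : Cube d, QuasiBanachFunctionSpace Q

/-- The family is normalized: the quasi-norms of the constant function `1` are bounded above and
away from zero, uniformly in the cube. -/
def IsNormalized {d : ℕ} (X : Family d) : Prop :=
  ∃ c C : ℝ≥0, 0 < c ∧ ∀ Q, c ≤ (X Q).N (fun _ => 1) ∧ (X Q).N (fun _ => 1) ≤ C

/-- The family consists of Banach spaces: the quasi-norms are norms. -/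
def IsBanachFamily {d : ℕ} (X : Family d) : Prop :=
  ∀ Q f g, AEMeasurable f (volume.restrict Q.set) → AEMeasurable g (volume.restrict Q.set) →
    (X Q).N (fun x => f x + g x) ≤ (X Q).N f + (X Q).N g

/-- The mean value of `f` on the cube `Q`. -/
noncomputable def mean {d : ℕ} (Q : Cube d) (f : (Fin d → ℝ) → ℝ) : ℝ := ⨍ x in Q.set, f x

/-- The classical norm of `BMO`. -/
noncomputable def bmoNorm {d : ℕ} (f : (Fin d → ℝ) → ℝ) : ℝ≥0∞ :=
  ⨆ Q : Cube d, (volume Q.set)⁻¹ * ∫⁻ x in Q.set, ‖f x - mean Q f‖ₑ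

/-- The norm of `BMO_X`. -/
noncomputable def bmoXNorm {d : ℕ} (X : Family d) (f : (Fin d → ℝ) → ℝ) : ℝ≥0∞ :=
  ⨆ Q : Cube d, (X Q).N (fun x => f x - mean Q f)

/-- The norm of `BMO_X^*`. -/
noncomputable def bmoXStarNorm {d : ℕ} (X : Family d) (f : (Fin d → ℝ) → ℝ) : ℝ≥0∞ :=
  ⨆ Q : Cube d, ⨅ c : ℝ, (X Q).N (fun x => f x - c)

/-- `BMO`: the locally integrable functions of finite norm. -/
def BMO (d : ℕ) : Set ((Fin d → ℝ) → ℝ) := {f | LocallyIntegrable f volume ∧ bmoNorm f < ∞}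

/-- `BMO_X`: the locally integrable functions of finite `BMO_X`-norm. -/
def BMOX {d : ℕ} (X : Family d) : Set ((Fin d → ℝ) → ℝ) :=
  {f | LocallyIntegrable f volume ∧ bmoXNorm X f < ∞}

/-- `BMO_X^*`: the measurable functions of finite `BMO_X^*`-norm. -/
def BMOXStar {d : ℕ} (X : Family d) : Set ((Fin d → ℝ) → ℝ) :=
  {f | AEMeasurable f volume ∧ bmoXStarNorm X f < ∞}

/-- `A` embeds into `B`: `A ⊆ B` and the norm of `B` is at most a constant times the norm of `A`. -/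
def Embeds {F : Type*} (A : Set F) (a : F → ℝ≥0∞) (B : Set F) (b : F → ℝ≥0∞) : Prop :=
  ∃ C : ℝ≥0, ∀ f ∈ A, f ∈ B ∧ b f ≤ C * a f

/-! ### Weighted `L¹` spaces -/

theorem Cube.measurableSet {d : ℕ} (Q : Cube d) : MeasurableSet Q.set :=
  MeasurableSet.univ_pi (fun _ => measurableSet_Icc)

theorem Cube.volume {d : ℕ} (Q : Cube d) : volume Q.set = ENNReal.ofReal Q.side ^ d := by
  unfold Cube.set
  rw [volume_pi_pi]
  simp [Real.volume_Icc]

/-- The space `L¹(μ)` for a finite measure `μ` equivalent to Lebesgue measure on `Q`. -/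
noncomputable def ofMeasure {d : ℕ} {Q : Cube d} (μ : Measure (Fin d → ℝ)) [IsFiniteMeasure μ]
    (h1 : μ ≪ volume.restrict Q.set) (h2 : volume.restrict Q.set ≪ μ) :
    QuasiBanachFunctionSpace Q where
  N f := ∫⁻ x, ‖f x‖ₑ ∂μ
  congr_ae := by
    intro f g hfg
    refine lintegral_congr_ae ?_
    filter_upwards [h1.ae_le hfg] with x hx
    rw [hx]
  eq_zero := by
    intro f hf h0
    have hf' : AEMeasurable f μ := hf.mono_ac h1
    rw [lintegral_eq_zero_iff' hf'.enorm] at h0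
    refine h2.ae_le ?_
    filter_upwards [h0] with x hx
    simpa using hx
  smul := by
    intro c f hf
    have hf' : AEMeasurable f μ := hf.mono_ac h1
    rw [← lintegral_const_mul'' _ hf'.enorm]
    refine lintegral_congr (fun x => ?_)
    rw [enorm_mul, Real.enorm_eq_ofReal_abs]
  quasi_add := by
    refine ⟨1, fun f g hf _ => ?_⟩
    have hf' : AEMeasurable f μ := hf.mono_ac h1
    rw [ENNReal.coe_one, one_mul, ← lintegral_add_left' hf'.enorm]
    exact lintegral_mono (fun x => enorm_add_le _ _)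
  mono := by
    intro f g _ _ hfg
    refine lintegral_mono_ae ?_
    filter_upwards [h1.ae_le hfg] with x hx
    rw [Real.enorm_eq_ofReal_abs, Real.enorm_eq_ofReal_abs]
    exact ENNReal.ofReal_le_ofReal hx
  exists_pos := by
    refine ⟨fun _ => 1, aemeasurable_const, ?_, Eventually.of_forall fun _ => one_pos⟩
    simp only [enorm_one, lintegral_const, one_mul]
    exact measure_lt_top μ univ
  fatou := by
    intro f g hf hfg
    have hf' : ∀ k, AEMeasurable (f k) μ := fun k => (hf k).mono_ac h1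
    have hfg' := h1.ae_le hfg
    have hmono : ∀ᵐ x ∂μ, Monotone fun k => ‖f k x‖ₑ := by
      filter_upwards [hfg'] with x hx
      intro m n hmn
      have hm : 0 ≤ f m x := hx.1.trans (hx.2.1 (Nat.zero_le m))
      have hn : f m x ≤ f n x := hx.2.1 hmn
      change ‖f m x‖ₑ ≤ ‖f n x‖ₑ
      rw [Real.enorm_eq_ofReal_abs, Real.enorm_eq_ofReal_abs, abs_of_nonneg hm,
        abs_of_nonneg (hm.trans hn)]
      exact ENNReal.ofReal_le_ofReal hn
    rw [← lintegral_iSup' (fun k => (hf' k).enorm) hmono]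
    refine lintegral_congr_ae ?_
    filter_upwards [hfg', hmono] with x hx hm
    have hlim : Tendsto (fun k => ‖f k x‖ₑ) atTop (𝓝 ‖g x‖ₑ) :=
      (continuous_enorm.tendsto (g x)).comp hx.2.2
    exact tendsto_nhds_unique hlim (tendsto_atTop_iSup hm)
  complete := by
    intro f hf hcau
    have hmem : ∀ n, MemLp (f n) 1 μ := fun n => by
      refine ⟨((hf n).1.mono_ac h1).aestronglyMeasurable, ?_⟩
      rw [eLpNorm_one_eq_lintegral_enorm]
      exact (hf n).2
    have hcauF : CauchySeq (fun n => (hmem n).toLp (f n)) := by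
      rw [EMetric.cauchySeq_iff]
      intro ε hε
      obtain ⟨n₀, hn₀⟩ := hcau ε hε
      refine ⟨n₀, fun m hm n hn => ?_⟩
      rw [Lp.edist_toLp_toLp, eLpNorm_one_eq_lintegral_enorm]
      exact hn₀ m hm n hn
    obtain ⟨G, hG⟩ := cauchySeq_tendsto_of_complete hcauF
    have hGmem : MemLp (G : (Fin d → ℝ) → ℝ) 1 μ := Lp.memLp G
    refine ⟨G, hGmem.1.aemeasurable.mono_ac h2, ?_, ?_⟩
    · have := hGmem.2
      rwa [eLpNorm_one_eq_lintegral_enorm] at this
    · have h3 : Tendsto (fun n => edist ((hmem n).toLp (f n)) G) atTop (𝓝 0) :=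
        tendsto_iff_edist_tendsto_0.1 hG
      refine h3.congr (fun n => ?_)
      have h4 : G = hGmem.toLp G := (Lp.toLp_coeFn G hGmem).symm
      conv_lhs => rw [h4]
      rw [Lp.edist_toLp_toLp, eLpNorm_one_eq_lintegral_enorm]
      rfl

/-! ### The jumps -/

/-- Every interval contains a subinterval, of at least an eighth of its length, the interior of
which contains no power of ten. -/
theorem exists_gap {a b : ℝ} (hab : a < b) : ∃ α β : ℝ, a ≤ α ∧ α < β ∧ β ≤ b ∧
    (b - a) / 8 ≤ β - α ∧ ∀ j : ℕ, (10 : ℝ) ^ j ∉ Ioo α β := by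
  classical
  have hex : ∃ j : ℕ, b ≤ (10 : ℝ) ^ j := by
    obtain ⟨j, hj⟩ := pow_unbounded_of_one_lt b (show (1 : ℝ) < 10 by norm_num)
    exact ⟨j, hj.le⟩
  have hmono : ∀ {i j : ℕ}, i ≤ j → (10 : ℝ) ^ i ≤ 10 ^ j := fun h =>
    pow_le_pow_right₀ (by norm_num) h
  have hspec := Nat.find_spec hex
  have hmin : ∀ j : ℕ, j < Nat.find hex → (10 : ℝ) ^ j < b := fun j hj =>
    not_le.1 (Nat.find_min hex hj)
  set K := Nat.find hex with hK
  -- powers of ten below `b` have exponent below `K`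
  have hlt : ∀ j : ℕ, (10 : ℝ) ^ j < b → j < K := by
    intro j hj
    by_contra hcon
    exact absurd (hspec.trans (hmono (not_lt.1 hcon))) (not_le.2 hj)
  rcases Nat.eq_zero_or_pos K with hK0 | hKpos
  · refine ⟨a, b, le_rfl, hab, le_rfl, by linarith, fun j hj => ?_⟩
    have := hlt j hj.2
    omega
  obtain ⟨k, hk⟩ : ∃ k, K = k + 1 := ⟨K - 1, by omega⟩
  have hkb : (10 : ℝ) ^ k < b := hmin k (by omega)
  have hle : ∀ j : ℕ, (10 : ℝ) ^ j < b → (10 : ℝ) ^ j ≤ 10 ^ k := fun j hj =>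
    hmono (by have := hlt j hj; omega)
  by_cases hka : (10 : ℝ) ^ k ≤ a
  · refine ⟨a, b, le_rfl, hab, le_rfl, by linarith, fun j hj => ?_⟩
    have := hle j hj.2
    linarith [hj.1]
  rw [not_le] at hka
  by_cases h1 : (b - a) / 8 ≤ b - 10 ^ k
  · refine ⟨10 ^ k, b, hka.le, hkb, le_rfl, h1, fun j hj => ?_⟩
    exact absurd (hle j hj.2) (not_le.2 hj.1)
  rw [not_le] at h1
  rcases Nat.eq_zero_or_pos k with hk0 | hkpos
  · subst hk0
    refine ⟨a, 10 ^ 0, le_rfl, hka, hkb.le, by linarith, fun j hj => ?_⟩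
    have : (10 : ℝ) ^ 0 ≤ 10 ^ j := hmono (Nat.zero_le j)
    linarith [hj.2]
  obtain ⟨i, hi⟩ : ∃ i, k = i + 1 := ⟨k - 1, by omega⟩
  have hnone : ∀ j : ℕ, (10 : ℝ) ^ j < 10 ^ k → (10 : ℝ) ^ j ≤ 10 ^ i := by
    intro j hj
    refine hmono ?_
    by_contra hcon
    have : (10 : ℝ) ^ k ≤ 10 ^ j := hmono (by omega)
    linarith
  have hik : (10 : ℝ) ^ k = 10 * 10 ^ i := by rw [hi, pow_succ]; ring
  by_cases hia : (10 : ℝ) ^ i ≤ a
  · refine ⟨a, 10 ^ k, le_rfl, hka, hkb.le, by linarith, fun j hj => ?_⟩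
    have := hnone j hj.2
    linarith [hj.1]
  rw [not_le] at hia
  have hipos : (0 : ℝ) < 10 ^ i := by positivity
  by_cases h2 : (b - a) / 8 ≤ 10 ^ k - 10 ^ i
  · refine ⟨10 ^ i, 10 ^ k, hia.le, by linarith, hkb.le, h2, fun j hj => ?_⟩
    exact absurd (hnone j hj.2) (not_le.2 hj.1)
  rw [not_le] at h2
  -- now the interval extends far to the left of the origin
  have hone : (10 : ℝ) ^ 0 ≤ 10 ^ i := hmono (Nat.zero_le i)
  rw [pow_zero] at hone
  refine ⟨a, 1, le_rfl, by linarith, by linarith, by linarith, fun j hj => ?_⟩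
  have : (10 : ℝ) ^ 0 ≤ 10 ^ j := hmono (Nat.zero_le j)
  rw [pow_zero] at this
  linarith [hj.2]

/-! ### The family -/

section Construction

variable {m : ℕ}

/-- The left and right end of the chosen gap. -/
noncomputable def gapL (Q : Cube (m + 1)) : ℝ :=
  (exists_gap (show Q.corner 0 < Q.corner 0 + Q.side by linarith [Q.side_pos])).choose

noncomputable def gapR (Q : Cube (m + 1)) : ℝ :=
  (exists_gap (show Q.corner 0 < Q.corner 0 + Q.side by linarith [Q.side_pos])).choose_spec.choose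

theorem gap_spec (Q : Cube (m + 1)) : Q.corner 0 ≤ gapL Q ∧ gapL Q < gapR Q ∧
    gapR Q ≤ Q.corner 0 + Q.side ∧ Q.side / 8 ≤ gapR Q - gapL Q ∧
    ∀ j : ℕ, (10 : ℝ) ^ j ∉ Ioo (gapL Q) (gapR Q) := by
  obtain ⟨h1, h2, h3, h4, h5⟩ := (exists_gap (show Q.corner 0 < Q.corner 0 + Q.side by
    linarith [Q.side_pos])).choose_spec.choose_spec
  refine ⟨h1, h2, h3, ?_, h5⟩
  have e : Q.side / 8 = (Q.corner 0 + Q.side - Q.corner 0) / 8 := by ring
  rw [e]
  exact h4

/-- The part of the cube over the gap. -/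
def gapSet (Q : Cube (m + 1)) : Set (Fin (m + 1) → ℝ) :=
  Set.pi univ (Fin.cons (Ioo (gapL Q) (gapR Q))
    (fun i : Fin m => Icc (Q.corner i.succ) (Q.corner i.succ + Q.side)) :
      (i : Fin (m + 1)) → Set ℝ)

theorem mem_gapSet {Q : Cube (m + 1)} {x : Fin (m + 1) → ℝ} : x ∈ gapSet Q ↔
    x 0 ∈ Ioo (gapL Q) (gapR Q) ∧
      ∀ i : Fin m, x i.succ ∈ Icc (Q.corner i.succ) (Q.corner i.succ + Q.side) := by
  unfold gapSet
  rw [Set.mem_univ_pi, Fin.forall_fin_succ]
  rfl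

theorem mem_cube {Q : Cube (m + 1)} {x : Fin (m + 1) → ℝ} : x ∈ Q.set ↔
    x 0 ∈ Icc (Q.corner 0) (Q.corner 0 + Q.side) ∧
      ∀ i : Fin m, x i.succ ∈ Icc (Q.corner i.succ) (Q.corner i.succ + Q.side) := by
  unfold Cube.set
  rw [Set.mem_univ_pi, Fin.forall_fin_succ]

theorem gapSet_subset (Q : Cube (m + 1)) : gapSet Q ⊆ Q.set := by
  intro x hx
  rw [mem_gapSet] at hx
  rw [mem_cube]
  obtain ⟨h1, h2, h3, -, -⟩ := gap_spec Q
  exact ⟨⟨h1.trans hx.1.1.le, hx.1.2.le.trans h3⟩, hx.2⟩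

theorem measurableSet_gapSet (Q : Cube (m + 1)) : MeasurableSet (gapSet Q) := by
  unfold gapSet
  refine MeasurableSet.univ_pi (fun i => ?_)
  refine Fin.cases ?_ (fun i => ?_) i
  · exact measurableSet_Ioo
  · exact measurableSet_Icc

theorem volume_slab (s : Set ℝ) (c : Fin m → ℝ) (l : ℝ) :
    volume (Set.pi univ (Fin.cons s (fun i : Fin m => Icc (c i) (c i + l)) :
      (i : Fin (m + 1)) → Set ℝ)) = volume s * ENNReal.ofReal l ^ m := by
  rw [volume_pi_pi, Fin.prod_univ_succ]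
  simp [Real.volume_Icc]

theorem volume_gapSet (Q : Cube (m + 1)) :
    volume (gapSet Q) = ENNReal.ofReal (gapR Q - gapL Q) * ENNReal.ofReal Q.side ^ m := by
  unfold gapSet
  rw [volume_slab, Real.volume_Ioo]

theorem volume_le (Q : Cube (m + 1)) : volume Q.set ≤ 8 * volume (gapSet Q) := by
  rw [volume_gapSet, Q.volume, pow_succ, ← mul_assoc, mul_comm]
  gcongr
  have h := (gap_spec Q).2.2.2.1
  have h8 : (8 : ℝ≥0∞) = ENNReal.ofReal 8 := by norm_num
  rw [h8, ← ENNReal.ofReal_mul (by norm_num)]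
  exact ENNReal.ofReal_le_ofReal (by linarith)

theorem volume_ne_zero (Q : Cube (m + 1)) : volume Q.set ≠ 0 := by
  rw [Q.volume]
  have := Q.side_pos
  positivity

theorem volume_ne_top (Q : Cube (m + 1)) : volume Q.set ≠ ∞ := by
  rw [Q.volume]
  exact ENNReal.pow_ne_top ENNReal.ofReal_ne_top

/-- The small weight outside the gap. -/
noncomputable def eps (Q : Cube (m + 1)) : ℝ≥0 := 1 / (⌈Q.corner 0 + Q.side⌉₊ + 1)

theorem eps_pos (Q : Cube (m + 1)) : 0 < eps Q := by unfold eps; positivity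

theorem eps_le_one (Q : Cube (m + 1)) : eps Q ≤ 1 := by
  unfold eps
  rw [div_le_one (by positivity)]
  exact le_add_of_nonneg_left (by positivity)

/-- The measure defining the space of the cube. -/
noncomputable def mu (Q : Cube (m + 1)) : Measure (Fin (m + 1) → ℝ) :=
  (volume Q.set)⁻¹ • (volume.restrict (gapSet Q) + (eps Q : ℝ≥0∞) • volume.restrict Q.set)

theorem lintegral_mu (Q : Cube (m + 1)) (g : (Fin (m + 1) → ℝ) → ℝ≥0∞) :
    ∫⁻ x, g x ∂(mu Q) =
      (volume Q.set)⁻¹ * ((∫⁻ x in gapSet Q, g x) + eps Q * ∫⁻ x in Q.set, g x) := by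
  unfold mu
  rw [lintegral_smul_measure, lintegral_add_measure, lintegral_smul_measure]
  simp only [smul_eq_mul]

theorem lintegral_gap_le (Q : Cube (m + 1)) (g : (Fin (m + 1) → ℝ) → ℝ≥0∞) :
    ∫⁻ x in gapSet Q, g x ≤ ∫⁻ x in Q.set, g x :=
  lintegral_mono_set (gapSet_subset Q)

theorem lintegral_mu_le (Q : Cube (m + 1)) (g : (Fin (m + 1) → ℝ) → ℝ≥0∞) :
    ∫⁻ x, g x ∂(mu Q) ≤ 2 * ((volume Q.set)⁻¹ * ∫⁻ x in Q.set, g x) := by
  rw [lintegral_mu, ← mul_assoc, mul_comm 2, mul_assoc]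
  gcongr
  rw [two_mul]
  refine add_le_add (lintegral_gap_le Q g) ?_
  calc (eps Q : ℝ≥0∞) * ∫⁻ x in Q.set, g x ≤ 1 * ∫⁻ x in Q.set, g x := by
        gcongr
        exact_mod_cast eps_le_one Q
    _ = ∫⁻ x in Q.set, g x := one_mul _

theorem mu_ac (Q : Cube (m + 1)) : mu Q ≪ volume.restrict Q.set := by
  intro s hs
  have h1 : volume.restrict (gapSet Q) s = 0 :=
    le_antisymm ((Measure.restrict_mono (gapSet_subset Q) le_rfl s).trans hs.le) zero_le
  unfold mu
  rw [Measure.smul_apply, Measure.add_apply, Measure.smul_apply, h1, hs]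
  simp

theorem ac_mu (Q : Cube (m + 1)) : volume.restrict Q.set ≪ mu Q := by
  intro s hs
  unfold mu at hs
  rw [Measure.smul_apply, Measure.add_apply, Measure.smul_apply, smul_eq_mul, smul_eq_mul,
    mul_eq_zero] at hs
  rcases hs with hs | hs
  · exact absurd hs (ENNReal.inv_ne_zero.2 (volume_ne_top Q))
  · have h2 := (add_eq_zero.1 hs).2
    rcases mul_eq_zero.1 h2 with h | h
    · have := (eps_pos Q).ne'
      exact absurd (by exact_mod_cast h) this
    · exact h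

instance (Q : Cube (m + 1)) : IsFiniteMeasure (mu Q) := by
  refine ⟨?_⟩
  have h1 : mu Q univ = ∫⁻ _, 1 ∂(mu Q) := by simp
  rw [h1]
  refine (lintegral_mu_le Q _).trans_lt ?_
  rw [setLIntegral_one, ENNReal.inv_mul_cancel (volume_ne_zero Q) (volume_ne_top Q)]
  norm_num

/-- The family. -/
noncomputable def fam (m : ℕ) : Family (m + 1) := fun Q => ofMeasure (mu Q) (mu_ac Q) (ac_mu Q)

theorem fam_N (Q : Cube (m + 1)) (f : (Fin (m + 1) → ℝ) → ℝ) :
    (fam m Q).N f = ∫⁻ x, ‖f x‖ₑ ∂(mu Q) := rfl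

theorem fam_normalized : IsNormalized (fam m) := by
  refine ⟨1 / 8, 2, by norm_num, fun Q => ⟨?_, ?_⟩⟩
  · rw [fam_N, lintegral_mu]
    simp only [enorm_one, lintegral_const, one_mul, Measure.restrict_apply_univ]
    have h1 := volume_le Q
    have h2 : (volume Q.set)⁻¹ * volume Q.set = 1 :=
      ENNReal.inv_mul_cancel (volume_ne_zero Q) (volume_ne_top Q)
    have h3 : (8 : ℝ≥0∞) * ((volume Q.set)⁻¹ *
        (volume (gapSet Q) + eps Q * volume Q.set)) ≥ 1 := by
      calc (1 : ℝ≥0∞) = (volume Q.set)⁻¹ * volume Q.set := h2.symm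
        _ ≤ (volume Q.set)⁻¹ * (8 * volume (gapSet Q)) := by gcongr
        _ ≤ (volume Q.set)⁻¹ * (8 * (volume (gapSet Q) + eps Q * volume Q.set)) := by
            gcongr
            exact le_self_add
        _ = 8 * ((volume Q.set)⁻¹ * (volume (gapSet Q) + eps Q * volume Q.set)) := by ring
    have h4 : (((1 / 8 : ℝ≥0) : ℝ≥0∞)) = 1 / 8 := by
      rw [ENNReal.coe_div (by norm_num)]
      norm_num
    rw [h4]
    exact ENNReal.div_le_of_le_mul' h3
  · rw [fam_N]
    refine (lintegral_mu_le Q _).trans ?_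
    simp only [enorm_one, lintegral_const, one_mul, Measure.restrict_apply_univ]
    rw [ENNReal.inv_mul_cancel (volume_ne_zero Q) (volume_ne_top Q)]
    norm_num

theorem fam_banach : IsBanachFamily (fam m) := by
  intro Q f g hf _
  have hf' : AEMeasurable f (mu Q) := hf.mono_ac (mu_ac Q)
  rw [fam_N, fam_N, fam_N, ← lintegral_add_left' hf'.enorm]
  exact lintegral_mono (fun x => enorm_add_le _ _)

theorem fam_embeds : Embeds (BMO (m + 1)) bmoNorm (BMOX (fam m)) (bmoXNorm (fam m)) := by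
  have key : ∀ f : (Fin (m + 1) → ℝ) → ℝ, bmoXNorm (fam m) f ≤ 2 * bmoNorm f := by
    intro f
    refine iSup_le (fun Q => ?_)
    rw [fam_N]
    refine (lintegral_mu_le Q _).trans ?_
    gcongr
    exact le_iSup (fun Q : Cube (m + 1) =>
      (volume Q.set)⁻¹ * ∫⁻ x in Q.set, ‖f x - mean Q f‖ₑ) Q
  refine ⟨2, fun f hf => ⟨⟨hf.1, (key f).trans_lt ?_⟩, by exact_mod_cast key f⟩⟩
  exact ENNReal.mul_lt_top (by norm_num) hf.2

/-- The jump functions. -/
noncomputable def jump (m j : ℕ) : (Fin (m + 1) → ℝ) → ℝ := fun x => if (10 : ℝ) ^ j ≤ x 0 then 1 else 0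

theorem measurable_jump (j : ℕ) : Measurable (jump m j) :=
  Measurable.ite (measurableSet_le measurable_const (measurable_pi_apply 0)) measurable_const
    measurable_const

theorem jump_star (Q : Cube (m + 1)) (j : ℕ) :
    ⨅ c : ℝ, (fam m Q).N (fun x => jump m j x - c) ≤ ((1 / (j + 1) : ℝ≥0) : ℝ≥0∞) := by
  obtain ⟨h1, h2, h3, h4, h5⟩ := gap_spec Q
  have hv : (volume Q.set)⁻¹ * volume Q.set = 1 :=
    ENNReal.inv_mul_cancel (volume_ne_zero Q) (volume_ne_top Q)
  by_cases hb : (10 : ℝ) ^ j ≤ Q.corner 0 + Q.side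
  · -- the weight is small
    have heps : eps Q ≤ 1 / (j + 1) := by
      unfold eps
      apply one_div_le_one_div_of_le (by positivity)
      have h6 : (j : ℝ) ≤ 10 ^ j := by
        have := Nat.lt_pow_self (n := j) (show 1 < 10 by norm_num)
        exact_mod_cast this.le
      have h7 : (j : ℝ) ≤ ⌈Q.corner 0 + Q.side⌉₊ := h6.trans (hb.trans (Nat.le_ceil _))
      have h8 : j ≤ ⌈Q.corner 0 + Q.side⌉₊ := by exact_mod_cast h7
      have h9 : (j : ℝ≥0) ≤ ⌈Q.corner 0 + Q.side⌉₊ := by exact_mod_cast h8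
      gcongr
    refine (iInf_le _ (if (10 : ℝ) ^ j ≤ gapL Q then 1 else 0)).trans ?_
    rw [fam_N, lintegral_mu]
    have hzero : ∫⁻ x in gapSet Q, ‖jump m j x - (if (10 : ℝ) ^ j ≤ gapL Q then 1 else 0)‖ₑ = 0 := by
      rw [← lintegral_zero (μ := volume.restrict (gapSet Q))]
      refine setLIntegral_congr_fun (measurableSet_gapSet Q) (fun x hx => ?_)
      rw [mem_gapSet] at hx
      unfold jump
      by_cases hj : (10 : ℝ) ^ j ≤ gapL Q
      · rw [if_pos hj, if_pos (hj.trans hx.1.1.le)]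
        simp
      · have h10 : gapR Q ≤ 10 ^ j := by
          by_contra hcon
          exact h5 j ⟨not_le.1 hj, not_le.1 hcon⟩
        have h11 : ¬ (10 : ℝ) ^ j ≤ x 0 := not_le.2 (hx.1.2.trans_le h10)
        rw [if_neg hj, if_neg h11]
        simp
    rw [hzero, zero_add]
    have hle : ∫⁻ x in Q.set, ‖jump m j x - (if (10 : ℝ) ^ j ≤ gapL Q then 1 else 0)‖ₑ ≤
        volume Q.set := by
      calc ∫⁻ x in Q.set, ‖jump m j x - (if (10 : ℝ) ^ j ≤ gapL Q then 1 else 0)‖ₑ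
          ≤ ∫⁻ _ in Q.set, 1 := by
            refine lintegral_mono (fun x => ?_)
            have h12 : |jump m j x - (if (10 : ℝ) ^ j ≤ gapL Q then 1 else 0)| ≤ 1 := by
              unfold jump
              split_ifs <;> norm_num
            rw [Real.enorm_eq_ofReal_abs]
            exact ENNReal.ofReal_le_one.2 h12
        _ = volume Q.set := by simp
    calc (volume Q.set)⁻¹ * (eps Q * ∫⁻ x in Q.set,
          ‖jump m j x - (if (10 : ℝ) ^ j ≤ gapL Q then 1 else 0)‖ₑ)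
        ≤ (volume Q.set)⁻¹ * (eps Q * volume Q.set) := by gcongr
      _ = eps Q * ((volume Q.set)⁻¹ * volume Q.set) := by ring
      _ = eps Q := by rw [hv, mul_one]
      _ ≤ ((1 / (j + 1) : ℝ≥0) : ℝ≥0∞) := by exact_mod_cast heps
  · -- the function vanishes on the cube
    refine (iInf_le _ 0).trans ?_
    have hz : (fam m Q).N (fun x => jump m j x - 0) = 0 := by
      rw [(fam m Q).congr_ae _ (fun _ => 0)]
      · rw [fam_N]
        simp
      · filter_upwards [ae_restrict_mem Q.measurableSet] with x hx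
        rw [mem_cube] at hx
        unfold jump
        rw [if_neg (not_le.2 (hx.1.2.trans_lt (not_le.1 hb))), sub_zero]
    rw [hz]
    exact zero_le

theorem jump_star_norm (j : ℕ) :
    bmoXStarNorm (fam m) (jump m j) ≤ ((1 / (j + 1) : ℝ≥0) : ℝ≥0∞) :=
  iSup_le (fun Q => jump_star Q j)

theorem jump_norm (j : ℕ) : 1 / 2 ≤ bmoNorm (jump m j) := by
  let Q : Cube (m + 1) := ⟨Fin.cons ((10 : ℝ) ^ j - 1) (fun _ => 0), 2, by norm_num⟩
  have hQ0 : Q.corner 0 = 10 ^ j - 1 := rfl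
  have hQs : ∀ i : Fin m, Q.corner i.succ = 0 := fun i => rfl
  have hside : Q.side = 2 := rfl
  refine le_trans ?_ (le_iSup (fun Q : Cube (m + 1) =>
      (volume Q.set)⁻¹ * ∫⁻ x in Q.set, ‖jump m j x - mean Q (jump m j)‖ₑ) Q)
  set c := mean Q (jump m j) with hc
  let A : Set (Fin (m + 1) → ℝ) := Set.pi univ (Fin.cons (Icc ((10 : ℝ) ^ j) (10 ^ j + 1))
    (fun _ : Fin m => Icc (0 : ℝ) (0 + 2)) : (i : Fin (m + 1)) → Set ℝ)
  let B : Set (Fin (m + 1) → ℝ) := Set.pi univ (Fin.cons (Ico ((10 : ℝ) ^ j - 1) (10 ^ j))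
    (fun _ : Fin m => Icc (0 : ℝ) (0 + 2)) : (i : Fin (m + 1)) → Set ℝ)
  have hmemA : ∀ x, x ∈ A ↔ x 0 ∈ Icc ((10 : ℝ) ^ j) (10 ^ j + 1) ∧
      ∀ i : Fin m, x i.succ ∈ Icc (0 : ℝ) (0 + 2) := by
    intro x
    change x ∈ Set.pi univ _ ↔ _
    rw [Set.mem_univ_pi, Fin.forall_fin_succ]
    rfl
  have hmemB : ∀ x, x ∈ B ↔ x 0 ∈ Ico ((10 : ℝ) ^ j - 1) (10 ^ j) ∧
      ∀ i : Fin m, x i.succ ∈ Icc (0 : ℝ) (0 + 2) := by
    intro x
    change x ∈ Set.pi univ _ ↔ _
    rw [Set.mem_univ_pi, Fin.forall_fin_succ]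
    rfl
  have hAmeas : MeasurableSet A := by
    refine MeasurableSet.univ_pi (fun i => ?_)
    refine Fin.cases ?_ (fun i => ?_) i
    · exact measurableSet_Icc
    · exact measurableSet_Icc
  have hBmeas : MeasurableSet B := by
    refine MeasurableSet.univ_pi (fun i => ?_)
    refine Fin.cases ?_ (fun i => ?_) i
    · exact measurableSet_Ico
    · exact measurableSet_Icc
  have hvA : volume A = ENNReal.ofReal 2 ^ m := by
    change volume (Set.pi univ _) = _
    rw [volume_slab _ (fun _ => 0) 2, Real.volume_Icc, add_sub_cancel_left]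
    simp
  have hvB : volume B = ENNReal.ofReal 2 ^ m := by
    change volume (Set.pi univ _) = _
    rw [volume_slab _ (fun _ => 0) 2, Real.volume_Ico, sub_sub_cancel]
    simp
  have hdisj : Disjoint A B := by
    rw [Set.disjoint_left]
    intro x hA hB
    rw [hmemA] at hA
    rw [hmemB] at hB
    linarith [hA.1.1, hB.1.2]
  have hsub : A ∪ B ⊆ Q.set := by
    rintro x (hx | hx)
    · rw [hmemA] at hx
      rw [mem_cube, hQ0, hside]
      refine ⟨⟨by linarith [hx.1.1], by linarith [hx.1.2]⟩, fun i => ?_⟩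
      rw [hQs]
      exact hx.2 i
    · rw [hmemB] at hx
      rw [mem_cube, hQ0, hside]
      refine ⟨⟨hx.1.1, by linarith [hx.1.2]⟩, fun i => ?_⟩
      rw [hQs]
      exact hx.2 i
  have hint : ENNReal.ofReal 2 ^ m ≤ ∫⁻ x in Q.set, ‖jump m j x - c‖ₑ := by
    calc ENNReal.ofReal 2 ^ m = 1 * ENNReal.ofReal 2 ^ m := (one_mul _).symm
      _ ≤ (‖(1 : ℝ) - c‖ₑ + ‖(0 : ℝ) - c‖ₑ) * ENNReal.ofReal 2 ^ m := by
          gcongr
          rw [Real.enorm_eq_ofReal_abs, Real.enorm_eq_ofReal_abs,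
            ← ENNReal.ofReal_add (abs_nonneg _) (abs_nonneg _)]
          rw [ENNReal.one_le_ofReal]
          have h1 := abs_sub (1 - c) (0 - c)
          have h2 : |(1 - c) - (0 - c)| = 1 := by
            rw [show (1 - c) - (0 - c) = (1 : ℝ) by ring, abs_one]
          rw [h2] at h1
          exact h1
      _ = (∫⁻ _ in A, ‖(1 : ℝ) - c‖ₑ) + ∫⁻ _ in B, ‖(0 : ℝ) - c‖ₑ := by
          rw [setLIntegral_const, setLIntegral_const, hvA, hvB, add_mul]
      _ = (∫⁻ x in A, ‖jump m j x - c‖ₑ) + ∫⁻ x in B, ‖jump m j x - c‖ₑ := by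
          congr 1
          · refine setLIntegral_congr_fun hAmeas (fun x hx => ?_)
            rw [hmemA] at hx
            unfold jump
            rw [if_pos hx.1.1]
          · refine setLIntegral_congr_fun hBmeas (fun x hx => ?_)
            rw [hmemB] at hx
            unfold jump
            rw [if_neg (not_le.2 hx.1.2)]
      _ = ∫⁻ x in A ∪ B, ‖jump m j x - c‖ₑ := (lintegral_union hBmeas hdisj).symm
      _ ≤ ∫⁻ x in Q.set, ‖jump m j x - c‖ₑ := lintegral_mono_set hsub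
  have hvQ : volume Q.set = ENNReal.ofReal 2 * ENNReal.ofReal 2 ^ m := by
    rw [Q.volume, hside, pow_succ, mul_comm]
  have h2m : ENNReal.ofReal 2 ^ m ≠ 0 := by positivity
  have h2m' : ENNReal.ofReal 2 ^ m ≠ ∞ := ENNReal.pow_ne_top ENNReal.ofReal_ne_top
  calc (1 / 2 : ℝ≥0∞) = (volume Q.set)⁻¹ * ENNReal.ofReal 2 ^ m := by
        rw [hvQ, ENNReal.mul_inv (Or.inr h2m') (Or.inr h2m), mul_assoc,
          ENNReal.inv_mul_cancel h2m h2m', mul_one, one_div]
        norm_num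
    _ ≤ (volume Q.set)⁻¹ * ∫⁻ x in Q.set, ‖jump m j x - c‖ₑ := by gcongr

theorem not_embeds :
    ¬ Embeds (BMOXStar (fam m)) (bmoXStarNorm (fam m)) (BMO (m + 1)) bmoNorm := by
  rintro ⟨C, hC⟩
  obtain ⟨j, hj⟩ := exists_nat_gt (2 * C)
  have hmem : jump m j ∈ BMOXStar (fam m) :=
    ⟨(measurable_jump j).aemeasurable, (jump_star_norm j).trans_lt ENNReal.coe_lt_top⟩
  have h1 := (jump_norm (m := m) j).trans (hC _ hmem).2
  have h2 : (1 / 2 : ℝ≥0∞) ≤ C * ((1 / (j + 1) : ℝ≥0) : ℝ≥0∞) :=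
    h1.trans (by gcongr; exact jump_star_norm j)
  have h3 : (1 / 2 : ℝ≥0) ≤ C * (1 / (j + 1)) := by
    rw [← ENNReal.coe_mul] at h2
    have h2' : (((1 / 2 : ℝ≥0)) : ℝ≥0∞) = 1 / 2 := by
      rw [ENNReal.coe_div (by norm_num)]
      norm_num
    rw [← h2'] at h2
    exact ENNReal.coe_le_coe.1 h2
  have h4 : (1 / 2 : ℝ) ≤ C * (1 / (j + 1)) := by exact_mod_cast h3
  have h5 : (2 * C : ℝ) < j := by exact_mod_cast hj
  rw [mul_one_div, le_div_iff₀ (by positivity)] at h4
  linarith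

end Construction

end Pool.Agent.Q196.BmoX
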