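import Mathlib

open Topology Set Filter

namespace Pool.Agent.Q196.FriQri

section Defs

variable {X : Type*} [AddCommGroup X] [Module ℝ X]

/-- `F` is a face of `C`: a convex subset such that whenever a point of `F` lies in the open
segment between two points of `C`, both of these points belong to `F`. -/
def IsFaceOf (F C : Set X) : Prop :=
  F ⊆ C ∧ Convex ℝ F ∧ ∀ x ∈ F, ∀ y ∈ C, ∀ z ∈ C, x ∈ openSegment ℝ y z → y ∈ F ∧ z ∈ F

/-- The smallest face of `C` containing `x`. -/
def minFace (x : X) (C : Set X) : Set X := ⋂₀ {F | IsFaceOf F C ∧ x ∈ F}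

/-- The conic hull of `C - x`. -/
def coneAt (x : X) (C : Set X) : Set X := {w | ∃ y ∈ C, ∃ α : ℝ, 0 ≤ α ∧ w = α • (y - x)}

variable [TopologicalSpace X]

/-- The face relative interior. -/
def fri (C : Set X) : Set X := {x | x ∈ C ∧ C ⊆ closure (minFace x C)}

/-- The quasi-relative interior. -/
def qri (C : Set X) : Set X :=
  {x | x ∈ C ∧ ∃ V : Submodule ℝ X, (V : Set X) = closure (coneAt x C)}

end Defs

/-- The Hilbert space `ℓ²(ℝ × ℕ)`. -/
abbrev H : Type := lp (fun _ : ℝ × ℕ => ℝ) 2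

/-- The terms defining the ellipsoids. -/
noncomputable def term (x : H) (γ : ℝ) (n : ℕ) : ℝ := (4 ^ n * x (γ, n) - (1 / 2) ^ n) ^ 2

/-- The set: the vectors of the unit ball all of whose blocks lie in a fixed ellipsoid which has
`0` on its boundary. -/
def C : Set H := {x | ‖x‖ ≤ 1 ∧ ∀ (γ : ℝ) (N : ℕ), ∑ n ∈ Finset.range N, term x γ n ≤ 4 / 3}

theorem term_nonneg (x : H) (γ : ℝ) (n : ℕ) : 0 ≤ term x γ n := sq_nonneg _

theorem continuous_coord (i : ℝ × ℕ) : Continuous (fun x : H => x i) :=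
  (lp.evalCLM ℝ (fun _ : ℝ × ℕ => ℝ) 2 i).continuous

theorem isClosed_C : IsClosed C := by
  have h1 : C = {x : H | ‖x‖ ≤ 1} ∩ ⋂ (γ : ℝ), ⋂ (N : ℕ),
      {x : H | ∑ n ∈ Finset.range N, term x γ n ≤ 4 / 3} := by
    ext x
    simp only [C, mem_ofPred_eq, mem_inter_iff, mem_iInter]
  rw [h1]
  refine (isClosed_le continuous_norm continuous_const).inter ?_
  refine isClosed_iInter (fun γ => isClosed_iInter (fun N => ?_))
  refine isClosed_le (continuous_finsetSum _ (fun n _ => ?_)) continuous_const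
  unfold term
  exact (((continuous_coord (γ, n)).const_mul _).sub continuous_const).pow 2

theorem term_comb (p q : H) {a b : ℝ} (hab : a + b = 1) (γ : ℝ) (n : ℕ) :
    term (a • p + b • q) γ n =
      a * term p γ n + b * term q γ n - a * b * (4 ^ n * (p (γ, n) - q (γ, n))) ^ 2 := by
  have h : (a • p + b • q : H) (γ, n) = a * p (γ, n) + b * q (γ, n) := rfl
  unfold term
  rw [h]
  obtain rfl : b = 1 - a := by linarith
  ring

theorem convex_C : Convex ℝ C := by
  intro p hp q hq a b ha hb hab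
  refine ⟨?_, fun γ N => ?_⟩
  · have h1 : ‖a • p + b • q‖ ≤ a * ‖p‖ + b * ‖q‖ := by
      refine (norm_add_le _ _).trans ?_
      rw [norm_smul, norm_smul, Real.norm_of_nonneg ha, Real.norm_of_nonneg hb]
    have h2 := mul_le_mul_of_nonneg_left hp.1 ha
    have h3 := mul_le_mul_of_nonneg_left hq.1 hb
    linarith
  · have h1 : ∑ n ∈ Finset.range N, term (a • p + b • q) γ n ≤
        ∑ n ∈ Finset.range N, (a * term p γ n + b * term q γ n) := by
      refine Finset.sum_le_sum (fun n _ => ?_)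
      rw [term_comb p q hab]
      have : 0 ≤ a * b * (4 ^ n * (p (γ, n) - q (γ, n))) ^ 2 := by positivity
      linarith
    rw [Finset.sum_add_distrib, ← Finset.mul_sum, ← Finset.mul_sum] at h1
    have h2 := mul_le_mul_of_nonneg_left (hp.2 γ N) ha
    have h3 := mul_le_mul_of_nonneg_left (hq.2 γ N) hb
    have h4 : a * (4 / 3) + b * (4 / 3) = (4 / 3 : ℝ) := by rw [← add_mul, hab, one_mul]
    linarith

theorem sum_quarter (N : ℕ) :
    ∑ n ∈ Finset.range N, ((1 / 2 : ℝ) ^ n) ^ 2 = 4 / 3 - 4 / 3 * (1 / 4) ^ N := by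
  induction N with
  | zero => simp
  | succ N ih =>
    rw [Finset.sum_range_succ, ih, ← pow_mul, mul_comm N 2, pow_mul]
    norm_num
    ring

theorem zero_term (γ : ℝ) (n : ℕ) : term 0 γ n = ((1 / 2 : ℝ) ^ n) ^ 2 := by
  have h : (0 : H) (γ, n) = 0 := rfl
  unfold term
  rw [h]
  ring

theorem zero_mem_C : (0 : H) ∈ C := by
  refine ⟨by simp, fun γ N => ?_⟩
  simp_rw [zero_term]
  rw [sum_quarter]
  have : (0 : ℝ) ≤ 4 / 3 * (1 / 4) ^ N := by positivity
  linarith

/-- The unit vectors. -/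
noncomputable def e (i : ℝ × ℕ) : H := lp.single 2 i 1

theorem e_apply (i j : ℝ × ℕ) : (e i) j = if j = i then 1 else 0 := by
  have h : (e i) j = (Pi.single i (1 : ℝ) : ℝ × ℕ → ℝ) j :=
    lp.single_apply (E := fun _ : ℝ × ℕ => ℝ) 2 i 1 j
  rw [h, Pi.single_apply]

theorem norm_e (i : ℝ × ℕ) : ‖e i‖ = 1 := by
  have := lp.norm_single (E := fun _ : ℝ × ℕ => ℝ) (p := 2) (by norm_num) i (1 : ℝ)
  rw [norm_one] at this
  exact this

/-- The test vectors: `σ 4^{-k} e_{γ,k} + 2^{-N} (2^{-k} + 1) e_{γ,N}`. -/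
noncomputable def test (γ : ℝ) (k N : ℕ) (σ : ℝ) : H :=
  (σ * (1 / 4) ^ k) • e (γ, k) + ((1 / 2 : ℝ) ^ N * ((1 / 2) ^ k + 1)) • e (γ, N)

theorem test_apply (γ : ℝ) (k N : ℕ) (σ : ℝ) (j : ℝ × ℕ) :
    test γ k N σ j = (σ * (1 / 4) ^ k) * (if j = (γ, k) then 1 else 0) +
      ((1 / 2) ^ N * ((1 / 2) ^ k + 1)) * (if j = (γ, N) then 1 else 0) := by
  have h : test γ k N σ j = (σ * (1 / 4) ^ k) * (e (γ, k)) j +
      ((1 / 2) ^ N * ((1 / 2) ^ k + 1)) * (e (γ, N)) j := rfl
  rw [h, e_apply, e_apply]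

theorem test_norm (γ : ℝ) (k N : ℕ) {σ : ℝ} (hσ : |σ| = 1) : ‖test γ k N σ‖ ≤ 3 := by
  unfold test
  refine (norm_add_le _ _).trans ?_
  rw [norm_smul, norm_smul, norm_e, norm_e, mul_one, mul_one, Real.norm_eq_abs, Real.norm_eq_abs,
    abs_mul, hσ, one_mul, abs_of_nonneg (by positivity), abs_of_nonneg (by positivity)]
  have h1 : ((1 : ℝ) / 4) ^ k ≤ 1 := pow_le_one₀ (by norm_num) (by norm_num)
  have h2 : ((1 : ℝ) / 2) ^ k ≤ 1 := pow_le_one₀ (by norm_num) (by norm_num)
  have h3 : ((1 : ℝ) / 2) ^ N ≤ 1 := pow_le_one₀ (by norm_num) (by norm_num)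
  have h4 : (0 : ℝ) ≤ (1 / 2) ^ N := by positivity
  nlinarith

/-- Small positive multiples of the test vectors belong to `C`. -/
theorem test_mem (γ : ℝ) {k N : ℕ} (hkN : k < N) {σ : ℝ} (hσ : |σ| = 1) :
    ∃ ε : ℝ, 0 < ε ∧ ε • test γ k N σ ∈ C := by
  set s : ℝ := 2 ^ N * ((1 / 2) ^ k + 1) with hs
  have hspos : 0 < s := by positivity
  set ε : ℝ := 1 / (3 * (1 + s ^ 2)) with hε
  have hεpos : 0 < ε := by positivity
  refine ⟨ε, hεpos, ?_, fun γ' M => ?_⟩
  · rw [norm_smul, Real.norm_of_nonneg hεpos.le]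
    have h1 := test_norm γ k N hσ
    have h2 : ε ≤ 1 / 3 := by
      rw [hε]
      apply one_div_le_one_div_of_le (by norm_num)
      nlinarith
    calc ε * ‖test γ k N σ‖ ≤ (1 / 3) * 3 := by gcongr
      _ = 1 := by norm_num
  · -- pass to a longer partial sum
    have hmono : ∑ n ∈ Finset.range M, term (ε • test γ k N σ) γ' n ≤
        ∑ n ∈ Finset.range (max M (N + 1)), term (ε • test γ k N σ) γ' n :=
      Finset.sum_le_sum_of_subset_of_nonneg
        (Finset.range_subset_range.2 (le_max_left _ _)) (fun n _ _ => term_nonneg _ _ _)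
    refine hmono.trans ?_
    set L := max M (N + 1) with hL
    have hNL : N < L := lt_of_lt_of_le (Nat.lt_succ_self N) (le_max_right _ _)
    have hkL : k < L := hkN.trans hNL
    have happ : ∀ n, (ε • test γ k N σ : H) (γ', n) = ε * (test γ k N σ) (γ', n) := fun n => rfl
    by_cases hγ : γ' = γ
    · subst hγ
      -- difference with the terms of zero
      have hdiff : ∀ n, term (ε • test γ' k N σ) γ' n = ((1 / 2 : ℝ) ^ n) ^ 2 +
          ((if n = k then (-2 * ε * σ * (1 / 2) ^ k + ε ^ 2) else 0) +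
           (if n = N then (-2 * ε * s * (1 / 2) ^ N + ε ^ 2 * s ^ 2) else 0)) := by
        intro n
        unfold term
        rw [happ, test_apply]
        have hσ2 : σ ^ 2 = 1 := by rw [← sq_abs, hσ, one_pow]
        have h44 : ∀ m : ℕ, (4 : ℝ) ^ m * (1 / 4) ^ m = 1 := fun m => by
          rw [← mul_pow]; norm_num
        have h42 : ∀ m : ℕ, (4 : ℝ) ^ m * (1 / 2) ^ m = 2 ^ m := fun m => by
          rw [← mul_pow]; norm_num
        by_cases h1 : n = k
        · subst h1
          have h2 : n ≠ N := hkN.ne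
          have e1 : ((γ', n) : ℝ × ℕ) ≠ (γ', N) := fun h => h2 (congrArg Prod.snd h)
          simp only [if_true, if_neg e1, if_neg h2]
          have h5 := h44 n
          calc (4 ^ n * (ε * (σ * (1 / 4) ^ n * 1 + (1 / 2) ^ N * ((1 / 2) ^ n + 1) * 0))
                - (1 / 2) ^ n) ^ 2
              = (ε * σ * ((4 : ℝ) ^ n * (1 / 4) ^ n) - (1 / 2) ^ n) ^ 2 := by ring
            _ = (ε * σ - (1 / 2) ^ n) ^ 2 := by rw [h5, mul_one]
            _ = ((1 / 2 : ℝ) ^ n) ^ 2 + ((-2 * ε * σ * (1 / 2) ^ n + ε ^ 2 * σ ^ 2) + 0) := by ring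
            _ = _ := by rw [hσ2, mul_one]
        · have e1 : ((γ', n) : ℝ × ℕ) ≠ (γ', k) := fun h => h1 (congrArg Prod.snd h)
          by_cases h2 : n = N
          · subst h2
            simp only [if_true, if_neg e1, if_neg h1]
            have h5 := h42 n
            calc (4 ^ n * (ε * (σ * (1 / 4) ^ k * 0 + (1 / 2) ^ n * ((1 / 2) ^ k + 1) * 1))
                  - (1 / 2) ^ n) ^ 2
                = (ε * (((4 : ℝ) ^ n * (1 / 2) ^ n) * ((1 / 2) ^ k + 1)) - (1 / 2) ^ n) ^ 2 := by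
                  ring
              _ = (ε * s - (1 / 2) ^ n) ^ 2 := by rw [h5]
              _ = _ := by ring
          · have e2 : ((γ', n) : ℝ × ℕ) ≠ (γ', N) := fun h => h2 (congrArg Prod.snd h)
            simp only [if_neg e1, if_neg e2, if_neg h1, if_neg h2]
            ring
      simp_rw [hdiff]
      rw [Finset.sum_add_distrib, Finset.sum_add_distrib, Finset.sum_ite_eq', Finset.sum_ite_eq',
        if_pos (Finset.mem_range.2 hkL), if_pos (Finset.mem_range.2 hNL), sum_quarter]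
      have hsN : s * (1 / 2) ^ N = (1 / 2) ^ k + 1 := by
        rw [hs]
        have : (2 : ℝ) ^ N * (1 / 2) ^ N = 1 := by rw [← mul_pow]; norm_num
        calc (2 : ℝ) ^ N * ((1 / 2) ^ k + 1) * (1 / 2) ^ N =
              (2 ^ N * (1 / 2) ^ N) * ((1 / 2) ^ k + 1) := by ring
          _ = _ := by rw [this, one_mul]
      have hσ1 : -1 ≤ σ := by have := neg_abs_le σ; rw [hσ] at this; exact this
      have hk0 : (0 : ℝ) < (1 / 2) ^ k := by positivity
      have h1 : -2 * ε * σ * (1 / 2) ^ k ≤ 2 * ε * (1 / 2) ^ k := by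
        have : 0 ≤ 2 * ε * (1 / 2) ^ k * (1 + σ) := by
          apply mul_nonneg (by positivity); linarith
        nlinarith
      have h2 : -2 * ε * s * (1 / 2) ^ N = -2 * ε * ((1 / 2) ^ k + 1) := by
        rw [← hsN]; ring
      have h3 : ε ^ 2 + ε ^ 2 * s ^ 2 ≤ 2 * ε := by
        have : ε * (1 + s ^ 2) = 1 / 3 := by
          rw [hε]; field_simp
        have h4 : ε ^ 2 + ε ^ 2 * s ^ 2 = ε * (ε * (1 + s ^ 2)) := by ring
        rw [h4, this]
        linarith
      have h5 : (0 : ℝ) ≤ 4 / 3 * (1 / 4) ^ L := by positivity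
      rw [h2]
      nlinarith
    · have hz : ∀ n, term (ε • test γ k N σ) γ' n = ((1 / 2 : ℝ) ^ n) ^ 2 := by
        intro n
        unfold term
        rw [happ, test_apply]
        have e1 : ((γ', n) : ℝ × ℕ) ≠ (γ, k) := fun h => hγ (congrArg Prod.fst h)
        have e2 : ((γ', n) : ℝ × ℕ) ≠ (γ, N) := fun h => hγ (congrArg Prod.fst h)
        rw [if_neg e1, if_neg e2]
        ring
      simp_rw [hz]
      rw [sum_quarter]
      have : (0 : ℝ) ≤ 4 / 3 * (1 / 4) ^ L := by positivity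
      linarith

/-! ### `0` is in the quasi-relative interior -/

theorem cone_convex : Convex ℝ (coneAt 0 C) := by
  rintro _ ⟨y, hy, α, hα, rfl⟩ _ ⟨z, hz, β, hβ, rfl⟩ a b ha hb hab
  rw [sub_zero, sub_zero]
  by_cases h0 : a * α + b * β = 0
  · have h1 : 0 ≤ a * α := by positivity
    have h2 : 0 ≤ b * β := by positivity
    have h3 : a * α = 0 := by linarith
    have h4 : b * β = 0 := by linarith
    refine ⟨0, zero_mem_C, 0, le_rfl, ?_⟩
    rw [smul_smul, smul_smul, h3, h4]
    simp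
  · have hpos : 0 < a * α + b * β := lt_of_le_of_ne (by positivity) (Ne.symm h0)
    refine ⟨(a * α / (a * α + b * β)) • y + (b * β / (a * α + b * β)) • z,
      convex_C hy hz (by positivity) (by positivity) ?_, a * α + b * β, hpos.le, ?_⟩
    · field_simp
    · rw [sub_zero, smul_add, smul_smul, smul_smul, smul_smul, smul_smul]
      congr 2
      · field_simp
      · field_simp

theorem unit_mem_closure (γ : ℝ) (k : ℕ) {σ : ℝ} (hσ : |σ| = 1) :
    (σ * (1 / 4) ^ k) • e (γ, k) ∈ closure (coneAt 0 C) := by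
  have hlim : Tendsto (fun N : ℕ => test γ k N σ) atTop (𝓝 ((σ * (1 / 4) ^ k) • e (γ, k))) := by
    have h1 : Tendsto (fun N : ℕ => ((1 / 2 : ℝ) ^ N * ((1 / 2) ^ k + 1)) • e (γ, N)) atTop
        (𝓝 0) := by
      rw [tendsto_zero_iff_norm_tendsto_zero]
      have h2 : Tendsto (fun N : ℕ => (1 / 2 : ℝ) ^ N * ((1 / 2) ^ k + 1)) atTop (𝓝 0) := by
        have := (tendsto_pow_atTop_nhds_zero_of_lt_one (r := (1 / 2 : ℝ)) (by norm_num)
          (by norm_num)).mul_const ((1 / 2 : ℝ) ^ k + 1)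
        rwa [zero_mul] at this
      refine h2.congr (fun N => ?_)
      rw [norm_smul, norm_e, mul_one, Real.norm_of_nonneg (by positivity)]
    have := h1.const_add ((σ * (1 / 4) ^ k) • e (γ, k))
    rw [add_zero] at this
    exact this
  refine mem_closure_of_tendsto hlim ?_
  filter_upwards [eventually_gt_atTop k] with N hN
  obtain ⟨ε, hε, hmem⟩ := test_mem γ hN hσ
  refine ⟨_, hmem, ε⁻¹, by positivity, ?_⟩
  rw [sub_zero, smul_smul, inv_mul_cancel₀ hε.ne', one_smul]

theorem closure_cone : closure (coneAt 0 C) = univ := by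
  by_contra hne
  obtain ⟨z, hz⟩ : ∃ z, z ∉ closure (coneAt 0 C) := by
    by_contra hcon
    push Not at hcon
    exact hne (eq_univ_of_forall hcon)
  obtain ⟨f, u, hfz, hu⟩ := geometric_hahn_banach_point_closed cone_convex.closure
    isClosed_closure hz
  have h0mem : (0 : H) ∈ coneAt 0 C := ⟨0, zero_mem_C, 0, le_rfl, by simp⟩
  have hu0 : u < 0 := by
    have := hu 0 (subset_closure h0mem)
    rwa [map_zero] at this
  -- `f` is nonnegative on the closed cone
  have hscale : ∀ w ∈ closure (coneAt 0 C), ∀ c : ℝ, 0 ≤ c → c • w ∈ closure (coneAt 0 C) := by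
    intro w hw c hc
    have hsub : closure (coneAt 0 C) ⊆ {w : H | c • w ∈ closure (coneAt 0 C)} := by
      refine closure_minimal ?_ (isClosed_closure.preimage (continuous_const_smul c))
      rintro _ ⟨y, hy, α, hα, rfl⟩
      refine subset_closure ⟨y, hy, c * α, by positivity, ?_⟩
      rw [smul_smul]
    exact hsub hw
  have hnonneg : ∀ w ∈ closure (coneAt 0 C), 0 ≤ f w := by
    intro w hw
    by_contra hcon
    push Not at hcon
    have h1 := hu _ (hscale w hw (u / f w) (div_nonneg_of_nonpos hu0.le hcon.le))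
    rw [map_smul, smul_eq_mul, div_mul_cancel₀ _ hcon.ne] at h1
    exact lt_irrefl _ h1
  have hfe : ∀ i, f (e i) = 0 := by
    rintro ⟨γ, k⟩
    have h1 := hnonneg _ (unit_mem_closure γ k (σ := 1) (by simp))
    have h2 := hnonneg _ (unit_mem_closure γ k (σ := -1) (by simp))
    rw [map_smul, smul_eq_mul] at h1 h2
    have h3 : (0 : ℝ) < (1 / 4) ^ k := by positivity
    have h4 : (1 / 4 : ℝ) ^ k * f (e (γ, k)) = 0 := by linarith
    rcases mul_eq_zero.1 h4 with h | h
    · exact absurd h h3.ne'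
    · exact h
  have hs : HasSum (fun i : ℝ × ℕ => (lp.single 2 i (z i) : H)) z := lp.hasSum_single (by norm_num) z
  have hfs : HasSum (fun i : ℝ × ℕ => f (lp.single 2 i (z i) : H)) (f z) :=
    hs.mapL f
  have hz0 : (fun i : ℝ × ℕ => f (lp.single 2 i (z i) : H)) = fun _ => 0 := by
    funext i
    have h1 : (lp.single 2 i (z i) : H) = (z i) • e i := by
      have := lp.single_smul (E := fun _ : ℝ × ℕ => ℝ) 2 i (z i) (1 : ℝ)
      rw [smul_eq_mul, mul_one] at this
      exact this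
    rw [h1, map_smul, hfe, smul_zero]
  rw [hz0] at hfs
  have hfz0 : f z = 0 := hfs.unique hasSum_zero
  rw [hfz0] at hfz
  linarith

theorem zero_mem_qri : (0 : H) ∈ qri C :=
  ⟨zero_mem_C, ⊤, by rw [closure_cone]; rfl⟩

/-! ### The face relative interior is empty -/

/-- Points of `C` whose block `γ` vanishes. -/
def G (γ : ℝ) : Set H := {x | x ∈ C ∧ ∀ n, x (γ, n) = 0}

theorem G_face (γ : ℝ) : IsFaceOf (G γ) C := by
  refine ⟨fun _ h => h.1, ?_, ?_⟩
  · intro p hp q hq a b ha hb hab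
    refine ⟨convex_C hp.1 hq.1 ha hb hab, fun n => ?_⟩
    have h : (a • p + b • q : H) (γ, n) = a * p (γ, n) + b * q (γ, n) := rfl
    rw [h, hp.2, hq.2]
    ring
  · rintro x hx p hp q hq ⟨a, b, ha, hb, hab, rfl⟩
    have happ : ∀ n, (a • p + b • q : H) (γ, n) = a * p (γ, n) + b * q (γ, n) := fun n => rfl
    have hterm : ∀ n, term (a • p + b • q) γ n = ((1 / 2 : ℝ) ^ n) ^ 2 := by
      intro n
      unfold term
      rw [hx.2 n]
      ring
    have key : ∀ k, p (γ, k) = q (γ, k) := by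
      intro k
      by_contra hne
      set δ : ℝ := a * b * (4 ^ k * (p (γ, k) - q (γ, k))) ^ 2 with hδ
      have hδpos : 0 < δ := by
        have : p (γ, k) - q (γ, k) ≠ 0 := sub_ne_zero.2 hne
        positivity
      have hbound : ∀ N, k < N → δ ≤ 4 / 3 * (1 / 4) ^ N := by
        intro N hN
        have h1 : ∑ n ∈ Finset.range N, term (a • p + b • q) γ n =
            a * ∑ n ∈ Finset.range N, term p γ n + b * ∑ n ∈ Finset.range N, term q γ n -
            ∑ n ∈ Finset.range N, a * b * (4 ^ n * (p (γ, n) - q (γ, n))) ^ 2 := by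
          rw [Finset.mul_sum, Finset.mul_sum, ← Finset.sum_add_distrib, ← Finset.sum_sub_distrib]
          exact Finset.sum_congr rfl (fun n _ => term_comb p q hab γ n)
        simp_rw [hterm] at h1
        rw [sum_quarter] at h1
        have h2 : δ ≤ ∑ n ∈ Finset.range N, a * b * (4 ^ n * (p (γ, n) - q (γ, n))) ^ 2 :=
          Finset.single_le_sum (f := fun n => a * b * (4 ^ n * (p (γ, n) - q (γ, n))) ^ 2)
            (fun n _ => by positivity) (Finset.mem_range.2 hN)
        have h3 := mul_le_mul_of_nonneg_left (hp.2 γ N) ha.le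
        have h4 := mul_le_mul_of_nonneg_left (hq.2 γ N) hb.le
        have h5 : a * (4 / 3) + b * (4 / 3) = (4 / 3 : ℝ) := by rw [← add_mul, hab, one_mul]
        linarith
      have hlim : Tendsto (fun N : ℕ => (4 / 3 : ℝ) * (1 / 4) ^ N) atTop (𝓝 0) := by
        have := (tendsto_pow_atTop_nhds_zero_of_lt_one (r := (1 / 4 : ℝ)) (by norm_num)
          (by norm_num)).const_mul (4 / 3 : ℝ)
        rwa [mul_zero] at this
      have : δ ≤ 0 := by
        refine ge_of_tendsto hlim ?_
        filter_upwards [eventually_gt_atTop k] with N hN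
        exact hbound N hN
      linarith
    have hzero : ∀ n, p (γ, n) = 0 := by
      intro n
      have h1 := hx.2 n
      rw [happ, ← key n, ← add_mul, hab, one_mul] at h1
      exact h1
    exact ⟨⟨hp, hzero⟩, ⟨hq, fun n => by rw [← key n, hzero n]⟩⟩

theorem isClosed_G (γ : ℝ) : IsClosed (G γ) := by
  have h1 : G γ = C ∩ ⋂ n : ℕ, {x : H | x (γ, n) = 0} := by
    ext x
    simp only [G, mem_ofPred_eq, mem_inter_iff, mem_iInter]
  rw [h1]
  exact isClosed_C.inter (isClosed_iInter fun n =>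
    isClosed_eq (continuous_coord (γ, n)) continuous_const)

theorem fri_C : fri C = ∅ := by
  rw [eq_empty_iff_forall_notMem]
  rintro y ⟨hyC, hy⟩
  -- a block on which `y` vanishes
  have hsupp : (Function.support (fun i : ℝ × ℕ => y i)).Countable := by
    have h1 : Summable (fun i : ℝ × ℕ => ‖y i‖ ^ (2 : ENNReal).toReal) :=
      (lp.memℓp y).summable (by norm_num)
    have h2 := h1.countable_support
    refine h2.mono (fun i hi => ?_)
    have hi' : y i ≠ 0 := hi
    rw [Function.mem_support]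
    have : 0 < ‖y i‖ := norm_pos_iff.2 hi'
    positivity
  obtain ⟨γ, hγ⟩ : ∃ γ : ℝ, γ ∉ Prod.fst '' Function.support (fun i : ℝ × ℕ => y i) := by
    by_contra hcon
    push Not at hcon
    have : (univ : Set ℝ).Countable := (hsupp.image Prod.fst).mono (fun γ _ => hcon γ)
    exact Cardinal.not_countable_real this
  have hyG : y ∈ G γ := by
    refine ⟨hyC, fun n => ?_⟩
    by_contra hne
    exact hγ ⟨(γ, n), hne, rfl⟩
  have hsub : minFace y C ⊆ G γ := sInter_subset_of_mem ⟨G_face γ, hyG⟩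
  have hCG : C ⊆ G γ := hy.trans (closure_minimal hsub (isClosed_G γ))
  obtain ⟨ε, hε, hmem⟩ := test_mem γ (k := 0) (N := 1) one_pos (σ := 1) (by simp)
  have h1 := (hCG hmem).2 0
  have h2 : (ε • test γ 0 1 1 : H) (γ, 0) = ε * (test γ 0 1 1) (γ, 0) := rfl
  rw [h2, test_apply] at h1
  simp at h1
  exact hε.ne' h1

end Pool.Agent.Q196.FriQri
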