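import Pool.Agent.H296R4.Bell1

/-!
The discrete Burkholder inequality for signs depending on the dyadic node, `P ≥ 2`.
-/

namespace Pool.Agent.Q196.HB

open Pool.Agent.H296R4

structure Bell (P c C : ℝ) (U : ℝ → ℝ → ℝ) : Prop where
  zig : ∀ x y h, U (x + h) (y + h) + U (x - h) (y - h) ≤ 2 * U x y
  zag : ∀ x y h, U (x + h) (y - h) + U (x - h) (y + h) ≤ 2 * U x y
  nonpos : ∀ x y, |y| ≤ |x| → U x y ≤ 0
  major : ∀ x y, |y| ^ P ≤ c * U x y + C * |x| ^ P
  c0 : 0 ≤ c
  C0 : 0 ≤ C

theorem exists_bell {P : ℝ} (hP : 2 ≤ P) : ∃ (c C : ℝ) (U : ℝ → ℝ → ℝ), Bell P c C U := by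
  rcases eq_or_lt_of_le hP with h | h
  · subst h
    refine ⟨1, 1, fun x y => y ^ 2 - x ^ 2, ?_, ?_, ?_, ?_, zero_le_one, zero_le_one⟩
    · intro x y h
      apply le_of_eq
      ring
    · intro x y h
      apply le_of_eq
      ring
    · intro x y h
      have := sq_le_sq.mpr h
      linarith
    · intro x y
      have e1 : |y| ^ (2 : ℝ) = y ^ 2 := by
        rw [show (2 : ℝ) = ((2 : ℕ) : ℝ) by norm_num, Real.rpow_natCast, sq_abs]
      have e2 : |x| ^ (2 : ℝ) = x ^ 2 := by
        rw [show (2 : ℝ) = ((2 : ℕ) : ℝ) by norm_num, Real.rpow_natCast, sq_abs]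
      rw [e1, e2]
      linarith
  · refine ⟨2 / (1 - th P), CB P, UU P, UU_zig h, UU_zag h, fun x y => UU_nonpos h, UU_major h, ?_,
      CB_nonneg h⟩
    have := th_lt h
    apply div_nonneg (by norm_num)
    linarith

theorem sum_range_two (m : ℕ) (f : ℕ → ℝ) :
    ∑ k ∈ Finset.range (2 * m), f k = ∑ k ∈ Finset.range m, (f (2 * k) + f (2 * k + 1)) := by
  induction m with
  | zero => simp
  | succ m ih =>
    rw [Finset.sum_range_succ, ← ih, show 2 * (m + 1) = 2 * m + 1 + 1 by ring,
      Finset.sum_range_succ, Finset.sum_range_succ]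
    ring

/-- The discrete inequality. -/
theorem disc {P c C : ℝ} {U : ℝ → ℝ → ℝ} (hU : Bell P c C U) (F G : ℕ → ℕ → ℝ) (ε : ℕ → ℕ → ℝ)
    (hε : ∀ n k, ε n k = 1 ∨ ε n k = -1) (h0 : |G 0 0| ≤ |F 0 0|)
    (h1 : ∀ n k, F n k = (F (n + 1) (2 * k) + F (n + 1) (2 * k + 1)) / 2)
    (h2 : ∀ n k, G (n + 1) (2 * k) = G n k + ε n k * (F (n + 1) (2 * k) - F n k))
    (h3 : ∀ n k, G (n + 1) (2 * k + 1) = G n k + ε n k * (F (n + 1) (2 * k + 1) - F n k)) (n : ℕ) :
    ∑ k ∈ Finset.range (2 ^ n), |G n k| ^ P ≤ C * ∑ k ∈ Finset.range (2 ^ n), |F n k| ^ P := by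
  have key : ∀ n, ∑ k ∈ Finset.range (2 ^ n), U (F n k) (G n k) ≤ 0 := by
    intro n
    induction n with
    | zero =>
      rw [pow_zero, Finset.sum_range_one]
      exact hU.nonpos _ _ h0
    | succ n ih =>
      rw [pow_succ, mul_comm, sum_range_two]
      have hB : ∑ k ∈ Finset.range (2 ^ n), (U (F (n + 1) (2 * k)) (G (n + 1) (2 * k)) +
            U (F (n + 1) (2 * k + 1)) (G (n + 1) (2 * k + 1))) ≤
          ∑ k ∈ Finset.range (2 ^ n), 2 * U (F n k) (G n k) := by
        apply Finset.sum_le_sum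
        intro k _
        set h := F (n + 1) (2 * k) - F n k with hh
        have e1 : F (n + 1) (2 * k) = F n k + h := by rw [hh]; ring
        have e2 : F (n + 1) (2 * k + 1) = F n k - h := by
          have := h1 n k
          rw [hh]
          linarith
        rw [h2 n k, h3 n k, e1, e2]
        rcases hε n k with h4 | h4
        · rw [h4]
          have e3 : G n k + 1 * (F n k + h - F n k) = G n k + h := by ring
          have e4 : G n k + 1 * (F n k - h - F n k) = G n k - h := by ring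
          rw [e3, e4]
          exact hU.zig _ _ _
        · rw [h4]
          have e3 : G n k + -1 * (F n k + h - F n k) = G n k - h := by ring
          have e4 : G n k + -1 * (F n k - h - F n k) = G n k + h := by ring
          rw [e3, e4]
          exact hU.zag _ _ _
      rw [← Finset.mul_sum] at hB
      linarith
  have h5 : ∑ k ∈ Finset.range (2 ^ n), |G n k| ^ P ≤
      ∑ k ∈ Finset.range (2 ^ n), (c * U (F n k) (G n k) + C * |F n k| ^ P) :=
    Finset.sum_le_sum fun k _ => hU.major _ _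
  rw [Finset.sum_add_distrib, ← Finset.mul_sum, ← Finset.mul_sum] at h5
  have h6 := key n
  have h7 := hU.c0
  nlinarith

/-- Convexity: sign bounds imply bounds for all multipliers in `[-1, 1]`. -/
theorem cube {X ι : Type*} [NormedAddCommGroup X] [NormedSpace ℝ X] [DecidableEq ι] (v : ι → X)
    (M : ℝ) (S : Finset ι) : ∀ (w : X) (_ : ∀ ε : ι → ℝ, (∀ j, ε j = 1 ∨ ε j = -1) →
      ‖w + ∑ j ∈ S, ε j • v j‖ ≤ M) (θ : ι → ℝ) (_ : ∀ j, |θ j| ≤ 1),
      ‖w + ∑ j ∈ S, θ j • v j‖ ≤ M := by
  induction S using Finset.induction_on with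
  | empty =>
    intro w hε θ _
    have := hε (fun _ => 1) (fun _ => Or.inl rfl)
    simpa using this
  | insert a S ha ih =>
    intro w hε θ hθ
    rw [Finset.sum_insert ha, ← add_assoc]
    have hend : ∀ s : ℝ, (s = 1 ∨ s = -1) → ‖w + s • v a + ∑ j ∈ S, θ j • v j‖ ≤ M := by
      intro s hs
      apply ih (w + s • v a) _ θ hθ
      intro ε he
      have := hε (fun j => if j = a then s else ε j) (by
        intro j
        by_cases h : j = a
        · simp only [if_pos h]; exact hs
        · simp only [if_neg h]; exact he j)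
      rw [Finset.sum_insert ha, ← add_assoc] at this
      simp only [if_true] at this
      have e : ∑ j ∈ S, (if j = a then s else ε j) • v j = ∑ j ∈ S, ε j • v j := by
        apply Finset.sum_congr rfl
        intro j hj
        have : j ≠ a := fun h => ha (h ▸ hj)
        rw [if_neg this]
      rwa [e] at this
    have h1 := hend 1 (Or.inl rfl)
    have h2 := hend (-1) (Or.inr rfl)
    obtain ⟨h3, h4⟩ := abs_le.mp (hθ a)
    have hcomb : w + θ a • v a + ∑ j ∈ S, θ j • v j =
        ((1 + θ a) / 2) • (w + (1 : ℝ) • v a + ∑ j ∈ S, θ j • v j) +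
        ((1 - θ a) / 2) • (w + (-1 : ℝ) • v a + ∑ j ∈ S, θ j • v j) := by
      module
    rw [hcomb]
    refine (norm_add_le _ _).trans ?_
    rw [norm_smul, norm_smul, Real.norm_of_nonneg (by linarith), Real.norm_of_nonneg (by linarith)]
    nlinarith

end Pool.Agent.Q196.HB
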