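import Pool.Agent.Q196.HaarBell
import Pool.Agent.Helper415.HA2

/-!
Haar functions on `[0,1)`, averages, Jensen, step functions.
-/

open MeasureTheory Pool.Agent.Helper415.HA
open scoped ENNReal

namespace Pool.Agent.Q196.HC

/-- Indices of the Haar functions. -/
abbrev Idx : Type := Option (Σ n : ℕ, Fin (2 ^ n))

/-- Level of an index. -/
def lev : Idx → ℕ
  | none => 0
  | some j => j.1

/-- Cell of an index. -/
def cel : Idx → ℕ
  | none => 0
  | some j => j.2

theorem cel_lt (j : Idx) : cel j < 2 ^ lev j := by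
  rcases j with _ | ⟨n, k⟩
  · simp [cel, lev]
  · exact k.2

/-- Unnormalised Haar functions. -/
noncomputable def HH : Idx → ℝ → ℝ
  | none => fun x => ind 0 0 x
  | some j => fun x => ind j.1 j.2 x * rs j.1 x

theorem HH_abs (j : Idx) (x : ℝ) : |HH j x| = ind (lev j) (cel j) x := by
  rcases j with _ | ⟨n, k⟩
  · exact abs_of_nonneg (ind_nonneg _ _ _)
  · change |ind n k x * rs n x| = ind n k x
    rw [abs_mul, rs_abs, mul_one, abs_of_nonneg (ind_nonneg _ _ _)]

theorem HH_sq (j : Idx) (x : ℝ) : HH j x ^ 2 = ind (lev j) (cel j) x := by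
  rw [← sq_abs, HH_abs, ind_sq]

theorem HH_le_one (j : Idx) (x : ℝ) : |HH j x| ≤ 1 := by
  rw [HH_abs]
  exact ind_le_one _ _ _

theorem meas_HH (j : Idx) : Measurable (HH j) := by
  rcases j with _ | ⟨n, k⟩
  · exact meas_ind 0 0
  · exact (meas_ind n k).mul (meas_rs n)

theorem int_HH_sq (j : Idx) : ∫ x, HH j x ^ 2 ∂μ1 = (1 / 2 : ℝ) ^ lev j := by
  simp only [HH_sq]
  exact int_ind_eq (cel_lt j)

theorem HH_integrable (j : Idx) : Integrable (HH j) μ1 := by
  refine (integrable_const (1 : ℝ)).mono' (meas_HH j).aestronglyMeasurable ?_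
  exact Filter.Eventually.of_forall (fun x => HH_le_one j x)

theorem int_ind_rs (n k : ℕ) (hk : k < 2 ^ n) : ∫ x, ind n k x * rs n x ∂μ1 = 0 := by
  simp only [ind_rs]
  rw [integral_sub (integrable_ind _ _) (integrable_ind _ _), int_ind_eq, int_ind_eq, sub_self]
  · rw [pow_succ]; omega
  · rw [pow_succ]; omega

theorem rs_const {n m : ℕ} (h : n < m) {x y : ℝ} (hxy : cell m x = cell m y) : rs n x = rs n y := by
  unfold rs
  rw [cell_le (show n + 1 ≤ m by omega) x, cell_le (show n + 1 ≤ m by omega) y, hxy]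

theorem ind_const {n m : ℕ} (h : n ≤ m) (k : ℕ) {x y : ℝ} (hxy : cell m x = cell m y) :
    ind n k x = ind n k y := by
  unfold ind
  rw [cell_le h x, cell_le h y, hxy]

/-- Haar functions of lower level are constant on cells. -/
theorem HH_const (j : Idx) {m : ℕ} (h : lev j < m) {x y : ℝ} (hxy : cell m x = cell m y) :
    HH j x = HH j y := by
  rcases j with _ | ⟨n, k⟩
  · exact ind_const (Nat.zero_le _) _ hxy
  · change ind n k x * rs n x = ind n k y * rs n y
    have h' : n < m := h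
    rw [ind_const (le_of_lt h') _ hxy, rs_const h' hxy]

theorem int_HH_mul_lt (i : Idx) (n : ℕ) (k : Fin (2 ^ n)) (h : lev i < n) :
    ∫ x, HH i x * HH (some ⟨n, k⟩) x ∂μ1 = 0 := by
  by_cases hex : ∃ y, cell n y = (k : ℕ)
  · obtain ⟨y, hy⟩ := hex
    have : ∀ x, HH i x * HH (some ⟨n, k⟩) x = HH i y * (ind n k x * rs n x) := by
      intro x
      change HH i x * (ind n k x * rs n x) = _
      by_cases hx : cell n x = k
      · rw [HH_const i h (hx.trans hy.symm)]
      · have : ind n k x = 0 := by unfold ind; rw [if_neg hx]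
        rw [this]
        ring
    simp only [this]
    rw [integral_const_mul, int_ind_rs n k k.2, mul_zero]
  · push Not at hex
    have : ∀ x, HH i x * HH (some ⟨n, k⟩) x = 0 := by
      intro x
      change HH i x * (ind n k x * rs n x) = _
      have : ind n k x = 0 := by unfold ind; rw [if_neg (hex x)]
      rw [this]
      ring
    simp only [this]
    exact integral_zero _ _

theorem int_HH_mul {i j : Idx} (hij : i ≠ j) : ∫ x, HH i x * HH j x ∂μ1 = 0 := by
  have hn : ∀ (n : ℕ) (k : Fin (2 ^ n)), ∫ x, HH none x * HH (some ⟨n, k⟩) x ∂μ1 = 0 := by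
    intro n k
    rcases Nat.eq_zero_or_pos n with h | h
    · subst h
      have hk : (k : ℕ) = 0 := by have := k.2; simp at this; omega
      have : ∀ x, HH none x * HH (some ⟨0, k⟩) x = ind 0 0 x * rs 0 x := by
        intro x
        change ind 0 0 x * (ind 0 k x * rs 0 x) = _
        rw [hk, ← mul_assoc, ← sq, ind_sq]
      simp only [this]
      exact int_ind_rs 0 0 (by norm_num)
    · exact int_HH_mul_lt none n k h
  rcases i with _ | ⟨n, k⟩ <;> rcases j with _ | ⟨m, l⟩
  · exact absurd rfl hij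
  · exact hn m l
  · have := hn n k
    simp only [mul_comm] at this ⊢
    exact this
  · rcases lt_trichotomy n m with h | h | h
    · exact int_HH_mul_lt _ m l h
    · subst h
      have hkl : (k : ℕ) ≠ l := by
        intro hh
        apply hij
        rw [Fin.ext hh]
      have : ∀ x, HH (some ⟨n, k⟩) x * HH (some ⟨n, l⟩) x = 0 := by
        intro x
        change ind n k x * rs n x * (ind n l x * rs n x) = 0
        by_cases hx : cell n x = k
        · have : ind n l x = 0 := by
            unfold ind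
            rw [if_neg]
            rw [hx]
            exact hkl
          rw [this]
          ring
        · have : ind n k x = 0 := by unfold ind; rw [if_neg hx]
          rw [this]
          ring
      simp only [this]
      exact integral_zero _ _
    · have := int_HH_mul_lt (some ⟨m, l⟩) n k h
      simp only [mul_comm] at this ⊢
      exact this

/-! ### averages -/

/-- The average over a dyadic cell. -/
noncomputable def Fav (f : ℝ → ℝ) (n k : ℕ) : ℝ := 2 ^ n * ∫ x, f x * ind n k x ∂μ1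

theorem Fav_split {f : ℝ → ℝ} (hf : Integrable f μ1) (n k : ℕ) :
    Fav f n k = (Fav f (n + 1) (2 * k) + Fav f (n + 1) (2 * k + 1)) / 2 := by
  unfold Fav
  have : ∀ x, f x * ind n k x = f x * ind (n + 1) (2 * k) x + f x * ind (n + 1) (2 * k + 1) x := by
    intro x
    rw [ind_split]
    ring
  simp only [this]
  rw [integral_add (integrable_mul_ind hf _ _) (integrable_mul_ind hf _ _), pow_succ]
  ring

/-- Signs by level and cell. -/
noncomputable def en (ε : Idx → ℝ) (n k : ℕ) : ℝ :=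
  if h : k < 2 ^ n then ε (some ⟨n, ⟨k, h⟩⟩) else 1

/-- Values of the transformed function. -/
noncomputable def GG (f : ℝ → ℝ) (ε : Idx → ℝ) : ℕ → ℕ → ℝ
  | 0, _ => ε none * Fav f 0 0
  | n + 1, m => GG f ε n (m / 2) + en ε n (m / 2) * (Fav f (n + 1) m - Fav f n (m / 2))

theorem disc_GG {P c C : ℝ} {U : ℝ → ℝ → ℝ} (hU : HB.Bell P c C U) {f : ℝ → ℝ}
    (hf : Integrable f μ1) (ε : Idx → ℝ) (hε : ∀ j, ε j = 1 ∨ ε j = -1) (n : ℕ) :
    ∑ k ∈ Finset.range (2 ^ n), |GG f ε n k| ^ P ≤
      C * ∑ k ∈ Finset.range (2 ^ n), |Fav f n k| ^ P := by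
  apply HB.disc hU (Fav f) (GG f ε) (en ε)
  · intro n k
    unfold en
    split_ifs with h
    · exact hε _
    · exact Or.inl rfl
  · change |ε none * Fav f 0 0| ≤ |Fav f 0 0|
    rcases hε none with h | h
    · rw [h, one_mul]
    · rw [h, neg_one_mul, abs_neg]
  · exact Fav_split hf
  · intro n k
    change GG f ε n (2 * k / 2) + en ε n (2 * k / 2) * (Fav f (n + 1) (2 * k) - Fav f n (2 * k / 2)) = _
    rw [show 2 * k / 2 = k by omega]
  · intro n k
    change GG f ε n ((2 * k + 1) / 2) + en ε n ((2 * k + 1) / 2) *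
      (Fav f (n + 1) (2 * k + 1) - Fav f n ((2 * k + 1) / 2)) = _
    rw [show (2 * k + 1) / 2 = k by omega]

/-- The indices of level less than `N`. -/
def JJ (N : ℕ) : Finset Idx :=
  Finset.insertNone ((Finset.range N).sigma fun n => (Finset.univ : Finset (Fin (2 ^ n))))

theorem exists_JJ (S : Finset Idx) : ∃ N, S ⊆ JJ N := by
  refine ⟨S.sup lev + 1, fun j hj => ?_⟩
  unfold JJ
  rcases j with _ | ⟨n, k⟩
  · exact Finset.none_mem_insertNone
  · rw [Finset.some_mem_insertNone, Finset.mem_sigma]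
    refine ⟨?_, Finset.mem_univ _⟩
    rw [Finset.mem_range]
    have := Finset.le_sup (f := lev) hj
    exact Nat.lt_succ_of_le this

/-- Haar coefficient of the expansion in the unnormalised system. -/
noncomputable def ip (f : ℝ → ℝ) (j : Idx) : ℝ := ∫ x, f x * HH j x ∂μ1

theorem ip_some {f : ℝ → ℝ} (hf : Integrable f μ1) (n : ℕ) (k : Fin (2 ^ n)) :
    2 ^ n * ip f (some ⟨n, k⟩) =
      (Fav f (n + 1) (2 * k) - Fav f (n + 1) (2 * k + 1)) / 2 := by
  unfold ip Fav
  have : ∀ x, f x * HH (some ⟨n, k⟩) x =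
      f x * ind (n + 1) (2 * k) x - f x * ind (n + 1) (2 * k + 1) x := by
    intro x
    change f x * (ind n k x * rs n x) = _
    rw [ind_rs]
    ring
  simp only [this]
  rw [integral_sub (integrable_mul_ind hf _ _) (integrable_mul_ind hf _ _), pow_succ]
  ring

/-- The pointwise formula. -/
theorem GG_eq {f : ℝ → ℝ} (hf : Integrable f μ1) (ε : Idx → ℝ) {x : ℝ} (hx : x ∈ Set.Ico (0 : ℝ) 1)
    (N : ℕ) : GG f ε N (cell N x) = ∑ j ∈ JJ N, ε j * (2 ^ lev j * ip f j) * HH j x := by
  induction N with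
  | zero =>
    unfold JJ
    rw [Finset.sum_insertNone, Finset.sum_sigma, Finset.range_zero, Finset.sum_empty, add_zero]
    change ε none * Fav f 0 0 = ε none * (2 ^ 0 * ip f none) * ind 0 0 x
    have hc : cell 0 x = 0 := by
      have := cell_lt (n := 0) hx
      omega
    have h1 : ind 0 0 x = 1 := by unfold ind; rw [if_pos hc]
    rw [h1, mul_one]
    rfl
  | succ N ih =>
    have hJ : ∑ j ∈ JJ (N + 1), ε j * (2 ^ lev j * ip f j) * HH j x =
        ∑ j ∈ JJ N, ε j * (2 ^ lev j * ip f j) * HH j x +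
        ∑ k : Fin (2 ^ N), ε (some ⟨N, k⟩) * (2 ^ N * ip f (some ⟨N, k⟩)) *
          (ind N k x * rs N x) := by
      unfold JJ
      rw [Finset.sum_insertNone, Finset.sum_insertNone, Finset.sum_sigma, Finset.sum_sigma,
        Finset.sum_range_succ, add_assoc]
      rfl
    have hcN := cell_lt (n := N) hx
    have hsum : ∑ k : Fin (2 ^ N), ε (some ⟨N, k⟩) * (2 ^ N * ip f (some ⟨N, k⟩)) *
          (ind N k x * rs N x) = ε (some ⟨N, ⟨cell N x, hcN⟩⟩) *
            (2 ^ N * ip f (some ⟨N, ⟨cell N x, hcN⟩⟩)) * rs N x := by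
      rw [Finset.sum_eq_single (⟨cell N x, hcN⟩ : Fin (2 ^ N))]
      · have : ind N ((⟨cell N x, hcN⟩ : Fin (2 ^ N)) : ℕ) x = 1 := by
          unfold ind
          rw [if_pos rfl]
        rw [this, one_mul]
      · intro k _ hk
        have : ind N (k : ℕ) x = 0 := by
          unfold ind
          rw [if_neg]
          intro h
          apply hk
          exact Fin.ext h.symm
        rw [this]
        ring
      · intro h
        exact absurd (Finset.mem_univ _) h
    rw [hJ, ← ih, hsum, ip_some hf]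
    have hc2 : cell N x = cell (N + 1) x / 2 := by
      have := cell_add N 1 x
      rwa [pow_one] at this
    change GG f ε N (cell (N + 1) x / 2) + en ε N (cell (N + 1) x / 2) *
      (Fav f (N + 1) (cell (N + 1) x) - Fav f N (cell (N + 1) x / 2)) = _
    rw [← hc2]
    congr 1
    have he : en ε N (cell N x) = ε (some ⟨N, ⟨cell N x, hcN⟩⟩) := by
      unfold en
      rw [dif_pos hcN]
    rw [he, mul_assoc]
    congr 1
    rw [Fav_split hf N (cell N x)]
    unfold rs
    change _ = (Fav f (N + 1) (2 * cell N x) - Fav f (N + 1) (2 * cell N x + 1)) / 2 * _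
    split_ifs with h
    · have : cell (N + 1) x = 2 * cell N x := by omega
      rw [this]
      ring
    · have : cell (N + 1) x = 2 * cell N x + 1 := by omega
      rw [this]
      ring

theorem sum_ind {x : ℝ} (hx : x ∈ Set.Ico (0 : ℝ) 1) (N : ℕ) (φ : ℕ → ℝ) :
    ∑ k ∈ Finset.range (2 ^ N), φ k * ind N k x = φ (cell N x) := by
  rw [Finset.sum_eq_single (cell N x)]
  · unfold ind
    rw [if_pos rfl, mul_one]
  · intro k _ hk
    unfold ind
    rw [if_neg hk.symm, mul_zero]
  · intro h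
    exact absurd (Finset.mem_range.mpr (cell_lt hx)) h

/-- Integral of a step function. -/
theorem int_step (N : ℕ) (φ : ℕ → ℝ) :
    ∫ x, φ (cell N x) ∂μ1 = (1 / 2 : ℝ) ^ N * ∑ k ∈ Finset.range (2 ^ N), φ k := by
  have h1 : ∫ x, φ (cell N x) ∂μ1 = ∫ x, ∑ k ∈ Finset.range (2 ^ N), φ k * ind N k x ∂μ1 := by
    unfold μ1
    apply setIntegral_congr_fun measurableSet_Ico
    intro x hx
    exact (sum_ind hx N φ).symm
  rw [h1, integral_finsetSum _ (fun k _ => (integrable_ind N k).const_mul _), Finset.mul_sum]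
  apply Finset.sum_congr rfl
  intro k hk
  rw [integral_const_mul, int_ind_eq (Finset.mem_range.mp hk), mul_comm]

/-- Jensen on one cell. -/
theorem Fav_pow {P : ℝ} (hP : 1 < P) {f : ℝ → ℝ} (hf : MemLp f (ENNReal.ofReal P) μ1) {n k : ℕ}
    (hk : k < 2 ^ n) : |Fav f n k| ^ P ≤ 2 ^ n * ∫ x, |f x| ^ P * ind n k x ∂μ1 := by
  have hQ := Real.HolderConjugate.conjExponent hP
  set Q := Real.conjExponent P with hQdef
  have hP0 : 0 < P := by linarith
  have h1P : 1 ≤ ENNReal.ofReal P := by
    rw [← ENNReal.ofReal_one]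
    exact ENNReal.ofReal_le_ofReal hP.le
  have hfi : MemLp (fun x => f x * ind n k x) (ENNReal.ofReal P) μ1 := by
    refine MemLp.mono hf (hf.1.mul (meas_ind n k).aestronglyMeasurable) ?_
    refine Filter.Eventually.of_forall (fun x => ?_)
    rw [norm_mul, Real.norm_eq_abs (ind n k x), abs_of_nonneg (ind_nonneg n k x)]
    exact mul_le_of_le_one_right (norm_nonneg _) (ind_le_one n k x)
  have hi : MemLp (ind n k) (ENNReal.ofReal Q) μ1 := by
    refine MemLp.of_bound (meas_ind n k).aestronglyMeasurable 1 ?_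
    refine Filter.Eventually.of_forall (fun x => ?_)
    rw [Real.norm_eq_abs, abs_of_nonneg (ind_nonneg n k x)]
    exact ind_le_one n k x
  have h2 := integral_mul_norm_le_Lp_mul_Lq hQ hfi hi
  have hi2 : ∀ x, ‖ind n k x‖ ^ Q = ind n k x := by
    intro x
    unfold ind
    split_ifs
    · simp
    · simp [hQ.symm.ne_zero]
  have hi3 : ∀ x, ‖f x * ind n k x‖ * ‖ind n k x‖ = |f x| * ind n k x := by
    intro x
    unfold ind
    split_ifs <;> simp
  have hi4 : ∀ x, ‖f x * ind n k x‖ ^ P = |f x| ^ P * ind n k x := by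
    intro x
    unfold ind
    split_ifs
    · simp
    · simp [hP0.ne']
  simp only [hi2, hi3, hi4] at h2
  rw [int_ind_eq hk] at h2
  have hI0 : 0 ≤ ∫ x, |f x| ^ P * ind n k x ∂μ1 :=
    integral_nonneg fun x => mul_nonneg (by positivity) (ind_nonneg _ _ _)
  set I := ∫ x, |f x| ^ P * ind n k x ∂μ1 with hI
  have h3 : |Fav f n k| ≤ 2 ^ n * (I ^ (1 / P) * ((1 / 2 : ℝ) ^ n) ^ (1 / Q)) := by
    unfold Fav
    rw [abs_mul, abs_of_pos (by positivity : (0 : ℝ) < 2 ^ n)]
    apply mul_le_mul_of_nonneg_left _ (by positivity)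
    refine le_trans ?_ h2
    refine (abs_integral_le_integral_abs).trans (le_of_eq ?_)
    congr 1
    ext x
    rw [abs_mul, abs_of_nonneg (ind_nonneg n k x)]
  have h4 : |Fav f n k| ^ P ≤ (2 ^ n * (I ^ (1 / P) * ((1 / 2 : ℝ) ^ n) ^ (1 / Q))) ^ P :=
    Real.rpow_le_rpow (abs_nonneg _) h3 hP0.le
  refine h4.trans (le_of_eq ?_)
  rw [Real.mul_rpow (by positivity) (by positivity), Real.mul_rpow (by positivity) (by positivity),
    ← Real.rpow_mul hI0, one_div_mul_cancel hP0.ne', Real.rpow_one,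
    ← Real.rpow_mul (by positivity)]
  have e1 : 1 / Q * P = P - 1 := by
    have := hQ.one_sub_inv
    have h5 : 1 / Q = 1 - P⁻¹ := by rw [one_div]; linarith
    rw [h5, sub_mul, inv_mul_cancel₀ hP0.ne', one_mul]
  rw [e1]
  have e2 : ((1 / 2 : ℝ) ^ n) ^ (P - 1) = (((2 : ℝ) ^ n) ^ (P - 1))⁻¹ := by
    rw [one_div, inv_pow, Real.inv_rpow (by positivity)]
  have e3 : ((2 : ℝ) ^ n) ^ P = ((2 : ℝ) ^ n) ^ (P - 1) * 2 ^ n := by
    have : ((2 : ℝ) ^ n) ^ P = ((2 : ℝ) ^ n) ^ (P - 1 + 1) := by congr 1; ring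
    rw [this, Real.rpow_add (by positivity), Real.rpow_one]
  rw [e2, e3]
  have e4 : ((2 : ℝ) ^ n) ^ (P - 1) ≠ 0 := by positivity
  field_simp

/-- Jensen, summed. -/
theorem Fav_sum {P : ℝ} (hP : 1 < P) {f : ℝ → ℝ} (hf : MemLp f (ENNReal.ofReal P) μ1) (n : ℕ) :
    ∑ k ∈ Finset.range (2 ^ n), |Fav f n k| ^ P ≤ 2 ^ n * ∫ x, |f x| ^ P ∂μ1 := by
  have hP0 : 0 < P := by linarith
  have hint : Integrable (fun x => |f x| ^ P) μ1 := by
    have := hf.integrable_norm_rpow (by simp [hP0]) ENNReal.ofReal_ne_top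
    rw [ENNReal.toReal_ofReal hP0.le] at this
    exact this
  have h1 : ∑ k ∈ Finset.range (2 ^ n), |Fav f n k| ^ P ≤
      ∑ k ∈ Finset.range (2 ^ n), 2 ^ n * ∫ x, |f x| ^ P * ind n k x ∂μ1 :=
    Finset.sum_le_sum fun k hk => Fav_pow hP hf (Finset.mem_range.mp hk)
  refine h1.trans (le_of_eq ?_)
  rw [← Finset.mul_sum, ← integral_finsetSum _ (fun k _ => integrable_mul_ind hint n k)]
  congr 1
  unfold μ1
  apply setIntegral_congr_fun measurableSet_Ico
  intro x hx
  exact sum_ind hx n (fun _ => |f x| ^ P)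

end Pool.Agent.Q196.HC
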