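import Pool.Agent.Q196.HaarC1

/-!
Unconditionality of the Haar system in real `L_p[0,1]`, `1 < p < ∞`.
-/

open MeasureTheory Pool.Agent.Helper415.HA
open scoped ENNReal

namespace Pool.Agent.Q196.HC

section

variable (𝕜 : Type*) [RCLike 𝕜] (p : ℝ≥0∞)

theorem HH_memLp (j : Idx) : MemLp (fun x => (HH j x : 𝕜)) p μ1 := by
  refine MemLp.of_bound (RCLike.measurable_ofReal.comp (meas_HH j)).aestronglyMeasurable 1 ?_
  refine Filter.Eventually.of_forall (fun x => ?_)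
  rw [RCLike.norm_ofReal]
  exact HH_le_one j x

/-- The unnormalised Haar function as an element of `L_p`. -/
noncomputable def hU (j : Idx) : Lp 𝕜 p μ1 := (HH_memLp 𝕜 p j).toLp

theorem integrable_mul_HH {f : ℝ → 𝕜} (hf : Integrable f μ1) (j : Idx) :
    Integrable (fun x => f x * (HH j x : 𝕜)) μ1 := by
  refine hf.mono (hf.1.mul (RCLike.measurable_ofReal.comp (meas_HH j)).aestronglyMeasurable) ?_
  refine Filter.Eventually.of_forall (fun x => ?_)
  rw [norm_mul, RCLike.norm_ofReal]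
  exact mul_le_of_le_one_right (norm_nonneg _) (HH_le_one j x)

variable [Fact (1 ≤ p)]

theorem Lp_integrable (f : Lp 𝕜 p μ1) : Integrable f μ1 :=
  (Lp.memLp f).integrable Fact.out

/-- The pairing with a Haar function. -/
noncomputable def ipL (j : Idx) : Lp 𝕜 p μ1 →ₗ[𝕜] 𝕜 where
  toFun f := ∫ x, f x * (HH j x : 𝕜) ∂μ1
  map_add' f g := by
    rw [← integral_add (integrable_mul_HH 𝕜 (Lp_integrable 𝕜 p f) j)
      (integrable_mul_HH 𝕜 (Lp_integrable 𝕜 p g) j)]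
    apply integral_congr_ae
    filter_upwards [Lp.coeFn_add f g] with x hx
    rw [hx, Pi.add_apply, add_mul]
  map_smul' c f := by
    rw [RingHom.id_apply, smul_eq_mul, ← integral_const_mul]
    apply integral_congr_ae
    filter_upwards [Lp.coeFn_smul c f] with x hx
    rw [hx, Pi.smul_apply, smul_eq_mul, mul_assoc]

theorem ipL_apply (j : Idx) (f : Lp 𝕜 p μ1) : ipL 𝕜 p j f = ∫ x, f x * (HH j x : 𝕜) ∂μ1 := rfl

omit [Fact (1 ≤ p)] in
theorem coe_sum (S : Finset Idx) (c : Idx → 𝕜) :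
    ((∑ j ∈ S, c j • hU 𝕜 p j : Lp 𝕜 p μ1) : ℝ → 𝕜) =ᵐ[μ1]
      fun x => ∑ j ∈ S, c j * (HH j x : 𝕜) := by
  classical
  induction S using Finset.induction_on with
  | empty =>
    simp only [Finset.sum_empty]
    exact Lp.coeFn_zero _ _ _
  | insert a S ha ih =>
    rw [Finset.sum_insert ha]
    filter_upwards [Lp.coeFn_add (c a • hU 𝕜 p a) (∑ j ∈ S, c j • hU 𝕜 p j), ih,
      Lp.coeFn_smul (c a) (hU 𝕜 p a), (HH_memLp 𝕜 p a).coeFn_toLp] with x h1 h2 h3 h4
    rw [h1, Pi.add_apply, h2, h3, Pi.smul_apply, Finset.sum_insert ha]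
    unfold hU
    rw [h4, smul_eq_mul]

theorem ipL_hU (i j : Idx) : ipL 𝕜 p i (hU 𝕜 p j) = if i = j then (((1 / 2 : ℝ) ^ lev i : ℝ) : 𝕜) else 0 := by
  have h1 : ipL 𝕜 p i (hU 𝕜 p j) = ∫ x, ((HH i x * HH j x : ℝ) : 𝕜) ∂μ1 := by
    rw [ipL_apply]
    apply integral_congr_ae
    filter_upwards [(HH_memLp 𝕜 p j).coeFn_toLp] with x h4
    unfold hU
    rw [h4, RCLike.ofReal_mul, mul_comm]
  rw [h1, integral_ofReal]
  split_ifs with h
  · subst h
    congr 1
    rw [← int_HH_sq]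
    congr 1
    ext x
    ring
  · rw [int_HH_mul h]
    simp

end

theorem norm_rpow {E : Type*} [NormedAddCommGroup E] {p : ℝ≥0∞} (h0 : p ≠ 0) (hp : p ≠ ∞)
    {μ : Measure ℝ} (f : Lp E p μ) : ‖f‖ ^ p.toReal = ∫ x, ‖f x‖ ^ p.toReal ∂μ := by
  have hP : 0 < p.toReal := ENNReal.toReal_pos h0 hp
  have hI : 0 ≤ ∫ x, ‖f x‖ ^ p.toReal ∂μ := integral_nonneg fun x => by positivity
  rw [Lp.norm_def, (Lp.memLp f).eLpNorm_eq_integral_rpow_norm h0 hp,
    ENNReal.toReal_ofReal (by positivity), ← Real.rpow_mul hI, inv_mul_cancel₀ hP.ne',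
    Real.rpow_one]

/-- Unconditionality for `p ≥ 2`, real case. -/
theorem unc_two {p : ℝ≥0∞} [Fact (1 ≤ p)] (hp : p ≠ ∞) (h2 : 2 ≤ p.toReal) :
    ∃ C : ℝ, 0 ≤ C ∧ ∀ (f : Lp ℝ p μ1) (S : Finset Idx) (θ : Idx → ℝ), (∀ j, |θ j| ≤ 1) →
      ‖∑ j ∈ S, (θ j * (2 ^ lev j * ipL ℝ p j f)) • hU ℝ p j‖ ≤ C * ‖f‖ := by
  classical
  obtain ⟨c, C, U, hU⟩ := HB.exists_bell h2
  set P := p.toReal with hPdef
  have hP0 : 0 < P := by linarith
  have hp0 : p ≠ 0 := by
    intro h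
    rw [h] at hPdef
    simp at hPdef
    linarith
  have hpP : p = ENNReal.ofReal P := (ENNReal.ofReal_toReal hp).symm
  refine ⟨C ^ (1 / P), Real.rpow_nonneg hU.C0 _, fun f S θ hθ => ?_⟩
  have hC0 := hU.C0
  have hint := Lp_integrable ℝ p f
  -- signs
  have hsign : ∀ (N : ℕ) (ε : Idx → ℝ), (∀ j, ε j = 1 ∨ ε j = -1) →
      ‖∑ j ∈ JJ N, ε j • ((2 ^ lev j * ipL ℝ p j f) • HC.hU ℝ p j)‖ ≤ C ^ (1 / P) * ‖f‖ := by
    intro N ε hε
    simp only [smul_smul]
    have hF : MemLp f (ENNReal.ofReal P) μ1 := by rw [← hpP]; exact Lp.memLp f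
    have h3 := Fav_sum (by linarith : 1 < P) hF N
    have h4 := disc_GG hU hint ε hε N
    have h5 : ‖∑ j ∈ JJ N, (ε j * (2 ^ lev j * ipL ℝ p j f)) • HC.hU ℝ p j‖ ^ P =
        (1 / 2 : ℝ) ^ N * ∑ k ∈ Finset.range (2 ^ N), |GG f ε N k| ^ P := by
      rw [hPdef, norm_rpow hp0 hp, ← int_step N (fun k => |GG f ε N k| ^ p.toReal)]
      apply integral_congr_ae
      have hmem : ∀ᵐ x ∂μ1, x ∈ Set.Ico (0 : ℝ) 1 := ae_restrict_mem measurableSet_Ico
      filter_upwards [coe_sum ℝ p (JJ N) (fun j => ε j * (2 ^ lev j * ipL ℝ p j f)), hmem]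
        with x hx hx2
      rw [hx, Real.norm_eq_abs, GG_eq hint ε hx2]
      rfl
    have h6 : ‖f‖ ^ P = ∫ x, |f x| ^ P ∂μ1 := norm_rpow hp0 hp f
    rw [← h6] at h3
    apply (Real.rpow_le_rpow_iff (norm_nonneg _) (by positivity) hP0).mp
    rw [Real.mul_rpow (by positivity) (norm_nonneg _), ← Real.rpow_mul hC0,
      one_div_mul_cancel hP0.ne', Real.rpow_one, h5]
    have h7 : (0 : ℝ) < (1 / 2) ^ N := by positivity
    have h8 : ((1 / 2 : ℝ)) ^ N * 2 ^ N = 1 := by rw [← mul_pow]; norm_num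
    calc (1 / 2 : ℝ) ^ N * ∑ k ∈ Finset.range (2 ^ N), |GG f ε N k| ^ P
        ≤ (1 / 2 : ℝ) ^ N * (C * (2 ^ N * ‖f‖ ^ P)) := by
          apply mul_le_mul_of_nonneg_left _ h7.le
          exact h4.trans (mul_le_mul_of_nonneg_left h3 hC0)
      _ = C * ((1 / 2 : ℝ) ^ N * 2 ^ N) * ‖f‖ ^ P := by ring
      _ = C * ‖f‖ ^ P := by rw [h8, mul_one]
  obtain ⟨N, hN⟩ := exists_JJ S
  have h9 := HB.cube (fun j => (2 ^ lev j * ipL ℝ p j f) • HC.hU ℝ p j) (C ^ (1 / P) * ‖f‖) (JJ N)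
    0 (by intro ε hε; rw [zero_add]; exact hsign N ε hε) (fun j => if j ∈ S then θ j else 0) (by
      intro j
      by_cases h : j ∈ S
      · simp only [if_pos h]; exact hθ j
      · simp only [if_neg h]; simp)
  rw [zero_add] at h9
  refine le_trans (le_of_eq ?_) h9
  congr 1
  simp only [smul_smul, ite_mul, zero_mul]
  rw [← Finset.sum_subset hN]
  · apply Finset.sum_congr rfl
    intro j hj
    rw [if_pos hj]
  · intro j _ hj
    rw [if_neg hj, zero_smul]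

/-- Unconditionality for `1 < p < ∞`, real case. -/
theorem unc_real {p : ℝ≥0∞} [Fact (1 ≤ p)] (hp : p ≠ ∞) (h1 : 1 < p.toReal) :
    ∃ C : ℝ, 0 ≤ C ∧ ∀ (f : Lp ℝ p μ1) (S : Finset Idx) (θ : Idx → ℝ), (∀ j, |θ j| ≤ 1) →
      ‖∑ j ∈ S, (θ j * (2 ^ lev j * ipL ℝ p j f)) • hU ℝ p j‖ ≤ C * ‖f‖ := by
  classical
  rcases le_or_gt 2 p.toReal with h2 | h2
  · exact unc_two hp h2
  set P := p.toReal with hPdef
  have hPQ := Real.HolderConjugate.conjExponent h1
  set Q := Real.conjExponent P with hQdef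
  have hP0 : 0 < P := by linarith
  have hQ1 : 1 < Q := hPQ.symm.lt
  have hQ0 : 0 < Q := by linarith
  have hQ2 : 2 ≤ Q := by
    rw [hQdef, Real.conjExponent, le_div_iff₀ (by linarith)]
    linarith
  have hPQm : (P - 1) * Q = P := by
    rw [hQdef, Real.conjExponent]
    have : P - 1 ≠ 0 := by linarith
    field_simp
  have hinv : 1 / P + 1 / Q = 1 := by
    have := hPQ.inv_add_inv_eq_one
    rwa [one_div, one_div]
  have hp0 : p ≠ 0 := by
    intro h
    rw [h] at hPdef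
    simp at hPdef
    linarith
  have hpP : p = ENNReal.ofReal P := (ENNReal.ofReal_toReal hp).symm
  set q : ℝ≥0∞ := ENNReal.ofReal Q with hq
  have hqt : q ≠ ∞ := ENNReal.ofReal_ne_top
  have hqr : q.toReal = Q := ENNReal.toReal_ofReal hQ0.le
  have hq0 : q ≠ 0 := by
    rw [hq]
    simp [hQ0]
  have : Fact (1 ≤ q) := ⟨by
    rw [hq, ← ENNReal.ofReal_one]
    exact ENNReal.ofReal_le_ofReal hQ1.le⟩
  obtain ⟨C, hC0, hC⟩ := unc_two (p := q) hqt (by rw [hqr]; exact hQ2)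
  refine ⟨C, hC0, fun f S θ hθ => ?_⟩
  have hfint := Lp_integrable ℝ p f
  -- the function G
  set G : ℝ → ℝ := fun x => ∑ j ∈ S, θ j * (2 ^ lev j * ipL ℝ p j f) * HH j x with hG
  have hGm : Measurable G := Finset.measurable_fun_sum _ fun j _ => (meas_HH j).const_mul _
  set M := ∑ j ∈ S, |θ j * (2 ^ lev j * ipL ℝ p j f)| with hM
  have hM0 : 0 ≤ M := Finset.sum_nonneg fun _ _ => abs_nonneg _
  have hGb : ∀ x, |G x| ≤ M := by
    intro x
    refine (Finset.abs_sum_le_sum_abs _ _).trans (Finset.sum_le_sum fun j _ => ?_)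
    rw [abs_mul]
    exact mul_le_of_le_one_right (abs_nonneg _) (HH_le_one j x)
  -- the dual function
  set g : ℝ → ℝ := fun x => if 0 ≤ G x then |G x| ^ (P - 1) else -|G x| ^ (P - 1) with hg
  have hgm : Measurable g := by
    apply Measurable.ite (measurableSet_le measurable_const hGm)
    · exact (hGm.abs).pow_const _
    · exact ((hGm.abs).pow_const _).neg
  have hgabs : ∀ x, |g x| = |G x| ^ (P - 1) := by
    intro x
    rw [hg]
    simp only
    split_ifs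
    · exact abs_of_nonneg (by positivity)
    · rw [abs_neg]
      exact abs_of_nonneg (by positivity)
  have hGg : ∀ x, G x * g x = |G x| ^ P := by
    intro x
    rcases eq_or_ne (G x) 0 with h0 | h0
    · rw [h0, zero_mul, abs_zero, Real.zero_rpow hP0.ne']
    · have hpos : 0 < |G x| := abs_pos.mpr h0
      have e : |G x| ^ P = |G x| ^ (P - 1) * |G x| := by
        have : |G x| ^ P = |G x| ^ (P - 1 + 1) := by congr 1; ring
        rw [this, Real.rpow_add hpos, Real.rpow_one]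
      rw [e, hg]
      simp only
      split_ifs with h
      · rw [abs_of_nonneg h]
        ring
      · rw [abs_of_neg (not_le.mp h)]
        ring
  have hgb : ∀ x, |g x| ≤ M ^ (P - 1) := by
    intro x
    rw [hgabs]
    exact Real.rpow_le_rpow (abs_nonneg _) (hGb x) (by linarith)
  have hgmem : MemLp g q μ1 := MemLp.of_bound hgm.aestronglyMeasurable (M ^ (P - 1))
    (Filter.Eventually.of_forall hgb)
  set gL : Lp ℝ q μ1 := hgmem.toLp with hgL
  have hgLe : gL =ᵐ[μ1] g := hgmem.coeFn_toLp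
  have hgint : Integrable g μ1 := hgmem.integrable Fact.out
  -- the image
  set T : ℝ → ℝ := fun x => ∑ j ∈ S, θ j * (2 ^ lev j * ipL ℝ q j gL) * HH j x with hT
  have hTm : Measurable T := Finset.measurable_fun_sum _ fun j _ => (meas_HH j).const_mul _
  have hTb : ∀ x, |T x| ≤ ∑ j ∈ S, |θ j * (2 ^ lev j * ipL ℝ q j gL)| := by
    intro x
    refine (Finset.abs_sum_le_sum_abs _ _).trans (Finset.sum_le_sum fun j _ => ?_)
    rw [abs_mul]
    exact mul_le_of_le_one_right (abs_nonneg _) (HH_le_one j x)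
  have hTmem : MemLp T q μ1 := MemLp.of_bound hTm.aestronglyMeasurable _
    (Filter.Eventually.of_forall hTb)
  have hbound := hC gL S θ hθ
  -- norms
  set A := ∫ x, |G x| ^ P ∂μ1 with hA
  have hA0 : 0 ≤ A := integral_nonneg fun x => by positivity
  have hnormG : ‖∑ j ∈ S, (θ j * (2 ^ lev j * ipL ℝ p j f)) • hU ℝ p j‖ ^ P = A := by
    rw [hPdef, norm_rpow hp0 hp, hA]
    apply integral_congr_ae
    filter_upwards [coe_sum ℝ p S (fun j => θ j * (2 ^ lev j * ipL ℝ p j f))] with x hx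
    rw [hx, Real.norm_eq_abs]
    rfl
  have hnormT : ‖∑ j ∈ S, (θ j * (2 ^ lev j * ipL ℝ q j gL)) • hU ℝ q j‖ ^ Q =
      ∫ x, |T x| ^ Q ∂μ1 := by
    rw [← hqr, norm_rpow hq0 hqt]
    apply integral_congr_ae
    filter_upwards [coe_sum ℝ q S (fun j => θ j * (2 ^ lev j * ipL ℝ q j gL))] with x hx
    rw [hx, Real.norm_eq_abs]
    rfl
  have hnormg : ‖gL‖ ^ Q = A := by
    rw [← hqr, norm_rpow hq0 hqt, hA]
    apply integral_congr_ae
    filter_upwards [hgLe] with x hx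
    rw [hx, Real.norm_eq_abs, hgabs, hqr, ← Real.rpow_mul (abs_nonneg _), hPQm]
  have hnormf : ‖f‖ ^ P = ∫ x, |f x| ^ P ∂μ1 := norm_rpow hp0 hp f
  -- duality
  have hmulHH : ∀ {u : ℝ → ℝ}, Integrable u μ1 → ∀ j, Integrable (fun x => u x * HH j x) μ1 :=
    fun hu j => integrable_mul_HH ℝ hu j
  have e1 : A = ∑ j ∈ S, θ j * (2 ^ lev j * ipL ℝ p j f) * ipL ℝ q j gL := by
    have : A = ∫ x, ∑ j ∈ S, θ j * (2 ^ lev j * ipL ℝ p j f) * (gL x * HH j x) ∂μ1 := by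
      rw [hA]
      apply integral_congr_ae
      filter_upwards [hgLe] with x hx
      rw [← hGg, hG, hx, Finset.sum_mul]
      apply Finset.sum_congr rfl
      intro j _
      ring
    rw [this, integral_finsetSum _ (fun j _ => (hmulHH (Lp_integrable ℝ q gL) j).const_mul _)]
    apply Finset.sum_congr rfl
    intro j _
    rw [integral_const_mul]
    rfl
  have e2 : A = ∫ x, f x * T x ∂μ1 := by
    have : ∫ x, f x * T x ∂μ1 =
        ∫ x, ∑ j ∈ S, θ j * (2 ^ lev j * ipL ℝ q j gL) * (f x * HH j x) ∂μ1 := by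
      congr 1
      ext x
      rw [hT, Finset.mul_sum]
      apply Finset.sum_congr rfl
      intro j _
      ring
    rw [this, integral_finsetSum _ (fun j _ => (hmulHH hfint j).const_mul _), e1]
    apply Finset.sum_congr rfl
    intro j _
    rw [integral_const_mul]
    change _ = θ j * (2 ^ lev j * ipL ℝ q j gL) * ipL ℝ p j f
    ring
  have hfmem : MemLp f (ENNReal.ofReal P) μ1 := by rw [← hpP]; exact Lp.memLp f
  have e3 : A ≤ (∫ x, ‖f x‖ ^ P ∂μ1) ^ (1 / P) * (∫ x, ‖T x‖ ^ Q ∂μ1) ^ (1 / Q) := by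
    refine le_trans ?_ (integral_mul_norm_le_Lp_mul_Lq hPQ hfmem hTmem)
    rw [e2]
    refine (le_abs_self _).trans (abs_integral_le_integral_abs.trans (le_of_eq ?_))
    congr 1
    ext x
    rw [abs_mul]
    rfl
  have e4 : (∫ x, ‖f x‖ ^ P ∂μ1) ^ (1 / P) = ‖f‖ := by
    have : ∫ x, ‖f x‖ ^ P ∂μ1 = ‖f‖ ^ P := hnormf.symm
    rw [this, ← Real.rpow_mul (norm_nonneg _), mul_one_div_cancel hP0.ne', Real.rpow_one]
  have e5 : (∫ x, ‖T x‖ ^ Q ∂μ1) ^ (1 / Q) ≤ C * ‖gL‖ := by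
    have : ∫ x, ‖T x‖ ^ Q ∂μ1 =
      ‖∑ j ∈ S, (θ j * (2 ^ lev j * ipL ℝ q j gL)) • hU ℝ q j‖ ^ Q := hnormT.symm
    rw [this, ← Real.rpow_mul (norm_nonneg _), mul_one_div_cancel hQ0.ne', Real.rpow_one]
    exact hbound
  have e6 : ‖gL‖ = A ^ (1 / Q) := by
    rw [← hnormg, ← Real.rpow_mul (norm_nonneg _), mul_one_div_cancel hQ0.ne', Real.rpow_one]
  rw [e4] at e3
  have e7 : A ≤ ‖f‖ * (C * A ^ (1 / Q)) := by
    rw [e6] at e5
    exact e3.trans (mul_le_mul_of_nonneg_left e5 (norm_nonneg _))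
  have e8 : ‖∑ j ∈ S, (θ j * (2 ^ lev j * ipL ℝ p j f)) • hU ℝ p j‖ = A ^ (1 / P) := by
    rw [← hnormG, ← Real.rpow_mul (norm_nonneg _), mul_one_div_cancel hP0.ne', Real.rpow_one]
  rw [e8]
  rcases eq_or_lt_of_le hA0 with h | h
  · rw [← h, Real.zero_rpow (by positivity)]
    positivity
  · have hAQ : 0 < A ^ (1 / Q) := Real.rpow_pos_of_pos h _
    have e9 : A = A ^ (1 / P) * A ^ (1 / Q) := by
      rw [← Real.rpow_add h, hinv, Real.rpow_one]
    have e10 : A ^ (1 / P) * A ^ (1 / Q) ≤ (C * ‖f‖) * A ^ (1 / Q) := by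
      rw [← e9]
      linarith
    exact le_of_mul_le_mul_right e10 hAQ

end Pool.Agent.Q196.HC
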