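import Mathlib

/-!
An equivalent `s`-norm making a greedy basis `1`-greedy: abstract construction.
-/

open Finset

namespace Pool.Agent.Q196.SGreedy

variable {𝕜 X ι : Type*} [RCLike 𝕜] [NormedAddCommGroup X] [NormedSpace 𝕜 X] [DecidableEq ι]

/-- A system with coefficient functionals which is unconditional, democratic and complete. -/
structure GB (h : ι → X) (a : ι → X →ₗ[𝕜] 𝕜) (K : ℝ) : Prop where
  K1 : 1 ≤ K
  bio : ∀ i j, a i (h j) = if i = j then 1 else 0
  unc : ∀ (f : X) (S : Finset ι) (c : ι → 𝕜), (∀ j ∈ S, ‖c j‖ ≤ ‖a j f‖) →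
    ‖∑ j ∈ S, c j • h j‖ ≤ K * ‖f‖
  dem : ∀ (f : X) (B D : Finset ι) (c : ι → 𝕜) (τ : ℝ), 0 < τ → B.card ≤ D.card →
    (∀ j ∈ B, ‖c j‖ ≤ τ) → (∀ n ∈ D, τ ≤ ‖a n f‖) → ‖∑ j ∈ B, c j • h j‖ ≤ K * ‖f‖
  conv : ∀ f : X, ∀ ε : ℝ, 0 < ε → ∃ S : Finset ι, ‖f - ∑ j ∈ S, a j f • h j‖ < ε

/-- The vectors admissible for `f`. -/
def Adm (h : ι → X) (a : ι → X →ₗ[𝕜] 𝕜) (f v : X) : Prop :=
  ∃ (S B D : Finset ι) (c : ι → 𝕜) (τ : ℝ), 0 < τ ∧ Disjoint S B ∧ Disjoint S D ∧
    B.card ≤ D.card ∧ (∀ j ∈ S, ‖c j‖ ≤ ‖a j f‖ ∧ ‖c j‖ ≤ τ) ∧ (∀ j ∈ B, ‖c j‖ ≤ τ) ∧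
    (∀ n ∈ D, τ ≤ ‖a n f‖) ∧ v = ∑ j ∈ S, c j • h j + ∑ j ∈ B, c j • h j

/-- The new functional. -/
noncomputable def NN (h : ι → X) (a : ι → X →ₗ[𝕜] 𝕜) (f : X) : ℝ :=
  sSup ((fun v : X => ‖v‖) '' {v | Adm h a f v})

section

variable {h : ι → X} {a : ι → X →ₗ[𝕜] 𝕜} {K : ℝ}

omit [DecidableEq ι] in
theorem adm_zero (f : X) : Adm h a f 0 := by
  refine ⟨∅, ∅, ∅, 0, 1, one_pos, ?_, ?_, le_rfl, ?_, ?_, ?_, ?_⟩ <;> simp

theorem adm_le (H : GB h a K) {f v : X} (hv : Adm h a f v) : ‖v‖ ≤ 2 * K * ‖f‖ := by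
  obtain ⟨S, B, D, c, τ, hτ, _, _, hc, h1, h2, h3, rfl⟩ := hv
  have e1 := H.unc f S c (fun j hj => (h1 j hj).1)
  have e2 := H.dem f B D c τ hτ hc h2 h3
  calc ‖∑ j ∈ S, c j • h j + ∑ j ∈ B, c j • h j‖ ≤ _ := norm_add_le _ _
    _ ≤ 2 * K * ‖f‖ := by linarith

theorem bdd (H : GB h a K) (f : X) : BddAbove ((fun v : X => ‖v‖) '' {v | Adm h a f v}) := by
  refine ⟨2 * K * ‖f‖, ?_⟩
  rintro _ ⟨v, hv, rfl⟩
  exact adm_le H hv

theorem le_NN (H : GB h a K) {f v : X} (hv : Adm h a f v) : ‖v‖ ≤ NN h a f :=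
  le_csSup (bdd H f) ⟨v, hv, rfl⟩

omit [DecidableEq ι] in
theorem NN_le {f : X} {M : ℝ} (hM : ∀ v, Adm h a f v → ‖v‖ ≤ M) : NN h a f ≤ M := by
  refine csSup_le ⟨‖(0 : X)‖, 0, adm_zero f, rfl⟩ ?_
  rintro _ ⟨v, hv, rfl⟩
  exact hM v hv

theorem NN_upper (H : GB h a K) (f : X) : NN h a f ≤ 2 * K * ‖f‖ :=
  NN_le fun _ hv => adm_le H hv

theorem NN_nonneg (H : GB h a K) (f : X) : 0 ≤ NN h a f := by
  have := le_NN H (adm_zero (h := h) (a := a) f)
  simpa using this

theorem NN_lower (H : GB h a K) (f : X) : ‖f‖ ≤ NN h a f := by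
  apply le_of_forall_pos_le_add
  intro ε hε
  obtain ⟨S, hS⟩ := H.conv f ε hε
  have hadm : Adm h a f (∑ j ∈ S, a j f • h j) := by
    refine ⟨S, ∅, ∅, fun j => a j f, 1 + ∑ j ∈ S, ‖a j f‖, by positivity, by simp, by simp,
      le_rfl, ?_, by simp, by simp, by simp⟩
    intro j hj
    refine ⟨le_rfl, ?_⟩
    have := Finset.single_le_sum (f := fun j => ‖a j f‖) (fun i _ => norm_nonneg _) hj
    linarith
  have h1 := le_NN H hadm
  have h2 : f = (∑ j ∈ S, a j f • h j) + (f - ∑ j ∈ S, a j f • h j) := by abel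
  have h3 := norm_add_le (∑ j ∈ S, a j f • h j) (f - ∑ j ∈ S, a j f • h j)
  rw [← h2] at h3
  linarith

theorem NN_smul_le (H : GB h a K) {t : 𝕜} (ht : t ≠ 0) (f : X) :
    NN h a (t • f) ≤ ‖t‖ * NN h a f := by
  have ht' : 0 < ‖t‖ := norm_pos_iff.mpr ht
  apply NN_le
  rintro v ⟨S, B, D, c, τ, hτ, hSB, hSD, hc, h1, h2, h3, rfl⟩
  have key : Adm h a f (t⁻¹ • (∑ j ∈ S, c j • h j + ∑ j ∈ B, c j • h j)) := by
    refine ⟨S, B, D, fun j => t⁻¹ * c j, ‖t‖⁻¹ * τ, by positivity, hSB, hSD, hc, ?_, ?_, ?_, ?_⟩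
    · intro j hj
      obtain ⟨e1, e2⟩ := h1 j hj
      rw [map_smul, smul_eq_mul, norm_mul] at e1
      rw [norm_mul, norm_inv]
      constructor
      · rw [inv_mul_le_iff₀ ht']
        exact e1
      · exact mul_le_mul_of_nonneg_left e2 (by positivity)
    · intro j hj
      rw [norm_mul, norm_inv]
      exact mul_le_mul_of_nonneg_left (h2 j hj) (by positivity)
    · intro n hn
      have e := h3 n hn
      rw [map_smul, smul_eq_mul, norm_mul] at e
      rw [inv_mul_le_iff₀ ht']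
      exact e
    · rw [smul_add, Finset.smul_sum, Finset.smul_sum]
      congr 1 <;> exact Finset.sum_congr rfl fun j _ => by rw [smul_smul]
  have h4 := le_NN H key
  rw [norm_smul, norm_inv, inv_mul_le_iff₀ ht'] at h4
  exact h4

theorem NN_zero (H : GB h a K) : NN h a (0 : X) = 0 := by
  apply le_antisymm _ (NN_nonneg H 0)
  have := NN_upper H (0 : X)
  simpa using this

theorem NN_smul (H : GB h a K) (t : 𝕜) (f : X) : NN h a (t • f) = ‖t‖ * NN h a f := by
  by_cases ht : t = 0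
  · subst ht
    rw [zero_smul, NN_zero H, norm_zero, zero_mul]
  · apply le_antisymm (NN_smul_le H ht f)
    have h1 := NN_smul_le H (inv_ne_zero ht) (t • f)
    rw [smul_smul, inv_mul_cancel₀ ht, one_smul, norm_inv] at h1
    have ht' : 0 < ‖t‖ := norm_pos_iff.mpr ht
    rw [le_inv_mul_iff₀ ht'] at h1
    exact h1

/-- Splitting a scalar. -/
theorem split2 (c : 𝕜) {A B : ℝ} (hA : 0 ≤ A) (hB : 0 ≤ B) (hc : ‖c‖ ≤ A + B) :
    ∃ c1 c2 : 𝕜, c = c1 + c2 ∧ ‖c1‖ ≤ A ∧ ‖c2‖ ≤ B := by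
  by_cases h : ‖c‖ ≤ A
  · exact ⟨c, 0, by simp, h, by simpa using hB⟩
  · push Not at h
    have hc0 : 0 < ‖c‖ := lt_of_le_of_lt hA h
    refine ⟨((A / ‖c‖ : ℝ) : 𝕜) * c, ((1 - A / ‖c‖ : ℝ) : 𝕜) * c, ?_, ?_, ?_⟩
    · push_cast
      ring
    · rw [norm_mul, RCLike.norm_ofReal, abs_of_nonneg (by positivity)]
      rw [div_mul_cancel₀ _ hc0.ne']
    · have h2 : A / ‖c‖ ≤ 1 := by rw [div_le_one hc0]; exact h.le
      rw [norm_mul, RCLike.norm_ofReal, abs_of_nonneg (by linarith), sub_mul,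
        div_mul_cancel₀ _ hc0.ne']
      linarith

theorem split3 (c : 𝕜) {α β τ ρ : ℝ} (hα : 0 ≤ α) (hβ : 0 ≤ β) (hτ : 0 ≤ τ) (hρ : 0 ≤ ρ)
    (h1 : ‖c‖ ≤ α + β) (h2 : ‖c‖ ≤ τ + ρ) :
    ∃ c1 c2 c3 : 𝕜, c = c1 + c2 + c3 ∧ ‖c1‖ ≤ α ∧ ‖c1‖ ≤ τ ∧ ‖c2‖ ≤ ρ ∧ (α < τ → c2 = 0) ∧
      ‖c3‖ ≤ β := by
  rcases lt_or_ge α τ with h | h
  · obtain ⟨c1, c3, e, e1, e3⟩ := split2 c hα hβ h1
    exact ⟨c1, 0, c3, by simpa using e, e1, e1.trans h.le, by simpa using hρ, fun _ => rfl, e3⟩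
  · obtain ⟨c1, c2, e, e1, e2⟩ := split2 c hτ hρ h2
    exact ⟨c1, c2, 0, by simpa using e, e1.trans h, e1, e2, fun h' => absurd h' (not_lt.mpr h),
      by simpa using hβ⟩

theorem dem' (H : GB h a K) (f : X) (B D : Finset ι) (c : ι → 𝕜) {τ σ : ℝ} (hτ : 0 < τ)
    (hσ : 0 < σ) (hcard : B.card ≤ D.card) (hB : ∀ j ∈ B, ‖c j‖ ≤ σ)
    (hD : ∀ n ∈ D, τ ≤ ‖a n f‖) : ‖∑ j ∈ B, c j • h j‖ ≤ K * (σ / τ) * ‖f‖ := by
  have h1 := H.dem (((σ / τ : ℝ) : 𝕜) • f) B D c σ hσ hcard hB (by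
    intro n hn
    rw [map_smul, smul_eq_mul, norm_mul, RCLike.norm_ofReal, abs_of_pos (by positivity)]
    have := mul_le_mul_of_nonneg_left (hD n hn) (by positivity : 0 ≤ σ / τ)
    rwa [div_mul_cancel₀ _ hτ.ne'] at this)
  rw [norm_smul, RCLike.norm_ofReal, abs_of_pos (by positivity)] at h1
  linarith

/-- The key estimate. -/
theorem key (H : GB h a K) (f g : X) {η : ℝ} (hη : 0 < η) (hη2 : η ≤ 1 / 2) :
    NN h a (f + g) ≤ NN h a f + K * (4 * η * ‖f‖ + ‖g‖ / η + ‖g‖) := by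
  classical
  apply NN_le
  rintro v ⟨S, B, D, c, τ, hτ, hSB, hSD, hcard, h1, h2, h3, rfl⟩
  set ρ := η * τ with hρdef
  set τ' := τ - ρ with hτ'def
  have hρ : 0 < ρ := by positivity
  have hτ'2 : τ / 2 ≤ τ' := by
    rw [hτ'def, hρdef]
    nlinarith
  have hτ' : 0 < τ' := by linarith
  have hsum : τ' + ρ = τ := by rw [hτ'def]; ring
  have hK : 0 ≤ K := by linarith [H.K1]
  have hratio : ρ / τ' ≤ 2 * η := by
    rw [div_le_iff₀ hτ', hρdef]
    nlinarith
  have hratio2 : τ / ρ = 1 / η := by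
    rw [hρdef]
    field_simp
  -- splitting on S
  have hs : ∀ j, ∃ c1 c2 c3 : 𝕜, j ∈ S → (c j = c1 + c2 + c3 ∧ ‖c1‖ ≤ ‖a j f‖ ∧ ‖c1‖ ≤ τ' ∧
      ‖c2‖ ≤ ρ ∧ (‖a j f‖ < τ' → c2 = 0) ∧ ‖c3‖ ≤ ‖a j g‖) := by
    intro j
    by_cases hj : j ∈ S
    · obtain ⟨e1, e2⟩ := h1 j hj
      rw [map_add] at e1
      obtain ⟨c1, c2, c3, hh⟩ := split3 (c j) (norm_nonneg (a j f)) (norm_nonneg (a j g)) hτ'.le
        hρ.le (e1.trans (norm_add_le _ _)) (by rw [hsum]; exact e2)
      exact ⟨c1, c2, c3, fun _ => hh⟩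
    · exact ⟨0, 0, 0, fun h => absurd h hj⟩
  choose c1 c2 c3 hc using hs
  -- splitting D
  set D1 := D.filter (fun n => τ' ≤ ‖a n f‖) with hD1
  set D2 := D.filter (fun n => ¬ τ' ≤ ‖a n f‖) with hD2
  have hDcard : D1.card + D2.card = D.card := Finset.card_filter_add_card_filter_not _
  -- splitting B
  obtain ⟨B1, B2, hBu, hBd, hB1, hB2⟩ : ∃ B1 B2 : Finset ι, B = B1 ∪ B2 ∧ Disjoint B1 B2 ∧
      B1.card ≤ D1.card ∧ B2.card ≤ D2.card := by
    by_cases hle : B.card ≤ D1.card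
    · exact ⟨B, ∅, by simp, by simp, hle, by simp⟩
    · obtain ⟨B1, hB1s, hB1c⟩ := Finset.exists_subset_card_eq (le_of_lt (not_le.mp hle))
      refine ⟨B1, B \ B1, by rw [Finset.union_sdiff_of_subset hB1s], Finset.disjoint_sdiff,
        hB1c.le, ?_⟩
      rw [Finset.card_sdiff_of_subset hB1s]
      omega
  have hB1B : B1 ⊆ B := by rw [hBu]; exact Finset.subset_union_left
  have hB2B : B2 ⊆ B := by rw [hBu]; exact Finset.subset_union_right
  have hb : ∀ j, ∃ d1 d2 : 𝕜, j ∈ B1 → (c j = d1 + d2 ∧ ‖d1‖ ≤ τ' ∧ ‖d2‖ ≤ ρ) := by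
    intro j
    by_cases hj : j ∈ B1
    · obtain ⟨d1, d2, hh⟩ := split2 (c j) hτ'.le hρ.le (by rw [hsum]; exact h2 j (hB1B hj))
      exact ⟨d1, d2, fun _ => hh⟩
    · exact ⟨0, 0, fun h => absurd h hj⟩
  choose d1 d2 hd using hb
  -- decomposition
  have hSsum : ∑ j ∈ S, c j • h j = ∑ j ∈ S, c1 j • h j + ∑ j ∈ S, c2 j • h j +
      ∑ j ∈ S, c3 j • h j := by
    rw [← Finset.sum_add_distrib, ← Finset.sum_add_distrib]
    apply Finset.sum_congr rfl
    intro j hj
    rw [(hc j hj).1, add_smul, add_smul]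
  have hBsum : ∑ j ∈ B, c j • h j = ∑ j ∈ B1, d1 j • h j + ∑ j ∈ B1, d2 j • h j +
      ∑ j ∈ B2, c j • h j := by
    rw [hBu, Finset.sum_union hBd, ← Finset.sum_add_distrib]
    congr 1
    apply Finset.sum_congr rfl
    intro j hj
    rw [← add_smul, ← (hd j hj).1]
  -- the admissible part
  have hadm : Adm h a f (∑ j ∈ S, c1 j • h j + ∑ j ∈ B1, d1 j • h j) := by
    refine ⟨S, B1, D1, fun j => if j ∈ S then c1 j else d1 j, τ', hτ',
      hSB.mono_right hB1B, hSD.mono_right (Finset.filter_subset _ _), hB1, ?_, ?_, ?_, ?_⟩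
    · intro j hj
      simp only [if_pos hj]
      exact ⟨(hc j hj).2.1, (hc j hj).2.2.1⟩
    · intro j hj
      have hjS : j ∉ S := fun hS => (Finset.disjoint_left.mp hSB hS) (hB1B hj)
      simp only [if_neg hjS]
      exact (hd j hj).2.1
    · intro n hn
      exact (Finset.mem_filter.mp hn).2
    · congr 1
      · apply Finset.sum_congr rfl
        intro j hj
        simp only [if_pos hj]
      · apply Finset.sum_congr rfl
        intro j hj
        have hjS : j ∉ S := fun hS => (Finset.disjoint_left.mp hSB hS) (hB1B hj)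
        simp only [if_neg hjS]
  have e0 := le_NN H hadm
  -- the part c2
  have e1 : ‖∑ j ∈ S, c2 j • h j‖ ≤ K * (2 * η) * ‖f‖ := by
    have hfil : ∑ j ∈ S, c2 j • h j = ∑ j ∈ S.filter (fun j => τ' ≤ ‖a j f‖), c2 j • h j := by
      rw [Finset.sum_filter]
      apply Finset.sum_congr rfl
      intro j hj
      split_ifs with hif
      · rfl
      · rw [(hc j hj).2.2.2.2.1 (not_le.mp hif), zero_smul]
    rw [hfil]
    have := dem' H f (S.filter (fun j => τ' ≤ ‖a j f‖)) (S.filter (fun j => τ' ≤ ‖a j f‖)) c2 hτ' hρ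
      le_rfl (fun j hj => (hc j (Finset.mem_filter.mp hj).1).2.2.2.1)
      (fun n hn => (Finset.mem_filter.mp hn).2)
    refine this.trans ?_
    gcongr
  have e2 : ‖∑ j ∈ S, c3 j • h j‖ ≤ K * ‖g‖ := H.unc g S c3 (fun j hj => (hc j hj).2.2.2.2.2)
  have e3 : ‖∑ j ∈ B1, d2 j • h j‖ ≤ K * (2 * η) * ‖f‖ := by
    have := dem' H f B1 D1 d2 hτ' hρ hB1 (fun j hj => (hd j hj).2.2)
      (fun n hn => (Finset.mem_filter.mp hn).2)
    refine this.trans ?_
    gcongr
  have e4 : ‖∑ j ∈ B2, c j • h j‖ ≤ K * (1 / η) * ‖g‖ := by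
    have := dem' H g B2 D2 c hρ hτ hB2 (fun j hj => h2 j (hB2B hj)) (by
      intro n hn
      obtain ⟨hn1, hn2⟩ := Finset.mem_filter.mp hn
      have hh := h3 n hn1
      rw [map_add] at hh
      have := norm_add_le (a n f) (a n g)
      push Not at hn2
      linarith)
    rwa [hratio2] at this
  rw [hSsum, hBsum]
  have hre : ∑ j ∈ S, c1 j • h j + ∑ j ∈ S, c2 j • h j + ∑ j ∈ S, c3 j • h j +
      (∑ j ∈ B1, d1 j • h j + ∑ j ∈ B1, d2 j • h j + ∑ j ∈ B2, c j • h j) =
      (∑ j ∈ S, c1 j • h j + ∑ j ∈ B1, d1 j • h j) + ∑ j ∈ S, c2 j • h j + ∑ j ∈ S, c3 j • h j +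
      ∑ j ∈ B1, d2 j • h j + ∑ j ∈ B2, c j • h j := by abel
  rw [hre]
  have t1 := norm_add_le ((∑ j ∈ S, c1 j • h j + ∑ j ∈ B1, d1 j • h j) + ∑ j ∈ S, c2 j • h j +
    ∑ j ∈ S, c3 j • h j + ∑ j ∈ B1, d2 j • h j) (∑ j ∈ B2, c j • h j)
  have t2 := norm_add_le ((∑ j ∈ S, c1 j • h j + ∑ j ∈ B1, d1 j • h j) + ∑ j ∈ S, c2 j • h j +
    ∑ j ∈ S, c3 j • h j) (∑ j ∈ B1, d2 j • h j)
  have t3 := norm_add_le ((∑ j ∈ S, c1 j • h j + ∑ j ∈ B1, d1 j • h j) + ∑ j ∈ S, c2 j • h j)
    (∑ j ∈ S, c3 j • h j)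
  have t4 := norm_add_le (∑ j ∈ S, c1 j • h j + ∑ j ∈ B1, d1 j • h j) (∑ j ∈ S, c2 j • h j)
  have hfin : K * (4 * η * ‖f‖ + ‖g‖ / η + ‖g‖) =
      K * (2 * η) * ‖f‖ + K * ‖g‖ + K * (2 * η) * ‖f‖ + K * (1 / η) * ‖g‖ := by ring
  rw [hfin]
  linarith

/-- The `s`-triangle inequality when `N g ≤ N f`. -/
theorem s_tri_aux (H : GB h a K) (f g : X) (hfg : NN h a g ≤ NN h a f) :
    NN h a (f + g) ^ (1 / (5 * K)) ≤ NN h a f ^ (1 / (5 * K)) + NN h a g ^ (1 / (5 * K)) := by
  have hK := H.K1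
  have hs0 : 0 < 1 / (5 * K) := by positivity
  have hs1 : 1 / (5 * K) ≤ 1 / 5 := by
    apply one_div_le_one_div_of_le (by norm_num)
    linarith
  rcases eq_or_lt_of_le (NN_nonneg H g) with hg0 | hg0
  · have : g = 0 := by
      have := NN_lower H g
      rw [← hg0] at this
      exact norm_le_zero_iff.mp this
    subst this
    rw [add_zero, ← hg0, Real.zero_rpow hs0.ne', add_zero]
  · have hf0 : 0 < NN h a f := lt_of_lt_of_le hg0 hfg
    set x := NN h a f with hx
    set y := NN h a g with hy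
    set δ := y / x with hδ
    have hδ0 : 0 < δ := by positivity
    have hδ1 : δ ≤ 1 := by rw [hδ, div_le_one hf0]; exact hfg
    set r := Real.sqrt δ with hr
    have hr0 : 0 < r := Real.sqrt_pos.mpr hδ0
    have hrr : r * r = δ := Real.mul_self_sqrt hδ0.le
    have hr1 : r ≤ 1 := by
      rw [hr]
      exact Real.sqrt_le_one.mpr hδ1
    have hyx : y = r * r * x := by
      rw [hrr, hδ]
      field_simp
    have hk := key H f g (η := r / 2) (by positivity) (by linarith)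
    have hnf := NN_lower H f
    have hng := NN_lower H g
    rw [← hx] at hnf
    rw [← hy] at hng
    have hk2 : NN h a (f + g) ≤ x * (1 + 5 * K * r) := by
      refine hk.trans ?_
      have e1 : 4 * (r / 2) * ‖f‖ ≤ 2 * r * x := by nlinarith
      have e2 : ‖g‖ / (r / 2) ≤ 2 * r * x := by
        rw [div_le_iff₀ (by positivity)]
        rw [hyx] at hng
        nlinarith
      have e3 : ‖g‖ ≤ r * x := by
        rw [hyx] at hng
        nlinarith [mul_pos hr0 hf0]
      have e4 : 4 * (r / 2) * ‖f‖ + ‖g‖ / (r / 2) + ‖g‖ ≤ 5 * (r * x) := by linarith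
      have e5 := mul_le_mul_of_nonneg_left e4 (by linarith : 0 ≤ K)
      linarith
    have hb := rpow_one_add_le_one_add_mul_self (s := 5 * K * r) (by nlinarith) hs0.le
      (by linarith : 1 / (5 * K) ≤ 1)
    have hb2 : 1 / (5 * K) * (5 * K * r) = r := by field_simp
    rw [hb2] at hb
    have hrs : r ≤ δ ^ (1 / (5 * K)) := by
      rw [hr, Real.sqrt_eq_rpow]
      apply Real.rpow_le_rpow_of_exponent_ge hδ0 hδ1
      linarith
    calc NN h a (f + g) ^ (1 / (5 * K)) ≤ (x * (1 + 5 * K * r)) ^ (1 / (5 * K)) :=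
          Real.rpow_le_rpow (NN_nonneg H _) hk2 hs0.le
      _ = x ^ (1 / (5 * K)) * (1 + 5 * K * r) ^ (1 / (5 * K)) :=
          Real.mul_rpow hf0.le (by positivity)
      _ ≤ x ^ (1 / (5 * K)) * (1 + δ ^ (1 / (5 * K))) := by
          apply mul_le_mul_of_nonneg_left _ (by positivity)
          linarith
      _ = x ^ (1 / (5 * K)) + y ^ (1 / (5 * K)) := by
          rw [hδ, Real.div_rpow hg0.le hf0.le]
          field_simp

theorem s_tri (H : GB h a K) (f g : X) :
    NN h a (f + g) ^ (1 / (5 * K)) ≤ NN h a f ^ (1 / (5 * K)) + NN h a g ^ (1 / (5 * K)) := by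
  rcases le_total (NN h a g) (NN h a f) with h1 | h1
  · exact s_tri_aux H f g h1
  · rw [add_comm f g, add_comm (NN h a f ^ _)]
    exact s_tri_aux H g f h1

/-- `1`-greediness. -/
theorem one_greedy (H : GB h a K) (f : X) (A : Finset ι)
    (hA : ∀ i ∈ A, ∀ j ∉ A, ‖a j f‖ ≤ ‖a i f‖) (B : Finset ι) (hB : B.card ≤ A.card) (b : ι → 𝕜) :
    NN h a (f - ∑ j ∈ A, a j f • h j) ≤ NN h a (f - ∑ j ∈ B, b j • h j) := by
  classical
  set u := f - ∑ j ∈ A, a j f • h j with hu
  set w := f - ∑ j ∈ B, b j • h j with hw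
  have hsumA : ∀ (E : Finset ι) (e : ι → 𝕜) (i : ι),
      a i (∑ j ∈ E, e j • h j) = if i ∈ E then e i else 0 := by
    intro E e i
    rw [map_sum]
    simp only [map_smul, H.bio, smul_eq_mul, mul_ite, mul_one, mul_zero]
    rw [Finset.sum_ite_eq]
  have huA : ∀ j ∈ A, a j u = 0 := by
    intro j hj
    rw [hu, map_sub, hsumA, if_pos hj, sub_self]
  have huA' : ∀ j ∉ A, a j u = a j f := by
    intro j hj
    rw [hu, map_sub, hsumA, if_neg hj, sub_zero]
  have hwB : ∀ j ∉ B, a j w = a j f := by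
    intro j hj
    rw [hw, map_sub, hsumA, if_neg hj, sub_zero]
  apply NN_le
  rintro v ⟨S, B1, D, c, τ, hτ, hSB, hSD, hcard, h1, h2, h3, rfl⟩
  apply le_NN H
  -- nonempty `A`
  rcases A.eq_empty_or_nonempty with hAe | hAne
  · have hBe : B = ∅ := by
      rw [hAe, Finset.card_empty] at hB
      exact Finset.card_eq_zero.mp (Nat.le_zero.mp hB)
    have huw : u = w := by rw [hu, hw, hAe, hBe, Finset.sum_empty, Finset.sum_empty]
    rw [← huw]
    exact ⟨S, B1, D, c, τ, hτ, hSB, hSD, hcard, h1, h2, h3, rfl⟩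
  obtain ⟨i₀, hi₀, hmin⟩ := Finset.exists_min_image A (fun i => ‖a i f‖) hAne
  set t := ‖a i₀ f‖ with ht
  have hut : ∀ j, ‖a j u‖ ≤ t := by
    intro j
    by_cases hj : j ∈ A
    · rw [huA j hj, norm_zero]
      exact norm_nonneg _
    · rw [huA' j hj]
      exact hA i₀ hi₀ j hj
  have hAw : ∀ j ∈ A \ B, t ≤ ‖a j w‖ := by
    intro j hj
    obtain ⟨hj1, hj2⟩ := Finset.mem_sdiff.mp hj
    rw [hwB j hj2]
    exact hmin j hj1
  -- the elements of `D`
  have hDA : Disjoint D A := by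
    rw [Finset.disjoint_left]
    intro n hn hnA
    have := h3 n hn
    rw [huA n hnA, norm_zero] at this
    linarith
  have hc0 : ∀ j ∈ S, j ∈ A → c j = 0 := by
    intro j hj hjA
    have := (h1 j hj).1
    rw [huA j hjA, norm_zero] at this
    exact norm_le_zero_iff.mp this
  rcases lt_or_ge t τ with htτ | htτ
  · -- then `D` is empty
    have hDe : D = ∅ := by
      rw [Finset.eq_empty_iff_forall_notMem]
      intro n hn
      have := h3 n hn
      have := hut n
      linarith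
    have hB1e : B1 = ∅ := by
      rw [hDe, Finset.card_empty] at hcard
      exact Finset.card_eq_zero.mp (Nat.le_zero.mp hcard)
    -- use threshold `t` if positive
    rcases eq_or_lt_of_le (norm_nonneg (a i₀ f)) with h0 | h0
    · -- all coefficients vanish
      have hz : ∑ j ∈ S, c j • h j + ∑ j ∈ B1, c j • h j = 0 := by
        rw [hB1e, Finset.sum_empty, add_zero]
        apply Finset.sum_eq_zero
        intro j hj
        have := (h1 j hj).1
        have h5 := hut j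
        rw [ht, ← h0] at h5
        have : c j = 0 := norm_le_zero_iff.mp (this.trans h5)
        rw [this, zero_smul]
      rw [hz]
      exact adm_zero w
    · refine ⟨S \ (A ∪ B), (S ∩ B) \ A, A \ B, c, t, h0, ?_, ?_, ?_, ?_, ?_, hAw, ?_⟩
      · rw [Finset.disjoint_left]
        intro j hj hj'
        simp only [Finset.mem_sdiff, Finset.mem_union, Finset.mem_inter] at hj hj'
        tauto
      · rw [Finset.disjoint_left]
        intro j hj hj'
        simp only [Finset.mem_sdiff, Finset.mem_union] at hj hj'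
        tauto
      · have e1 : ((S ∩ B) \ A).card ≤ (B \ A).card := by
          apply Finset.card_le_card
          intro j hj
          simp only [Finset.mem_sdiff, Finset.mem_inter] at hj ⊢
          tauto
        have e2 := Finset.card_sdiff_add_card_inter B A
        have e3 := Finset.card_sdiff_add_card_inter A B
        rw [Finset.inter_comm] at e3
        omega
      · intro j hj
        simp only [Finset.mem_sdiff, Finset.mem_union, not_or] at hj
        have h6 := (h1 j hj.1).1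
        refine ⟨?_, h6.trans (hut j)⟩
        rw [hwB j hj.2.2, ← huA' j hj.2.1]
        exact h6
      · intro j hj
        simp only [Finset.mem_sdiff, Finset.mem_inter] at hj
        exact ((h1 j hj.1.1).1).trans (hut j)
      · rw [hB1e, Finset.sum_empty, add_zero]
        have hdis : Disjoint (S \ (A ∪ B)) ((S ∩ B) \ A) := by
          rw [Finset.disjoint_left]
          intro j hj hj'
          simp only [Finset.mem_sdiff, Finset.mem_union, Finset.mem_inter] at hj hj'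
          tauto
        rw [← Finset.sum_union hdis]
        symm
        apply Finset.sum_subset
        · intro j hj
          simp only [Finset.mem_sdiff, Finset.mem_union, Finset.mem_inter] at hj
          tauto
        · intro j hj hj'
          simp only [Finset.mem_sdiff, Finset.mem_union, Finset.mem_inter] at hj'
          have : j ∈ A := by tauto
          rw [hc0 j hj this, zero_smul]
  · refine ⟨S \ (A ∪ B), B1 ∪ ((S ∩ B) \ A), (D \ B) ∪ (A \ B), c, τ, hτ, ?_, ?_, ?_, ?_, ?_, ?_, ?_⟩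
    · rw [Finset.disjoint_left] at hSB ⊢
      intro j hj hj'
      have := hSB (a := j)
      simp only [Finset.mem_sdiff, Finset.mem_union, Finset.mem_inter] at hj hj'
      tauto
    · rw [Finset.disjoint_left] at hSD ⊢
      intro j hj hj'
      have := hSD (a := j)
      simp only [Finset.mem_sdiff, Finset.mem_union] at hj hj'
      tauto
    · have hd1 : Disjoint (D \ B) (A \ B) :=
        (hDA.mono_left Finset.sdiff_subset).mono_right Finset.sdiff_subset
      rw [Finset.card_union_of_disjoint hd1]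
      have e1 : (B1 ∪ ((S ∩ B) \ A)).card ≤ B1.card + ((S ∩ B) \ A).card :=
        Finset.card_union_le _ _
      have e2 := Finset.card_sdiff_add_card_inter B A
      have e3 := Finset.card_sdiff_add_card_inter A B
      rw [Finset.inter_comm] at e3
      have e4 := Finset.card_sdiff_add_card_inter D B
      have hd2 : Disjoint (D ∩ B) ((S ∩ B) \ A) := by
        rw [Finset.disjoint_left] at hSD ⊢
        intro j hj hj'
        have := hSD (a := j)
        simp only [Finset.mem_sdiff, Finset.mem_inter] at hj hj'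
        tauto
      have e5 : (D ∩ B).card + ((S ∩ B) \ A).card ≤ (B \ A).card := by
        rw [← Finset.card_union_of_disjoint hd2]
        apply Finset.card_le_card
        intro j hj
        rw [Finset.disjoint_left] at hDA
        have := hDA (a := j)
        simp only [Finset.mem_sdiff, Finset.mem_inter, Finset.mem_union] at hj ⊢
        tauto
      omega
    · intro j hj
      simp only [Finset.mem_sdiff, Finset.mem_union, not_or] at hj
      obtain ⟨h6, h7⟩ := h1 j hj.1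
      refine ⟨?_, h7⟩
      rw [hwB j hj.2.2, ← huA' j hj.2.1]
      exact h6
    · intro j hj
      rcases Finset.mem_union.mp hj with hj | hj
      · exact h2 j hj
      · simp only [Finset.mem_sdiff, Finset.mem_inter] at hj
        exact (h1 j hj.1.1).2
    · intro n hn
      rcases Finset.mem_union.mp hn with hn | hn
      · obtain ⟨hn1, hn2⟩ := Finset.mem_sdiff.mp hn
        have hnA : n ∉ A := Finset.disjoint_left.mp hDA hn1
        rw [hwB n hn2, ← huA' n hnA]
        exact h3 n hn1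
      · exact htτ.trans (hAw n hn)
    · have hd3 : Disjoint B1 ((S ∩ B) \ A) := by
        rw [Finset.disjoint_left] at hSB ⊢
        intro j hj hj'
        have := hSB (a := j)
        simp only [Finset.mem_sdiff, Finset.mem_inter] at hj'
        tauto
      rw [Finset.sum_union hd3]
      have hdis : Disjoint (S \ (A ∪ B)) ((S ∩ B) \ A) := by
        rw [Finset.disjoint_left]
        intro j hj hj'
        simp only [Finset.mem_sdiff, Finset.mem_union, Finset.mem_inter] at hj hj'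
        tauto
      have hS : ∑ j ∈ S, c j • h j = ∑ j ∈ S \ (A ∪ B), c j • h j + ∑ j ∈ (S ∩ B) \ A, c j • h j := by
        rw [← Finset.sum_union hdis]
        symm
        apply Finset.sum_subset
        · intro j hj
          simp only [Finset.mem_sdiff, Finset.mem_union, Finset.mem_inter] at hj
          tauto
        · intro j hj hj'
          simp only [Finset.mem_sdiff, Finset.mem_union, Finset.mem_inter] at hj'
          have : j ∈ A := by tauto
          rw [hc0 j hj this, zero_smul]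
      rw [hS]
      abel

end

end Pool.Agent.Q196.SGreedy
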