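import Pool.Agent.Q196.HaarC2
import Pool.Agent.Q196.SGreedyAbs

/-!
Democracy of the Haar system; extension to complex scalars.
-/

open MeasureTheory Pool.Agent.Helper415.HA
open scoped ENNReal

namespace Pool.Agent.Q196.HC

/-- The normalising base `2^{1/P}`. -/
noncomputable def bb (P : ℝ) : ℝ := 2 ^ (1 / P)

theorem bb_pos (P : ℝ) : 0 < bb P := by unfold bb; positivity

theorem bb_gt {P : ℝ} (hP : 0 < P) : 1 < bb P := by
  unfold bb
  exact Real.one_lt_rpow (by norm_num) (by positivity)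

theorem bb_pow {P : ℝ} (hP : 0 < P) (n : ℕ) : (bb P ^ n) ^ P = 2 ^ n := by
  unfold bb
  rw [← Real.rpow_natCast, ← Real.rpow_mul (by positivity), ← Real.rpow_mul (by positivity)]
  have : 1 / P * ((n : ℝ) * P) = n := by field_simp
  rw [this, Real.rpow_natCast]

theorem bb_conj {P Q : ℝ} (h : P.HolderConjugate Q) : bb P * bb Q = 2 := by
  unfold bb
  rw [← Real.rpow_add (by norm_num)]
  have := h.inv_add_inv_eq_one
  rw [one_div, one_div, this, Real.rpow_one]

/-- The majorant of Haar polynomials. -/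
noncomputable def WB (P : ℝ) (B : Finset Idx) (x : ℝ) : ℝ :=
  ∑ j ∈ B, bb P ^ lev j * ind (lev j) (cel j) x

theorem WB_nonneg (P : ℝ) (B : Finset Idx) (x : ℝ) : 0 ≤ WB P B x :=
  Finset.sum_nonneg fun _ _ => mul_nonneg (pow_nonneg (bb_pos P).le _) (ind_nonneg _ _ _)

/-- The constant. -/
noncomputable def KB (P : ℝ) : ℝ := 2 * (bb P / (bb P - 1))

theorem KB_pos {P : ℝ} (hP : 0 < P) : 0 < KB P := by
  have h1 := bb_gt hP
  have h2 : 0 < bb P - 1 := by linarith
  have := bb_pos P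
  unfold KB
  positivity

theorem WB_pow {P : ℝ} (hP : 0 < P) (B : Finset Idx) (x : ℝ) :
    WB P B x ^ P ≤ KB P ^ P * ∑ j ∈ B, 2 ^ lev j * ind (lev j) (cel j) x := by
  classical
  set Bx := B.filter (fun j => cell (lev j) x = cel j) with hBx
  have hb1 := bb_gt hP
  have hb0 := bb_pos P
  have e1 : ∀ u : ℕ → ℝ, ∑ j ∈ B, u (lev j) * ind (lev j) (cel j) x = ∑ j ∈ Bx, u (lev j) := by
    intro u
    rw [hBx, Finset.sum_filter]
    apply Finset.sum_congr rfl
    intro j _
    unfold ind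
    split_ifs <;> ring
  unfold WB
  rw [e1 (fun n => bb P ^ n), e1 (fun n => 2 ^ n)]
  rcases Bx.eq_empty_or_nonempty with h0 | h0
  · rw [h0]
    simp [hP.ne']
  · obtain ⟨i, hi, hmax⟩ := Finset.exists_max_image Bx lev h0
    set m := lev i with hm
    have h1 : ∑ j ∈ Bx, bb P ^ lev j ≤ KB P * bb P ^ m := by
      rw [Finset.sum_comp (fun n => bb P ^ n) lev]
      have h2 : ∑ b ∈ Bx.image lev, (Bx.filter (fun a => lev a = b)).card • bb P ^ b ≤
          ∑ b ∈ Finset.range (m + 1), 2 * bb P ^ b := by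
        have h3 : ∑ b ∈ Bx.image lev, (Bx.filter (fun a => lev a = b)).card • bb P ^ b ≤
            ∑ b ∈ Bx.image lev, 2 * bb P ^ b := by
          apply Finset.sum_le_sum
          intro b _
          rw [nsmul_eq_mul]
          apply mul_le_mul_of_nonneg_right _ (by positivity)
          have hc : (Bx.filter (fun a => lev a = b)).card ≤ 2 := by
            by_cases hcb : cell b x < 2 ^ b
            · have hsub : Bx.filter (fun a => lev a = b) ⊆
                  {none, some ⟨b, ⟨cell b x, hcb⟩⟩} := by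
                intro a ha
                obtain ⟨ha1, ha2⟩ := Finset.mem_filter.mp ha
                have ha3 := (Finset.mem_filter.mp ha1).2
                rcases a with _ | ⟨n, k⟩
                · simp
                · have hn : n = b := ha2
                  subst hn
                  have hk : cell n x = (k : ℕ) := ha3
                  have : k = ⟨cell n x, hcb⟩ := Fin.ext hk.symm
                  rw [this]
                  simp
              exact (Finset.card_le_card hsub).trans (Finset.card_le_two)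
            · have hsub : Bx.filter (fun a => lev a = b) ⊆ {none} := by
                intro a ha
                obtain ⟨ha1, ha2⟩ := Finset.mem_filter.mp ha
                have ha3 := (Finset.mem_filter.mp ha1).2
                rcases a with _ | ⟨n, k⟩
                · simp
                · have hn : n = b := ha2
                  subst hn
                  have hk : cell n x = (k : ℕ) := ha3
                  exact absurd (hk ▸ k.2) hcb
              exact (Finset.card_le_card hsub).trans (by simp)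
          exact_mod_cast hc
        refine h3.trans ?_
        apply Finset.sum_le_sum_of_subset_of_nonneg
        · intro b hb
          obtain ⟨a, ha, rfl⟩ := Finset.mem_image.mp hb
          exact Finset.mem_range.mpr (Nat.lt_succ_of_le (hmax a ha))
        · intro b _ _
          positivity
      refine h2.trans ?_
      rw [← Finset.mul_sum, geom_sum_eq hb1.ne']
      unfold KB
      rw [pow_succ]
      have h4 : 0 < bb P - 1 := by linarith
      have h5 : (bb P ^ m * bb P - 1) / (bb P - 1) ≤ bb P ^ m * bb P / (bb P - 1) :=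
        div_le_div_of_nonneg_right (by linarith) h4.le
      calc 2 * ((bb P ^ m * bb P - 1) / (bb P - 1)) ≤ 2 * (bb P ^ m * bb P / (bb P - 1)) := by
            linarith
        _ = 2 * (bb P / (bb P - 1)) * bb P ^ m := by ring
    have h6 : 0 ≤ ∑ j ∈ Bx, bb P ^ lev j := Finset.sum_nonneg fun _ _ => by positivity
    have hKB := KB_pos hP
    calc (∑ j ∈ Bx, bb P ^ lev j) ^ P ≤ (KB P * bb P ^ m) ^ P :=
          Real.rpow_le_rpow h6 h1 hP.le
      _ = KB P ^ P * 2 ^ m := by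
          rw [Real.mul_rpow hKB.le (by positivity), bb_pow hP]
      _ ≤ KB P ^ P * ∑ j ∈ Bx, 2 ^ lev j := by
          apply mul_le_mul_of_nonneg_left _ (by positivity)
          have := Finset.single_le_sum (f := fun j => (2 : ℝ) ^ lev j)
            (fun _ _ => by positivity) hi
          exact this

theorem meas_WB (P : ℝ) (B : Finset Idx) : Measurable (WB P B) :=
  Finset.measurable_fun_sum _ fun j _ => (meas_ind _ _).const_mul _

theorem WB_bdd (P : ℝ) (B : Finset Idx) (x : ℝ) : |WB P B x| ≤ ∑ j ∈ B, bb P ^ lev j := by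
  rw [abs_of_nonneg (WB_nonneg P B x)]
  apply Finset.sum_le_sum
  intro j _
  exact mul_le_of_le_one_right (pow_nonneg (bb_pos P).le _) (ind_le_one _ _ _)

theorem WB_memLp (P : ℝ) (B : Finset Idx) (q : ℝ≥0∞) : MemLp (WB P B) q μ1 :=
  MemLp.of_bound (meas_WB P B).aestronglyMeasurable _ (Filter.Eventually.of_forall (WB_bdd P B))

theorem int_WB {P : ℝ} (hP : 0 < P) (B : Finset Idx) :
    ∫ x, WB P B x ^ P ∂μ1 ≤ KB P ^ P * B.card := by
  have h1 : Integrable (fun x => KB P ^ P * ∑ j ∈ B, 2 ^ lev j * ind (lev j) (cel j) x) μ1 := by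
    apply Integrable.const_mul
    exact integrable_finsetSum _ fun j _ => (integrable_ind _ _).const_mul _
  have h2 : ∫ x, WB P B x ^ P ∂μ1 ≤
      ∫ x, KB P ^ P * ∑ j ∈ B, 2 ^ lev j * ind (lev j) (cel j) x ∂μ1 := by
    apply integral_mono_of_nonneg _ h1 _
    · exact Filter.Eventually.of_forall fun x => Real.rpow_nonneg (WB_nonneg P B x) _
    · exact Filter.Eventually.of_forall fun x => WB_pow hP B x
  refine h2.trans (le_of_eq ?_)
  rw [integral_const_mul, integral_finsetSum _ (fun j _ => (integrable_ind _ _).const_mul _)]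
  congr 1
  have : ∀ j ∈ B, ∫ x, 2 ^ lev j * ind (lev j) (cel j) x ∂μ1 = 1 := by
    intro j _
    rw [integral_const_mul, int_ind_eq (cel_lt j), ← mul_pow]
    norm_num
  rw [Finset.sum_congr rfl this]
  simp

section

variable {𝕜 : Type*} [RCLike 𝕜] {p : ℝ≥0∞}

/-- The Haar functions normalised in `L_p`. -/
noncomputable def hN (𝕜 : Type*) [RCLike 𝕜] (p : ℝ≥0∞) (j : Idx) : Lp 𝕜 p μ1 :=
  ((bb p.toReal ^ lev j : ℝ) : 𝕜) • hU 𝕜 p j

/-- The Haar coefficients. -/
noncomputable def aN (𝕜 : Type*) [RCLike 𝕜] (p : ℝ≥0∞) [Fact (1 ≤ p)] (j : Idx) :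
    Lp 𝕜 p μ1 →ₗ[𝕜] 𝕜 :=
  (((2 / bb p.toReal) ^ lev j : ℝ) : 𝕜) • ipL 𝕜 p j

theorem aN_apply [Fact (1 ≤ p)] (j : Idx) (f : Lp 𝕜 p μ1) :
    aN 𝕜 p j f = (((2 / bb p.toReal) ^ lev j : ℝ) : 𝕜) * ipL 𝕜 p j f := rfl

theorem aN_hN [Fact (1 ≤ p)] (i j : Idx) : aN 𝕜 p i (hN 𝕜 p j) = if i = j then 1 else 0 := by
  rw [aN_apply, hN, map_smul, ipL_hU, smul_eq_mul]
  split_ifs with h
  · subst h
    rw [← RCLike.ofReal_mul, ← RCLike.ofReal_mul, ← mul_pow, ← mul_pow]
    have := bb_pos p.toReal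
    have e : 2 / bb p.toReal * (bb p.toReal * (1 / 2)) = 1 := by field_simp
    rw [e, one_pow, RCLike.ofReal_one]
  · simp

/-- Bound on combinations with bounded coefficients. -/
theorem D1 [Fact (1 ≤ p)] (hp0 : p ≠ 0) (hp : p ≠ ∞) (B : Finset Idx) (c : Idx → 𝕜) {τ : ℝ} (hτ : 0 ≤ τ)
    (hc : ∀ j ∈ B, ‖c j‖ ≤ τ) :
    ‖∑ j ∈ B, c j • hN 𝕜 p j‖ ≤ KB p.toReal * τ * (B.card : ℝ) ^ (1 / p.toReal) := by
  have hP : 0 < p.toReal := ENNReal.toReal_pos hp0 hp
  have hK := KB_pos hP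
  unfold hN
  simp only [smul_smul]
  have hce := coe_sum 𝕜 p B (fun j => c j * ((bb p.toReal ^ lev j : ℝ) : 𝕜))
  apply (Real.rpow_le_rpow_iff (norm_nonneg _) (by positivity) hP).mp
  rw [norm_rpow hp0 hp, Real.mul_rpow (by positivity) (by positivity),
    Real.mul_rpow (by positivity) hτ, ← Real.rpow_mul (by positivity),
    one_div_mul_cancel hP.ne', Real.rpow_one]
  have h1 : ∫ x, ‖(∑ j ∈ B, (c j * ((bb p.toReal ^ lev j : ℝ) : 𝕜)) • hU 𝕜 p j : Lp 𝕜 p μ1) x‖ ^
      p.toReal ∂μ1 ≤ ∫ x, τ ^ p.toReal * WB p.toReal B x ^ p.toReal ∂μ1 := by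
    apply integral_mono_of_nonneg
    · exact Filter.Eventually.of_forall fun x => by positivity
    · apply Integrable.const_mul
      have := (WB_memLp p.toReal B p).integrable_norm_rpow hp0 hp
      refine this.congr (Filter.Eventually.of_forall fun x => ?_)
      simp only
      rw [Real.norm_of_nonneg (WB_nonneg _ _ _)]
    · filter_upwards [hce] with x hx
      rw [hx, ← Real.mul_rpow hτ (WB_nonneg _ _ _)]
      apply Real.rpow_le_rpow (norm_nonneg _) _ hP.le
      refine (norm_sum_le _ _).trans ?_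
      unfold WB
      rw [Finset.mul_sum]
      apply Finset.sum_le_sum
      intro j hj
      rw [norm_mul, norm_mul, RCLike.norm_ofReal, RCLike.norm_ofReal, HH_abs,
        abs_of_nonneg (pow_nonneg (bb_pos _).le _), mul_assoc]
      exact mul_le_mul_of_nonneg_right (hc j hj)
        (mul_nonneg (pow_nonneg (bb_pos _).le _) (ind_nonneg _ _ _))
  refine h1.trans ?_
  rw [integral_const_mul]
  have h2 := int_WB hP B
  have h3 : 0 ≤ τ ^ p.toReal := by positivity
  calc τ ^ p.toReal * ∫ x, WB p.toReal B x ^ p.toReal ∂μ1 ≤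
        τ ^ p.toReal * (KB p.toReal ^ p.toReal * B.card) := mul_le_mul_of_nonneg_left h2 h3
    _ = _ := by ring

/-- Lower bound for functions with large coefficients. -/
theorem D2 [Fact (1 ≤ p)] (hp : p ≠ ∞) (h1 : 1 < p.toReal) (f : Lp 𝕜 p μ1) (D : Finset Idx) {τ : ℝ}
    (hD : ∀ n ∈ D, τ ≤ ‖aN 𝕜 p n f‖) :
    τ * (D.card : ℝ) ^ (1 / p.toReal) ≤ KB (Real.conjExponent p.toReal) * ‖f‖ := by
  classical
  set P := p.toReal with hPdef
  have hPQ := Real.HolderConjugate.conjExponent h1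
  set Q := Real.conjExponent P with hQdef
  have hP0 : 0 < P := by linarith
  have hQ1 : 1 < Q := hPQ.symm.lt
  have hQ0 : 0 < Q := by linarith
  have hp0 : p ≠ 0 := by
    intro h
    rw [h] at hPdef
    simp at hPdef
    linarith
  have hpP : p = ENNReal.ofReal P := (ENNReal.ofReal_toReal hp).symm
  have hK := KB_pos hQ0
  rcases D.eq_empty_or_nonempty with hDe | hDne
  · rw [hDe, Finset.card_empty, Nat.cast_zero, Real.zero_rpow (by positivity), mul_zero]
    positivity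
  have hfint := Lp_integrable 𝕜 p f
  have hcoef : ∀ j, ‖aN 𝕜 p j f‖ ≤ ∫ x, ‖f x‖ * (bb Q ^ lev j * ind (lev j) (cel j) x) ∂μ1 := by
    intro j
    rw [aN_apply, norm_mul, RCLike.norm_ofReal, ← hPdef]
    have e : 2 / bb P = bb Q := by
      rw [div_eq_iff (bb_pos P).ne', mul_comm]
      exact (bb_conj hPQ).symm
    rw [e, abs_of_nonneg (pow_nonneg (bb_pos _).le _), ipL_apply]
    refine (mul_le_mul_of_nonneg_left (norm_integral_le_integral_norm _)
      (pow_nonneg (bb_pos _).le _)).trans (le_of_eq ?_)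
    rw [← integral_const_mul]
    congr 1
    ext x
    rw [norm_mul, RCLike.norm_ofReal, HH_abs]
    ring
  have hsum : ∑ j ∈ D, ‖aN 𝕜 p j f‖ ≤ ∫ x, ‖f x‖ * WB Q D x ∂μ1 := by
    refine (Finset.sum_le_sum fun j _ => hcoef j).trans (le_of_eq ?_)
    rw [← integral_finsetSum]
    · congr 1
      ext x
      unfold WB
      rw [Finset.mul_sum]
    · intro j _
      have := (integrable_mul_ind hfint.norm (lev j) (cel j)).const_mul (bb Q ^ lev j)
      refine this.congr (Filter.Eventually.of_forall fun x => ?_)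
      ring
  have hfmem : MemLp (fun x => ‖f x‖) (ENNReal.ofReal P) μ1 := by
    rw [← hpP]; exact (Lp.memLp f).norm
  have hhol := integral_mul_norm_le_Lp_mul_Lq hPQ hfmem (WB_memLp Q D (ENNReal.ofReal Q))
  have e1 : (∫ x, ‖‖f x‖‖ ^ P ∂μ1) ^ (1 / P) = ‖f‖ := by
    have : ∫ x, ‖‖f x‖‖ ^ P ∂μ1 = ‖f‖ ^ P := by
      rw [hPdef, norm_rpow hp0 hp]
      simp only [norm_norm]
    rw [this, ← Real.rpow_mul (norm_nonneg _), mul_one_div_cancel hP0.ne', Real.rpow_one]
  have e2 : (∫ x, ‖WB Q D x‖ ^ Q ∂μ1) ^ (1 / Q) ≤ KB Q * (D.card : ℝ) ^ (1 / Q) := by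
    have e3 : ∫ x, ‖WB Q D x‖ ^ Q ∂μ1 = ∫ x, WB Q D x ^ Q ∂μ1 := by
      congr 1
      ext x
      rw [Real.norm_of_nonneg (WB_nonneg _ _ _)]
    rw [e3]
    have h0 : 0 ≤ ∫ x, WB Q D x ^ Q ∂μ1 :=
      integral_nonneg fun x => Real.rpow_nonneg (WB_nonneg _ _ _) _
    refine (Real.rpow_le_rpow h0 (int_WB hQ0 D) (by positivity)).trans (le_of_eq ?_)
    rw [Real.mul_rpow (Real.rpow_nonneg hK.le _) (Nat.cast_nonneg _), ← Real.rpow_mul hK.le,
      mul_one_div_cancel hQ0.ne', Real.rpow_one]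
  rw [e1] at hhol
  have e4 : ∫ x, ‖‖f x‖‖ * ‖WB Q D x‖ ∂μ1 = ∫ x, ‖f x‖ * WB Q D x ∂μ1 := by
    congr 1
    ext x
    rw [norm_norm, Real.norm_of_nonneg (WB_nonneg _ _ _)]
  rw [e4] at hhol
  have h5 : τ * D.card ≤ ‖f‖ * (KB Q * (D.card : ℝ) ^ (1 / Q)) := by
    have h6 : (D.card : ℝ) * τ ≤ ∑ j ∈ D, ‖aN 𝕜 p j f‖ := by
      rw [← nsmul_eq_mul]
      exact Finset.card_nsmul_le_sum _ _ _ hD
    calc τ * D.card = D.card * τ := mul_comm _ _
      _ ≤ _ := h6
      _ ≤ _ := hsum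
      _ ≤ _ := hhol
      _ ≤ _ := mul_le_mul_of_nonneg_left e2 (norm_nonneg _)
  have hcard : (0 : ℝ) < D.card := by
    exact_mod_cast Finset.card_pos.mpr hDne
  have hinv : 1 / P + 1 / Q = 1 := by
    have := hPQ.inv_add_inv_eq_one
    rwa [one_div, one_div]
  have h7 : (D.card : ℝ) = (D.card : ℝ) ^ (1 / P) * (D.card : ℝ) ^ (1 / Q) := by
    rw [← Real.rpow_add hcard, hinv, Real.rpow_one]
  have h8 : 0 < (D.card : ℝ) ^ (1 / Q) := Real.rpow_pos_of_pos hcard _
  apply le_of_mul_le_mul_right _ h8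
  calc τ * (D.card : ℝ) ^ (1 / P) * (D.card : ℝ) ^ (1 / Q) = τ * D.card := by
        rw [mul_assoc, ← h7]
    _ ≤ _ := h5
    _ = KB Q * ‖f‖ * (D.card : ℝ) ^ (1 / Q) := by ring

theorem norm_ofReal_sum [Fact (1 ≤ p)] (hp0 : p ≠ 0) (hp : p ≠ ∞) (S : Finset Idx) (α : Idx → ℝ) :
    ‖∑ j ∈ S, ((α j : ℝ) : 𝕜) • hN 𝕜 p j‖ = ‖∑ j ∈ S, α j • hN ℝ p j‖ := by
  have hP : 0 < p.toReal := ENNReal.toReal_pos hp0 hp
  have h1 : ‖∑ j ∈ S, ((α j : ℝ) : 𝕜) • hN 𝕜 p j‖ ^ p.toReal =
      ‖∑ j ∈ S, α j • hN ℝ p j‖ ^ p.toReal := by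
    rw [norm_rpow hp0 hp, norm_rpow hp0 hp]
    unfold hN
    simp only [smul_smul]
    apply integral_congr_ae
    filter_upwards [coe_sum 𝕜 p S (fun j => (α j : 𝕜) * ((bb p.toReal ^ lev j : ℝ) : 𝕜)),
      coe_sum ℝ p S (fun j => α j * ((bb p.toReal ^ lev j : ℝ) : ℝ))] with x h1 h2
    rw [h1]
    have h3 : ((∑ j ∈ S, (α j * ((bb p.toReal ^ lev j : ℝ) : ℝ)) • hU ℝ p j : Lp ℝ p μ1) : ℝ → ℝ) x
      = ∑ j ∈ S, (α j * ((bb p.toReal ^ lev j : ℝ) : ℝ)) * ((HH j x : ℝ) : ℝ) := h2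
    have h4 : ∑ j ∈ S, (α j : 𝕜) * ((bb p.toReal ^ lev j : ℝ) : 𝕜) * (HH j x : 𝕜) =
        ((∑ j ∈ S, (α j * ((bb p.toReal ^ lev j : ℝ) : ℝ)) * ((HH j x : ℝ) : ℝ) : ℝ) : 𝕜) := by
      push_cast
      rfl
    rw [h4, RCLike.norm_ofReal]
    congr 1
    rw [← Real.norm_eq_abs]
    congr 1
    exact h3.symm
  exact (Real.rpow_left_inj (norm_nonneg _) (norm_nonneg _) hP.ne').mp h1

end

/-- Unconditionality, real case, coefficient form. -/
theorem unc_real' {p : ℝ≥0∞} [Fact (1 ≤ p)] (hp : p ≠ ∞) (h1 : 1 < p.toReal) :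
    ∃ C : ℝ, 0 ≤ C ∧ ∀ (f : Lp ℝ p μ1) (S : Finset Idx) (c : Idx → ℝ),
      (∀ j ∈ S, |c j| ≤ |aN ℝ p j f|) → ‖∑ j ∈ S, c j • hN ℝ p j‖ ≤ C * ‖f‖ := by
  classical
  obtain ⟨C, hC0, hC⟩ := unc_real hp h1
  refine ⟨C, hC0, fun f S c hc => ?_⟩
  have h2 := hC f S (fun j => if j ∈ S then c j / aN ℝ p j f else 0) (by
    intro j
    by_cases hj : j ∈ S
    · simp only [if_pos hj]
      rw [abs_div]
      exact div_le_one_of_le₀ (hc j hj) (abs_nonneg _)
    · simp only [if_neg hj]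
      simp)
  refine le_trans (le_of_eq ?_) h2
  congr 1
  apply Finset.sum_congr rfl
  intro j hj
  simp only [if_pos hj]
  unfold hN
  rw [smul_smul]
  congr 1
  rcases eq_or_ne (aN ℝ p j f) 0 with h0 | h0
  · have : c j = 0 := by
      have := hc j hj
      rw [h0, abs_zero] at this
      exact abs_eq_zero.mp (le_antisymm this (abs_nonneg _))
    rw [this, h0]
    simp
  · have h3 : aN ℝ p j f = (2 / bb p.toReal) ^ lev j * ipL ℝ p j f := rfl
    have h4 : ipL ℝ p j f ≠ 0 := by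
      intro h
      apply h0
      rw [h3, h, mul_zero]
    rw [h3, div_pow]
    have := bb_pos p.toReal
    change c j * (bb p.toReal ^ lev j) = _
    field_simp

end Pool.Agent.Q196.HC
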