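import Pool.Agent.Q196.HaarC3

/-!
The Haar system is a greedy basis of `L_p[0,1]`, real or complex scalars.
-/

open MeasureTheory Pool.Agent.Helper415.HA
open scoped ENNReal

namespace Pool.Agent.Q196.HC

section

variable {𝕜 : Type*} [RCLike 𝕜] {p : ℝ≥0∞} [Fact (1 ≤ p)]

/-- Real part in `L_p`. -/
noncomputable def reL (f : Lp 𝕜 p μ1) : Lp ℝ p μ1 := (RCLike.reCLM (K := 𝕜)).compLp f

/-- Imaginary part in `L_p`. -/
noncomputable def imL (f : Lp 𝕜 p μ1) : Lp ℝ p μ1 := (RCLike.imCLM (K := 𝕜)).compLp f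

omit [Fact (1 ≤ p)] in
theorem reL_norm (f : Lp 𝕜 p μ1) : ‖reL f‖ ≤ ‖f‖ := by
  apply Lp.norm_le_norm_of_ae_le
  filter_upwards [(RCLike.reCLM (K := 𝕜)).coeFn_compLp f] with x hx
  unfold reL
  rw [hx, Real.norm_eq_abs]
  exact RCLike.abs_re_le_norm _

omit [Fact (1 ≤ p)] in
theorem imL_norm (f : Lp 𝕜 p μ1) : ‖imL f‖ ≤ ‖f‖ := by
  apply Lp.norm_le_norm_of_ae_le
  filter_upwards [(RCLike.imCLM (K := 𝕜)).coeFn_compLp f] with x hx
  unfold imL
  rw [hx, Real.norm_eq_abs]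
  exact RCLike.abs_im_le_norm _

theorem aN_re (j : Idx) (f : Lp 𝕜 p μ1) : aN ℝ p j (reL f) = RCLike.re (aN 𝕜 p j f) := by
  rw [aN_apply, aN_apply, RCLike.re_ofReal_mul, ipL_apply, ipL_apply,
    ← integral_re (integrable_mul_HH 𝕜 (Lp_integrable 𝕜 p f) j)]
  congr 1
  apply integral_congr_ae
  filter_upwards [(RCLike.reCLM (K := 𝕜)).coeFn_compLp f] with x hx
  unfold reL
  rw [hx, mul_comm (f x), RCLike.re_ofReal_mul]
  exact mul_comm _ _

theorem aN_im (j : Idx) (f : Lp 𝕜 p μ1) : aN ℝ p j (imL f) = RCLike.im (aN 𝕜 p j f) := by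
  rw [aN_apply, aN_apply, RCLike.im_ofReal_mul, ipL_apply, ipL_apply,
    ← integral_im (integrable_mul_HH 𝕜 (Lp_integrable 𝕜 p f) j)]
  congr 1
  apply integral_congr_ae
  filter_upwards [(RCLike.imCLM (K := 𝕜)).coeFn_compLp f] with x hx
  unfold imL
  rw [hx, mul_comm (f x), RCLike.im_ofReal_mul]
  exact mul_comm _ _

theorem p_ne_zero : p ≠ 0 := by
  have : (1 : ℝ≥0∞) ≤ p := Fact.out
  intro h
  rw [h] at this
  exact absurd this (by norm_num)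

/-- Unconditionality. -/
theorem unc_gen (hp : p ≠ ∞) (h1 : 1 < p.toReal) :
    ∃ C : ℝ, 0 ≤ C ∧ ∀ (f : Lp 𝕜 p μ1) (S : Finset Idx) (c : Idx → 𝕜),
      (∀ j ∈ S, ‖c j‖ ≤ ‖aN 𝕜 p j f‖) → ‖∑ j ∈ S, c j • hN 𝕜 p j‖ ≤ C * ‖f‖ := by
  classical
  obtain ⟨C, hC0, hC⟩ := unc_real' hp h1
  refine ⟨4 * C, by positivity, fun f S c hc => ?_⟩
  -- real coefficients
  have hreal : ∀ α : Idx → ℝ, (∀ j ∈ S, |α j| ≤ ‖aN 𝕜 p j f‖) →
      ‖∑ j ∈ S, ((α j : ℝ) : 𝕜) • hN 𝕜 p j‖ ≤ 2 * C * ‖f‖ := by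
    intro α hα
    rw [norm_ofReal_sum p_ne_zero hp]
    have hsp : ∀ j, ∃ u v : ℝ, j ∈ S → (α j = u + v ∧ |u| ≤ |aN ℝ p j (reL f)| ∧
        |v| ≤ |aN ℝ p j (imL f)|) := by
      intro j
      by_cases hj : j ∈ S
      · have h2 : ‖α j‖ ≤ |aN ℝ p j (reL f)| + |aN ℝ p j (imL f)| := by
          rw [aN_re, aN_im, Real.norm_eq_abs]
          refine (hα j hj).trans ?_
          have h3 := RCLike.norm_sq_eq_def (z := aN 𝕜 p j f)
          have h4 := abs_nonneg (RCLike.re (aN 𝕜 p j f))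
          have h5 := abs_nonneg (RCLike.im (aN 𝕜 p j f))
          have h6 := abs_mul_abs_self (RCLike.re (aN 𝕜 p j f))
          have h7 := abs_mul_abs_self (RCLike.im (aN 𝕜 p j f))
          apply abs_le_of_sq_le_sq' _ (by positivity) |>.2
          nlinarith [mul_nonneg h4 h5]
        obtain ⟨u, v, e, hu, hv⟩ := SGreedy.split2 (𝕜 := ℝ) (α j) (abs_nonneg _) (abs_nonneg _) h2
        exact ⟨u, v, fun _ => ⟨e, hu, hv⟩⟩
      · exact ⟨0, 0, fun h => absurd h hj⟩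
    choose u v huv using hsp
    have e : ∑ j ∈ S, α j • hN ℝ p j = ∑ j ∈ S, u j • hN ℝ p j + ∑ j ∈ S, v j • hN ℝ p j := by
      rw [← Finset.sum_add_distrib]
      apply Finset.sum_congr rfl
      intro j hj
      rw [← add_smul, ← (huv j hj).1]
    rw [e]
    have h2 := hC (reL f) S u (fun j hj => (huv j hj).2.1)
    have h3 := hC (imL f) S v (fun j hj => (huv j hj).2.2)
    have h4 := mul_le_mul_of_nonneg_left (reL_norm f) hC0
    have h5 := mul_le_mul_of_nonneg_left (imL_norm f) hC0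
    have h6 := norm_add_le (∑ j ∈ S, u j • hN ℝ p j) (∑ j ∈ S, v j • hN ℝ p j)
    linarith
  have e : ∑ j ∈ S, c j • hN 𝕜 p j = ∑ j ∈ S, ((RCLike.re (c j) : ℝ) : 𝕜) • hN 𝕜 p j +
      (RCLike.I : 𝕜) • ∑ j ∈ S, ((RCLike.im (c j) : ℝ) : 𝕜) • hN 𝕜 p j := by
    rw [Finset.smul_sum, ← Finset.sum_add_distrib]
    apply Finset.sum_congr rfl
    intro j _
    rw [smul_smul, ← add_smul]
    congr 1
    rw [mul_comm]
    exact (RCLike.re_add_im (c j)).symm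
  rw [e]
  have h2 := hreal (fun j => RCLike.re (c j)) (fun j hj => (RCLike.abs_re_le_norm _).trans (hc j hj))
  have h3 := hreal (fun j => RCLike.im (c j)) (fun j hj => (RCLike.abs_im_le_norm _).trans (hc j hj))
  have h4 := norm_add_le (∑ j ∈ S, ((RCLike.re (c j) : ℝ) : 𝕜) • hN 𝕜 p j)
    ((RCLike.I : 𝕜) • ∑ j ∈ S, ((RCLike.im (c j) : ℝ) : 𝕜) • hN 𝕜 p j)
  have h5 : ‖(RCLike.I : 𝕜) • ∑ j ∈ S, ((RCLike.im (c j) : ℝ) : 𝕜) • hN 𝕜 p j‖ ≤
      ‖∑ j ∈ S, ((RCLike.im (c j) : ℝ) : 𝕜) • hN 𝕜 p j‖ := by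
    rw [norm_smul]
    have hI : ‖(RCLike.I : 𝕜)‖ ≤ 1 := by
      rcases RCLike.I_eq_zero_or_im_I_eq_one (K := 𝕜) with h | h
      · rw [h, norm_zero]; norm_num
      · rcases RCLike.I_mul_I (K := 𝕜) with h' | h'
        · rw [h', norm_zero]; norm_num
        · have : ‖(RCLike.I : 𝕜)‖ * ‖(RCLike.I : 𝕜)‖ = 1 := by
            rw [← norm_mul, h', norm_neg, norm_one]
          nlinarith [norm_nonneg (RCLike.I : 𝕜)]
    exact mul_le_of_le_one_left (norm_nonneg _) hI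
  linarith

/-! ### density -/

variable (𝕜 p) in
omit [Fact (1 ≤ p)] in
/-- Indicators of cells as elements of `L_p`. -/
theorem ind_memLp (n k : ℕ) : MemLp (fun x => (ind n k x : 𝕜)) p μ1 := by
  refine MemLp.of_bound (RCLike.measurable_ofReal.comp (meas_ind n k)).aestronglyMeasurable 1 ?_
  refine Filter.Eventually.of_forall (fun x => ?_)
  rw [RCLike.norm_ofReal, abs_of_nonneg (ind_nonneg n k x)]
  exact ind_le_one n k x

variable (𝕜 p) in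
/-- Indicators of cells as elements of `L_p`. -/
noncomputable def indL (n k : ℕ) : Lp 𝕜 p μ1 := (ind_memLp 𝕜 p n k).toLp

theorem indL_mem (n : ℕ) : ∀ k : ℕ, k < 2 ^ n →
    indL 𝕜 p n k ∈ Submodule.span 𝕜 (Set.range (hU 𝕜 p)) := by
  induction n with
  | zero =>
    intro k hk
    have hk0 : k = 0 := by simpa using hk
    subst hk0
    apply Submodule.subset_span
    exact ⟨none, rfl⟩
  | succ n ih =>
    intro k hk
    have hk2 : k / 2 < 2 ^ n := by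
      rw [pow_succ] at hk
      omega
    have h1 := ih (k / 2) hk2
    have h2 : hU 𝕜 p (some ⟨n, ⟨k / 2, hk2⟩⟩) ∈ Submodule.span 𝕜 (Set.range (hU 𝕜 p)) :=
      Submodule.subset_span ⟨_, rfl⟩
    rcases Nat.even_or_odd' k with ⟨m, hm | hm⟩
    · have hkm : k / 2 = m := by omega
      have e : indL 𝕜 p (n + 1) k = ((2 : 𝕜)⁻¹) • (indL 𝕜 p n (k / 2)) +
          ((2 : 𝕜)⁻¹) • hU 𝕜 p (some ⟨n, ⟨k / 2, hk2⟩⟩) := by
        apply Lp.ext
        filter_upwards [(ind_memLp 𝕜 p (n + 1) k).coeFn_toLp,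
          (ind_memLp 𝕜 p n (k / 2)).coeFn_toLp,
          (HH_memLp 𝕜 p (some ⟨n, ⟨k / 2, hk2⟩⟩)).coeFn_toLp,
          Lp.coeFn_add (((2 : 𝕜)⁻¹) • (indL 𝕜 p n (k / 2)))
            (((2 : 𝕜)⁻¹) • hU 𝕜 p (some ⟨n, ⟨k / 2, hk2⟩⟩)),
          Lp.coeFn_smul ((2 : 𝕜)⁻¹) (indL 𝕜 p n (k / 2)),
          Lp.coeFn_smul ((2 : 𝕜)⁻¹) (hU 𝕜 p (some ⟨n, ⟨k / 2, hk2⟩⟩))] with x g1 g2 g3 g4 g5 g6
        rw [g4, Pi.add_apply, g5, g6, Pi.smul_apply, Pi.smul_apply]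
        unfold indL hU
        rw [g1, g2, g3]
        change (ind (n + 1) k x : 𝕜) = (2 : 𝕜)⁻¹ * (ind n (k / 2) x : 𝕜) +
          (2 : 𝕜)⁻¹ * ((ind n (k / 2) x * rs n x : ℝ) : 𝕜)
        rw [ind_rs, ind_split n (k / 2) x, hkm, ← hm]
        push_cast
        ring
      rw [e]
      exact Submodule.add_mem _ (Submodule.smul_mem _ _ h1) (Submodule.smul_mem _ _ h2)
    · have hkm : k / 2 = m := by omega
      have e : indL 𝕜 p (n + 1) k = ((2 : 𝕜)⁻¹) • (indL 𝕜 p n (k / 2)) -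
          ((2 : 𝕜)⁻¹) • hU 𝕜 p (some ⟨n, ⟨k / 2, hk2⟩⟩) := by
        apply Lp.ext
        filter_upwards [(ind_memLp 𝕜 p (n + 1) k).coeFn_toLp,
          (ind_memLp 𝕜 p n (k / 2)).coeFn_toLp,
          (HH_memLp 𝕜 p (some ⟨n, ⟨k / 2, hk2⟩⟩)).coeFn_toLp,
          Lp.coeFn_sub (((2 : 𝕜)⁻¹) • (indL 𝕜 p n (k / 2)))
            (((2 : 𝕜)⁻¹) • hU 𝕜 p (some ⟨n, ⟨k / 2, hk2⟩⟩)),
          Lp.coeFn_smul ((2 : 𝕜)⁻¹) (indL 𝕜 p n (k / 2)),
          Lp.coeFn_smul ((2 : 𝕜)⁻¹) (hU 𝕜 p (some ⟨n, ⟨k / 2, hk2⟩⟩))] with x g1 g2 g3 g4 g5 g6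
        rw [g4, Pi.sub_apply, g5, g6, Pi.smul_apply, Pi.smul_apply]
        unfold indL hU
        rw [g1, g2, g3]
        change (ind (n + 1) k x : 𝕜) = (2 : 𝕜)⁻¹ * (ind n (k / 2) x : 𝕜) -
          (2 : 𝕜)⁻¹ * ((ind n (k / 2) x * rs n x : ℝ) : 𝕜)
        rw [ind_rs, ind_split n (k / 2) x, hkm, ← hm]
        push_cast
        ring
      rw [e]
      exact Submodule.sub_mem _ (Submodule.smul_mem _ _ h1) (Submodule.smul_mem _ _ h2)

theorem coe_sum_ind (N : ℕ) (c : ℕ → 𝕜) (S : Finset ℕ) :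
    ((∑ k ∈ S, c k • indL 𝕜 p N k : Lp 𝕜 p μ1) : ℝ → 𝕜) =ᵐ[μ1]
      fun x => ∑ k ∈ S, c k * (ind N k x : 𝕜) := by
  classical
  induction S using Finset.induction_on with
  | empty =>
    simp only [Finset.sum_empty]
    exact Lp.coeFn_zero _ _ _
  | insert a S ha ih =>
    rw [Finset.sum_insert ha]
    filter_upwards [Lp.coeFn_add (c a • indL 𝕜 p N a) (∑ k ∈ S, c k • indL 𝕜 p N k), ih,
      Lp.coeFn_smul (c a) (indL 𝕜 p N a), (ind_memLp 𝕜 p N a).coeFn_toLp] with x h1 h2 h3 h4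
    rw [h1, Pi.add_apply, h2, h3, Pi.smul_apply, Finset.sum_insert ha]
    unfold indL
    rw [h4, smul_eq_mul]

/-- Haar polynomials are dense. -/
theorem dense_span (hp : p ≠ ∞) (f : Lp 𝕜 p μ1) {ε : ℝ} (hε : 0 < ε) :
    ∃ g ∈ Submodule.span 𝕜 (Set.range (hU 𝕜 p)), ‖f - g‖ < ε := by
  classical
  obtain ⟨g, hgc, hge, hgcont, hgm⟩ := (Lp.memLp f).exists_hasCompactSupport_eLpNorm_sub_le hp
    (ε := ENNReal.ofReal (ε / 2)) (by
      rw [Ne, ENNReal.ofReal_eq_zero, not_le]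
      positivity)
  set A : ℝ := (measureUnivNNReal μ1 : ℝ) ^ p.toReal⁻¹ with hA
  have hA0 : 0 ≤ A := by positivity
  set δ := ε / (4 * (A + 1)) with hδ
  have hδ0 : 0 < δ := by positivity
  have huc := hgc.uniformContinuous_of_continuous hgcont
  obtain ⟨r, hr, hr2⟩ := Metric.uniformContinuous_iff.mp huc δ hδ0
  obtain ⟨N, hN⟩ := exists_pow_lt_of_lt_one hr (by norm_num : (1 / 2 : ℝ) < 1)
  set s : Lp 𝕜 p μ1 := ∑ k ∈ Finset.range (2 ^ N), g ((k : ℝ) / 2 ^ N) • indL 𝕜 p N k with hs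
  refine ⟨s, ?_, ?_⟩
  · apply Submodule.sum_mem
    intro k hk
    exact Submodule.smul_mem _ _ (indL_mem N k (Finset.mem_range.mp hk))
  · have h1 : ‖f - hgm.toLp‖ ≤ ε / 2 := by
      rw [Lp.norm_def]
      have : eLpNorm (f - hgm.toLp : Lp 𝕜 p μ1) p μ1 = eLpNorm (f - g : ℝ → 𝕜) p μ1 := by
        apply eLpNorm_congr_ae
        filter_upwards [Lp.coeFn_sub f hgm.toLp, hgm.coeFn_toLp] with x h1 h2
        rw [h1, Pi.sub_apply, h2, Pi.sub_apply]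
      rw [this]
      apply ENNReal.toReal_le_of_le_ofReal (by positivity) hge
    have h2 : ‖hgm.toLp - s‖ ≤ A * δ := by
      apply Lp.norm_le_of_ae_bound hδ0.le
      have hmem : ∀ᵐ x ∂μ1, x ∈ Set.Ico (0 : ℝ) 1 := ae_restrict_mem measurableSet_Ico
      filter_upwards [Lp.coeFn_sub hgm.toLp s, hgm.coeFn_toLp, hmem,
        coe_sum_ind (p := p) N (fun k => g ((k : ℝ) / 2 ^ N)) (Finset.range (2 ^ N))] with x g1 g2 hx g3
      rw [g1, Pi.sub_apply, g2, hs, g3]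
      have h3 : ∑ k ∈ Finset.range (2 ^ N), g ((k : ℝ) / 2 ^ N) * (ind N k x : 𝕜) =
          g ((cell N x : ℝ) / 2 ^ N) := by
        rw [Finset.sum_eq_single (cell N x)]
        · unfold ind
          rw [if_pos rfl]
          simp
        · intro k _ hk
          unfold ind
          rw [if_neg hk.symm]
          simp
        · intro h
          exact absurd (Finset.mem_range.mpr (cell_lt hx)) h
      rw [h3, ← dist_eq_norm]
      apply le_of_lt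
      apply hr2
      have h2N : (0 : ℝ) < 2 ^ N := by positivity
      have h4 : ((cell N x : ℕ) : ℝ) ≤ 2 ^ N * x := by
        unfold cell
        exact Nat.floor_le (mul_nonneg h2N.le hx.1)
      have h5 : (2 : ℝ) ^ N * x < (cell N x : ℕ) + 1 := by
        unfold cell
        exact Nat.lt_floor_add_one _
      have h6 : x - (cell N x : ℝ) / 2 ^ N < 1 / 2 ^ N := by
        rw [sub_lt_iff_lt_add, ← add_div, lt_div_iff₀ h2N]
        linarith
      have h7 : 0 ≤ x - (cell N x : ℝ) / 2 ^ N := by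
        rw [sub_nonneg, div_le_iff₀ h2N]
        linarith
      rw [Real.dist_eq, abs_of_nonneg h7]
      refine h6.trans_le ?_
      rw [one_div_pow] at hN
      exact hN.le
    have h3 : A * δ < ε / 2 := by
      have h4 : A * δ ≤ (A + 1) * δ := by nlinarith
      have h5 : (A + 1) * δ = ε / 4 := by
        rw [hδ]
        field_simp
      linarith
    have h4 : f - s = (f - hgm.toLp) + (hgm.toLp - s) := by abel
    rw [h4]
    exact (norm_add_le _ _).trans_lt (by linarith)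

omit [Fact (1 ≤ p)] in
theorem hU_eq (j : Idx) : hU 𝕜 p j = (((bb p.toReal ^ lev j)⁻¹ : ℝ) : 𝕜) • hN 𝕜 p j := by
  unfold hN
  rw [smul_smul, ← RCLike.ofReal_mul, inv_mul_cancel₀ (pow_ne_zero _ (bb_pos _).ne'),
    RCLike.ofReal_one, one_smul]

theorem dense_sum (hp : p ≠ ∞) (f : Lp 𝕜 p μ1) {ε : ℝ} (hε : 0 < ε) :
    ∃ (S : Finset Idx) (c : Idx → 𝕜), ‖f - ∑ j ∈ S, c j • hN 𝕜 p j‖ < ε := by
  obtain ⟨g, hg, hfg⟩ := dense_span hp f hε
  obtain ⟨c, rfl⟩ := Finsupp.mem_span_range_iff_exists_finsupp.mp hg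
  refine ⟨c.support, fun j => c j * (((bb p.toReal ^ lev j)⁻¹ : ℝ) : 𝕜), ?_⟩
  convert hfg using 3
  rw [Finsupp.sum]
  apply Finset.sum_congr rfl
  intro j _
  rw [hU_eq, smul_smul]

/-- Expansion. -/
theorem expand (hp : p ≠ ∞) {C : ℝ} (hC0 : 0 ≤ C)
    (hC : ∀ (f : Lp 𝕜 p μ1) (S : Finset Idx) (c : Idx → 𝕜),
      (∀ j ∈ S, ‖c j‖ ≤ ‖aN 𝕜 p j f‖) → ‖∑ j ∈ S, c j • hN 𝕜 p j‖ ≤ C * ‖f‖)
    (f : Lp 𝕜 p μ1) {ε : ℝ} (hε : 0 < ε) :
    ∃ S : Finset Idx, ∀ S', S ⊆ S' → ‖f - ∑ j ∈ S', aN 𝕜 p j f • hN 𝕜 p j‖ < ε := by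
  classical
  obtain ⟨S, c, hSc⟩ := dense_sum hp f (ε := ε / (1 + C)) (by positivity)
  refine ⟨S, fun S' hS' => ?_⟩
  set g := ∑ j ∈ S, c j • hN 𝕜 p j with hg
  have hag : ∀ j, aN 𝕜 p j g = if j ∈ S then c j else 0 := by
    intro j
    rw [hg, map_sum]
    simp only [map_smul, aN_hN, smul_eq_mul, mul_ite, mul_one, mul_zero]
    rw [Finset.sum_ite_eq]
  have hg2 : ∑ j ∈ S', aN 𝕜 p j g • hN 𝕜 p j = g := by
    simp only [hag, ite_smul, zero_smul]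
    rw [← Finset.sum_filter, hg]
    congr 1
    ext j
    rw [Finset.mem_filter]
    exact ⟨fun h => h.2, fun h => ⟨hS' h, h⟩⟩
  have h1 := hC (f - g) S' (fun j => aN 𝕜 p j (f - g)) (fun j _ => le_rfl)
  have h2 : f - ∑ j ∈ S', aN 𝕜 p j f • hN 𝕜 p j = (f - g) -
      ∑ j ∈ S', aN 𝕜 p j (f - g) • hN 𝕜 p j := by
    simp only [map_sub, sub_smul, Finset.sum_sub_distrib]
    rw [hg2]
    abel
  rw [h2]
  refine (norm_sub_le _ _).trans_lt ?_
  have h3 : 0 < 1 + C := by linarith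
  have h4 : ‖f - g‖ * (1 + C) < ε := by
    rwa [lt_div_iff₀ h3] at hSc
  linarith

/-- The Haar system is a greedy basis. -/
theorem gb (hp : p ≠ ∞) (h1 : 1 < p.toReal) :
    ∃ K : ℝ, SGreedy.GB (hN 𝕜 p) (aN 𝕜 p) K := by
  obtain ⟨C, hC0, hC⟩ := unc_gen (𝕜 := 𝕜) hp h1
  have hP0 : 0 < p.toReal := by linarith
  have hQ := Real.HolderConjugate.conjExponent h1
  have hK1 := KB_pos hP0
  have hK2 := KB_pos (hQ.symm.pos)
  refine ⟨max 1 (max C (KB p.toReal * KB (Real.conjExponent p.toReal))), le_max_left _ _,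
    fun i j => aN_hN i j, ?_, ?_, ?_⟩
  · intro f S c hc
    refine (hC f S c hc).trans ?_
    apply mul_le_mul_of_nonneg_right _ (norm_nonneg _)
    exact (le_max_left _ _).trans (le_max_right _ _)
  · intro f B D c τ hτ hcard hB hD
    have e1 := D1 p_ne_zero hp B c hτ.le hB
    have e2 := D2 hp h1 f D hD
    have e3 : (B.card : ℝ) ^ (1 / p.toReal) ≤ (D.card : ℝ) ^ (1 / p.toReal) :=
      Real.rpow_le_rpow (by positivity) (by exact_mod_cast hcard) (by positivity)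
    calc ‖∑ j ∈ B, c j • hN 𝕜 p j‖ ≤ KB p.toReal * τ * (B.card : ℝ) ^ (1 / p.toReal) := e1
      _ ≤ KB p.toReal * τ * (D.card : ℝ) ^ (1 / p.toReal) :=
          mul_le_mul_of_nonneg_left e3 (by positivity)
      _ = KB p.toReal * (τ * (D.card : ℝ) ^ (1 / p.toReal)) := by ring
      _ ≤ KB p.toReal * (KB (Real.conjExponent p.toReal) * ‖f‖) :=
          mul_le_mul_of_nonneg_left e2 hK1.le
      _ = KB p.toReal * KB (Real.conjExponent p.toReal) * ‖f‖ := by ring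
      _ ≤ _ := by
          apply mul_le_mul_of_nonneg_right _ (norm_nonneg _)
          exact (le_max_right _ _).trans (le_max_right _ _)
  · intro f ε hε
    obtain ⟨S, hS⟩ := expand hp hC0 hC f hε
    exact ⟨S, hS S (Finset.Subset.refl _)⟩

/-- The Haar expansion converges unconditionally. -/
theorem hasSum (hp : p ≠ ∞) (h1 : 1 < p.toReal) (f : Lp 𝕜 p μ1) :
    HasSum (fun j => aN 𝕜 p j f • hN 𝕜 p j) f := by
  obtain ⟨C, hC0, hC⟩ := unc_gen (𝕜 := 𝕜) hp h1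
  rw [HasSum, SummationFilter.unconditional_filter, Metric.tendsto_atTop]
  intro ε hε
  obtain ⟨S, hS⟩ := expand hp hC0 hC f hε
  refine ⟨S, fun S' hS' => ?_⟩
  rw [dist_comm, dist_eq_norm]
  exact hS S' hS'

end

end Pool.Agent.Q196.HC
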