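import Pool.Agent.Q196.HaarC4

/-!
Transfer of the abstract theorem to the Haar system on `[0,1]`, in explicit form.
-/

open MeasureTheory Pool.Agent.Helper415.HA
open scoped ENNReal

namespace Pool.Agent.Q196.HaarGreedy

open Pool.Agent.Q196.HC

/-- Lebesgue measure on `[0,1]`. -/
noncomputable def leb : Measure ℝ := volume.restrict (Set.Icc 0 1)

/-- Indices of the Haar functions: `none` for the constant function `1`, and `some ⟨n, k⟩`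
(`0 ≤ k < 2^n`) for the dyadic interval `[k 2^{-n}, (k+1) 2^{-n})`. -/
abbrev Idx : Type := Option (Σ n : ℕ, Fin (2 ^ n))

/-- The Haar functions, normalised in `L_p`: the indicator of `[0,1)`, and `2^{n/p}` times the
difference of the indicators of the left and right halves of `[k 2^{-n}, (k+1) 2^{-n})`. -/
noncomputable def haar (p : ℝ) : Idx → ℝ → ℝ
  | none => (Set.Ico (0 : ℝ) 1).indicator (fun _ => 1)
  | some ⟨n, k⟩ => fun x => (2 : ℝ) ^ ((n : ℝ) / p) *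
      ((Set.Ico (((k : ℕ) : ℝ) / 2 ^ n) ((((k : ℕ) : ℝ) + 1 / 2) / 2 ^ n)).indicator (fun _ => 1) x -
       (Set.Ico ((((k : ℕ) : ℝ) + 1 / 2) / 2 ^ n) ((((k : ℕ) : ℝ) + 1) / 2 ^ n)).indicator
        (fun _ => 1) x)

theorem haar_measurable (p : ℝ) (j : Idx) : Measurable (haar p j) := by
  rcases j with _ | ⟨n, k⟩
  · exact measurable_const.indicator measurableSet_Ico
  · exact ((measurable_const.indicator measurableSet_Ico).sub
      (measurable_const.indicator measurableSet_Ico)).const_mul _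

theorem haar_bdd (p : ℝ) (j : Idx) : ∃ C : ℝ, ∀ x, |haar p j x| ≤ C := by
  have hind : ∀ (s : Set ℝ) (x : ℝ), |s.indicator (fun _ => (1 : ℝ)) x| ≤ 1 := by
    intro s x
    by_cases h : x ∈ s
    · rw [Set.indicator_of_mem h]; simp
    · rw [Set.indicator_of_notMem h]; simp
  rcases j with _ | ⟨n, k⟩
  · exact ⟨1, hind _⟩
  · refine ⟨(2 : ℝ) ^ ((n : ℝ) / p) * 2, fun x => ?_⟩
    change |(2 : ℝ) ^ ((n : ℝ) / p) * (_ - _)| ≤ _
    rw [abs_mul, abs_of_nonneg (by positivity : (0 : ℝ) ≤ (2 : ℝ) ^ ((n : ℝ) / p))]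
    apply mul_le_mul_of_nonneg_left _ (by positivity)
    refine (abs_sub _ _).trans ?_
    have h1 := hind (Set.Ico (((k : ℕ) : ℝ) / 2 ^ n) ((((k : ℕ) : ℝ) + 1 / 2) / 2 ^ n)) x
    have h2 := hind (Set.Ico ((((k : ℕ) : ℝ) + 1 / 2) / 2 ^ n) ((((k : ℕ) : ℝ) + 1) / 2 ^ n)) x
    linarith

instance : IsFiniteMeasure leb := ⟨by
  unfold leb; rw [Measure.restrict_apply_univ, Real.volume_Icc]; simp⟩

theorem haar_memLp (𝕜 : Type*) [RCLike 𝕜] (p : ℝ≥0∞) (j : Idx) :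
    MemLp (fun x => ((haar p.toReal j x : ℝ) : 𝕜)) p leb := by
  obtain ⟨C, hC⟩ := haar_bdd p.toReal j
  refine MemLp.of_bound (RCLike.measurable_ofReal.comp
    (haar_measurable p.toReal j)).aestronglyMeasurable C ?_
  refine Filter.Eventually.of_forall (fun x => ?_)
  rw [RCLike.norm_ofReal]
  exact hC x

/-- The Haar functions as elements of `L_p[0,1]`. -/
noncomputable def haarL (𝕜 : Type*) [RCLike 𝕜] (p : ℝ≥0∞) (j : Idx) : Lp 𝕜 p leb :=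
  (haar_memLp 𝕜 p j).toLp

/-- The Haar coefficients `a_j(f) = ∫ f h_j / ∫ h_j²`. -/
noncomputable def coef (𝕜 : Type*) [RCLike 𝕜] (p : ℝ≥0∞) (j : Idx) (f : Lp 𝕜 p leb) : 𝕜 :=
  (∫ x, f x * ((haar p.toReal j x : ℝ) : 𝕜) ∂leb) / ((∫ x, haar p.toReal j x ^ 2 ∂leb : ℝ) : 𝕜)

/-- `s`-norms on a real or complex vector space. -/
def IsSNorm (𝕜 : Type*) [RCLike 𝕜] {X : Type*} [AddCommGroup X] [Module 𝕜 X] (s : ℝ)
    (N : X → ℝ) : Prop :=
  (∀ f, 0 ≤ N f) ∧ (∀ f, N f = 0 ↔ f = 0) ∧ (∀ (t : 𝕜) (f : X), N (t • f) = ‖t‖ * N f) ∧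
    ∀ f g, N (f + g) ^ s ≤ N f ^ s + N g ^ s

/-- Equivalence with the norm. -/
def IsEquivalent {X : Type*} [NormedAddCommGroup X] (N : X → ℝ) : Prop :=
  ∃ c C : ℝ, 0 < c ∧ c ≤ C ∧ ∀ f, c * ‖f‖ ≤ N f ∧ N f ≤ C * ‖f‖

/-- `1`-greediness of the system `h` with coefficients `a` with respect to `N`. -/
def OneGreedy {𝕜 : Type*} [RCLike 𝕜] {X ι : Type*} [AddCommGroup X] [Module 𝕜 X] (h : ι → X)
    (a : ι → X → 𝕜) (N : X → ℝ) : Prop :=
  ∀ (f : X) (A : Finset ι), (∀ i ∈ A, ∀ j ∉ A, ‖a j f‖ ≤ ‖a i f‖) →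
    ∀ (B : Finset ι) (b : ι → 𝕜), B.card ≤ A.card →
      N (f - ∑ j ∈ A, a j f • h j) ≤ N (f - ∑ j ∈ B, b j • h j)

theorem leb_eq : leb = μ1 := by
  unfold leb μ1
  exact (restrict_Ico_eq_restrict_Icc (μ := volume) (a := (0 : ℝ)) (b := 1)).symm

theorem mem_Ico_iff {n k : ℕ} {x : ℝ} (hx : 0 ≤ x) :
    x ∈ Set.Ico ((k : ℝ) / 2 ^ n) (((k : ℝ) + 1) / 2 ^ n) ↔ cell n x = k := by
  have h2 : (0 : ℝ) < 2 ^ n := by positivity
  unfold cell
  rw [Nat.floor_eq_iff (mul_nonneg h2.le hx), Set.mem_Ico, div_le_iff₀ h2, lt_div_iff₀ h2,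
    mul_comm x]

theorem haar_eq {p : ℝ} (j : Idx) {x : ℝ} (hx : x ∈ Set.Ico (0 : ℝ) 1) :
    haar p j x = bb p ^ lev j * HH j x := by
  rcases j with _ | ⟨n, k⟩
  · change (Set.Ico (0 : ℝ) 1).indicator (fun _ => (1 : ℝ)) x = bb p ^ 0 * ind 0 0 x
    rw [Set.indicator_of_mem hx, pow_zero, one_mul]
    have hc : cell 0 x = 0 := by
      have := cell_lt (n := 0) hx
      omega
    unfold ind
    rw [if_pos hc]
  · change (2 : ℝ) ^ ((n : ℝ) / p) *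
      ((Set.Ico (((k : ℕ) : ℝ) / 2 ^ n) ((((k : ℕ) : ℝ) + 1 / 2) / 2 ^ n)).indicator
        (fun _ => (1 : ℝ)) x -
       (Set.Ico ((((k : ℕ) : ℝ) + 1 / 2) / 2 ^ n) ((((k : ℕ) : ℝ) + 1) / 2 ^ n)).indicator
        (fun _ => 1) x) = bb p ^ n * (ind n k x * rs n x)
    have e0 : (2 : ℝ) ^ ((n : ℝ) / p) = bb p ^ n := by
      unfold bb
      rw [← Real.rpow_natCast, ← Real.rpow_mul (by norm_num)]
      congr 1
      ring
    rw [e0, ind_rs]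
    congr 1
    have hp : (2 : ℝ) ^ (n + 1) = 2 ^ n * 2 := pow_succ _ _
    have s1 : Set.Ico (((k : ℕ) : ℝ) / 2 ^ n) ((((k : ℕ) : ℝ) + 1 / 2) / 2 ^ n) =
        Set.Ico (((2 * (k : ℕ) : ℕ) : ℝ) / 2 ^ (n + 1)) ((((2 * (k : ℕ) : ℕ) : ℝ) + 1) / 2 ^ (n + 1)) := by
      rw [hp]
      push_cast
      congr 1 <;> field_simp
    have s2 : Set.Ico ((((k : ℕ) : ℝ) + 1 / 2) / 2 ^ n) ((((k : ℕ) : ℝ) + 1) / 2 ^ n) =
        Set.Ico (((2 * (k : ℕ) + 1 : ℕ) : ℝ) / 2 ^ (n + 1))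
          ((((2 * (k : ℕ) + 1 : ℕ) : ℝ) + 1) / 2 ^ (n + 1)) := by
      rw [hp]
      push_cast
      congr 1 <;> field_simp
      ring
    rw [s1, s2]
    have hi : ∀ m : ℕ, (Set.Ico ((m : ℝ) / 2 ^ (n + 1)) (((m : ℝ) + 1) / 2 ^ (n + 1))).indicator
        (fun _ => (1 : ℝ)) x = ind (n + 1) m x := by
      intro m
      unfold ind
      by_cases h : cell (n + 1) x = m
      · rw [Set.indicator_of_mem ((mem_Ico_iff hx.1).mpr h), if_pos h]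
      · rw [Set.indicator_of_notMem (fun h' => h ((mem_Ico_iff hx.1).mp h')), if_neg h]
    rw [hi, hi]

theorem main_aux {𝕜 : Type*} [RCLike 𝕜] {p : ℝ≥0∞} [Fact (1 ≤ p)] (hp : p ≠ ∞)
    (h1 : 1 < p.toReal) (μ : Measure ℝ) (hμ : μ = μ1) (h : Idx → Lp 𝕜 p μ)
    (hh : ∀ j, h j =ᵐ[μ] fun x => ((bb p.toReal ^ lev j * HH j x : ℝ) : 𝕜))
    (a : Idx → Lp 𝕜 p μ → 𝕜)
    (ha : ∀ j f, a j f = (((2 / bb p.toReal) ^ lev j : ℝ) : 𝕜) * ∫ x, f x * (HH j x : 𝕜) ∂μ) :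
    (∀ f : Lp 𝕜 p μ, HasSum (fun j => a j f • h j) f) ∧
    ∃ s : ℝ, 0 < s ∧ s < 1 ∧ ∃ N : Lp 𝕜 p μ → ℝ, IsSNorm 𝕜 s N ∧ IsEquivalent N ∧
      OneGreedy h a N := by
  classical
  subst hμ
  have hhN : h = hN 𝕜 p := by
    funext j
    apply Lp.ext
    filter_upwards [hh j, (HH_memLp 𝕜 p j).coeFn_toLp,
      Lp.coeFn_smul ((bb p.toReal ^ lev j : ℝ) : 𝕜) (hU 𝕜 p j)] with x g1 g2 g3
    unfold hN
    rw [g1, g3, Pi.smul_apply]
    unfold hU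
    rw [g2, RCLike.ofReal_mul, smul_eq_mul]
  have haN : ∀ j f, a j f = aN 𝕜 p j f := by
    intro j f
    rw [ha, aN_apply, ipL_apply]
  subst hhN
  obtain ⟨K, H⟩ := gb (𝕜 := 𝕜) hp h1
  refine ⟨fun f => ?_, 1 / (5 * K), ?_, ?_, SGreedy.NN (hN 𝕜 p) (aN 𝕜 p), ?_, ?_, ?_⟩
  · simp only [haN]
    exact hasSum hp h1 f
  · have := H.K1
    positivity
  · have := H.K1
    rw [div_lt_one (by positivity)]
    linarith
  · refine ⟨SGreedy.NN_nonneg H, fun f => ⟨fun h0 => ?_, fun h0 => ?_⟩, SGreedy.NN_smul H,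
      SGreedy.s_tri H⟩
    · have := SGreedy.NN_lower H f
      rw [h0] at this
      exact norm_le_zero_iff.mp this
    · rw [h0]
      exact SGreedy.NN_zero H
  · refine ⟨1, 2 * K, one_pos, ?_, fun f => ⟨?_, SGreedy.NN_upper H f⟩⟩
    · have := H.K1
      linarith
    · rw [one_mul]
      exact SGreedy.NN_lower H f
  · intro f A hA B b hB
    simp only [haN] at hA ⊢
    exact SGreedy.one_greedy H f A hA B hB b

/-- **Theorem.** -/
theorem main (𝕜 : Type*) [RCLike 𝕜] (p : ℝ≥0∞) [Fact (1 ≤ p)] (h1 : 1 < p) (hp : p < ∞) :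
    (∀ f : Lp 𝕜 p leb, HasSum (fun j => coef 𝕜 p j f • haarL 𝕜 p j) f) ∧
    ∃ s : ℝ, 0 < s ∧ s < 1 ∧ ∃ N : Lp 𝕜 p leb → ℝ, IsSNorm 𝕜 s N ∧ IsEquivalent N ∧
      OneGreedy (haarL 𝕜 p) (coef 𝕜 p) N := by
  have hP : 1 < p.toReal := by
    rw [← ENNReal.toReal_one]
    exact (ENNReal.toReal_lt_toReal ENNReal.one_ne_top hp.ne).mpr h1
  have hmem : ∀ᵐ x ∂leb, x ∈ Set.Ico (0 : ℝ) 1 := by
    rw [leb_eq]
    exact ae_restrict_mem measurableSet_Ico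
  have hb := bb_pos p.toReal
  apply main_aux hp.ne hP leb leb_eq
  · intro j
    filter_upwards [(haar_memLp 𝕜 p j).coeFn_toLp, hmem] with x g1 g2
    unfold haarL
    rw [g1, haar_eq j g2]
  · intro j f
    unfold coef
    have e1 : ∫ x, haar p.toReal j x ^ 2 ∂leb = (bb p.toReal ^ lev j) ^ 2 * (1 / 2 : ℝ) ^ lev j := by
      have : ∫ x, haar p.toReal j x ^ 2 ∂leb = ∫ x, (bb p.toReal ^ lev j) ^ 2 * HH j x ^ 2 ∂leb := by
        apply integral_congr_ae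
        filter_upwards [hmem] with x hx
        rw [haar_eq j hx]
        ring
      rw [this, integral_const_mul, leb_eq, int_HH_sq]
    have e2 : ∫ x, f x * ((haar p.toReal j x : ℝ) : 𝕜) ∂leb =
        ((bb p.toReal ^ lev j : ℝ) : 𝕜) * ∫ x, f x * (HH j x : 𝕜) ∂leb := by
      rw [← integral_const_mul]
      apply integral_congr_ae
      filter_upwards [hmem] with x hx
      rw [haar_eq j hx, RCLike.ofReal_mul]
      ring
    rw [e1, e2]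
    have e3 : ((2 / bb p.toReal) ^ lev j : ℝ) =
        bb p.toReal ^ lev j / ((bb p.toReal ^ lev j) ^ 2 * (1 / 2 : ℝ) ^ lev j) := by
      rw [div_pow, one_div_pow]
      field_simp
    rw [e3, RCLike.ofReal_div]
    ring

end Pool.Agent.Q196.HaarGreedy
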