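import Mathlib

open Topology Set Filter

namespace Pool.Agent.Q196.IEnvelope

/-! ### An abstract combination lemma -/

section Abstract

variable {E : Type*} [AddCommGroup E] [Module ℝ E]

/-- The filters obtained by passing to subsequences. -/
def Good (l : Filter ℕ) : Prop := l.NeBot ∧ l.IsCountablyGenerated ∧ l ≤ atTop

/-- The weights `w` for which some element of `A` is not small along `l`. -/
def U (p q : E → ℕ → ℝ) (δ : ℝ) (A : Set E) (l : Filter ℕ) : Set unitInterval :=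
  {w | ∃ a ∈ A, ∃ r > -δ / 2, ∃ᶠ n in l, r < w * p a n + (1 - w) * q a n}

omit [AddCommGroup E] [Module ℝ E] in
theorem U_mono {p q : E → ℕ → ℝ} {δ : ℝ} {A : Set E} {l l' : Filter ℕ} (h : l ≤ l') :
    U p q δ A l ⊆ U p q δ A l' := by
  rintro w ⟨a, ha, r, hr, hf⟩
  exact ⟨a, ha, r, hr, hf.filter_mono h⟩

omit [AddCommGroup E] [Module ℝ E] in
theorem U_open {p q : E → ℕ → ℝ} {M : E → ℝ} (hp : ∀ ξ n, |p ξ n| ≤ M ξ)
    (hq : ∀ ξ n, |q ξ n| ≤ M ξ) {δ : ℝ} {A : Set E} {l : Filter ℕ} : IsOpen (U p q δ A l) := by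
  rw [Metric.isOpen_iff]
  rintro w ⟨a, ha, r, hr, hf⟩
  have hM : 0 ≤ M a := (abs_nonneg _).trans (hp a 0)
  set ε := (r - -δ / 2) / 2 with hε
  have hεpos : 0 < ε := by rw [hε]; linarith
  refine ⟨ε / (2 * M a + 1), by positivity, fun w' hw' => ?_⟩
  refine ⟨a, ha, r - ε, by rw [hε]; linarith, hf.mono fun n hn => ?_⟩
  have hd : |(w' : ℝ) - w| < ε / (2 * M a + 1) := hw'
  have h1 : (w' : ℝ) * p a n + (1 - w') * q a n =
      (w * p a n + (1 - w) * q a n) + ((w' : ℝ) - w) * (p a n - q a n) := by ring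
  have h2 : |((w' : ℝ) - w) * (p a n - q a n)| ≤ ε := by
    rw [abs_mul]
    have h3 : |p a n - q a n| ≤ 2 * M a := by
      refine (abs_sub _ _).trans ?_
      have := hp a n
      have := hq a n
      linarith
    have h4 : |(w' : ℝ) - w| * (2 * M a + 1) ≤ ε := by
      have := (lt_div_iff₀ (show (0 : ℝ) < 2 * M a + 1 by positivity)).1 hd
      exact this.le
    have h5 : |(w' : ℝ) - w| * |p a n - q a n| ≤ |(w' : ℝ) - w| * (2 * M a) := by gcongr
    have h6 := abs_nonneg ((w' : ℝ) - w)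
    nlinarith
  have h7 := neg_le_of_abs_le h2
  rw [h1]
  linarith

theorem exists_ultralimit (𝓤 : Ultrafilter ℕ) {u : ℕ → ℝ} {M : ℝ} (h : ∀ n, |u n| ≤ M) :
    ∃ c, Tendsto u 𝓤 (𝓝 c) := by
  obtain ⟨c, -, hc⟩ := (isCompact_Icc (a := -M) (b := M)).ultrafilter_le_nhds (𝓤.map u) (by
    rw [Ultrafilter.coe_map, le_principal_iff, mem_map]
    exact univ_mem' (fun n => abs_le.1 (h n)))
  exact ⟨c, hc⟩

theorem combine_abstract {A B : Set E} (hAB : Convex ℝ (A ∪ B)) {p q : E → ℕ → ℝ}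
    (hpl : ∀ a b (s t : ℝ) n, s + t = 1 → p (s • a + t • b) n = s * p a n + t * p b n)
    (hql : ∀ a b (s t : ℝ) n, s + t = 1 → q (s • a + t • b) n = s * q a n + t * q b n)
    {M : E → ℝ} (hp : ∀ ξ n, |p ξ n| ≤ M ξ) (hq : ∀ ξ n, |q ξ n| ≤ M ξ) {δ : ℝ} (hδ : 0 < δ)
    (hA : ∀ a ∈ A, ∀ᶠ n in atTop, p a n ≤ -δ) (hB : ∀ b ∈ B, ∀ᶠ n in atTop, q b n ≤ -δ) :
    ∃ w : unitInterval, ∃ φ : ℕ → ℕ, ∀ ξ ∈ A ∪ B,
      ∀ᶠ k in atTop, w * p ξ (φ k) + (1 - w) * q ξ (φ k) ≤ -δ / 4 := by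
  by_contra hcon
  push Not at hcon
  -- the two open sets cover
  have hcov : ∀ l, Good l → ∀ w : unitInterval, w ∈ U p q δ A l ∪ U p q δ B l := by
    rintro l ⟨hne, hcg, -⟩ w
    by_contra hw
    obtain ⟨φ, hφ⟩ := exists_seq_tendsto l
    obtain ⟨ξ, hξ, hfr⟩ := hcon w φ
    apply hfr
    have hall : ∀ᶠ n in l, w * p ξ n + (1 - w) * q ξ n ≤ -δ / 4 := by
      by_contra hnot
      rw [not_eventually] at hnot
      have hnot' : ∃ᶠ n in l, -δ / 4 < w * p ξ n + (1 - w) * q ξ n :=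
        hnot.mono fun n hn => not_le.1 hn
      rcases hξ with hξ | hξ
      · exact hw (Or.inl ⟨ξ, hξ, -δ / 4, by linarith, hnot'⟩)
      · exact hw (Or.inr ⟨ξ, hξ, -δ / 4, by linarith, hnot'⟩)
    exact (hφ.eventually hall).mono fun k hk => not_lt.2 hk
  have hone : ∀ l, Good l → (1 : unitInterval) ∈ U p q δ B l := by
    intro l hl
    rcases hcov l hl 1 with h | h
    · exfalso
      obtain ⟨a, ha, r, hr, hf⟩ := h
      apply hf
      filter_upwards [hl.2.2 (hA a ha)] with n hn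
      have : p a n ≤ -δ := hn
      rw [Set.Icc.coe_one, one_mul, sub_self, zero_mul, add_zero, not_lt]
      linarith
    · exact h
  have hzero : ∀ l, Good l → (0 : unitInterval) ∈ U p q δ A l := by
    intro l hl
    rcases hcov l hl 0 with h | h
    · exact h
    · exfalso
      obtain ⟨b, hb, r, hr, hf⟩ := h
      apply hf
      filter_upwards [hl.2.2 (hB b hb)] with n hn
      have : q b n ≤ -δ := hn
      rw [Set.Icc.coe_zero, sub_zero, one_mul, zero_mul, zero_add, not_lt]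
      linarith
  have hinter : ∀ l, Good l → ∃ j : ℕ,
      TopologicalSpace.denseSeq unitInterval j ∈ U p q δ A l ∩ U p q δ B l := by
    intro l hl
    have hne := (isPreconnected_univ (α := unitInterval)) (U p q δ A l) (U p q δ B l)
      (U_open hp hq) (U_open hp hq) (fun w _ => hcov l hl w) ⟨0, trivial, hzero l hl⟩
      ⟨1, trivial, hone l hl⟩
    rw [univ_inter] at hne
    obtain ⟨j, hj⟩ := (TopologicalSpace.denseRange_denseSeq unitInterval).exists_mem_open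
      ((U_open hp hq).inter (U_open hp hq)) hne
    exact ⟨j, hj⟩
  -- stabilisation
  obtain ⟨l, hl, w, hw⟩ : ∃ l, Good l ∧ ∃ w : unitInterval, ∀ l' ≤ l, Good l' →
      w ∈ U p q δ A l' ∩ U p q δ B l' := by
    by_contra hno
    push Not at hno
    let next : {l : Filter ℕ // Good l} → unitInterval → {l : Filter ℕ // Good l} := fun l w =>
      ⟨(hno l.1 l.2 w).choose, (hno l.1 l.2 w).choose_spec.2.1⟩
    have hnext1 : ∀ l w, (next l w).1 ≤ l.1 := fun l w => (hno l.1 l.2 w).choose_spec.1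
    have hnext2 : ∀ l w, w ∉ U p q δ A (next l w).1 ∩ U p q δ B (next l w).1 := fun l w =>
      (hno l.1 l.2 w).choose_spec.2.2
    let F : ℕ → {l : Filter ℕ // Good l} := fun j =>
      Nat.rec ⟨atTop, inferInstance, inferInstance, le_rfl⟩
        (fun j l => next l (TopologicalSpace.denseSeq unitInterval j)) j
    have hFsucc : ∀ j, F (j + 1) = next (F j) (TopologicalSpace.denseSeq unitInterval j) :=
      fun j => rfl
    have hanti : Antitone (fun j => (F j).1) :=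
      antitone_nat_of_succ_le (fun j => by
        rw [hFsucc]
        exact hnext1 _ _)
    have hgood : Good (⨅ j, (F j).1) := by
      refine ⟨?_, ?_, ?_⟩
      · exact iInf_neBot_of_directed' (hanti.directed_ge) (fun j => (F j).2.1)
      · have := fun j => (F j).2.2.1
        infer_instance
      · exact (iInf_le _ 0)
    obtain ⟨j, hj⟩ := hinter _ hgood
    apply hnext2 (F j) (TopologicalSpace.denseSeq unitInterval j)
    rw [← hFsucc]
    exact ⟨U_mono (iInf_le (fun j => (F j).1) (j + 1)) hj.1,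
      U_mono (iInf_le (fun j => (F j).1) (j + 1)) hj.2⟩
  -- the elements `a` and `b`
  obtain ⟨a, ha, ra, hra, hfa⟩ := (hw l le_rfl hl).1
  set l1 := l ⊓ 𝓟 {n | ra < w * p a n + (1 - w) * q a n} with hl1
  have hgood1 : Good l1 := by
    refine ⟨frequently_mem_iff_neBot.1 hfa, ?_, inf_le_left.trans hl.2.2⟩
    have := hl.2.1
    infer_instance
  obtain ⟨b, hb, rb, hrb, hfb⟩ := (hw l1 inf_le_left hgood1).2
  set l2 := l1 ⊓ 𝓟 {n | rb < w * p b n + (1 - w) * q b n} with hl2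
  have hne2 : l2.NeBot := frequently_mem_iff_neBot.1 hfb
  let 𝓤 : Ultrafilter ℕ := Ultrafilter.of l2
  have h𝓤 : (𝓤 : Filter ℕ) ≤ l2 := Ultrafilter.of_le l2
  have h𝓤top : (𝓤 : Filter ℕ) ≤ atTop := h𝓤.trans (inf_le_left.trans hgood1.2.2)
  have hea : ∀ᶠ n in (𝓤 : Filter ℕ), ra < w * p a n + (1 - w) * q a n :=
    (h𝓤.trans (inf_le_left.trans inf_le_right)) (mem_principal_self _)
  have heb : ∀ᶠ n in (𝓤 : Filter ℕ), rb < w * p b n + (1 - w) * q b n :=
    (h𝓤.trans inf_le_right) (mem_principal_self _)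
  obtain ⟨pa, hpa⟩ := exists_ultralimit 𝓤 (hp a)
  obtain ⟨qa, hqa⟩ := exists_ultralimit 𝓤 (hq a)
  obtain ⟨pb, hpb⟩ := exists_ultralimit 𝓤 (hp b)
  obtain ⟨qb, hqb⟩ := exists_ultralimit 𝓤 (hq b)
  have hlima : ra ≤ w * pa + (1 - w) * qa :=
    ge_of_tendsto ((hpa.const_mul _).add (hqa.const_mul _)) (hea.mono fun n hn => hn.le)
  have hlimb : rb ≤ w * pb + (1 - w) * qb :=
    ge_of_tendsto ((hpb.const_mul _).add (hqb.const_mul _)) (heb.mono fun n hn => hn.le)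
  -- the segment
  have hseg : Icc (0 : ℝ) 1 ⊆ {t | (1 - t) * pa + t * pb ≤ -δ} ∪
      {t | (1 - t) * qa + t * qb ≤ -δ} := by
    intro t ht
    have hmem : (1 - t) • a + t • b ∈ A ∪ B :=
      hAB (Or.inl ha) (Or.inr hb) (by linarith [ht.2]) ht.1 (by ring)
    rcases hmem with h | h
    · left
      have hev : ∀ᶠ n in (𝓤 : Filter ℕ), (1 - t) * p a n + t * p b n ≤ -δ := by
        have hev0 : ∀ᶠ n in (𝓤 : Filter ℕ), p ((1 - t) • a + t • b) n ≤ -δ := h𝓤top (hA _ h)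
        refine hev0.mono fun n hn => ?_
        rwa [hpl a b (1 - t) t n (by ring)] at hn
      exact le_of_tendsto ((hpa.const_mul _).add (hpb.const_mul _)) hev
    · right
      have hev : ∀ᶠ n in (𝓤 : Filter ℕ), (1 - t) * q a n + t * q b n ≤ -δ := by
        have hev0 : ∀ᶠ n in (𝓤 : Filter ℕ), q ((1 - t) • a + t • b) n ≤ -δ := h𝓤top (hB _ h)
        refine hev0.mono fun n hn => ?_
        rwa [hql a b (1 - t) t n (by ring)] at hn
      exact le_of_tendsto ((hqa.const_mul _).add (hqb.const_mul _)) hev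
  have hpa' : pa ≤ -δ := le_of_tendsto hpa (h𝓤top (hA a ha))
  have hqb' : qb ≤ -δ := le_of_tendsto hqb (h𝓤top (hB b hb))
  obtain ⟨t, ht, ht1, ht2⟩ := isPreconnected_closed_iff.1 (isPreconnected_Icc (a := (0 : ℝ)) (b := 1))
    {t | (1 - t) * pa + t * pb ≤ -δ} {t | (1 - t) * qa + t * qb ≤ -δ}
    (isClosed_le (by fun_prop) continuous_const) (isClosed_le (by fun_prop) continuous_const)
    hseg ⟨0, by simp, by simpa using hpa'⟩ ⟨1, by simp, by simpa using hqb'⟩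
  have ht1' : (1 - t) * pa + t * pb ≤ -δ := ht1
  have ht2' : (1 - t) * qa + t * qb ≤ -δ := ht2
  have hw0 : (0 : ℝ) ≤ w := w.2.1
  have hw1 : (0 : ℝ) ≤ 1 - w := by linarith [w.2.2]
  have e1 := mul_le_mul_of_nonneg_left ht1' hw0
  have e2 := mul_le_mul_of_nonneg_left ht2' hw1
  have e3 := mul_le_mul_of_nonneg_left hlima (show (0 : ℝ) ≤ 1 - t by linarith [ht.2])
  have e4 := mul_le_mul_of_nonneg_left hlimb ht.1
  have e5 : (1 - t) * (-δ / 2) ≤ (1 - t) * ra :=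
    mul_le_mul_of_nonneg_left hra.le (by linarith [ht.2])
  have e6 : t * (-δ / 2) ≤ t * rb := mul_le_mul_of_nonneg_left hrb.le ht.1
  nlinarith

end Abstract

/-! ### The (I)-envelope -/

section Env

variable {𝕜 : Type*} [RCLike 𝕜] {X : Type*} [NormedAddCommGroup X] [NormedSpace 𝕜 X]

/-- The weak* closure. -/
def wcl (S : Set (StrongDual 𝕜 X)) : Set (StrongDual 𝕜 X) :=
  {f | StrongDual.toWeakDual f ∈ closure (StrongDual.toWeakDual '' S)}

/-- The (I)-envelope of `A`. -/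
def Ienv (A : Set (StrongDual 𝕜 X)) : Set (StrongDual 𝕜 X) :=
  ⋂ (S : ℕ → Set (StrongDual 𝕜 X)) (_ : A = ⋃ n, S n),
    closure (convexHull ℝ (⋃ n, wcl (convexHull ℝ (S n))))

/-- Separation of `η` from `A` by a sequence in the unit ball. -/
def Sep (A : Set (StrongDual 𝕜 X)) (η : StrongDual 𝕜 X) : Prop :=
  ∃ x : ℕ → X, (∀ n, ‖x n‖ ≤ 1) ∧ ∃ δ > 0, ∀ ξ ∈ A, ∀ᶠ n in atTop,
    RCLike.re ((ξ - η) (x n)) ≤ -δ

theorem re_comb (ξ ζ : StrongDual 𝕜 X) (s t : ℝ) (x : X) :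
    RCLike.re ((s • ξ + t • ζ) x) = s * RCLike.re (ξ x) + t * RCLike.re (ζ x) := by
  change RCLike.re (s • ξ x + t • ζ x) = _
  rw [map_add, RCLike.smul_re, RCLike.smul_re]

theorem comb_sub (a b η : StrongDual 𝕜 X) {s t : ℝ} (hst : s + t = 1) :
    s • a + t • b - η = s • (a - η) + t • (b - η) := by
  ext z
  change s • a z + t • b z - η z = s • (a z - η z) + t • (b z - η z)
  have h2 : η z = s • η z + t • η z := by rw [← add_smul, hst, one_smul]
  conv_lhs => rw [h2]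
  rw [smul_sub, smul_sub]
  abel

theorem sep_union {A B : Set (StrongDual 𝕜 X)} {η : StrongDual 𝕜 X} (hAB : Convex ℝ (A ∪ B))
    (hA : Sep A η) (hB : Sep B η) : Sep (A ∪ B) η := by
  obtain ⟨x, hx, δ₁, hδ₁, hA⟩ := hA
  obtain ⟨y, hy, δ₂, hδ₂, hB⟩ := hB
  set δ := min δ₁ δ₂ with hδdef
  have hδ : 0 < δ := lt_min hδ₁ hδ₂
  have hbound : ∀ (z : ℕ → X), (∀ n, ‖z n‖ ≤ 1) → ∀ (ξ : StrongDual 𝕜 X) n,
      |RCLike.re ((ξ - η) (z n))| ≤ ‖ξ - η‖ := by
    intro z hz ξ n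
    calc |RCLike.re ((ξ - η) (z n))| ≤ ‖(ξ - η) (z n)‖ := RCLike.abs_re_le_norm _
      _ ≤ ‖ξ - η‖ * ‖z n‖ := (ξ - η).le_opNorm _
      _ ≤ ‖ξ - η‖ * 1 := by gcongr; exact hz n
      _ = ‖ξ - η‖ := mul_one _
  have hlin : ∀ (z : ℕ → X) (a b : StrongDual 𝕜 X) (s t : ℝ) n, s + t = 1 →
      RCLike.re ((s • a + t • b - η) (z n)) =
        s * RCLike.re ((a - η) (z n)) + t * RCLike.re ((b - η) (z n)) := by
    intro z a b s t n hst
    rw [comb_sub a b η hst, re_comb]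
  obtain ⟨w, φ, hw⟩ := combine_abstract (E := StrongDual 𝕜 X) hAB
    (p := fun ξ n => RCLike.re ((ξ - η) (x n))) (q := fun ξ n => RCLike.re ((ξ - η) (y n)))
    (hlin x) (hlin y) (M := fun ξ => ‖ξ - η‖) (hbound x hx) (hbound y hy) hδ
    (fun a ha => (hA a ha).mono fun n hn => hn.trans (neg_le_neg (min_le_left _ _)))
    (fun b hb => (hB b hb).mono fun n hn => hn.trans (neg_le_neg (min_le_right _ _)))
  refine ⟨fun k => ((w : ℝ) : 𝕜) • x (φ k) + ((1 - w : ℝ) : 𝕜) • y (φ k), fun k => ?_,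
    δ / 4, by positivity, fun ξ hξ => ?_⟩
  · refine (norm_add_le _ _).trans ?_
    rw [norm_smul, norm_smul, RCLike.norm_ofReal, RCLike.norm_ofReal, abs_of_nonneg w.2.1,
      abs_of_nonneg (by linarith [w.2.2])]
    have h1 := mul_le_mul_of_nonneg_left (hx (φ k)) w.2.1
    have h2 := mul_le_mul_of_nonneg_left (hy (φ k)) (show (0 : ℝ) ≤ 1 - w by linarith [w.2.2])
    linarith
  · filter_upwards [hw ξ hξ] with k hk
    rw [map_add, map_smul, map_smul, map_add, smul_eq_mul, smul_eq_mul, RCLike.re_ofReal_mul,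
      RCLike.re_ofReal_mul]
    linarith

/-! ### A separating sequence excludes from the envelope -/

theorem wcl_le {S : Set (StrongDual 𝕜 X)} {x : X} {c : ℝ} {η : StrongDual 𝕜 X}
    (h : ∀ ξ ∈ S, RCLike.re ((ξ - η) x) ≤ c) : ∀ ξ ∈ wcl S, RCLike.re ((ξ - η) x) ≤ c := by
  intro ξ hξ
  have hcl : IsClosed {f : WeakDual 𝕜 X | RCLike.re (f x) - RCLike.re (η x) ≤ c} :=
    isClosed_le ((RCLike.continuous_re.comp (WeakDual.eval_continuous x)).sub continuous_const)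
      continuous_const
  have hsub : closure (StrongDual.toWeakDual '' S) ⊆
      {f : WeakDual 𝕜 X | RCLike.re (f x) - RCLike.re (η x) ≤ c} := by
    refine closure_minimal ?_ hcl
    rintro _ ⟨f, hf, rfl⟩
    have := h f hf
    rw [_root_.sub_apply, map_sub] at this
    exact this
  have h1 := hsub (show StrongDual.toWeakDual ξ ∈ closure (StrongDual.toWeakDual '' S) from hξ)
  rw [_root_.sub_apply, map_sub]
  exact h1

theorem convex_half (η : StrongDual 𝕜 X) (x : X) (c : ℝ) :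
    Convex ℝ {ξ : StrongDual 𝕜 X | RCLike.re ((ξ - η) x) ≤ c} := by
  intro a ha b hb s t hs ht hst
  have ha' : RCLike.re ((a - η) x) ≤ c := ha
  have hb' : RCLike.re ((b - η) x) ≤ c := hb
  change RCLike.re ((s • a + t • b - η) x) ≤ c
  rw [comb_sub a b η hst, re_comb]
  have e1 := mul_le_mul_of_nonneg_left ha' hs
  have e2 := mul_le_mul_of_nonneg_left hb' ht
  have e3 : s * c + t * c = c := by rw [← add_mul, hst, one_mul]
  linarith

theorem not_mem_of_sep {A : Set (StrongDual 𝕜 X)} {η : StrongDual 𝕜 X} (h : Sep A η) :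
    η ∉ Ienv A := by
  obtain ⟨x, hx, δ, hδ, hA⟩ := h
  intro hmem
  let S : ℕ → Set (StrongDual 𝕜 X) := fun k => {ξ | ξ ∈ A ∧ ∀ n ≥ k, RCLike.re ((ξ - η) (x n)) ≤ -δ}
  have hS : A = ⋃ n, S n := by
    ext ξ
    constructor
    · intro hξ
      obtain ⟨k, hk⟩ := eventually_atTop.1 (hA ξ hξ)
      exact mem_iUnion.2 ⟨k, hξ, hk⟩
    · intro hξ
      obtain ⟨k, hk⟩ := mem_iUnion.1 hξ
      exact hk.1
  have hcl := mem_iInter₂.1 hmem S hS
  let T : Set (StrongDual 𝕜 X) := {ξ | ∃ k, ∀ n ≥ k, RCLike.re ((ξ - η) (x n)) ≤ -δ}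
  have hTconv : Convex ℝ T := by
    rintro a ⟨k, hk⟩ b ⟨m, hm⟩ s t hs ht hst
    refine ⟨max k m, fun n hn => ?_⟩
    exact convex_half η (x n) (-δ) (hk n (le_trans (le_max_left _ _) hn))
      (hm n (le_trans (le_max_right _ _) hn)) hs ht hst
  have hsub : convexHull ℝ (⋃ n, wcl (convexHull ℝ (S n))) ⊆ T := by
    refine convexHull_min (iUnion_subset fun k => ?_) hTconv
    intro ξ hξ
    refine ⟨k, fun n hn => ?_⟩
    refine wcl_le (fun ζ hζ => ?_) ξ hξ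
    have h1 : convexHull ℝ (S k) ⊆ {ξ : StrongDual 𝕜 X | RCLike.re ((ξ - η) (x n)) ≤ -δ} :=
      convexHull_min (fun ζ hζ => hζ.2 n hn) (convex_half η (x n) (-δ))
    exact h1 hζ
  obtain ⟨ξ, hξT, hd⟩ := Metric.mem_closure_iff.1 (closure_mono hsub hcl) δ hδ
  obtain ⟨k, hk⟩ := hξT
  have h1 := hk k le_rfl
  have h2 : |RCLike.re ((ξ - η) (x k))| ≤ ‖ξ - η‖ := by
    calc |RCLike.re ((ξ - η) (x k))| ≤ ‖(ξ - η) (x k)‖ := RCLike.abs_re_le_norm _
      _ ≤ ‖ξ - η‖ * ‖x k‖ := (ξ - η).le_opNorm _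
      _ ≤ ‖ξ - η‖ * 1 := by gcongr; exact hx k
      _ = ‖ξ - η‖ := mul_one _
  rw [dist_eq_norm, norm_sub_rev] at hd
  have h3 := neg_le_of_abs_le h2
  linarith

/-! ### A functional outside the envelope is separated by a sequence -/

theorem isCompact_convexJoin {V : Type*} [AddCommGroup V] [Module ℝ V] [TopologicalSpace V]
    [ContinuousAdd V] [ContinuousSMul ℝ V] {s t : Set V} (hs : IsCompact s) (ht : IsCompact t) :
    IsCompact (convexJoin ℝ s t) := by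
  have h1 : convexJoin ℝ s t =
      (fun z : ℝ × V × V => (1 - z.1) • z.2.1 + z.1 • z.2.2) '' (Icc (0 : ℝ) 1 ×ˢ (s ×ˢ t)) := by
    ext v
    rw [mem_convexJoin]
    constructor
    · rintro ⟨a, ha, b, hb, hv⟩
      rw [segment_eq_image] at hv
      obtain ⟨θ, hθ, rfl⟩ := hv
      exact ⟨(θ, a, b), ⟨hθ, ha, hb⟩, rfl⟩
    · rintro ⟨⟨θ, a, b⟩, ⟨hθ, ha, hb⟩, rfl⟩
      refine ⟨a, ha, b, hb, ?_⟩
      rw [segment_eq_image]
      exact ⟨θ, hθ, rfl⟩
  rw [h1]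
  refine (isCompact_Icc.prod (hs.prod ht)).image ?_
  fun_prop

theorem isCompact_hull {V : Type*} [AddCommGroup V] [Module ℝ V] [TopologicalSpace V]
    [ContinuousAdd V] [ContinuousSMul ℝ V] {L : ℕ → Set V} (hL : ∀ k, IsCompact (L k))
    (hL' : ∀ k, Convex ℝ (L k)) (m : ℕ) : IsCompact (convexHull ℝ (⋃ k < m, L k)) := by
  induction m with
  | zero => simp
  | succ m ih =>
    have h1 : (⋃ k < m + 1, L k) = (⋃ k < m, L k) ∪ L m := by
      rw [biUnion_lt_succ]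
    rw [h1]
    rcases (⋃ k < m, L k).eq_empty_or_nonempty with he | hne
    · rw [he, empty_union, (hL' m).convexHull_eq]
      exact hL m
    · rcases (L m).eq_empty_or_nonempty with he' | hne'
      · rw [he', union_empty]
        exact ih
      · rw [convexHull_union hne hne', (hL' m).convexHull_eq]
        exact isCompact_convexJoin ih (hL m)

/-- The pointwise values. -/
def j (ξ : StrongDual 𝕜 X) : X → 𝕜 := fun x => ξ x

theorem j_inj {ξ ζ : StrongDual 𝕜 X} (h : j ξ = j ζ) : ξ = ζ :=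
  ContinuousLinearMap.ext (fun x => congrFun h x)

theorem eval_of_continuous (f : StrongDual 𝕜 (X → 𝕜)) :
    ∃ x₀ : X, ∀ ξ : StrongDual 𝕜 X, f (j ξ) = ξ x₀ := by
  have hmem : {g : X → 𝕜 | ‖f g‖ < 1} ∈ 𝓝 (0 : X → 𝕜) := by
    have h1 : ContinuousAt (fun g => ‖f g‖) 0 := f.continuous.norm.continuousAt
    have h2 : ‖f 0‖ < 1 := by simp
    exact h1.eventually (gt_mem_nhds h2)
  rw [nhds_pi, Filter.mem_pi] at hmem
  obtain ⟨I, hI, t, ht, hsub⟩ := hmem
  have : Fintype I := hI.fintype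
  let ev : I → (X → 𝕜) →ₗ[𝕜] 𝕜 := fun x => LinearMap.proj (x : X)
  have hle : ⨅ i, LinearMap.ker (ev i) ≤ LinearMap.ker f.toLinearMap := by
    intro g hg
    rw [Submodule.mem_iInf] at hg
    rw [LinearMap.mem_ker]
    by_contra hne
    have hne' : f g ≠ 0 := hne
    have h1 : (f g)⁻¹ • g ∈ {g : X → 𝕜 | ‖f g‖ < 1} := by
      apply hsub
      intro i hi
      have h2 : g i = 0 := hg ⟨i, hi⟩
      have h3 : ((f g)⁻¹ • g) i = 0 := by
        rw [Pi.smul_apply, h2, smul_zero]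
      rw [h3]
      exact mem_of_mem_nhds (ht i)
    have h4 : ‖f ((f g)⁻¹ • g)‖ < 1 := h1
    rw [map_smul, smul_eq_mul, inv_mul_cancel₀ hne', norm_one] at h4
    exact lt_irrefl _ h4
  have hmem := mem_span_of_iInf_ker_le_ker hle
  obtain ⟨c, hc⟩ := (Submodule.mem_span_range_iff_exists_fun 𝕜).1 hmem
  refine ⟨∑ i, c i • (i : X), fun ξ => ?_⟩
  have h1 : f (j ξ) = ∑ i, c i • ξ (i : X) := by
    have h2 := congrArg (fun F : (X → 𝕜) →ₗ[𝕜] 𝕜 => F (j ξ)) hc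
    simp only [LinearMap.sum_apply] at h2
    exact h2.symm
  rw [h1, map_sum]
  simp only [map_smul]

theorem sep_sets {K L : Set (X → 𝕜)} (hK : IsCompact K) (hKc : Convex ℝ K)
    (hL : IsCompact L) (hLc : Convex ℝ L) (hdisj : Disjoint K L) :
    ∃ (x : X) (u v : ℝ), (∀ a : StrongDual 𝕜 X, j a ∈ K → RCLike.re (a x) < u) ∧ u < v ∧
      ∀ b : StrongDual 𝕜 X, j b ∈ L → v < RCLike.re (b x) := by
  obtain ⟨f, u, v, hu, huv, hv⟩ := RCLike.geometric_hahn_banach_compact_closed (𝕜 := 𝕜) hKc hK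
    hLc hL.isClosed hdisj
  obtain ⟨x₀, hx₀⟩ := eval_of_continuous f
  exact ⟨x₀, u, v, fun a ha => by rw [← hx₀]; exact hu _ ha, huv, fun b hb => by
    rw [← hx₀]; exact hv _ hb⟩

theorem isCompact_jball (η : StrongDual 𝕜 X) (r : ℝ) :
    IsCompact (j '' {ξ : StrongDual 𝕜 X | ‖ξ - η‖ ≤ r}) := by
  have h1 := (WeakDual.isCompact_closedBall η r).image
    (f := fun ξ : WeakDual 𝕜 X => (fun x => ξ x : X → 𝕜)) (WeakDual.coeFn_continuous (𝕜 := 𝕜) (E := X))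
  convert h1 using 1
  ext v
  constructor
  · rintro ⟨ξ, hξ, rfl⟩
    refine ⟨StrongDual.toWeakDual ξ, ?_, rfl⟩
    change dist ξ η ≤ r
    rw [dist_eq_norm]
    exact hξ
  · rintro ⟨ξ, hξ, rfl⟩
    refine ⟨WeakDual.toStrongDual ξ, ?_, rfl⟩
    have h2 : dist (WeakDual.toStrongDual ξ) η ≤ r := hξ
    rw [dist_eq_norm] at h2
    exact h2

theorem mem_wcl {T : Set (StrongDual 𝕜 X)} {ξ : StrongDual 𝕜 X} (h : j ξ ∈ closure (j '' T)) :
    ξ ∈ wcl T := by
  have hind : IsInducing (fun ξ : WeakDual 𝕜 X => (fun x => ξ x : X → 𝕜)) := ⟨rfl⟩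
  change StrongDual.toWeakDual ξ ∈ closure (StrongDual.toWeakDual '' T)
  rw [hind.closure_eq_preimage_closure_image, image_image]
  exact h

theorem ofReal_norm_smul (s : ℝ) (ξ : StrongDual 𝕜 X) : ‖s • ξ‖ = |s| * ‖ξ‖ := by
  have : s • ξ = ((s : ℝ) : 𝕜) • ξ := by
    ext z
    change s • ξ z = ((s : ℝ) : 𝕜) * ξ z
    rw [RCLike.real_smul_eq_coe_mul]
  rw [this, norm_smul, RCLike.norm_ofReal]

theorem convex_ball_dual (η : StrongDual 𝕜 X) (r : ℝ) :
    Convex ℝ {ξ : StrongDual 𝕜 X | ‖ξ - η‖ ≤ r} := by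
  intro a ha b hb s t hs ht hst
  have ha' : ‖a - η‖ ≤ r := ha
  have hb' : ‖b - η‖ ≤ r := hb
  change ‖s • a + t • b - η‖ ≤ r
  rw [comb_sub a b η hst]
  refine (norm_add_le _ _).trans ?_
  rw [ofReal_norm_smul, ofReal_norm_smul, abs_of_nonneg hs, abs_of_nonneg ht]
  have e1 := mul_le_mul_of_nonneg_left ha' hs
  have e2 := mul_le_mul_of_nonneg_left hb' ht
  have e3 : s * r + t * r = r := by rw [← add_mul, hst, one_mul]
  linarith

theorem convex_jimg {S : Set (StrongDual 𝕜 X)} (hS : Convex ℝ S) : Convex ℝ (j '' S) := by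
  rintro _ ⟨a, ha, rfl⟩ _ ⟨b, hb, rfl⟩ s t hs ht hst
  exact ⟨s • a + t • b, hS ha hb hs ht hst, rfl⟩

/-- Separation of a weak* compact convex set from a point at positive distance. -/
theorem sep_compact {K : Set (X → 𝕜)} (hK : IsCompact K) (hKc : Convex ℝ K)
    (hKj : ∀ v ∈ K, ∃ ξ : StrongDual 𝕜 X, j ξ = v)
    (hKne : K.Nonempty) {η : StrongDual 𝕜 X} {δ : ℝ} (hδ : 0 < δ)
    (hd : ∀ ξ : StrongDual 𝕜 X, j ξ ∈ K → δ < ‖ξ - η‖) :
    ∃ x : X, ‖x‖ ≤ 1 ∧ ∀ ξ : StrongDual 𝕜 X, j ξ ∈ K → RCLike.re ((ξ - η) x) ≤ -δ := by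
  have hdisj : Disjoint K (j '' {ξ : StrongDual 𝕜 X | ‖ξ - η‖ ≤ δ}) := by
    rw [Set.disjoint_left]
    rintro _ hK ⟨ξ, hξ, rfl⟩
    have h1 := hd ξ hK
    have h2 : ‖ξ - η‖ ≤ δ := hξ
    linarith
  obtain ⟨x₀, u, v, hu, huv, hv⟩ := sep_sets hK hKc (isCompact_jball η δ)
    (convex_jimg (convex_ball_dual η δ)) hdisj
  have hηmem : ∀ g : StrongDual 𝕜 X, ‖g‖ ≤ 1 → v < RCLike.re ((η - ((δ : ℝ) : 𝕜) • g) x₀) := by
    intro g hg
    refine hv _ ⟨_, ?_, rfl⟩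
    change ‖η - ((δ : ℝ) : 𝕜) • g - η‖ ≤ δ
    rw [sub_sub_cancel_left, norm_neg, norm_smul, RCLike.norm_ofReal, abs_of_pos hδ]
    nlinarith
  have hx0 : x₀ ≠ 0 := by
    intro h0
    obtain ⟨w, hw⟩ := hKne
    obtain ⟨ξ, rfl⟩ := hKj w hw
    have h1 := hu ξ hw
    rw [h0, map_zero, map_zero] at h1
    have h2 := hηmem 0 (by simp)
    rw [h0, map_zero, map_zero] at h2
    linarith
  have hxn : 0 < ‖x₀‖ := norm_pos_iff.2 hx0
  obtain ⟨g, hg1, hgx⟩ := exists_dual_vector'' 𝕜 x₀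
  have hη := hηmem g hg1
  have hη' : v < RCLike.re (η x₀) - δ * ‖x₀‖ := by
    have h1 : (η - ((δ : ℝ) : 𝕜) • g) x₀ = η x₀ - ((δ : ℝ) : 𝕜) * g x₀ := rfl
    rw [h1, hgx, map_sub, RCLike.re_ofReal_mul, RCLike.ofReal_re] at hη
    exact hη
  refine ⟨((‖x₀‖⁻¹ : ℝ) : 𝕜) • x₀, ?_, fun ξ hξ => ?_⟩
  · rw [norm_smul, RCLike.norm_ofReal, abs_of_pos (by positivity), inv_mul_cancel₀ hxn.ne']
  · have h2 := hu ξ hξ
    rw [map_smul, smul_eq_mul, RCLike.re_ofReal_mul, _root_.sub_apply, map_sub]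
    have h3 : RCLike.re (ξ x₀) - RCLike.re (η x₀) ≤ -(δ * ‖x₀‖) := by linarith
    calc ‖x₀‖⁻¹ * (RCLike.re (ξ x₀) - RCLike.re (η x₀)) ≤ ‖x₀‖⁻¹ * (-(δ * ‖x₀‖)) := by gcongr
      _ = -δ := by field_simp

/-- The weak* compact pieces. -/
def piece (S : Set (StrongDual 𝕜 X)) (r : ℝ) : Set (X → 𝕜) :=
  closure (j '' (convexHull ℝ (S ∩ {ξ | ‖ξ - 0‖ ≤ r})))

theorem piece_subset (S : Set (StrongDual 𝕜 X)) (r : ℝ) :
    piece S r ⊆ j '' {ξ : StrongDual 𝕜 X | ‖ξ - 0‖ ≤ r} :=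
  closure_minimal (image_mono (convexHull_min inter_subset_right (convex_ball_dual 0 r)))
    (isCompact_jball 0 r).isClosed

theorem isCompact_piece (S : Set (StrongDual 𝕜 X)) (r : ℝ) : IsCompact (piece S r) :=
  (isCompact_jball 0 r).of_isClosed_subset isClosed_closure (piece_subset S r)

theorem convex_piece (S : Set (StrongDual 𝕜 X)) (r : ℝ) : Convex ℝ (piece S r) :=
  (convex_jimg (convex_convexHull ℝ _)).closure

theorem piece_subset_wcl (S : Set (StrongDual 𝕜 X)) (r : ℝ) :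
    piece S r ⊆ j '' wcl (convexHull ℝ S) := by
  intro v hv
  obtain ⟨ξ, -, rfl⟩ := piece_subset S r hv
  refine ⟨ξ, mem_wcl ?_, rfl⟩
  exact closure_mono (image_mono (convexHull_mono inter_subset_left)) hv

theorem sep_of_not_mem {A : Set (StrongDual 𝕜 X)} {η : StrongDual 𝕜 X} (h : η ∉ Ienv A) :
    Sep A η := by
  unfold Ienv at h
  rw [mem_iInter₂] at h
  push Not at h
  obtain ⟨S, hS, hη⟩ := h
  set W := convexHull ℝ (⋃ n, wcl (convexHull ℝ (S n))) with hW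
  obtain ⟨δ, hδ, hdist⟩ : ∃ δ > 0, ∀ ξ ∈ W, δ ≤ ‖ξ - η‖ := by
    rw [Metric.mem_closure_iff] at hη
    push Not at hη
    obtain ⟨δ, hδ, h⟩ := hη
    refine ⟨δ, hδ, fun ξ hξ => ?_⟩
    have := h ξ hξ
    rwa [dist_eq_norm, norm_sub_rev] at this
  let K : ℕ → Set (X → 𝕜) := fun n => convexHull ℝ (⋃ k < n, piece (S k) n)
  have hKcomp : ∀ n, IsCompact (K n) := fun n =>
    isCompact_hull (fun k => isCompact_piece (S k) n) (fun k => convex_piece (S k) n) n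
  have hKW : ∀ n, K n ⊆ j '' W := by
    intro n
    refine convexHull_min (iUnion₂_subset fun k _ => ?_) (convex_jimg (convex_convexHull ℝ _))
    refine (piece_subset_wcl (S k) n).trans (image_mono ?_)
    exact (subset_iUnion (fun n => wcl (convexHull ℝ (S n))) k).trans (subset_convexHull ℝ _)
  have hex : ∀ n, ∃ x : X, ‖x‖ ≤ 1 ∧ ∀ ξ : StrongDual 𝕜 X, j ξ ∈ K n →
      RCLike.re ((ξ - η) x) ≤ -(δ / 2) := by
    intro n
    rcases (K n).eq_empty_or_nonempty with he | hne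
    · refine ⟨0, by simp, fun ξ hξ => ?_⟩
      rw [he] at hξ
      exact absurd hξ (notMem_empty _)
    · refine sep_compact (hKcomp n) (convex_convexHull ℝ _) (fun v hv => ?_) hne (by positivity)
        (fun ξ hξ => ?_)
      · obtain ⟨ξ, -, h⟩ := hKW n hv
        exact ⟨ξ, h⟩
      · obtain ⟨ζ, hζ, he⟩ := hKW n hξ
        rw [j_inj he] at hζ
        have := hdist ξ hζ
        linarith
  choose x hx1 hx2 using hex
  refine ⟨x, hx1, δ / 2, by positivity, fun ξ hξ => ?_⟩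
  rw [hS] at hξ
  obtain ⟨k, hk⟩ := mem_iUnion.1 hξ
  obtain ⟨N, hN⟩ := exists_nat_ge ‖ξ‖
  filter_upwards [eventually_gt_atTop k, eventually_ge_atTop N] with n hn hn'
  refine hx2 n ξ ?_
  refine subset_convexHull ℝ _ (mem_iUnion₂.2 ⟨k, hn, ?_⟩)
  have hξn : ‖ξ - 0‖ ≤ (n : ℝ) := by
    rw [sub_zero]
    exact hN.trans (by exact_mod_cast hn')
  exact subset_closure ⟨ξ, subset_convexHull ℝ _ ⟨hk, hξn⟩, rfl⟩

theorem mem_Ienv_iff {A : Set (StrongDual 𝕜 X)} {η : StrongDual 𝕜 X} : η ∈ Ienv A ↔ ¬ Sep A η :=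
  ⟨fun h hs => not_mem_of_sep hs h, fun h => by
    by_contra hcon
    exact h (sep_of_not_mem hcon)⟩

theorem Ienv_union {A B : Set (StrongDual 𝕜 X)} (hAB : Convex ℝ (A ∪ B)) :
    Ienv (A ∪ B) = Ienv A ∪ Ienv B := by
  apply Subset.antisymm
  · intro η hη
    by_contra hcon
    rw [mem_union, not_or] at hcon
    exact not_mem_of_sep (sep_union hAB (sep_of_not_mem hcon.1) (sep_of_not_mem hcon.2)) hη
  · intro η hη
    rw [mem_Ienv_iff]
    rintro ⟨x, hx, δ, hδ, h⟩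
    rcases hη with hη | hη
    · exact not_mem_of_sep ⟨x, hx, δ, hδ, fun ξ hξ => h ξ (Or.inl hξ)⟩ hη
    · exact not_mem_of_sep ⟨x, hx, δ, hδ, fun ξ hξ => h ξ (Or.inr hξ)⟩ hη

end Env

end Pool.Agent.Q196.IEnvelope
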