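import Mathlib

open Filter Finset Topology

namespace Pool.Agent.Q196.PermBasis

/-- The series `∑ α i • x i`, taken in its natural order, converges in norm to `v`. -/
def SumsTo (𝕜 : Type*) {E : Type*} [RCLike 𝕜] [NormedAddCommGroup E] [NormedSpace 𝕜 E]
    (x : ℕ → E) (α : ℕ → 𝕜) (v : E) : Prop :=
  Tendsto (fun n => ∑ i ∈ range n, α i • x i) atTop (𝓝 v)

/-- `x` is a Schauder basis: every `v` has exactly one expansion `v = ∑ α i • x i`. -/
def IsBasis (𝕜 : Type*) {E : Type*} [RCLike 𝕜] [NormedAddCommGroup E] [NormedSpace 𝕜 E]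
    (x : ℕ → E) : Prop :=
  ∀ v : E, ∃! α : ℕ → 𝕜, SumsTo 𝕜 x α v

/-- `x` is minimal: no `x m` lies in the closed linear span of the other `x n`. -/
def IsMinimal (𝕜 : Type*) {E : Type*} [RCLike 𝕜] [NormedAddCommGroup E] [NormedSpace 𝕜 E]
    (x : ℕ → E) : Prop :=
  ∀ m, x m ∉ closure (Submodule.span 𝕜 (x '' {n | n ≠ m}) : Set E)

/-- Property (U): every `v` has an expansion `v = ∑ α (σ i) • x (σ i)` in some order `σ`,
and the coefficients `α` are the same whatever the order. -/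
def PropertyU (𝕜 : Type*) {E : Type*} [RCLike 𝕜] [NormedAddCommGroup E] [NormedSpace 𝕜 E]
    (x : ℕ → E) : Prop :=
  ∀ v : E, ∃ α : ℕ → 𝕜,
    (∃ σ : Equiv.Perm ℕ, SumsTo 𝕜 (x ∘ σ) (α ∘ σ) v) ∧
    ∀ (β : ℕ → 𝕜) (π : Equiv.Perm ℕ), SumsTo 𝕜 (x ∘ π) (β ∘ π) v → β = α

/-! ### Greedy ordering -/

theorem greedy {𝕜 : Type*} [RCLike 𝕜] : ∀ (n : ℕ) (a : Fin n → 𝕜) (T : 𝕜), T + ∑ i, a i = 0 →
    ∃ π : Equiv.Perm (Fin n), ∀ p ≤ n,
      ‖T + ∑ i ∈ range p, (if h : i < n then a (π ⟨i, h⟩) else 0)‖ ^ 2 ≤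
        ‖T‖ ^ 2 + ∑ i, ‖a i‖ ^ 2 := by
  intro n
  induction n with
  | zero =>
    intro a T _
    refine ⟨1, fun p hp => ?_⟩
    obtain rfl : p = 0 := by omega
    simp
  | succ n ih =>
    intro a T hT
    -- choose the first index
    have hex : ∃ i₀, RCLike.re (inner 𝕜 (a i₀) T) ≤ 0 := by
      by_contra hcon
      push Not at hcon
      have h1 : RCLike.re (inner 𝕜 (∑ i, a i) T) = ∑ i, RCLike.re (inner 𝕜 (a i) T) := by
        rw [sum_inner, map_sum]
      have h2 : (∑ i, a i) = -T := by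
        rw [add_comm] at hT
        exact eq_neg_of_add_eq_zero_left hT
      have h3 : 0 < ∑ i, RCLike.re (inner 𝕜 (a i) T) :=
        Finset.sum_pos (fun i _ => hcon i) ⟨0, mem_univ _⟩
      rw [← h1, h2, inner_neg_left, map_neg, inner_self_eq_norm_sq] at h3
      nlinarith [sq_nonneg ‖T‖]
    obtain ⟨i₀, hi₀⟩ := hex
    have hsum : T + a i₀ + ∑ j, a (i₀.succAbove j) = 0 := by
      rw [Fin.sum_univ_succAbove a i₀] at hT
      rw [add_assoc]; exact hT
    obtain ⟨π', hπ'⟩ := ih (fun j => a (i₀.succAbove j)) (T + a i₀) hsum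
    have hstep : ‖T + a i₀‖ ^ 2 ≤ ‖T‖ ^ 2 + ‖a i₀‖ ^ 2 := by
      have := @norm_add_sq 𝕜 𝕜 _ _ _ (a i₀) T
      rw [add_comm T]
      rw [this]
      linarith
    let π : Equiv.Perm (Fin (n + 1)) :=
      ((finSuccEquiv' 0).trans (Equiv.optionCongr π')).trans (finSuccEquiv' i₀).symm
    have hπ0 : π 0 = i₀ := by simp [π]
    have hπs : ∀ j : Fin n, π j.succ = i₀.succAbove (π' j) := by
      intro j
      have : (finSuccEquiv' (0 : Fin (n + 1))) j.succ = some j := by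
        rw [← Fin.zero_succAbove, finSuccEquiv'_succAbove]
      simp [π, this]
    refine ⟨π, ?_⟩
    intro p hp
    rcases Nat.eq_zero_or_pos p with rfl | hpos
    · simp only [range_zero, sum_empty, add_zero]
      have : 0 ≤ ∑ i, ‖a i‖ ^ 2 := Finset.sum_nonneg (fun i _ => by positivity)
      linarith
    · obtain ⟨q, rfl⟩ : ∃ q, p = q + 1 := ⟨p - 1, by omega⟩
      rw [Finset.sum_range_succ']
      have h0 : (if h : 0 < n + 1 then a (π ⟨0, h⟩) else 0) = a i₀ := by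
        rw [dif_pos (Nat.succ_pos n)]
        have : (⟨0, Nat.succ_pos n⟩ : Fin (n + 1)) = 0 := rfl
        rw [this, hπ0]
      rw [h0]
      have hs : ∑ i ∈ range q, (if h : i + 1 < n + 1 then a (π ⟨i + 1, h⟩) else 0) =
          ∑ i ∈ range q, (if h : i < n then a (i₀.succAbove (π' ⟨i, h⟩)) else 0) := by
        refine Finset.sum_congr rfl (fun i hi => ?_)
        have hiq : i < q := mem_range.1 hi
        have hin : i < n := by omega
        rw [dif_pos (by omega : i + 1 < n + 1), dif_pos hin]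
        have : (⟨i + 1, by omega⟩ : Fin (n + 1)) = (⟨i, hin⟩ : Fin n).succ := rfl
        rw [this, hπs]
      rw [hs]
      have h := hπ' q (by omega)
      rw [Fin.sum_univ_succAbove (fun i => ‖a i‖ ^ 2) i₀]
      calc ‖T + (∑ i ∈ range q, (if h : i < n then a (i₀.succAbove (π' ⟨i, h⟩)) else 0) +
              a i₀)‖ ^ 2
          = ‖T + a i₀ + ∑ i ∈ range q,
              (if h : i < n then a (i₀.succAbove (π' ⟨i, h⟩)) else 0)‖ ^ 2 := by
            congr 2; ring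
        _ ≤ ‖T + a i₀‖ ^ 2 + ∑ i, ‖a (i₀.succAbove i)‖ ^ 2 := h
        _ ≤ _ := by linarith

/-! ### Blocks -/

theorem exists_block (𝕜 : Type*) [RCLike 𝕜] (n : ℕ) : ∃ y : Fin n → EuclideanSpace 𝕜 (Fin n),
    ∀ a : Fin n → 𝕜, ‖∑ i, a i • y i‖ ^ 2 = ∑ i, ‖a i‖ ^ 2 + ‖∑ i, a i‖ ^ 2 := by
  obtain ⟨c, hc⟩ : ∃ c : ℝ, 2 * c + n * c ^ 2 = 1 := by
    rcases Nat.eq_zero_or_pos n with rfl | hn
    · exact ⟨1/2, by norm_num⟩
    · have hn' : (0:ℝ) < n := by exact_mod_cast hn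
      refine ⟨(√(1 + n) - 1) / n, ?_⟩
      have h := Real.sq_sqrt (show (0:ℝ) ≤ 1 + n by positivity)
      field_simp
      nlinarith
  refine ⟨fun i => EuclideanSpace.single i 1 + (c : 𝕜) • WithLp.toLp 2 (fun _ => (1 : 𝕜)),
    fun a => ?_⟩
  set s := ∑ i, a i with hs
  have hcoord : ∀ j, (∑ i, a i • (EuclideanSpace.single i (1:𝕜) +
      (c : 𝕜) • WithLp.toLp 2 (fun _ => (1 : 𝕜)) : EuclideanSpace 𝕜 (Fin n))) j
        = a j + c * s := by
    intro j
    simp only [WithLp.ofLp_sum, WithLp.ofLp_smul, WithLp.ofLp_add, Finset.sum_apply,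
      Pi.smul_apply, Pi.add_apply, PiLp.single_apply, smul_eq_mul, mul_add, mul_one,
      Finset.sum_add_distrib, mul_ite, mul_zero, Finset.sum_ite_eq, mem_univ, if_true]
    rw [hs, Finset.mul_sum]
    congr 1
    exact Finset.sum_congr rfl (fun i _ => by ring)
  rw [EuclideanSpace.norm_sq_eq]
  simp_rw [hcoord]
  have hexp : ∀ j, ‖a j + c * s‖ ^ 2 =
      ‖a j‖ ^ 2 + 2 * c * RCLike.re (inner 𝕜 s (a j)) + c ^ 2 * ‖s‖ ^ 2 := by
    intro j
    have h1 := @norm_add_sq 𝕜 𝕜 _ _ _ (a j) ((c : 𝕜) * s)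
    rw [h1]
    have h2 : (c : 𝕜) * s = (c : 𝕜) • s := rfl
    rw [h2, inner_smul_right, RCLike.re_ofReal_mul, norm_smul, mul_pow, ← inner_re_symm]
    simp only [RCLike.norm_ofReal, sq_abs]
    ring
  simp_rw [hexp]
  rw [Finset.sum_add_distrib, Finset.sum_add_distrib, ← Finset.mul_sum]
  have h3 : ∑ j, RCLike.re (inner 𝕜 s (a j)) = ‖s‖ ^ 2 := by
    rw [← map_sum, ← inner_sum, ← hs, inner_self_eq_norm_sq]
  rw [h3]
  simp only [sum_const, card_univ, Fintype.card_fin, nsmul_eq_mul]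
  linear_combination (‖s‖ ^ 2) * hc


/-! ### Generalities on biorthogonal systems -/

theorem dist_add_lt {E : Type*} [SeminormedAddCommGroup E] {a b v : E} {ε : ℝ}
    (h1 : dist a v < ε / 2) (h2 : ‖b‖ < ε / 2) : dist (a + b) v < ε := by
  rw [dist_eq_norm] at h1 ⊢
  calc ‖a + b - v‖ = ‖(a - v) + b‖ := by congr 1; abel
    _ ≤ ‖a - v‖ + ‖b‖ := norm_add_le _ _
    _ < ε := by linarith

section General

variable {𝕜 : Type*} [RCLike 𝕜] {E : Type*} [NormedAddCommGroup E] [NormedSpace 𝕜 E]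

theorem coeff_eq {x : ℕ → E} {F : ℕ → E →L[𝕜] 𝕜} (hF : ∀ m n, F m (x n) = if m = n then 1 else 0)
    {β : ℕ → 𝕜} {π : Equiv.Perm ℕ} {v : E} (h : SumsTo 𝕜 (x ∘ π) (β ∘ π) v) (m : ℕ) :
    β m = F m v := by
  have h1 : Tendsto (fun n => F m (∑ i ∈ range n, (β ∘ π) i • (x ∘ π) i)) atTop (𝓝 (F m v)) :=
    ((F m).continuous.tendsto v).comp h
  have h2 : Tendsto (fun n => F m (∑ i ∈ range n, (β ∘ π) i • (x ∘ π) i)) atTop (𝓝 (β m)) := by
    refine tendsto_const_nhds.congr' ?_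
    filter_upwards [eventually_gt_atTop (π.symm m)] with n hn
    rw [map_sum]
    simp only [Function.comp_apply, map_smul, hF, smul_eq_mul, mul_ite, mul_one, mul_zero]
    rw [Finset.sum_eq_single (π.symm m)]
    · simp
    · intro i _ hi
      rw [if_neg]
      intro h
      exact hi (by rw [h]; simp)
    · intro h
      exact absurd (mem_range.2 hn) h
  exact tendsto_nhds_unique h2 h1

theorem minimal_of_biorth {x : ℕ → E} {F : ℕ → E →L[𝕜] 𝕜}
    (hF : ∀ m n, F m (x n) = if m = n then 1 else 0) : IsMinimal 𝕜 x := by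
  intro m hm
  have hsub : closure (Submodule.span 𝕜 (x '' {n | n ≠ m}) : Set E) ⊆
      (LinearMap.ker (F m).toLinearMap : Set E) := by
    refine closure_minimal ?_ (F m).isClosed_ker
    refine SetLike.coe_subset_coe.2 (Submodule.span_le.2 ?_)
    rintro _ ⟨n, hn, rfl⟩
    simp only [SetLike.mem_coe, LinearMap.mem_ker, ContinuousLinearMap.coe_coe]
    rw [hF, if_neg (Ne.symm hn)]
  have h1 : F m (x m) = 0 := by
    have := hsub hm
    simpa using this
  rw [hF, if_pos rfl] at h1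
  exact one_ne_zero h1

theorem bound_of_basis [CompleteSpace E] {x : ℕ → E} {F : ℕ → E →L[𝕜] 𝕜}
    (hF : ∀ m n, F m (x n) = if m = n then 1 else 0) {τ : Equiv.Perm ℕ}
    (h : IsBasis 𝕜 (x ∘ τ)) :
    ∃ C : ℝ, ∀ (m : ℕ) (v : E), ‖∑ i ∈ range m, F (τ i) v • x (τ i)‖ ≤ C * ‖v‖ := by
  let S : ℕ → E →L[𝕜] E := fun m => ∑ i ∈ range m, (F (τ i)).smulRight (x (τ i))
  have hS : ∀ m v, S m v = ∑ i ∈ range m, F (τ i) v • x (τ i) := by
    intro m v
    simp [S]
  have hconv : ∀ v, Tendsto (fun m => S m v) atTop (𝓝 v) := by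
    intro v
    obtain ⟨α, hα, -⟩ := h v
    have hβ : SumsTo 𝕜 (x ∘ τ) ((fun n => α (τ.symm n)) ∘ τ) v := by
      have : ((fun n => α (τ.symm n)) ∘ τ) = α := by
        funext i; simp
      rw [this]; exact hα
    have hc : ∀ m, α (τ.symm m) = F m v := fun m => coeff_eq hF hβ m
    refine Tendsto.congr (fun n => ?_) hα
    rw [hS]
    refine Finset.sum_congr rfl (fun i _ => ?_)
    rw [← hc (τ i)]
    simp
  obtain ⟨C, hC⟩ := banach_steinhaus (g := S) (fun v => by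
    obtain ⟨C, hC⟩ := (hconv v).norm.bddAbove_range
    exact ⟨C, fun i => hC ⟨i, rfl⟩⟩)
  refine ⟨C, fun m v => ?_⟩
  rw [← hS]
  exact ((S m).le_opNorm v).trans (mul_le_mul_of_nonneg_right (hC m) (norm_nonneg v))

theorem separable_of_propertyU {x : ℕ → E} (h : PropertyU 𝕜 x) :
    TopologicalSpace.SeparableSpace E := by
  rw [← TopologicalSpace.isSeparable_univ_iff]
  have h1 : TopologicalSpace.IsSeparable (closure (Submodule.span 𝕜 (Set.range x) : Set E)) :=
    ((Set.countable_range x).isSeparable.span (R := 𝕜)).closure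
  refine h1.mono (fun v _ => ?_)
  obtain ⟨α, ⟨σ, hσ⟩, -⟩ := h v
  refine mem_closure_of_tendsto hσ (Eventually.of_forall (fun n => ?_))
  refine Submodule.sum_mem _ (fun i _ => Submodule.smul_mem _ _ (Submodule.subset_span ?_))
  exact ⟨σ i, rfl⟩

end General

/-! ### The enumeration of the blocks -/

theorem enum_bij : Function.Bijective
    (fun p : (Σ k : ℕ, Fin (2 * (k + 1))) => p.1 * (p.1 + 1) + (p.2 : ℕ)) := by
  have key : ∀ k l : ℕ, k < l → ∀ i : ℕ, i < 2 * (k + 1) → k * (k + 1) + i < l * (l + 1) := by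
    intro k l hkl i hi
    nlinarith
  constructor
  · rintro ⟨k, i⟩ ⟨l, j⟩ h
    simp only at h
    have hkl : k = l := by
      rcases lt_trichotomy k l with hlt | heq | hgt
      · have := key k l hlt i i.2
        omega
      · exact heq
      · have := key l k hgt j j.2
        omega
    subst hkl
    have : i = j := Fin.ext (by omega)
    rw [this]
  · intro n
    have hex : ∃ l : ℕ, n < (l + 1) * (l + 2) := ⟨n, by nlinarith⟩
    classical
    let k := Nat.find hex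
    have hk : n < (k + 1) * (k + 2) := Nat.find_spec hex
    have hk' : k * (k + 1) ≤ n := by
      rcases Nat.eq_zero_or_pos k with h0 | hpos
      · rw [h0]; simp
      · have := Nat.find_min hex (show k - 1 < Nat.find hex by omega)
        have h2 : k - 1 + 1 = k := by omega
        have h3 : k - 1 + 2 = k + 1 := by omega
        rw [h2, h3] at this
        omega
    refine ⟨⟨k, ⟨n - k * (k + 1), ?_⟩⟩, ?_⟩
    · have : (k + 1) * (k + 2) = k * (k + 1) + 2 * (k + 1) := by ring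
      omega
    · simp only
      omega

/-- The enumeration of the blocks, block by block. -/
noncomputable def enum : (Σ k : ℕ, Fin (2 * (k + 1))) ≃ ℕ := Equiv.ofBijective _ enum_bij

theorem enum_apply (k : ℕ) (i : Fin (2 * (k + 1))) : enum ⟨k, i⟩ = k * (k + 1) + (i : ℕ) := rfl

theorem enum_symm (k i : ℕ) (hi : i < 2 * (k + 1)) :
    enum.symm (k * (k + 1) + i) = ⟨k, ⟨i, hi⟩⟩ := by
  rw [Equiv.symm_apply_eq, enum_apply]

/-! ### The space -/

section Space

variable (𝕜 : Type) [RCLike 𝕜]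

/-- The Hilbert space: the `ℓ²`-sum of the Euclidean spaces of dimensions `2, 4, 6, …`. -/
abbrev H : Type := lp (fun k : ℕ => EuclideanSpace 𝕜 (Fin (2 * (k + 1)))) 2

noncomputable def y (k : ℕ) : Fin (2 * (k + 1)) → EuclideanSpace 𝕜 (Fin (2 * (k + 1))) :=
  (exists_block 𝕜 (2 * (k + 1))).choose

theorem norm_y (k : ℕ) (a : Fin (2 * (k + 1)) → 𝕜) :
    ‖∑ i, a i • y 𝕜 k i‖ ^ 2 = ∑ i, ‖a i‖ ^ 2 + ‖∑ i, a i‖ ^ 2 :=
  (exists_block 𝕜 (2 * (k + 1))).choose_spec a

theorem y_inj (k : ℕ) : Function.Injective (Fintype.linearCombination 𝕜 (y 𝕜 k)) := by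
  rw [← LinearMap.ker_eq_bot, LinearMap.ker_eq_bot']
  intro a ha
  rw [Fintype.linearCombination_apply] at ha
  have h := norm_y 𝕜 k a
  rw [ha, norm_zero] at h
  have h1 : 0 ≤ ∑ i, ‖a i‖ ^ 2 := Finset.sum_nonneg (fun i _ => by positivity)
  have h2 : ∑ i, ‖a i‖ ^ 2 = 0 := by nlinarith [sq_nonneg ‖∑ i, a i‖]
  rw [Finset.sum_eq_zero_iff_of_nonneg (fun i _ => by positivity)] at h2
  funext i
  have := h2 i (mem_univ i)
  simpa using this

/-- The coordinate isomorphism of a block. -/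
noncomputable def T (k : ℕ) : (Fin (2 * (k + 1)) → 𝕜) ≃ₗ[𝕜]
    EuclideanSpace 𝕜 (Fin (2 * (k + 1))) :=
  LinearMap.linearEquivOfInjective (Fintype.linearCombination 𝕜 (y 𝕜 k)) (y_inj 𝕜 k) (by simp)

theorem T_apply (k : ℕ) (a : Fin (2 * (k + 1)) → 𝕜) : T 𝕜 k a = ∑ i, a i • y 𝕜 k i := by
  simp [T, Fintype.linearCombination_apply]

/-- The coordinate functionals. -/
noncomputable def f (p : Σ k : ℕ, Fin (2 * (k + 1))) : H 𝕜 →L[𝕜] 𝕜 :=
  (ContinuousLinearMap.proj (R := 𝕜) (φ := fun _ : Fin (2 * (p.1 + 1)) => 𝕜) p.2).comp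
    (((T 𝕜 p.1).symm.toContinuousLinearEquiv :
      EuclideanSpace 𝕜 (Fin (2 * (p.1 + 1))) →L[𝕜] (Fin (2 * (p.1 + 1)) → 𝕜)).comp
      (lp.evalCLM 𝕜 (fun k : ℕ => EuclideanSpace 𝕜 (Fin (2 * (k + 1)))) 2 p.1))

theorem f_apply (k : ℕ) (i : Fin (2 * (k + 1))) (v : H 𝕜) :
    f 𝕜 ⟨k, i⟩ v = (T 𝕜 k).symm (v k) i := rfl

/-- The vectors. -/
noncomputable def X (p : Σ k : ℕ, Fin (2 * (k + 1))) : H 𝕜 := lp.single 2 p.1 (y 𝕜 p.1 p.2)

theorem T_symm_y (k : ℕ) (j : Fin (2 * (k + 1))) : (T 𝕜 k).symm (y 𝕜 k j) = Pi.single j 1 := by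
  rw [LinearEquiv.symm_apply_eq, T_apply]
  simp [Pi.single_apply]

theorem f_X (p q : Σ k : ℕ, Fin (2 * (k + 1))) : f 𝕜 p (X 𝕜 q) = if p = q then 1 else 0 := by
  obtain ⟨k, i⟩ := p
  obtain ⟨l, j⟩ := q
  rw [f_apply]
  by_cases hkl : l = k
  · subst hkl
    have : (X 𝕜 ⟨l, j⟩) l = y 𝕜 l j :=
      lp.single_apply_self (E := fun k : ℕ => EuclideanSpace 𝕜 (Fin (2 * (k + 1)))) 2 l (y 𝕜 l j)
    rw [this, T_symm_y, Pi.single_apply]
    by_cases hij : i = j
    · subst hij; simp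
    · rw [if_neg hij, if_neg]
      simpa using hij
  · have : (X 𝕜 ⟨l, j⟩) k = 0 :=
      lp.single_apply_ne (E := fun k : ℕ => EuclideanSpace 𝕜 (Fin (2 * (k + 1)))) 2 l (y 𝕜 l j)
        (fun h => hkl h.symm)
    rw [this, map_zero, if_neg (fun h => hkl (congrArg Sigma.fst h).symm)]
    rfl

/-- The sequence. -/
noncomputable def x (n : ℕ) : H 𝕜 := X 𝕜 (enum.symm n)

/-- Its coordinate functionals. -/
noncomputable def F (n : ℕ) : H 𝕜 →L[𝕜] 𝕜 := f 𝕜 (enum.symm n)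

theorem F_x (m n : ℕ) : F 𝕜 m (x 𝕜 n) = if m = n then 1 else 0 := by
  unfold F x
  rw [f_X]
  simp

theorem minimal_x : IsMinimal 𝕜 (x 𝕜) := minimal_of_biorth (F_x 𝕜)

/-! ### Property (U) -/

theorem T_symm_norm (k : ℕ) (w : EuclideanSpace 𝕜 (Fin (2 * (k + 1)))) :
    ‖w‖ ^ 2 = ∑ i, ‖(T 𝕜 k).symm w i‖ ^ 2 + ‖∑ i, (T 𝕜 k).symm w i‖ ^ 2 := by
  have h := norm_y 𝕜 k ((T 𝕜 k).symm w)
  rw [← T_apply, LinearEquiv.apply_symm_apply] at h
  exact h

/-- In each block there is an order in which the partial sums are at most `3 * ‖w‖`. -/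
theorem block_order (k : ℕ) (w : EuclideanSpace 𝕜 (Fin (2 * (k + 1)))) :
    ∃ π : Equiv.Perm (Fin (2 * (k + 1))), ∀ p ≤ 2 * (k + 1),
      ‖∑ i ∈ range p, (if h : i < 2 * (k + 1) then
        (T 𝕜 k).symm w (π ⟨i, h⟩) • y 𝕜 k (π ⟨i, h⟩) else 0)‖ ≤ 3 * ‖w‖ := by
  set a := (T 𝕜 k).symm w with ha
  set s := ∑ i, a i with hs
  obtain ⟨π, hπ⟩ := greedy (2 * (k + 1)) a (-s) (by simp [hs])
  refine ⟨π, fun p hp => ?_⟩
  have hw := T_symm_norm 𝕜 k w
  rw [← ha, ← hs] at hw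
  have h1 := hπ p hp
  set P := ∑ i ∈ range p, (if h : i < 2 * (k + 1) then a (π ⟨i, h⟩) else 0) with hP
  -- the coefficients of the partial sum
  let b : Fin (2 * (k + 1)) → 𝕜 := fun j => if ((π.symm j : Fin _) : ℕ) < p then a j else 0
  have hb1 : ∑ i ∈ range p, (if h : i < 2 * (k + 1) then a (π ⟨i, h⟩) • y 𝕜 k (π ⟨i, h⟩) else 0)
      = ∑ j, b j • y 𝕜 k j := by
    have e1 : ∑ j, b j • y 𝕜 k j = ∑ i, b (π i) • y 𝕜 k (π i) :=
      (Equiv.sum_comp π (fun j => b j • y 𝕜 k j)).symm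
    rw [e1]
    have e2 : ∑ i, b (π i) • y 𝕜 k (π i) = ∑ i : Fin (2 * (k + 1)),
        (fun i : ℕ => if i < p then (if h : i < 2 * (k + 1) then
          a (π ⟨i, h⟩) • y 𝕜 k (π ⟨i, h⟩) else 0) else 0) i := by
      refine Finset.sum_congr rfl (fun i _ => ?_)
      simp only [b, Equiv.symm_apply_apply, i.2, dif_pos, Fin.eta]
      split_ifs <;> simp
    rw [e2, Fin.sum_univ_eq_sum_range (fun i : ℕ => if i < p then (if h : i < 2 * (k + 1) then
          a (π ⟨i, h⟩) • y 𝕜 k (π ⟨i, h⟩) else 0) else 0)]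
    rw [← Finset.sum_filter]
    refine Finset.sum_congr ?_ (fun _ _ => rfl)
    ext i
    simp only [mem_range, mem_filter]
    omega
  have hb2 : P = ∑ j, b j := by
    have e1 : ∑ j, b j = ∑ i, b (π i) := (Equiv.sum_comp π b).symm
    rw [e1]
    have e2 : ∑ i, b (π i) = ∑ i : Fin (2 * (k + 1)),
        (fun i : ℕ => if i < p then (if h : i < 2 * (k + 1) then a (π ⟨i, h⟩) else 0) else 0) i := by
      refine Finset.sum_congr rfl (fun i _ => ?_)
      simp only [b, Equiv.symm_apply_apply, i.2, dif_pos, Fin.eta]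
    rw [e2, Fin.sum_univ_eq_sum_range (fun i : ℕ => if i < p then (if h : i < 2 * (k + 1) then
          a (π ⟨i, h⟩) else 0) else 0)]
    rw [← Finset.sum_filter, hP]
    refine Finset.sum_congr ?_ (fun _ _ => rfl)
    ext i
    simp only [mem_range, mem_filter]
    omega
  have hb3 : ∑ j, ‖b j‖ ^ 2 ≤ ∑ j, ‖a j‖ ^ 2 := by
    refine Finset.sum_le_sum (fun j _ => ?_)
    simp only [b]
    split_ifs
    · exact le_rfl
    · simp
  have hs_le : ‖s‖ ≤ ‖w‖ := by
    have h0 : 0 ≤ ∑ i, ‖a i‖ ^ 2 := Finset.sum_nonneg (fun i _ => by positivity)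
    exact le_of_sq_le_sq (by linarith) (norm_nonneg w) |>.trans le_rfl
  have hPs : ‖-s + P‖ ≤ ‖w‖ := by
    refine le_of_sq_le_sq ?_ (norm_nonneg w)
    rw [norm_neg] at h1
    linarith
  have hP_le : ‖P‖ ≤ 2 * ‖w‖ := by
    calc ‖P‖ = ‖(-s + P) + s‖ := by congr 1; ring
      _ ≤ ‖-s + P‖ + ‖s‖ := norm_add_le _ _
      _ ≤ 2 * ‖w‖ := by linarith
  have hfin : ‖∑ j, b j • y 𝕜 k j‖ ^ 2 ≤ (3 * ‖w‖) ^ 2 := by
    rw [norm_y, ← hb2]
    have h4 : ‖P‖ ^ 2 ≤ (2 * ‖w‖) ^ 2 := pow_le_pow_left₀ (norm_nonneg P) hP_le 2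
    have h5 : 0 ≤ ‖s‖ ^ 2 := by positivity
    nlinarith
  rw [hb1]
  exact le_of_sq_le_sq hfin (by positivity)

/-- The permutation of `ℕ` which reorders each block by `π k`. -/
noncomputable def reorder (π : ∀ k : ℕ, Equiv.Perm (Fin (2 * (k + 1)))) : Equiv.Perm ℕ :=
  (enum.symm.trans (Equiv.sigmaCongrRight π)).trans enum

theorem reorder_apply (π : ∀ k : ℕ, Equiv.Perm (Fin (2 * (k + 1)))) (k i : ℕ)
    (hi : i < 2 * (k + 1)) : reorder π (k * (k + 1) + i) = enum ⟨k, π k ⟨i, hi⟩⟩ := by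
  simp only [reorder, Equiv.trans_apply, enum_symm k i hi]
  rfl

theorem propertyU_x : PropertyU 𝕜 (x 𝕜) := by
  intro v
  choose π hπ using fun k : ℕ => block_order 𝕜 k (v k)
  refine ⟨fun n => F 𝕜 n v, ⟨reorder π, ?_⟩, fun β ρ h => ?_⟩
  swap
  · funext m
    exact coeff_eq (F_x 𝕜) h m
  set σ := reorder π with hσ
  set g : ℕ → H 𝕜 := fun i => F 𝕜 (σ i) v • x 𝕜 (σ i) with hg
  have hgb : ∀ k i (hi : i < 2 * (k + 1)), g (k * (k + 1) + i) =
      lp.single 2 k ((T 𝕜 k).symm (v k) (π k ⟨i, hi⟩) • y 𝕜 k (π k ⟨i, hi⟩)) := by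
    intro k i hi
    simp only [hg]
    rw [hσ, reorder_apply π k i hi]
    unfold F x
    rw [Equiv.symm_apply_apply, f_apply]
    exact (lp.single_smul (E := fun k : ℕ => EuclideanSpace 𝕜 (Fin (2 * (k + 1)))) 2 k _ _).symm
  -- partial sums inside a block
  have hpart : ∀ k p, p ≤ 2 * (k + 1) → ∑ i ∈ range p, g (k * (k + 1) + i) =
      lp.single 2 k (∑ i ∈ range p, (if h : i < 2 * (k + 1) then
        (T 𝕜 k).symm (v k) (π k ⟨i, h⟩) • y 𝕜 k (π k ⟨i, h⟩) else 0)) := by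
    intro k p hp
    have hmap := map_sum
      (lp.singleAddMonoidHom (E := fun k : ℕ => EuclideanSpace 𝕜 (Fin (2 * (k + 1)))) 2 k)
      (fun i => (if h : i < 2 * (k + 1) then
        (T 𝕜 k).symm (v k) (π k ⟨i, h⟩) • y 𝕜 k (π k ⟨i, h⟩) else 0)) (range p)
    refine Eq.trans ?_ hmap.symm
    refine Finset.sum_congr rfl (fun i hi => ?_)
    have hi' : i < 2 * (k + 1) := lt_of_lt_of_le (mem_range.1 hi) hp
    rw [hgb k i hi', dif_pos hi']
    rfl
  have hfull : ∀ k, ∑ i ∈ range (2 * (k + 1)), g (k * (k + 1) + i) = lp.single 2 k (v k) := by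
    intro k
    rw [hpart k _ le_rfl]
    congr 1
    have e0 : ∑ i ∈ range (2 * (k + 1)), (if h : i < 2 * (k + 1) then
        (T 𝕜 k).symm (v k) (π k ⟨i, h⟩) • y 𝕜 k (π k ⟨i, h⟩) else 0) =
        ∑ i : Fin (2 * (k + 1)), (T 𝕜 k).symm (v k) (π k i) • y 𝕜 k (π k i) := by
      rw [← Fin.sum_univ_eq_sum_range (fun i => (if h : i < 2 * (k + 1) then
        (T 𝕜 k).symm (v k) (π k ⟨i, h⟩) • y 𝕜 k (π k ⟨i, h⟩) else 0))]
      refine Finset.sum_congr rfl (fun i _ => ?_)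
      rw [dif_pos i.2]
    rw [e0, Equiv.sum_comp (π k) (fun i => (T 𝕜 k).symm (v k) i • y 𝕜 k i), ← T_apply,
      LinearEquiv.apply_symm_apply]
  have hblocks : ∀ k, ∑ i ∈ range (k * (k + 1)), g i = ∑ j ∈ range k, lp.single 2 j (v j) := by
    intro k
    induction k with
    | zero => simp
    | succ k ih =>
      have : (k + 1) * (k + 1 + 1) = k * (k + 1) + 2 * (k + 1) := by ring
      rw [this, Finset.sum_range_add, ih, hfull, Finset.sum_range_succ]
  have hsum : HasSum (fun k : ℕ => (lp.single 2 k (v k) : H 𝕜)) v :=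
    lp.hasSum_single (by norm_num) v
  have hlim1 : Tendsto (fun k => ∑ j ∈ range k, (lp.single 2 j (v j) : H 𝕜)) atTop (𝓝 v) :=
    hsum.tendsto_sum_nat
  have hlim2 : Tendsto (fun k => ‖v k‖) atTop (𝓝 0) := by
    have := hsum.summable.tendsto_atTop_zero.norm
    rw [norm_zero] at this
    refine this.congr (fun k => ?_)
    exact lp.norm_single (E := fun k : ℕ => EuclideanSpace 𝕜 (Fin (2 * (k + 1)))) (by norm_num) k _
  unfold SumsTo
  rw [Metric.tendsto_atTop]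
  intro ε hε
  obtain ⟨K₁, hK₁⟩ := (Metric.tendsto_atTop.1 hlim1) (ε / 2) (by linarith)
  obtain ⟨K₂, hK₂⟩ := (Metric.tendsto_atTop.1 hlim2) (ε / 6) (by linarith)
  set K := max K₁ K₂ with hK
  refine ⟨K * (K + 1), fun m hm => ?_⟩
  -- locate m
  obtain ⟨⟨k, i⟩, hki⟩ := enum_bij.2 m
  simp only at hki
  have hkK : K ≤ k := by
    by_contra hlt
    push Not at hlt
    have h2 := i.2
    have : k * (k + 1) + (i : ℕ) < K * (K + 1) := by nlinarith
    omega
  have hk1 := hK₁ k (le_trans (le_max_left _ _) hkK)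
  have hk2 := hK₂ k (le_trans (le_max_right _ _) hkK)
  rw [← hki]
  change dist (∑ i ∈ range (k * (k + 1) + (i : ℕ)), g i) v < ε
  rw [Finset.sum_range_add, hblocks, hpart k i (le_of_lt i.2)]
  have hb := hπ k i (le_of_lt i.2)
  rw [dist_zero_right, norm_norm] at hk2
  revert hb
  generalize (∑ i ∈ range (i : ℕ), (if h : i < 2 * (k + 1) then
        (T 𝕜 k).symm (v k) (π k ⟨i, h⟩) • y 𝕜 k (π k ⟨i, h⟩) else 0)) = W
  intro hb
  have hn := lp.norm_single (E := fun k : ℕ => EuclideanSpace 𝕜 (Fin (2 * (k + 1))))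
          (p := 2) (by norm_num) k W
  exact dist_add_lt hk1 (by rw [hn]; linarith)

/-! ### No permutation is a basis -/

theorem not_basis (τ : Equiv.Perm ℕ) : ¬ IsBasis 𝕜 (x 𝕜 ∘ τ) := by
  intro hb
  obtain ⟨C, hC⟩ := bound_of_basis (F_x 𝕜) hb
  -- the main estimate
  have key : ∀ k : ℕ, ((k : ℝ) + 2) ≤ 2 * C ^ 2 := by
    intro k
    classical
    let A : ℕ → Finset (Fin (2 * (k + 1))) := fun m =>
      univ.filter (fun j => τ.symm (enum ⟨k, j⟩) < m)
    have hA0 : (A 0).card = 0 := by simp [A]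
    have hAstep : ∀ m, (A (m + 1)).card ≤ (A m).card + 1 := by
      intro m
      let D : Finset (Fin (2 * (k + 1))) := univ.filter (fun j => τ.symm (enum ⟨k, j⟩) = m)
      have hD : D.card ≤ 1 := by
        rw [Finset.card_le_one]
        intro a ha b hb'
        have ha' := (mem_filter.1 ha).2
        have hb'' := (mem_filter.1 hb').2
        have h1 : enum ⟨k, a⟩ = enum ⟨k, b⟩ := τ.symm.injective (ha'.trans hb''.symm)
        have h2 := enum.injective h1
        simpa using h2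
      have hsub : A (m + 1) ⊆ A m ∪ D := by
        intro j hj
        have hj' := (mem_filter.1 hj).2
        rw [mem_union]
        rcases Nat.lt_succ_iff_lt_or_eq.1 hj' with h | h
        · exact Or.inl (mem_filter.2 ⟨mem_univ _, h⟩)
        · exact Or.inr (mem_filter.2 ⟨mem_univ _, h⟩)
      calc (A (m + 1)).card ≤ (A m ∪ D).card := card_le_card hsub
        _ ≤ (A m).card + D.card := card_union_le _ _
        _ ≤ (A m).card + 1 := by omega
    have hex : ∃ m, k + 1 ≤ (A m).card := by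
      refine ⟨∑ j : Fin (2 * (k + 1)), (τ.symm (enum ⟨k, j⟩) + 1), ?_⟩
      have : A (∑ j : Fin (2 * (k + 1)), (τ.symm (enum ⟨k, j⟩) + 1)) = univ := by
        refine Finset.eq_univ_iff_forall.2 (fun j => mem_filter.2 ⟨mem_univ _, ?_⟩)
        have := Finset.single_le_sum (f := fun j : Fin (2 * (k + 1)) =>
          τ.symm (enum ⟨k, j⟩) + 1) (fun _ _ => Nat.zero_le _) (mem_univ j)
        omega
      rw [this, card_univ, Fintype.card_fin]
      omega
    have hcard : ∃ m, (A m).card = k + 1 := by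
      refine ⟨Nat.find hex, le_antisymm ?_ (Nat.find_spec hex)⟩
      rcases Nat.eq_zero_or_pos (Nat.find hex) with h0 | hpos
      · rw [h0, hA0]; omega
      · have h1 := Nat.find_min hex (show Nat.find hex - 1 < Nat.find hex by omega)
        have h2 := hAstep (Nat.find hex - 1)
        rw [show Nat.find hex - 1 + 1 = Nat.find hex by omega] at h2
        omega
    obtain ⟨m, hm⟩ := hcard
    -- the test vector
    let a : Fin (2 * (k + 1)) → 𝕜 := fun j => if j ∈ A m then 1 else -1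
    let v : H 𝕜 := lp.single 2 k (T 𝕜 k a)
    have hvk : v k = T 𝕜 k a :=
      lp.single_apply_self (E := fun k : ℕ => EuclideanSpace 𝕜 (Fin (2 * (k + 1)))) 2 k (T 𝕜 k a)
    have hvn : ‖v‖ = ‖T 𝕜 k a‖ :=
      lp.norm_single (E := fun k : ℕ => EuclideanSpace 𝕜 (Fin (2 * (k + 1)))) (by norm_num) k _
    have hsuma : ∑ j, a j = 0 := by
      have h1 : ∑ j, a j = ∑ j, ((2 : 𝕜) * (if j ∈ A m then 1 else 0) - 1) := by
        refine Finset.sum_congr rfl (fun j _ => ?_)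
        simp only [a]
        split_ifs <;> ring
      rw [h1, Finset.sum_sub_distrib, ← Finset.mul_sum, Finset.sum_boole]
      have h2 : (univ.filter (fun j => j ∈ A m)) = A m := by ext; simp
      rw [h2, hm]
      simp
    have hnorma : ∀ j, ‖a j‖ = 1 := by
      intro j
      simp only [a]
      split_ifs <;> simp
    have hv : ‖v‖ ^ 2 = 2 * (k + 1) := by
      rw [hvn, T_apply, norm_y, hsuma]
      simp only [hnorma]
      simp
    -- the partial sum
    have hF : ∀ j, F 𝕜 (enum ⟨k, j⟩) v = a j := by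
      intro j
      unfold F
      rw [Equiv.symm_apply_apply, f_apply, hvk, LinearEquiv.symm_apply_apply]
    have hF0 : ∀ l (j : Fin (2 * (l + 1))), l ≠ k → F 𝕜 (enum ⟨l, j⟩) v = 0 := by
      intro l j hl
      unfold F
      rw [Equiv.symm_apply_apply, f_apply]
      have : v l = 0 :=
        lp.single_apply_ne (E := fun k : ℕ => EuclideanSpace 𝕜 (Fin (2 * (k + 1)))) 2 k _ hl
      rw [this, map_zero]
      rfl
    have hx : ∀ j, x 𝕜 (enum ⟨k, j⟩) = lp.single 2 k (y 𝕜 k j) := by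
      intro j
      unfold x X
      rw [Equiv.symm_apply_apply]
    have hS : ∑ i ∈ range m, F 𝕜 (τ i) v • x 𝕜 (τ i) =
        lp.single 2 k (∑ j, (if j ∈ A m then (1 : 𝕜) else 0) • y 𝕜 k j) := by
      have e1 : ∑ i ∈ range m, F 𝕜 (τ i) v • x 𝕜 (τ i) =
          ∑ n ∈ (range m).map τ.toEmbedding, F 𝕜 n v • x 𝕜 n := by
        rw [Finset.sum_map]; rfl
      let s : Finset ℕ := (A m).map ⟨fun j => enum ⟨k, j⟩, fun a b h => by
        have h2 := enum.injective h
        simpa using h2⟩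
      have hsub : s ⊆ (range m).map τ.toEmbedding := by
        intro n hn
        obtain ⟨j, hj, rfl⟩ := Finset.mem_map.1 hn
        have hj' := (mem_filter.1 hj).2
        exact Finset.mem_map.2 ⟨τ.symm (enum ⟨k, j⟩), mem_range.2 hj', τ.apply_symm_apply _⟩
      have e2 : ∑ n ∈ (range m).map τ.toEmbedding, F 𝕜 n v • x 𝕜 n =
          ∑ n ∈ s, F 𝕜 n v • x 𝕜 n := by
        symm
        refine Finset.sum_subset hsub (fun n hn hns => ?_)
        obtain ⟨⟨l, j⟩, rfl⟩ := enum.surjective n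
        by_cases hl : l = k
        · subst hl
          exfalso
          apply hns
          obtain ⟨i, hi, hin⟩ := Finset.mem_map.1 hn
          refine Finset.mem_map.2 ⟨j, mem_filter.2 ⟨mem_univ _, ?_⟩, rfl⟩
          rw [← hin]
          simpa using hi
        · rw [hF0 l j hl, zero_smul]
      have e3 : ∑ n ∈ s, F 𝕜 n v • x 𝕜 n = ∑ j ∈ A m, lp.single 2 k (y 𝕜 k j) := by
        rw [Finset.sum_map]
        refine Finset.sum_congr rfl (fun j hj => ?_)
        change F 𝕜 (enum ⟨k, j⟩) v • x 𝕜 (enum ⟨k, j⟩) = _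
        rw [hF, hx]
        simp only [a, if_pos hj, one_smul]
      have hmap := map_sum
        (lp.singleAddMonoidHom (E := fun k : ℕ => EuclideanSpace 𝕜 (Fin (2 * (k + 1)))) 2 k)
        (fun j => (if j ∈ A m then (1 : 𝕜) else 0) • y 𝕜 k j) univ
      rw [e1, e2, e3]
      refine Eq.trans ?_ hmap.symm
      have e4 : (A m) = univ.filter (fun j => j ∈ A m) := by ext; simp
      conv_lhs => rw [e4]
      rw [Finset.sum_filter]
      refine Finset.sum_congr rfl (fun j _ => ?_)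
      split_ifs
      · rw [one_smul]; rfl
      · rw [zero_smul, map_zero]
    have hSn : ‖∑ i ∈ range m, F 𝕜 (τ i) v • x 𝕜 (τ i)‖ ^ 2 = (k + 1) + (k + 1) ^ 2 := by
      rw [hS]
      have hn := lp.norm_single (E := fun k : ℕ => EuclideanSpace 𝕜 (Fin (2 * (k + 1))))
          (p := 2) (by norm_num) k (∑ j, (if j ∈ A m then (1 : 𝕜) else 0) • y 𝕜 k j)
      rw [hn, norm_y]
      have h2 : (univ.filter (fun j => j ∈ A m)) = A m := by ext; simp
      have h3 : ∑ j, (if j ∈ A m then (1 : 𝕜) else 0) = ((k + 1 : ℕ) : 𝕜) := by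
        rw [Finset.sum_boole, h2, hm]
      have h4 : ∑ j, ‖(if j ∈ A m then (1 : 𝕜) else 0)‖ ^ 2 = ((k + 1 : ℕ) : ℝ) := by
        have : ∀ j, ‖(if j ∈ A m then (1 : 𝕜) else 0)‖ ^ 2 = if j ∈ A m then (1 : ℝ) else 0 := by
          intro j
          split_ifs <;> simp
        simp only [this]
        rw [Finset.sum_boole, h2, hm]
      rw [h3, h4, RCLike.norm_natCast]
      push_cast
      ring
    have hbound := hC m v
    have h1 : ‖∑ i ∈ range m, F 𝕜 (τ i) v • x 𝕜 (τ i)‖ ^ 2 ≤ (C * ‖v‖) ^ 2 :=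
      pow_le_pow_left₀ (norm_nonneg _) hbound 2
    rw [hSn, mul_pow, hv] at h1
    have hk : (0 : ℝ) < k + 1 := by positivity
    nlinarith
  obtain ⟨k, hk⟩ := exists_nat_gt (2 * C ^ 2)
  have := key k
  linarith

end Space

end Pool.Agent.Q196.PermBasis
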