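import Mathlib

/-!
Positive isomorphisms between spaces `C(K)`, `K` uncountable compact metrizable.
-/

open MeasureTheory Filter Topology Set

namespace Pool.Agent.Q196.PosIso

/-! ### Random bits -/

/-- The 0-1 sequence `n ↦ [ω < t n]`. -/
noncomputable def bits (t : ℕ → ℝ) (ω : ℝ) : ℕ → Bool := fun n => decide (ω < t n)

theorem measurable_bits (t : ℕ → ℝ) : Measurable (bits t) := by
  rw [measurable_pi_iff]
  intro n
  apply measurable_to_bool
  have : (fun ω => bits t ω n) ⁻¹' {true} = Iio (t n) := by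
    ext ω
    simp [bits]
  rw [this]
  exact measurableSet_Iio

/-- Lebesgue measure on `[0,1)`. -/
noncomputable def mu : Measure ℝ := volume.restrict (Ico 0 1)

instance : IsProbabilityMeasure mu := ⟨by
  unfold mu
  rw [Measure.restrict_apply_univ, Real.volume_Ico]
  simp⟩

theorem ae_mem : ∀ᵐ ω ∂mu, ω ∈ Ico (0 : ℝ) 1 := ae_restrict_mem measurableSet_Ico

section

variable {Y : Type*} [TopologicalSpace Y] [CompactSpace Y] [FirstCountableTopology Y]

omit [CompactSpace Y] in
theorem continuous_int (H : ℕ → C(Y, ℝ)) (f : C(ℕ → Bool, ℝ)) :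
    Continuous fun y => ∫ ω, f (bits (fun n => H n y) ω) ∂mu := by
  rw [continuous_iff_continuousAt]
  intro y₀
  apply continuousAt_of_dominated (bound := fun _ => ‖f‖)
  · exact Eventually.of_forall fun y =>
      (f.continuous.measurable.comp (measurable_bits _)).aestronglyMeasurable
  · exact Eventually.of_forall fun y => Eventually.of_forall fun ω => f.norm_coe_le_norm _
  · exact integrable_const _
  · have hnull : ∀ᵐ ω ∂mu, ∀ n : ℕ, ω ≠ H n y₀ := by
      rw [ae_all_iff]
      intro n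
      have h1 : mu {H n y₀} = 0 := by
        unfold mu
        exact le_antisymm ((Measure.restrict_apply_le _ _).trans (by simp)) (zero_le)
      have : ({ω | ω ≠ H n y₀}ᶜ : Set ℝ) = {H n y₀} := by
        ext ω
        simp
      rw [ae_iff]
      simpa using h1
    filter_upwards [hnull] with ω hω
    apply ContinuousAt.comp (f := fun y => bits (fun n => H n y) ω) f.continuous.continuousAt
    rw [continuousAt_pi]
    intro n
    unfold bits
    rcases lt_or_gt_of_ne (hω n) with h | h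
    · have h2 : ∀ᶠ y in 𝓝 y₀, ω < H n y := (H n).continuous.continuousAt.eventually_const_lt h
      apply ContinuousAt.congr (f := fun _ => true) continuousAt_const
      filter_upwards [h2] with y hy
      simp [hy]
    · have h2 : ∀ᶠ y in 𝓝 y₀, H n y < ω := (H n).continuous.continuousAt.eventually_lt_const h
      apply ContinuousAt.congr (f := fun _ => false) continuousAt_const
      filter_upwards [h2] with y hy
      simp [hy.le]

theorem integrable_bits (t : ℕ → ℝ) (f : C(ℕ → Bool, ℝ)) :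
    Integrable (fun ω => f (bits t ω)) mu := by
  refine (integrable_const ‖f‖).mono'
    (f.continuous.measurable.comp (measurable_bits _)).aestronglyMeasurable ?_
  exact Eventually.of_forall fun ω => f.norm_coe_le_norm _

/-- The averaging operator. -/
noncomputable def ext (H : ℕ → C(Y, ℝ)) : C(ℕ → Bool, ℝ) →L[ℝ] C(Y, ℝ) :=
  LinearMap.mkContinuous
    { toFun := fun f => ⟨fun y => ∫ ω, f (bits (fun n => H n y) ω) ∂mu, continuous_int H f⟩
      map_add' := by
        intro f g
        ext y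
        simp only [ContinuousMap.coe_mk, ContinuousMap.add_apply]
        exact integral_add (integrable_bits _ f) (integrable_bits _ g)
      map_smul' := by
        intro c f
        ext y
        simp only [ContinuousMap.coe_mk, ContinuousMap.smul_apply, RingHom.id_apply]
        exact integral_smul _ _ } 1 (by
    intro f
    rw [one_mul, ContinuousMap.norm_le _ (norm_nonneg _)]
    intro y
    change ‖∫ ω, f (bits (fun n => H n y) ω) ∂mu‖ ≤ ‖f‖
    have h1 := norm_integral_le_of_norm_le_const (μ := mu)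
      (f := fun ω => f (bits (fun n => H n y) ω)) (C := ‖f‖)
      (Eventually.of_forall fun ω => f.norm_coe_le_norm _)
    simpa using h1)

theorem ext_apply (H : ℕ → C(Y, ℝ)) (f : C(ℕ → Bool, ℝ)) (y : Y) :
    ext H f y = ∫ ω, f (bits (fun n => H n y) ω) ∂mu := rfl

theorem ext_nonneg (H : ℕ → C(Y, ℝ)) {f : C(ℕ → Bool, ℝ)} (hf : 0 ≤ f) : 0 ≤ ext H f := by
  intro y
  exact integral_nonneg fun ω => hf _

theorem ext_const (H : ℕ → C(Y, ℝ)) (f : C(ℕ → Bool, ℝ)) (y : Y) (c : ℝ)
    (h : ∀ ω ∈ Ico (0 : ℝ) 1, f (bits (fun n => H n y) ω) = c) : ext H f y = c := by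
  rw [ext_apply]
  have : ∫ ω, f (bits (fun n => H n y) ω) ∂mu = ∫ ω, c ∂mu := by
    apply integral_congr_ae
    filter_upwards [ae_mem] with ω hω
    exact h ω hω
  rw [this]
  simp

end

/-- Composition with a continuous map, as a bounded operator. -/
noncomputable def compR {X Y : Type*} [TopologicalSpace X] [CompactSpace X] [TopologicalSpace Y]
    [CompactSpace Y] (g : C(X, Y)) : C(Y, ℝ) →L[ℝ] C(X, ℝ) :=
  LinearMap.mkContinuous
    { toFun := fun f => f.comp g
      map_add' := fun _ _ => rfl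
      map_smul' := fun _ _ => rfl } 1 (by
    intro f
    rw [one_mul, ContinuousMap.norm_le _ (norm_nonneg _)]
    intro x
    exact f.norm_coe_le_norm _)

theorem compR_apply {X Y : Type*} [TopologicalSpace X] [CompactSpace X] [TopologicalSpace Y]
    [CompactSpace Y] (g : C(X, Y)) (f : C(Y, ℝ)) (x : X) : compR g f x = f (g x) := rfl

/-! ### Factorization -/

/-- Coordinates on a compact metric space separating points near both points. -/
theorem exists_sep (M : Type*) [TopologicalSpace M] [CompactSpace M] [T2Space M]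
    [SecondCountableTopology M] [Nonempty M] : ∃ h : ℕ → C(M, ℝ), (∀ n z, h n z ∈ Icc (0 : ℝ) 1) ∧
      ∀ z z', z ≠ z' → ∃ n, (∀ᶠ x in 𝓝 z, h n x = 1) ∧ ∀ᶠ x in 𝓝 z', h n x = 0 := by
  letI : MetricSpace M := TopologicalSpace.metrizableSpaceMetric M
  let H : ℕ → ℕ → C(M, ℝ) := fun k m =>
    ⟨fun z => max 0 (min 1 (2 - (m + 1) * dist z (TopologicalSpace.denseSeq M k))), by fun_prop⟩
  refine ⟨fun n => H n.unpair.1 n.unpair.2, fun n z => ⟨le_max_left _ _, ?_⟩, ?_⟩
  · exact max_le zero_le_one (min_le_left _ _)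
  · intro z z' hzz
    have hd : 0 < dist z z' := dist_pos.mpr hzz
    obtain ⟨m, hm⟩ := exists_nat_gt (4 / dist z z')
    have hm1 : (0 : ℝ) < (m : ℝ) + 1 := by positivity
    have hm2 : 4 < (m + 1) * dist z z' := by
      rw [div_lt_iff₀ hd] at hm
      nlinarith
    obtain ⟨k, hk⟩ := (TopologicalSpace.denseRange_denseSeq M).exists_dist_lt z
      (ε := 1 / ((m : ℝ) + 1)) (by positivity)
    rw [lt_div_iff₀ hm1] at hk
    refine ⟨Nat.pair k m, ?_, ?_⟩
    · simp only [Nat.unpair_pair]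
      have h1 : ∀ᶠ x in 𝓝 z, dist x (TopologicalSpace.denseSeq M k) * ((m : ℝ) + 1) < 1 := by
        have hc : ContinuousAt (fun x => dist x (TopologicalSpace.denseSeq M k) * ((m : ℝ) + 1)) z :=
          by fun_prop
        exact hc.eventually_lt_const hk
      filter_upwards [h1] with x hx
      change max 0 (min 1 (2 - ((m : ℝ) + 1) * dist x (TopologicalSpace.denseSeq M k))) = 1
      rw [min_eq_left (by linarith), max_eq_right zero_le_one]
    · simp only [Nat.unpair_pair]
      have h2 : 2 < dist z' (TopologicalSpace.denseSeq M k) * ((m : ℝ) + 1) := by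
        have := dist_triangle z (TopologicalSpace.denseSeq M k) z'
        rw [dist_comm (TopologicalSpace.denseSeq M k) z'] at this
        nlinarith
      have h1 : ∀ᶠ x in 𝓝 z', 2 < dist x (TopologicalSpace.denseSeq M k) * ((m : ℝ) + 1) := by
        have hc : ContinuousAt (fun x => dist x (TopologicalSpace.denseSeq M k) * ((m : ℝ) + 1)) z' :=
          by fun_prop
        exact hc.eventually_const_lt h2
      filter_upwards [h1] with x hx
      change max 0 (min 1 (2 - ((m : ℝ) + 1) * dist x (TopologicalSpace.denseSeq M k))) = 0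
      rw [min_eq_right (by linarith), max_eq_left (by linarith)]

theorem isClosed_bit {M : Type*} [TopologicalSpace M] (n : ℕ) (b : Bool) {F : Set M}
    (hF : IsClosed F) : IsClosed {x : (ℕ → Bool) × M | x.1 n = b → x.2 ∈ F} := by
  have : {x : (ℕ → Bool) × M | x.1 n = b → x.2 ∈ F} =
      {x : (ℕ → Bool) × M | x.1 n = b}ᶜ ∪ {x : (ℕ → Bool) × M | x.2 ∈ F} := by
    ext x
    simp only [mem_ofPred_eq, mem_union, mem_compl_iff]
    tauto
  rw [this]
  apply IsClosed.union
  · rw [isClosed_compl_iff]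
    have hc : Continuous fun x : (ℕ → Bool) × M => x.1 n := (continuous_apply n).comp continuous_fst
    exact (isOpen_discrete ({b} : Set Bool)).preimage hc
  · exact hF.preimage continuous_snd

/-- A Milutin-type map. -/
theorem exists_milutin (M : Type*) [TopologicalSpace M] [CompactSpace M] [T2Space M]
    [Nonempty M] (h : ℕ → C(M, ℝ)) (h01 : ∀ n z, h n z ∈ Icc (0 : ℝ) 1)
    (hsep : ∀ z z', z ≠ z' → ∃ n, (∀ᶠ x in 𝓝 z, h n x = 1) ∧ ∀ᶠ x in 𝓝 z', h n x = 0) :
    ∃ ρ : C(ℕ → Bool, M), ∀ (z : M) (ω : ℝ), ω ∈ Ico (0 : ℝ) 1 → ρ (bits (fun n => h n z) ω) = z := by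
  set R : Set ((ℕ → Bool) × M) := {x | ∀ n, (x.1 n = true → x.2 ∈ closure {z | 0 < h n z}) ∧
    (x.1 n = false → x.2 ∈ closure {z | h n z < 1})} with hR
  have hRc : IsClosed R := by
    have : R = ⋂ n, ({x : (ℕ → Bool) × M | x.1 n = true → x.2 ∈ closure {z | 0 < h n z}} ∩
        {x | x.1 n = false → x.2 ∈ closure {z | h n z < 1}}) := by
      ext x
      simp only [hR, mem_ofPred_eq, mem_iInter, mem_inter_iff]
    rw [this]
    exact isClosed_iInter fun n => (isClosed_bit n true isClosed_closure).inter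
      (isClosed_bit n false isClosed_closure)
  have hfun : ∀ b z z', (b, z) ∈ R → (b, z') ∈ R → z = z' := by
    intro b z z' h1 h2
    by_contra hne
    obtain ⟨n, hn1, hn2⟩ := hsep z z' hne
    rcases Bool.eq_false_or_eq_true (b n) with hb | hb
    · have h3 := (h2 n).1 hb
      rw [mem_closure_iff_frequently] at h3
      obtain ⟨x, hx1, hx2⟩ := (h3.and_eventually hn2).exists
      have : 0 < h n x := hx1
      rw [hx2] at this
      exact lt_irrefl _ this
    · have h3 := (h1 n).2 hb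
      rw [mem_closure_iff_frequently] at h3
      obtain ⟨x, hx1, hx2⟩ := (h3.and_eventually hn1).exists
      have : h n x < 1 := hx1
      rw [hx2] at this
      exact lt_irrefl _ this
  have hbits : ∀ (z : M) (ω : ℝ), ω ∈ Ico (0 : ℝ) 1 → (bits (fun n => h n z) ω, z) ∈ R := by
    intro z ω hω n
    constructor
    · intro hb
      have : ω < h n z := by
        have := hb
        simp only [bits, decide_eq_true_eq] at this
        exact this
      exact subset_closure (lt_of_le_of_lt hω.1 this)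
    · intro hb
      have : ¬ ω < h n z := by
        have := hb
        simp only [bits, decide_eq_false_iff_not] at this
        exact this
      exact subset_closure (lt_of_le_of_lt (not_lt.mp this) hω.2)
  have : CompactSpace R := isCompact_iff_compactSpace.mp hRc.isCompact
  set D : Set (ℕ → Bool) := Prod.fst '' R with hD
  have hDc : IsClosed D := (hRc.isCompact.image continuous_fst).isClosed
  obtain ⟨z₀⟩ := ‹Nonempty M›
  have hDne : D.Nonempty := ⟨_, _, hbits z₀ 0 ⟨le_rfl, zero_lt_one⟩, rfl⟩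
  obtain ⟨r, hr1, _, hr2⟩ := PiNat.exists_retraction_subtype_of_isClosed hDc hDne
  let g : R → D := fun x => ⟨x.1.1, x.1, x.2, rfl⟩
  have hg : Continuous g := by
    apply Continuous.subtype_mk
    exact continuous_fst.comp continuous_subtype_val
  have hgb : Function.Bijective g := by
    constructor
    · rintro ⟨⟨b, z⟩, hx⟩ ⟨⟨b', z'⟩, hx'⟩ hxy
      have hb : b = b' := congrArg Subtype.val hxy
      subst hb
      have := hfun b z z' hx hx'
      subst this
      rfl
    · rintro ⟨_, ⟨⟨b, z⟩, hx, rfl⟩⟩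
      exact ⟨⟨(b, z), hx⟩, rfl⟩
  let e : R ≃ₜ D := Continuous.homeoOfEquivCompactToT2 (f := Equiv.ofBijective g hgb) hg
  refine ⟨⟨fun b => (e.symm (r b)).1.2, ?_⟩, ?_⟩
  · exact continuous_snd.comp (continuous_subtype_val.comp (e.symm.continuous.comp hr2))
  · intro z ω hω
    have hx := hbits z ω hω
    set b := bits (fun n => h n z) ω with hb
    have h1 : r b = ⟨b, (b, z), hx, rfl⟩ := hr1 ⟨b, (b, z), hx, rfl⟩
    have h2 : e ⟨(b, z), hx⟩ = ⟨b, (b, z), hx, rfl⟩ := rfl
    change (e.symm (r b)).1.2 = z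
    rw [h1, ← h2, Homeomorph.symm_apply_apply]

/-- Positive factorization of the identity of `C(M)` through `C(K)`. -/
theorem factor (K M : Type*) [TopologicalSpace K] [CompactSpace K] [T2Space K]
    [SecondCountableTopology K] [Uncountable K] [TopologicalSpace M] [CompactSpace M] [T2Space M]
    [SecondCountableTopology M] [Nonempty M] :
    ∃ (A : C(M, ℝ) →L[ℝ] C(K, ℝ)) (V : C(K, ℝ) →L[ℝ] C(M, ℝ)), (∀ w, 0 ≤ w → 0 ≤ A w) ∧
      (∀ f, 0 ≤ f → 0 ≤ V f) ∧ ∀ w, V (A w) = w := by
  have hunc : ¬ (univ : Set K).Countable := by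
    rw [countable_univ_iff]
    exact not_countable_iff.mpr ‹_›
  have : PolishSpace K := by
    letI : MetricSpace K := TopologicalSpace.metrizableSpaceMetric K
    infer_instance
  obtain ⟨ι, _, hι, hinj⟩ := isClosed_univ.exists_nat_bool_injection_of_not_countable hunc
  have hH : ∀ n : ℕ, ∃ H : C(K, ℝ), ∀ b : ℕ → Bool, H (ι b) = if b n = true then 1 else 0 := by
    intro n
    have hc : ∀ c : Bool, IsClosed (ι '' {b | b n = c}) := by
      intro c
      apply IsCompact.isClosed
      apply IsCompact.image _ hι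
      apply IsClosed.isCompact
      have hcn : Continuous fun b : ℕ → Bool => b n := continuous_apply n
      exact (isClosed_discrete ({c} : Set Bool)).preimage hcn
    have hdis : Disjoint (ι '' {b | b n = false}) (ι '' {b | b n = true}) := by
      rw [disjoint_left]
      rintro _ ⟨b, hb, rfl⟩ ⟨b', hb', he⟩
      have := hinj he
      subst this
      rw [mem_ofPred_eq] at hb hb'
      rw [hb] at hb'
      exact Bool.false_ne_true hb'
    obtain ⟨f, hf0, hf1, _⟩ := exists_continuous_zero_one_of_isClosed (hc false) (hc true) hdis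
    refine ⟨f, fun b => ?_⟩
    split_ifs with hb
    · exact hf1 ⟨b, hb, rfl⟩
    · have hb' : b n = false := by simpa using hb
      exact hf0 ⟨b, hb', rfl⟩
  choose H hH using hH
  obtain ⟨h, h01, hsep⟩ := exists_sep M
  obtain ⟨ρ, hρ⟩ := exists_milutin M h h01 hsep
  refine ⟨(ext H).comp (compR ρ), (ext h).comp (compR ⟨ι, hι⟩), ?_, ?_, ?_⟩
  · intro w hw
    exact ext_nonneg H fun b => hw _
  · intro f hf
    exact ext_nonneg h fun b => hf _
  · intro w
    ext z
    change ext h (compR ⟨ι, hι⟩ (ext H (compR ρ w))) z = w z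
    apply ext_const
    intro ω hω
    change ext H (compR ρ w) (ι (bits (fun n => h n z) ω)) = w z
    set b := bits (fun n => h n z) ω with hb
    apply ext_const
    intro ω' hω'
    have : bits (fun n => H n (ι b)) ω' = b := by
      funext n
      simp only [bits, hH]
      by_cases hbn : b n = true
      · rw [if_pos hbn, hbn]
        simp [hω'.2]
      · have hb' : b n = false := by simpa using hbn
        rw [if_neg hbn, hb']
        simp [hω'.1]
    rw [this, compR_apply, hb, hρ z ω hω]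

/-! ### Neumann series -/

section

variable {E : Type*} [NormedAddCommGroup E] [NormedSpace ℝ E] [CompleteSpace E]

theorem bijective_one_add (J : E →L[ℝ] E) (hJ : ∀ u, ‖J u‖ ≤ ‖u‖) :
    Function.Bijective fun u : E => u + (1 / 2 : ℝ) • J u := by
  set t : E →L[ℝ] E := -((1 / 2 : ℝ) • J) with ht
  have hn : ‖t‖ < 1 := by
    have h1 : ‖t‖ ≤ 1 / 2 := by
      apply ContinuousLinearMap.opNorm_le_bound _ (by norm_num)
      intro u
      rw [ht]
      change ‖-((1 / 2 : ℝ) • J u)‖ ≤ 1 / 2 * ‖u‖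
      rw [norm_neg, norm_smul]
      have := hJ u
      rw [Real.norm_of_nonneg (by norm_num)]
      linarith
    linarith
  set U := ContinuousLinearEquiv.unitsEquiv ℝ E (Units.oneSub t hn) with hU
  have hUa : ∀ u, U u = u + (1 / 2 : ℝ) • J u := by
    intro u
    change (1 - t) u = u + (1 / 2 : ℝ) • J u
    rw [ht]
    change u - -((1 / 2 : ℝ) • J u) = _
    rw [sub_neg_eq_add]
  have : (fun u : E => u + (1 / 2 : ℝ) • J u) = U := by
    funext u
    exact (hUa u).symm
  rw [this]
  exact U.bijective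

end

section

variable {X W Y : Type*} [NormedAddCommGroup X] [NormedSpace ℝ X] [CompleteSpace X]
  [NormedAddCommGroup W] [NormedSpace ℝ W] [CompleteSpace W]
  [NormedAddCommGroup Y] [NormedSpace ℝ Y] [CompleteSpace Y]

/-- `X × Y → X`. -/
theorem bijective_T (A : W →L[ℝ] X) (V : X →L[ℝ] W) (hVA : ∀ w, V (A w) = w)
    (θ : (W × Y) ≃ₗᵢ[ℝ] W) :
    Function.Bijective fun x : X × Y =>
      (1 / 3 : ℝ) • x.1 + (2 / 3 : ℝ) • A (θ (V x.1, x.2)) := by
  set J : (W × Y) →L[ℝ] (W × Y) :=
    (θ.symm.toContinuousLinearEquiv : W →L[ℝ] (W × Y)).comp (ContinuousLinearMap.fst ℝ W Y) with hJ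
  have hJa : ∀ u, J u = θ.symm u.1 := fun u => rfl
  have hb := bijective_one_add J (by
    intro u
    rw [hJa, θ.symm.norm_map]
    exact norm_fst_le u)
  have hθJ : ∀ u : W × Y, (2 / 3 : ℝ) • θ (u + (1 / 2 : ℝ) • J u) =
      (1 / 3 : ℝ) • u.1 + (2 / 3 : ℝ) • θ u := by
    intro u
    rw [map_add, map_smul, hJa, θ.apply_symm_apply]
    module
  constructor
  · rintro ⟨f, v⟩ ⟨f', v'⟩ h
    simp only at h
    have h1 := congrArg V h
    simp only [map_add, map_smul, hVA] at h1
    have h2 : (2 / 3 : ℝ) • θ ((V f, v) + (1 / 2 : ℝ) • J (V f, v)) =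
        (2 / 3 : ℝ) • θ ((V f', v') + (1 / 2 : ℝ) • J (V f', v')) := by
      rw [hθJ, hθJ]
      exact h1
    have h3 := smul_right_injective W (by norm_num : (2 / 3 : ℝ) ≠ 0) h2
    have h4 := hb.1 (θ.injective h3)
    have h5 : (V f, v) = (V f', v') := h4
    rw [h5] at h
    have h6 := add_right_cancel h
    have h7 := smul_right_injective X (by norm_num : (1 / 3 : ℝ) ≠ 0) h6
    rw [Prod.mk.injEq] at h5 ⊢
    exact ⟨h7, h5.2⟩
  · intro g
    obtain ⟨u, hu⟩ := hb.2 (θ.symm ((3 / 2 : ℝ) • V g))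
    have h1 : (1 / 3 : ℝ) • u.1 + (2 / 3 : ℝ) • θ u = V g := by
      rw [← hθJ]
      have : u + (1 / 2 : ℝ) • J u = θ.symm ((3 / 2 : ℝ) • V g) := hu
      rw [this, θ.apply_symm_apply]
      module
    refine ⟨((3 : ℝ) • (g - (2 / 3 : ℝ) • A (θ u)), u.2), ?_⟩
    have h2 : V ((3 : ℝ) • (g - (2 / 3 : ℝ) • A (θ u))) = u.1 := by
      rw [map_smul, map_sub, map_smul, hVA, ← h1]
      module
    simp only [h2]
    module

/-- `X → X × Y`. -/
theorem bijective_S (A : W →L[ℝ] X) (V : X →L[ℝ] W) (hVA : ∀ w, V (A w) = w)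
    (θ : (W × Y) ≃ₗᵢ[ℝ] W) :
    Function.Bijective fun f : X =>
      ((1 / 3 : ℝ) • f + (2 / 3 : ℝ) • A (θ.symm (V f)).1, (θ.symm (V f)).2) := by
  set J : (W × Y) →L[ℝ] (W × Y) :=
    (ContinuousLinearMap.inl ℝ W Y).comp (θ.toContinuousLinearEquiv : (W × Y) →L[ℝ] W) with hJ
  have hJa : ∀ u, J u = (θ u, 0) := fun u => rfl
  have hb := bijective_one_add J (by
    intro u
    rw [hJa, Prod.norm_mk, norm_zero, max_eq_left (norm_nonneg _), θ.norm_map])
  constructor
  · intro f f' h
    simp only [Prod.mk.injEq] at h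
    obtain ⟨h1, h2⟩ := h
    have h3 := congrArg V h1
    simp only [map_add, map_smul, hVA] at h3
    have h4 : θ.symm (V f) + (1 / 2 : ℝ) • J (θ.symm (V f)) =
        θ.symm (V f') + (1 / 2 : ℝ) • J (θ.symm (V f')) := by
      rw [hJa, hJa, θ.apply_symm_apply, θ.apply_symm_apply]
      apply Prod.ext
      · have h5 := congrArg (fun w => (3 / 2 : ℝ) • w) h3
        simp only [smul_add, smul_smul] at h5
        norm_num at h5
        change (θ.symm (V f)).1 + (1 / 2 : ℝ) • V f = (θ.symm (V f')).1 + (1 / 2 : ℝ) • V f'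
        rw [add_comm, add_comm (θ.symm (V f')).1]
        exact h5
      · change (θ.symm (V f)).2 + (1 / 2 : ℝ) • (0 : Y) = (θ.symm (V f')).2 + (1 / 2 : ℝ) • (0 : Y)
        rw [h2]
    have h5 : θ.symm (V f) = θ.symm (V f') := hb.1 h4
    rw [h5] at h1
    exact smul_right_injective X (by norm_num : (1 / 3 : ℝ) ≠ 0) (add_right_cancel h1)
  · rintro ⟨g, v⟩
    obtain ⟨u, hu⟩ := hb.2 ((3 / 2 : ℝ) • V g, v)
    have hu' : u + (1 / 2 : ℝ) • J u = ((3 / 2 : ℝ) • V g, v) := hu
    rw [hJa] at hu'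
    have h1 : u.1 + (1 / 2 : ℝ) • θ u = (3 / 2 : ℝ) • V g := congrArg Prod.fst hu'
    have h2 : u.2 = v := by
      have : u.2 + (1 / 2 : ℝ) • (0 : Y) = v := congrArg Prod.snd hu'
      rwa [smul_zero, add_zero] at this
    refine ⟨(3 : ℝ) • (g - (2 / 3 : ℝ) • A u.1), ?_⟩
    have h3 : V ((3 : ℝ) • (g - (2 / 3 : ℝ) • A u.1)) = θ u := by
      rw [map_smul, map_sub, map_smul, hVA]
      have h4 : V g = (2 / 3 : ℝ) • (u.1 + (1 / 2 : ℝ) • θ u) := by
        rw [h1, smul_smul]
        norm_num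
      rw [h4]
      module
    simp only [h3, θ.symm_apply_apply, h2]
    rw [Prod.mk.injEq]
    refine ⟨?_, rfl⟩
    module

end

/-! ### The shift on `C(ℕ∞ × Z)` -/

section

variable (Z : Type*) [TopologicalSpace Z] [CompactSpace Z]

/-- The operator `w ↦ (w(· + 1, ·), w(0, ·))`. -/
noncomputable def shiftL : C(ℕ∞ × Z, ℝ) →L[ℝ] C(ℕ∞ × Z, ℝ) × C(Z, ℝ) :=
  (compR (⟨fun x : ℕ∞ × Z => (x.1 + 1, x.2), by fun_prop⟩ : C(ℕ∞ × Z, ℕ∞ × Z))).prod
    (compR (⟨fun z : Z => ((0 : ℕ∞), z), by fun_prop⟩ : C(Z, ℕ∞ × Z)))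

theorem shiftL_fst (w : C(ℕ∞ × Z, ℝ)) (n : ℕ∞) (z : Z) : (shiftL Z w).1 (n, z) = w (n + 1, z) := rfl

theorem shiftL_snd (w : C(ℕ∞ × Z, ℝ)) (z : Z) : (shiftL Z w).2 z = w (0, z) := rfl

theorem enat_cases (n : ℕ∞) : n = 0 ∨ ∃ m : ℕ∞, n = m + 1 := by
  induction n using ENat.recTopCoe with
  | top => exact Or.inr ⟨⊤, by simp⟩
  | coe n =>
    rcases n with _ | n
    · exact Or.inl rfl
    · exact Or.inr ⟨n, by push_cast; rfl⟩

theorem shiftL_norm (w : C(ℕ∞ × Z, ℝ)) : ‖shiftL Z w‖ = ‖w‖ := by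
  apply le_antisymm
  · rw [Prod.norm_def]
    apply max_le
    · rw [ContinuousMap.norm_le _ (norm_nonneg _)]
      rintro ⟨n, z⟩
      rw [shiftL_fst]
      exact w.norm_coe_le_norm _
    · rw [ContinuousMap.norm_le _ (norm_nonneg _)]
      intro z
      rw [shiftL_snd]
      exact w.norm_coe_le_norm _
  · rw [ContinuousMap.norm_le _ (norm_nonneg _)]
    rintro ⟨n, z⟩
    rcases enat_cases n with rfl | ⟨m, rfl⟩
    · rw [← shiftL_snd]
      exact ((shiftL Z w).2.norm_coe_le_norm z).trans (norm_snd_le _)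
    · rw [← shiftL_fst]
      exact ((shiftL Z w).1.norm_coe_le_norm (m, z)).trans (norm_fst_le _)

theorem shiftL_surj : Function.Surjective (shiftL Z) := by
  rintro ⟨w, v⟩
  have hopen : IsOpen {x : ℕ∞ × Z | x.1 = 0} := by
    have : IsOpen ({0} : Set ℕ∞) := ENat.isOpen_singleton (by simp)
    exact this.preimage continuous_fst
  have hclosed : IsClosed {x : ℕ∞ × Z | x.1 = 0} := by
    have : IsClosed ({0} : Set ℕ∞) := isClosed_singleton
    exact this.preimage continuous_fst
  have hcont : Continuous fun x : ℕ∞ × Z => if x.1 = 0 then v x.2 else w (x.1 - 1, x.2) := by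
    apply Continuous.if
    · intro x hx
      have : frontier {x : ℕ∞ × Z | x.1 = 0} = ∅ := IsClopen.frontier_eq ⟨hclosed, hopen⟩
      rw [this] at hx
      exact absurd hx (notMem_empty _)
    · exact v.continuous.comp continuous_snd
    · apply w.continuous.comp
      apply Continuous.prodMk _ continuous_snd
      have h1 : Continuous fun n : ℕ∞ => n - 1 := by
        rw [continuous_iff_continuousAt]
        intro n
        have h2 := ENat.continuousAt_sub (a := n) (b := 1) (Or.inr (by simp))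
        exact h2.comp (f := fun n : ℕ∞ => (n, (1 : ℕ∞))) (by fun_prop)
      exact h1.comp continuous_fst
  refine ⟨⟨_, hcont⟩, ?_⟩
  apply Prod.ext
  · ext ⟨n, z⟩
    rw [shiftL_fst]
    change (if n + 1 = 0 then v z else w (n + 1 - 1, z)) = w (n, z)
    rw [if_neg (by simp)]
    congr 2
    induction n using ENat.recTopCoe with
    | top => simp
    | coe n => norm_cast
  · ext z
    rw [shiftL_snd]
    change (if (0 : ℕ∞) = 0 then v z else w (0 - 1, z)) = v z
    rw [if_pos rfl]

/-- The shift as an isometric isomorphism. -/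
noncomputable def theta : (C(ℕ∞ × Z, ℝ) × C(Z, ℝ)) ≃ₗᵢ[ℝ] C(ℕ∞ × Z, ℝ) :=
  (LinearIsometryEquiv.ofSurjective ⟨(shiftL Z).toLinearMap, shiftL_norm Z⟩ (shiftL_surj Z)).symm

theorem theta_symm_apply (w : C(ℕ∞ × Z, ℝ)) : (theta Z).symm w = shiftL Z w := rfl

theorem theta_nonneg {u : C(ℕ∞ × Z, ℝ) × C(Z, ℝ)} (h1 : 0 ≤ u.1) (h2 : 0 ≤ u.2) :
    0 ≤ theta Z u := by
  have h3 : shiftL Z (theta Z u) = u := by
    rw [← theta_symm_apply]
    exact (theta Z).symm_apply_apply u
  intro x
  obtain ⟨n, z⟩ := x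
  rcases enat_cases n with rfl | ⟨m, rfl⟩
  · have h4 := shiftL_snd Z (theta Z u) z
    rw [h3] at h4
    exact (h2 z).trans_eq h4
  · have h4 := shiftL_fst Z (theta Z u) m z
    rw [h3] at h4
    exact (h1 (m, z)).trans_eq h4

theorem shiftL_nonneg {w : C(ℕ∞ × Z, ℝ)} (hw : 0 ≤ w) :
    0 ≤ (shiftL Z w).1 ∧ 0 ≤ (shiftL Z w).2 := by
  constructor
  · rintro ⟨n, z⟩
    exact hw (n + 1, z)
  · intro z
    exact hw (0, z)

end

/-- **Theorem.** -/
theorem exists_pos_iso (K L : Type*) [TopologicalSpace K] [CompactSpace K] [T2Space K]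
    [SecondCountableTopology K] [Uncountable K] [TopologicalSpace L] [CompactSpace L] [T2Space L]
    [SecondCountableTopology L] [Uncountable L] :
    ∃ T : C(K, ℝ) ≃L[ℝ] C(L, ℝ), ∀ f, 0 ≤ f → 0 ≤ T f := by
  obtain ⟨A, V, hA, hV, hVA⟩ := factor K (ℕ∞ × L)
  obtain ⟨A', V', hA', hV', hVA'⟩ := factor L (ℕ∞ × K)
  -- `S : C(K) → C(K) × C(L)`
  have hS := bijective_S A V hVA (theta L)
  -- `T : C(L) × C(K) → C(L)`
  have hT := bijective_T A' V' hVA' (theta K)
  let S : C(K, ℝ) →L[ℝ] C(K, ℝ) × C(L, ℝ) :=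
    ((1 / 3 : ℝ) • ContinuousLinearMap.id ℝ _ +
      (2 / 3 : ℝ) • (A.comp ((ContinuousLinearMap.fst ℝ _ _).comp ((shiftL L).comp V)))).prod
      ((ContinuousLinearMap.snd ℝ _ _).comp ((shiftL L).comp V))
  let T : C(L, ℝ) × C(K, ℝ) →L[ℝ] C(L, ℝ) :=
    (1 / 3 : ℝ) • ContinuousLinearMap.fst ℝ _ _ +
      (2 / 3 : ℝ) • (A'.comp (((theta K).toContinuousLinearEquiv : _ →L[ℝ] _).comp
        ((V'.comp (ContinuousLinearMap.fst ℝ _ _)).prod (ContinuousLinearMap.snd ℝ _ _))))
  have hSb : Function.Bijective S := hS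
  have hTb : Function.Bijective T := hT
  let R : C(K, ℝ) →L[ℝ] C(L, ℝ) := T.comp
    (((ContinuousLinearMap.snd ℝ _ _).prod (ContinuousLinearMap.fst ℝ _ _)).comp S)
  have hR : Function.Bijective R := by
    have hsw : Function.Bijective (fun x : C(K, ℝ) × C(L, ℝ) => (x.2, x.1)) :=
      Prod.swap_bijective
    exact hTb.comp (hsw.comp hSb)
  refine ⟨ContinuousLinearEquiv.ofBijective R (LinearMap.ker_eq_bot.mpr hR.1)
    (LinearMap.range_eq_top.mpr hR.2), fun f hf => ?_⟩
  change 0 ≤ R f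
  have h1 : 0 ≤ (S f).1 := by
    change 0 ≤ (1 / 3 : ℝ) • f + (2 / 3 : ℝ) • A (shiftL L (V f)).1
    have h2 := hA _ (shiftL_nonneg L (hV f hf)).1
    exact add_nonneg (smul_nonneg (by norm_num) hf) (smul_nonneg (by norm_num) h2)
  have h2 : 0 ≤ (S f).2 := (shiftL_nonneg L (hV f hf)).2
  change 0 ≤ (1 / 3 : ℝ) • (S f).2 + (2 / 3 : ℝ) • A' (theta K (V' (S f).2, (S f).1))
  have h3 := hA' _ (theta_nonneg K (u := (V' (S f).2, (S f).1)) (hV' _ h2) h1)
  exact add_nonneg (smul_nonneg (by norm_num) h2) (smul_nonneg (by norm_num) h3)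

end Pool.Agent.Q196.PosIso
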