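import Mathlib

open Topology Set Filter

universe u

namespace Pool.Agent.Q196.ProjGen

section Defs

variable {𝕜 : Type} [RCLike 𝕜] {X : Type u} [NormedAddCommGroup X] [NormedSpace 𝕜 X]

/-- A projectional skeleton `(P s)` on `X`, indexed by the up-directed partially ordered set `Γ`:
the `P s` are continuous linear projections with separable ranges; `s ≤ t` implies
`P s = P s ∘ P t = P t ∘ P s`; every increasing sequence has a supremum `s` in `Γ`, and the range of
`P s` is the closure of the union of the ranges; the ranges cover `X`. -/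
structure IsProjSkeleton {Γ : Type u} [PartialOrder Γ] (P : Γ → X →L[𝕜] X) : Prop where
  nonempty : Nonempty Γ
  directed : ∀ s t : Γ, ∃ r, s ≤ r ∧ t ≤ r
  idem : ∀ s x, P s (P s x) = P s x
  separable : ∀ s, TopologicalSpace.IsSeparable (range (P s))
  compat : ∀ s t, s ≤ t → ∀ x, P s (P t x) = P s x ∧ P t (P s x) = P s x
  sup : ∀ r : ℕ → Γ, Monotone r →
    ∃ s, IsLUB (range r) s ∧ range (P s) = closure (⋃ n, range (P (r n)))
  union : (⋃ s, range (P s)) = univ

/-- The norms of the projections are bounded. -/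
def IsUniformlyBounded {Γ : Type u} (P : Γ → X →L[𝕜] X) : Prop := ∃ M : ℝ, ∀ s, ‖P s‖ ≤ M

/-- The set `D = ⋃ s, P s ^* X^*` induced by the skeleton. -/
def Induced {Γ : Type u} (P : Γ → X →L[𝕜] X) : Set (StrongDual 𝕜 X) :=
  {f | ∃ s, ∃ g : StrongDual 𝕜 X, f = g.comp (P s)}

/-- `D` is norming: for some `c > 0` every `x` has `f` in `D`, `‖f‖ ≤ 1`, with
`c * ‖x‖ ≤ ‖f x‖`. -/
def IsNorming (D : Set (StrongDual 𝕜 X)) : Prop :=
  ∃ c : ℝ, 0 < c ∧ ∀ x : X, ∃ f ∈ D, ‖f‖ ≤ 1 ∧ c * ‖x‖ ≤ ‖f x‖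

/-- The weak* closure of a set of functionals. -/
def WStarClosure (A : Set (StrongDual 𝕜 X)) : Set (StrongDual 𝕜 X) :=
  {f | StrongDual.toWeakDual f ∈ closure (StrongDual.toWeakDual '' A)}

/-- `(D, Φ)` is a projectional generator on `X`. -/
def IsProjGenerator (D : Set (StrongDual 𝕜 X)) (Φ : StrongDual 𝕜 X → Set X) : Prop :=
  (∃ V : Submodule 𝕜 (StrongDual 𝕜 X), (V : Set (StrongDual 𝕜 X)) = D) ∧ IsNorming D ∧
  (∀ f ∈ D, (Φ f).Countable) ∧
  ∀ A ⊆ D, (∃ V : Submodule 𝕜 (StrongDual 𝕜 X), (V : Set (StrongDual 𝕜 X)) = closure A) →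
    ∀ f ∈ WStarClosure (closure A), (∀ a ∈ A, ∀ x ∈ Φ a, f x = 0) → f = 0

/-- The recipe of the question: for `f` in `D` an index `σ f` with `P (σ f) ^* f = f` and a
countable dense subset `Φ f` of the range of `P (σ f)`. -/
structure IsRecipe {Γ : Type u} (P : Γ → X →L[𝕜] X) (σ : StrongDual 𝕜 X → Γ)
    (Φ : StrongDual 𝕜 X → Set X) : Prop where
  fix : ∀ f ∈ Induced P, f.comp (P (σ f)) = f
  countable : ∀ f ∈ Induced P, (Φ f).Countable
  subset : ∀ f ∈ Induced P, Φ f ⊆ range (P (σ f))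
  dense : ∀ f ∈ Induced P, range (P (σ f)) ⊆ closure (Φ f)

variable (𝕜 X) in
/-- `X` admits a uniformly bounded projectional skeleton. -/
def HasSkeleton : Prop :=
  ∃ (Γ : Type u) (_ : PartialOrder Γ) (P : Γ → X →L[𝕜] X), IsProjSkeleton P ∧ IsUniformlyBounded P

variable (𝕜 X) in
/-- For every uniformly bounded projectional skeleton on `X`, every choice made in the recipe gives
a projectional generator. -/
def RecipeWorks : Prop :=
  ∀ (Γ : Type u) (_ : PartialOrder Γ) (P : Γ → X →L[𝕜] X), IsProjSkeleton P →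
    IsUniformlyBounded P → ∀ (σ : StrongDual 𝕜 X → Γ) (Φ : StrongDual 𝕜 X → Set X),
      IsRecipe P σ Φ → IsProjGenerator (Induced P) Φ

end Defs

section Basic

variable {𝕜 : Type} [RCLike 𝕜] {X : Type u} [NormedAddCommGroup X] [NormedSpace 𝕜 X]
variable {Γ : Type u} [PartialOrder Γ] {P : Γ → X →L[𝕜] X}

theorem mem_induced (hP : IsProjSkeleton P) {f : StrongDual 𝕜 X} :
    f ∈ Induced P ↔ ∃ s, f.comp (P s) = f := by
  constructor
  · rintro ⟨s, g, rfl⟩
    refine ⟨s, ?_⟩
    ext x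
    simp [hP.idem]
  · rintro ⟨s, hs⟩
    exact ⟨s, f, hs.symm⟩

theorem comp_mono (hP : IsProjSkeleton P) {f : StrongDual 𝕜 X} {s t : Γ} (hst : s ≤ t)
    (h : f.comp (P s) = f) : f.comp (P t) = f := by
  ext x
  have h1 : ∀ y, f (P s y) = f y := fun y => by
    have := congrArg (fun g : StrongDual 𝕜 X => g y) h
    simpa using this
  change f (P t x) = f x
  rw [← h1 (P t x), (hP.compat s t hst x).1, h1]

theorem range_mono (hP : IsProjSkeleton P) {s t : Γ} (hst : s ≤ t) {x : X} (h : P s x = x) :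
    P t x = x := by
  rw [← h, (hP.compat s t hst x).2]

theorem exists_fix (hP : IsProjSkeleton P) (x : X) : ∃ s, P s x = x := by
  have : x ∈ ⋃ s, range (P s) := by rw [hP.union]; trivial
  obtain ⟨s, y, rfl⟩ := mem_iUnion.1 this
  exact ⟨s, hP.idem s y⟩

theorem exists_fix_finset (hP : IsProjSkeleton P) (t : Finset X) :
    ∃ s, ∀ x ∈ t, P s x = x := by
  classical
  induction t using Finset.induction_on with
  | empty =>
    obtain ⟨s⟩ := hP.nonempty
    exact ⟨s, by simp⟩
  | insert a t _ ih =>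
    obtain ⟨s, hs⟩ := ih
    obtain ⟨r, hr⟩ := exists_fix hP a
    obtain ⟨q, hsq, hrq⟩ := hP.directed s r
    refine ⟨q, fun x hx => ?_⟩
    rcases Finset.mem_insert.1 hx with rfl | hx
    · exact range_mono hP hrq hr
    · exact range_mono hP hsq (hs x hx)

theorem induced_submodule (hP : IsProjSkeleton P) :
    ∃ V : Submodule 𝕜 (StrongDual 𝕜 X), (V : Set (StrongDual 𝕜 X)) = Induced P := by
  refine ⟨{ carrier := Induced P, add_mem' := ?_, zero_mem' := ?_, smul_mem' := ?_ }, rfl⟩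
  · intro f g hf hg
    obtain ⟨s, hs⟩ := (mem_induced hP).1 hf
    obtain ⟨t, ht⟩ := (mem_induced hP).1 hg
    obtain ⟨r, hsr, htr⟩ := hP.directed s t
    refine (mem_induced hP).2 ⟨r, ?_⟩
    rw [ContinuousLinearMap.add_comp, comp_mono hP hsr hs, comp_mono hP htr ht]
  · obtain ⟨s⟩ := hP.nonempty
    exact ⟨s, 0, by simp⟩
  · intro c f hf
    obtain ⟨s, hs⟩ := (mem_induced hP).1 hf
    refine (mem_induced hP).2 ⟨s, ?_⟩
    rw [ContinuousLinearMap.smul_comp, hs]

theorem induced_norming (hP : IsProjSkeleton P) (hM : IsUniformlyBounded P) :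
    IsNorming (Induced P) := by
  obtain ⟨M, hM⟩ := hM
  refine ⟨1 / (|M| + 1), by positivity, fun x => ?_⟩
  obtain ⟨s, hs⟩ := exists_fix hP x
  obtain ⟨g, hg1, hgx⟩ := exists_dual_vector'' 𝕜 x
  have hb : 0 < |M| + 1 := by positivity
  refine ⟨((1 / (|M| + 1) : ℝ) : 𝕜) • g.comp (P s), ⟨s, ((1 / (|M| + 1) : ℝ) : 𝕜) • g, ?_⟩, ?_, ?_⟩
  · rw [ContinuousLinearMap.smul_comp]
  · rw [norm_smul]
    have h1 : ‖g.comp (P s)‖ ≤ 1 * M :=
      (g.opNorm_comp_le (P s)).trans (mul_le_mul hg1 (hM s) (norm_nonneg _) zero_le_one)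
    have h2 : ‖((1 / (|M| + 1) : ℝ) : 𝕜)‖ = 1 / (|M| + 1) := by
      rw [RCLike.norm_ofReal, abs_of_pos (by positivity)]
    rw [h2, div_mul_eq_mul_div, div_le_one hb]
    have := le_abs_self M
    linarith
  · have h2 : ‖((1 / (|M| + 1) : ℝ) : 𝕜)‖ = 1 / (|M| + 1) := by
      rw [RCLike.norm_ofReal, abs_of_pos (by positivity)]
    rw [_root_.smul_apply, norm_smul, h2]
    change 1 / (|M| + 1) * ‖x‖ ≤ 1 / (|M| + 1) * ‖g (P s x)‖
    rw [hs, hgx]
    simp

theorem exists_seq (hP : IsProjSkeleton P) (s : ℕ → Γ) :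
    ∃ r : ℕ → Γ, Monotone r ∧ ∀ n, s n ≤ r n := by
  choose J hJ1 hJ2 using hP.directed
  refine ⟨fun n => Nat.rec (s 0) (fun n ih => J ih (s (n + 1))) n, monotone_nat_of_le_succ ?_, ?_⟩
  · intro n
    exact hJ1 _ _
  · intro n
    cases n with
    | zero => exact le_rfl
    | succ n => exact hJ2 _ _

theorem induced_closed (hP : IsProjSkeleton P) : IsClosed (Induced P) := by
  rw [← closure_subset_iff_isClosed]
  intro f hf
  obtain ⟨w, hw, hlim⟩ := mem_closure_iff_seq_limit.1 hf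
  choose s hs using fun n => (mem_induced hP).1 (hw n)
  obtain ⟨r, hr, hsr⟩ := exists_seq hP s
  obtain ⟨q, hq, -⟩ := hP.sup r hr
  refine (mem_induced hP).2 ⟨q, ?_⟩
  have hwq : ∀ n, (w n).comp (P q) = w n := fun n =>
    comp_mono hP ((hsr n).trans (hq.1 ⟨n, rfl⟩)) (hs n)
  have heval : ∀ y : X, Tendsto (fun n => w n y) atTop (𝓝 (f y)) := fun y =>
    ((ContinuousLinearMap.apply 𝕜 𝕜 y).continuous.tendsto f).comp hlim
  ext x
  have h1 := heval (P q x)
  have h2 := heval x
  have h3 : (fun n => w n (P q x)) = fun n => w n x := by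
    funext n
    exact congrArg (fun g : StrongDual 𝕜 X => g x) (hwq n)
  rw [h3] at h1
  exact tendsto_nhds_unique h1 h2

end Basic

section General

variable {𝕜 : Type} [RCLike 𝕜] {X : Type u} [NormedAddCommGroup X] [NormedSpace 𝕜 X]

/-- Hahn-Banach separation of a point from a closed subspace. -/
theorem exists_annihilator {Y : Type*} [NormedAddCommGroup Y] [NormedSpace 𝕜 Y]
    (V : Submodule 𝕜 Y) (hV : IsClosed (V : Set Y)) {f : Y} (hf : f ∉ V) :
    ∃ F : StrongDual 𝕜 Y, (∀ g ∈ V, F g = 0) ∧ F f ≠ 0 := by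
  have := hV
  have hne : ‖V.mkQL f‖ ≠ 0 := by
    rw [norm_ne_zero_iff]
    intro h
    apply hf
    rw [Submodule.mkQL_apply, Submodule.mkQ_apply] at h
    exact (Submodule.Quotient.mk_eq_zero V).1 h
  obtain ⟨g, -, hg⟩ := exists_dual_vector 𝕜 (V.mkQL f) hne
  refine ⟨g.comp V.mkQL, fun y hy => ?_, ?_⟩
  · change g (V.mkQL y) = 0
    have : V.mkQL y = 0 := by
      rw [Submodule.mkQL_apply, Submodule.mkQ_apply]
      exact (Submodule.Quotient.mk_eq_zero V).2 hy
    rw [this, map_zero]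
  · change g (V.mkQL f) ≠ 0
    rw [hg]
    exact_mod_cast hne

theorem wstar_of_finset {A : Set (StrongDual 𝕜 X)} {f : StrongDual 𝕜 X}
    (h : ∀ t : Finset X, ∃ g ∈ A, ∀ x ∈ t, g x = f x) : f ∈ WStarClosure A := by
  choose g hgA hg using h
  have hlim : Tendsto (fun t : Finset X => StrongDual.toWeakDual (g t)) atTop
      (𝓝 (StrongDual.toWeakDual f)) := by
    rw [tendsto_iff_forall_eval_tendsto_topDualPairing]
    intro y
    refine tendsto_const_nhds.congr' ?_
    filter_upwards [eventually_ge_atTop ({y} : Finset X)] with t ht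
    exact (hg t y (ht (Finset.mem_singleton_self y))).symm
  change StrongDual.toWeakDual f ∈ closure (StrongDual.toWeakDual '' A)
  exact mem_closure_of_tendsto hlim (Eventually.of_forall fun t => ⟨g t, hgA t, rfl⟩)

theorem wstar_eval {A : Set (StrongDual 𝕜 X)} {f : StrongDual 𝕜 X} (hf : f ∈ WStarClosure A)
    {x : X} (hx : ∀ a ∈ A, a x = 0) : f x = 0 := by
  have hcl : IsClosed {g : WeakDual 𝕜 X | g x = 0} :=
    isClosed_eq (WeakDual.eval_continuous x) continuous_const
  have hsub : closure (StrongDual.toWeakDual '' A) ⊆ {g : WeakDual 𝕜 X | g x = 0} := by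
    refine closure_minimal ?_ hcl
    rintro _ ⟨a, ha, rfl⟩
    exact hx a ha
  exact hsub (show StrongDual.toWeakDual f ∈ closure (StrongDual.toWeakDual '' A) from hf)

theorem wstar_mono {A B : Set (StrongDual 𝕜 X)} (h : A ⊆ B) : WStarClosure A ⊆ WStarClosure B := by
  intro f hf
  change StrongDual.toWeakDual f ∈ closure (StrongDual.toWeakDual '' B)
  change StrongDual.toWeakDual f ∈ closure (StrongDual.toWeakDual '' A) at hf
  exact closure_mono (image_mono h) hf

/-- A functional on `X^*` not coming from `X` does not see finitely many points of `X`. -/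
theorem exists_interpolation {F : StrongDual 𝕜 (StrongDual 𝕜 X)}
    (hF : F ∉ range (NormedSpace.inclusionInDoubleDual 𝕜 X)) (b : StrongDual 𝕜 X) (t : Finset X) :
    ∃ g : StrongDual 𝕜 X, F g = 0 ∧ ∀ x ∈ t, g x = b x := by
  classical
  -- find h vanishing on t with F h ≠ 0
  have hex : ∃ h : StrongDual 𝕜 X, (∀ x ∈ t, h x = 0) ∧ F h ≠ 0 := by
    by_contra hcon
    push Not at hcon
    let L : {x // x ∈ t} → StrongDual 𝕜 X →ₗ[𝕜] 𝕜 := fun x =>
      (NormedSpace.inclusionInDoubleDual 𝕜 X (x : X)).toLinearMap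
    have hle : ⨅ i, LinearMap.ker (L i) ≤ LinearMap.ker F.toLinearMap := by
      intro h hh
      rw [Submodule.mem_iInf] at hh
      rw [LinearMap.mem_ker]
      exact hcon h (fun x hx => hh ⟨x, hx⟩)
    have hmem := mem_span_of_iInf_ker_le_ker hle
    obtain ⟨c, hc⟩ := (Submodule.mem_span_range_iff_exists_fun 𝕜).1 hmem
    apply hF
    refine ⟨∑ i, c i • (i : X), ?_⟩
    ext h
    have := congrArg (fun K : StrongDual 𝕜 X →ₗ[𝕜] 𝕜 => K h) hc
    simp only [LinearMap.sum_apply, LinearMap.smul_apply] at this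
    rw [NormedSpace.dual_def, map_sum]
    simp only [map_smul]
    exact this
  obtain ⟨h, hht, hFh⟩ := hex
  refine ⟨b - (F b / F h) • h, ?_, fun x hx => ?_⟩
  · rw [map_sub, map_smul, smul_eq_mul, div_mul_cancel₀ _ hFh, sub_self]
  · change b x - (F b / F h) • h x = b x
    rw [hht x hx, smul_zero, sub_zero]

theorem bad_vec {F : StrongDual 𝕜 (StrongDual 𝕜 X)} {b : StrongDual 𝕜 X} (hFb : F b ≠ 0) :
    ∃ M : ℝ, ∀ a : StrongDual 𝕜 X, F a = 0 →
      ∃ x : X, b x = 0 ∧ a x • x = x ∧ a x • a = a ∧ ‖a‖ * ‖x‖ ≤ M := by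
  have hb : b ≠ 0 := by rintro rfl; exact hFb (map_zero F)
  obtain ⟨y₀, hy₀⟩ : ∃ y, b y ≠ 0 := by
    by_contra hcon
    push Not at hcon
    exact hb (ContinuousLinearMap.ext hcon)
  set y := (b y₀)⁻¹ • y₀ with hy
  have hby : b y = 1 := by
    rw [hy, map_smul, smul_eq_mul, inv_mul_cancel₀ hy₀]
  have hFb' : 0 < ‖F b‖ := norm_pos_iff.2 hFb
  set K : ℝ := 1 + ‖F‖ * ‖b‖ / ‖F b‖ with hK
  have hKpos : 0 < K := by positivity
  have hdist : ∀ a : StrongDual 𝕜 X, F a = 0 → ∀ c : 𝕜, ‖a‖ ≤ K * ‖a - c • b‖ := by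
    intro a ha c
    have h1 : ‖c‖ * ‖F b‖ ≤ ‖F‖ * ‖a - c • b‖ := by
      have := F.le_opNorm (a - c • b)
      rw [map_sub, ha, map_smul, zero_sub, norm_neg, norm_smul] at this
      exact this
    have h2 : ‖c‖ ≤ ‖F‖ * ‖a - c • b‖ / ‖F b‖ := by
      rw [le_div_iff₀ hFb']; exact h1
    calc ‖a‖ = ‖(a - c • b) + c • b‖ := by congr 1; abel
      _ ≤ ‖a - c • b‖ + ‖c‖ * ‖b‖ := (norm_add_le _ _).trans (by rw [norm_smul])
      _ ≤ ‖a - c • b‖ + (‖F‖ * ‖a - c • b‖ / ‖F b‖) * ‖b‖ := by gcongr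
      _ = K * ‖a - c • b‖ := by rw [hK]; ring
  refine ⟨2 * K * (1 + ‖b‖ * ‖y‖), fun a ha => ?_⟩
  by_cases ha0 : a = 0
  · refine ⟨0, by simp, by simp, by ext z; simp [ha0], ?_⟩
    simp only [norm_zero, mul_zero]
    positivity
  set c : StrongDual 𝕜 X := a - a y • b with hc
  have hac := hdist a ha (a y)
  rw [← hc] at hac
  have hapos : 0 < ‖a‖ := norm_pos_iff.2 ha0
  have hcpos : 0 < ‖c‖ := by
    by_contra hcon
    have : ‖c‖ = 0 := le_antisymm (not_lt.1 hcon) (norm_nonneg _)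
    rw [this, mul_zero] at hac
    linarith
  obtain ⟨v, hv⟩ : ∃ v, ‖c‖ / 2 * ‖v‖ < ‖c v‖ := by
    by_contra hcon
    push Not at hcon
    have := c.opNorm_le_bound (by positivity) hcon
    linarith
  have hcv : 0 < ‖c v‖ := lt_of_le_of_lt (by positivity) hv
  have hcv0 : c v ≠ 0 := norm_pos_iff.1 hcv
  set w := v - b v • y with hw
  have hbw : b w = 0 := by
    rw [hw, map_sub, map_smul, hby, smul_eq_mul, mul_one, sub_self]
  have haw : a w = c v := by
    rw [hw, map_sub, map_smul, hc]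
    simp only [_root_.sub_apply, _root_.smul_apply, smul_eq_mul]
    ring
  have hwn : ‖w‖ ≤ (1 + ‖b‖ * ‖y‖) * ‖v‖ := by
    calc ‖w‖ ≤ ‖v‖ + ‖b v‖ * ‖y‖ := (norm_sub_le _ _).trans (by rw [norm_smul])
      _ ≤ ‖v‖ + (‖b‖ * ‖v‖) * ‖y‖ := by gcongr; exact b.le_opNorm v
      _ = (1 + ‖b‖ * ‖y‖) * ‖v‖ := by ring
  have hax : a ((c v)⁻¹ • w) = 1 := by
    rw [map_smul, haw, smul_eq_mul, inv_mul_cancel₀ hcv0]
  refine ⟨(c v)⁻¹ • w, ?_, ?_, ?_, ?_⟩
  · rw [map_smul, hbw, smul_zero]
  · rw [hax, one_smul]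
  · rw [hax, one_smul]
  · rw [norm_smul, norm_inv]
    have h1 : ‖v‖ * ‖c‖ ≤ 2 * ‖c v‖ := by linarith
    have h2 : ‖a‖ * (‖c v‖⁻¹ * ‖w‖) = (‖a‖ * ‖w‖) / ‖c v‖ := by
      field_simp
    rw [h2, div_le_iff₀ hcv]
    calc ‖a‖ * ‖w‖ ≤ (K * ‖c‖) * ((1 + ‖b‖ * ‖y‖) * ‖v‖) := by gcongr
      _ = K * (1 + ‖b‖ * ‖y‖) * (‖v‖ * ‖c‖) := by ring
      _ ≤ K * (1 + ‖b‖ * ‖y‖) * (2 * ‖c v‖) := by gcongr
      _ = 2 * K * (1 + ‖b‖ * ‖y‖) * ‖c v‖ := by ring

end General

/-! ### The reflexive case -/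

section Reflexive

variable {𝕜 : Type} [RCLike 𝕜] {X : Type u} [NormedAddCommGroup X] [NormedSpace 𝕜 X]

theorem recipeWorks_of_reflexive
    (hX : Function.Surjective (NormedSpace.inclusionInDoubleDual 𝕜 X)) : RecipeWorks 𝕜 X := by
  intro Γ _ P hP hM σ Φ hR
  refine ⟨induced_submodule hP, induced_norming hP hM, hR.countable, ?_⟩
  rintro A hAD ⟨V, hV⟩ f hf hfΦ
  obtain ⟨M, hM⟩ := hM
  -- f is in the norm closure of A
  have hfV : f ∈ V := by
    by_contra hcon
    obtain ⟨F, hFV, hFf⟩ := exists_annihilator V (by rw [hV]; exact isClosed_closure) hcon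
    obtain ⟨x, rfl⟩ := hX F
    apply hFf
    rw [NormedSpace.dual_def]
    refine wstar_eval hf (fun a ha => ?_)
    have : a ∈ V := by
      have h : a ∈ (V : Set (StrongDual 𝕜 X)) := by rw [hV]; exact ha
      exact h
    exact hFV a this
  have hfcl : f ∈ closure A := by rw [← hV]; exact hfV
  rw [← norm_eq_zero]
  refine le_antisymm (le_of_forall_pos_le_add fun ε hε => ?_) (norm_nonneg _)
  rw [zero_add]
  have hMpos : 0 < |M| + 1 := by positivity
  obtain ⟨a, haA, ha⟩ := Metric.mem_closure_iff.1 hfcl (ε / (|M| + 1)) (by positivity)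
  rw [dist_eq_norm] at ha
  have haD := hAD haA
  have hfP : f.comp (P (σ a)) = 0 := by
    ext x
    change f (P (σ a) x) = 0
    have hcl : closure (Φ a) ⊆ {z | f z = 0} :=
      closure_minimal (fun z hz => hfΦ a haA z hz) (isClosed_eq f.continuous continuous_const)
    exact hcl (hR.dense a haD ⟨x, rfl⟩)
  have haeq : a = (a - f).comp (P (σ a)) := by
    rw [ContinuousLinearMap.sub_comp, hR.fix a haD, hfP, sub_zero]
  have h1 : ‖a‖ ≤ ‖a - f‖ * ‖P (σ a)‖ := by
    conv_lhs => rw [haeq]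
    exact ContinuousLinearMap.opNorm_comp_le _ _
  have h2 : ‖P (σ a)‖ ≤ |M| := (hM _).trans (le_abs_self M)
  have h3 : ‖a - f‖ = ‖f - a‖ := norm_sub_rev _ _
  rw [h3] at h1
  calc ‖f‖ = ‖(f - a) + a‖ := by congr 1; abel
    _ ≤ ‖f - a‖ + ‖a‖ := norm_add_le _ _
    _ ≤ ‖f - a‖ + ‖f - a‖ * |M| := by gcongr; exact h1.trans (by gcongr)
    _ = (|M| + 1) * ‖f - a‖ := by ring
    _ ≤ (|M| + 1) * (ε / (|M| + 1)) := by gcongr
    _ = ε := by field_simp

end Reflexive

/-! ### The nonreflexive case -/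

/-- The enlarged index set: the old indices and one new index for each functional in `A`. -/
inductive Ext (Γ : Type u) (A : Type u) : Type u
  | old : Γ → Ext Γ A
  | new : A → Ext Γ A

section Nonreflexive

variable {𝕜 : Type} [RCLike 𝕜] {X : Type u} [NormedAddCommGroup X] [NormedSpace 𝕜 X]
variable {Γ : Type u} [PartialOrder Γ] (P : Γ → X →L[𝕜] X)
variable (A : Set (StrongDual 𝕜 X)) (xv : A → X)

/-- The order on the enlarged index set. -/
def extLE : Ext Γ A → Ext Γ A → Prop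
  | .old s, .old t => s ≤ t
  | .new a, .new b => a = b
  | .new a, .old t => P t (xv a) = xv a ∧ (a : StrongDual 𝕜 X).comp (P t) = a
  | .old _, .new _ => False

/-- The enlarged family of projections. -/
noncomputable def extP : Ext Γ A → X →L[𝕜] X
  | .old s => P s
  | .new a => (a : StrongDual 𝕜 X).smulRight (xv a)

variable {P A xv}

/-- The order on the enlarged index set is a partial order. -/
@[reducible] def extOrder (hP : IsProjSkeleton P) : PartialOrder (Ext Γ A) where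
  le := extLE P A xv
  le_refl := by
    rintro (s | a)
    · exact le_refl s
    · exact rfl
  le_trans := by
    rintro (s | a) (t | b) (r | c) h1 h2
    · exact le_trans (α := Γ) h1 h2
    · exact h2.elim
    · exact h1.elim
    · exact h1.elim
    · exact ⟨range_mono hP h2 h1.1, comp_mono hP h2 h1.2⟩
    · exact h2.elim
    · have h : a = b := h1
      subst h
      exact h2
    · exact Eq.trans (α := A) h1 h2
  le_antisymm := by
    rintro (s | a) (t | b) h1 h2
    · exact congrArg Ext.old (le_antisymm (α := Γ) h1 h2)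
    · exact h1.elim
    · exact h2.elim
    · exact congrArg Ext.new h1

theorem ext_skeleton (hP : IsProjSkeleton P) (hA : A ⊆ Induced P)
    (hx : ∀ a : A, (a : StrongDual 𝕜 X) (xv a) • xv a = xv a) :
    @IsProjSkeleton 𝕜 _ X _ _ (Ext Γ A) (extOrder (xv := xv) hP) (extP P A xv) := by
  let _ : PartialOrder (Ext Γ A) := extOrder (xv := xv) hP
  have hnew : ∀ a : A, ∀ x, extP P A xv (.new a) x = (a : StrongDual 𝕜 X) x • xv a :=
    fun _ _ => rfl
  have hold : ∀ s x, extP P A xv (.old s) x = P s x := fun _ _ => rfl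
  have habove : ∀ (a : A), ∃ s : Γ, P s (xv a) = xv a ∧ (a : StrongDual 𝕜 X).comp (P s) = a := by
    intro a
    obtain ⟨s, hs⟩ := exists_fix hP (xv a)
    obtain ⟨t, ht⟩ := (mem_induced hP).1 (hA a.2)
    obtain ⟨r, hsr, htr⟩ := hP.directed s t
    exact ⟨r, range_mono hP hsr hs, comp_mono hP htr ht⟩
  have hup : ∀ s : Ext Γ A, ∃ r : Γ, s ≤ .old r := by
    rintro (s | a)
    · exact ⟨s, le_refl (Ext.old s)⟩
    · exact habove a
  have hidem : ∀ s x, extP P A xv s (extP P A xv s x) = extP P A xv s x := by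
    rintro (s | a) x
    · exact hP.idem s x
    · rw [hnew, hnew, map_smul, smul_eq_mul, mul_smul, hx]
  have hcompat : ∀ s t : Ext Γ A, s ≤ t → ∀ x, extP P A xv s (extP P A xv t x) = extP P A xv s x ∧
      extP P A xv t (extP P A xv s x) = extP P A xv s x := by
    rintro (s | a) (t | b) hst x
    · exact hP.compat s t hst x
    · exact hst.elim
    · obtain ⟨h1, h2⟩ := hst
      rw [hold, hnew, hnew, hold, map_smul, h1]
      refine ⟨?_, rfl⟩
      have := congrArg (fun g : StrongDual 𝕜 X => g x) h2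
      have h3 : (a : StrongDual 𝕜 X) (P t x) = (a : StrongDual 𝕜 X) x := this
      rw [h3]
    · have h : a = b := hst
      subst h
      exact ⟨hidem _ x, hidem _ x⟩
  refine ⟨?_, ?_, hidem, ?_, hcompat, ?_, ?_⟩
  · obtain ⟨s⟩ := hP.nonempty
    exact ⟨.old s⟩
  · intro s t
    obtain ⟨s', hs'⟩ := hup s
    obtain ⟨t', ht'⟩ := hup t
    obtain ⟨r, h1, h2⟩ := hP.directed s' t'
    exact ⟨.old r, le_trans hs' h1, le_trans ht' h2⟩
  · rintro (s | a)
    · exact hP.separable s
    · have hsub : range (extP P A xv (.new a)) ⊆ range (fun c : 𝕜 => c • xv a) := by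
        rintro _ ⟨x, rfl⟩
        exact ⟨(a : StrongDual 𝕜 X) x, rfl⟩
      refine TopologicalSpace.IsSeparable.mono ?_ hsub
      exact TopologicalSpace.isSeparable_range (by fun_prop)
  · intro r hr
    by_cases hex : ∃ N s, r N = .old s
    · obtain ⟨N, s₀, hN⟩ := hex
      have htail : ∀ n, ∃ s, r (N + n) = .old s := by
        intro n
        have h1 : r N ≤ r (N + n) := hr (Nat.le_add_right N n)
        rw [hN] at h1
        rcases hrn : r (N + n) with s | a
        · exact ⟨s, rfl⟩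
        · rw [hrn] at h1
          exact h1.elim
      choose s hs using htail
      have hsm : Monotone s := by
        intro m n hmn
        have h1 : r (N + m) ≤ r (N + n) := hr (by omega)
        rw [hs, hs] at h1
        exact h1
      obtain ⟨q, hq, hqr⟩ := hP.sup s hsm
      refine ⟨.old q, ⟨?_, ?_⟩, ?_⟩
      · rintro _ ⟨n, rfl⟩
        have h1 : r n ≤ r (N + n) := hr (Nat.le_add_left n N)
        refine le_trans h1 ?_
        rw [hs]
        exact hq.1 ⟨n, rfl⟩
      · rintro (p | a) hp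
        · refine hq.2 ?_
          rintro _ ⟨n, rfl⟩
          have h1 : r (N + n) ≤ .old p := hp ⟨N + n, rfl⟩
          rw [hs] at h1
          exact h1
        · have h1 : r (N + 0) ≤ .new a := hp ⟨N + 0, rfl⟩
          rw [hs] at h1
          exact h1.elim
      · change range (P q) = _
        rw [hqr]
        congr 1
        apply Subset.antisymm
        · refine iUnion_subset (fun n => ?_)
          refine Subset.trans ?_ (subset_iUnion _ (N + n))
          rw [hs]
          exact Subset.rfl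
        · refine iUnion_subset (fun n => ?_)
          refine Subset.trans ?_ (subset_iUnion _ n)
          have h1 : r n ≤ r (N + n) := hr (Nat.le_add_left n N)
          rw [hs] at h1
          rintro _ ⟨x, rfl⟩
          exact ⟨_, (hcompat _ _ h1 x).2⟩
    · have hall : ∀ n, ∃ a, r n = .new a := by
        intro n
        rcases hrn : r n with s | a
        · exact absurd ⟨n, s, hrn⟩ hex
        · exact ⟨a, rfl⟩
      have hconst : ∀ n, r n = r 0 := by
        intro n
        obtain ⟨a, ha⟩ := hall n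
        obtain ⟨b, hb⟩ := hall 0
        have h1 : r 0 ≤ r n := hr (Nat.zero_le n)
        rw [ha, hb] at h1
        rw [ha, hb]
        exact congrArg Ext.new (Eq.symm (α := A) h1)
      refine ⟨r 0, ⟨?_, ?_⟩, ?_⟩
      · rintro _ ⟨n, rfl⟩
        rw [hconst n]
      · intro p hp
        exact hp ⟨0, rfl⟩
      · have hu : (⋃ n, range (extP P A xv (r n))) = range (extP P A xv (r 0)) := by
          apply Subset.antisymm
          · refine iUnion_subset (fun n => ?_)
            rw [hconst n]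
          · exact subset_iUnion (fun n => range (extP P A xv (r n))) 0
        rw [hu]
        -- the range of a continuous projection is closed
        have hcl : IsClosed (range (extP P A xv (r 0))) := by
          have : range (extP P A xv (r 0)) = {x | extP P A xv (r 0) x = x} := by
            ext x
            constructor
            · rintro ⟨y, rfl⟩
              exact hidem _ y
            · intro h
              exact ⟨x, h⟩
          rw [this]
          exact isClosed_eq (ContinuousLinearMap.continuous _) continuous_id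
        rw [hcl.closure_eq]
  · rw [← univ_subset_iff, ← hP.union]
    exact iUnion_subset (fun s => subset_iUnion (fun s => range (extP P A xv s)) (.old s))

theorem ext_induced (hP : IsProjSkeleton P) (hA : A ⊆ Induced P) :
    Induced (extP P A xv) = Induced P := by
  obtain ⟨V, hV⟩ := induced_submodule hP
  apply Subset.antisymm
  · rintro f ⟨s | a, g, rfl⟩
    · exact ⟨s, g, rfl⟩
    · have h1 : g.comp (extP P A xv (.new a)) = g (xv a) • (a : StrongDual 𝕜 X) := by
        ext x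
        change g ((a : StrongDual 𝕜 X) x • xv a) = g (xv a) • (a : StrongDual 𝕜 X) x
        rw [map_smul, smul_eq_mul, smul_eq_mul, mul_comm]
      rw [h1, ← hV]
      refine V.smul_mem _ ?_
      have h2 : (a : StrongDual 𝕜 X) ∈ (V : Set (StrongDual 𝕜 X)) := by rw [hV]; exact hA a.2
      exact h2
  · rintro f ⟨s, g, rfl⟩
    exact ⟨.old s, g, rfl⟩

omit [PartialOrder Γ] in
theorem ext_bounded (hM : IsUniformlyBounded P) {K : ℝ}
    (hK : ∀ a : A, ‖(a : StrongDual 𝕜 X)‖ * ‖xv a‖ ≤ K) : IsUniformlyBounded (extP P A xv) := by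
  obtain ⟨M, hM⟩ := hM
  refine ⟨max M K, ?_⟩
  rintro (s | a)
  · exact (hM s).trans (le_max_left _ _)
  · change ‖(a : StrongDual 𝕜 X).smulRight (xv a)‖ ≤ _
    rw [ContinuousLinearMap.norm_smulRight_apply]
    exact (hK a).trans (le_max_right _ _)

/-- In a nonreflexive space with a skeleton there is a functional `F` on the dual and `b` with
`F b ≠ 0` in the weak* closure of the kernel of `F` in `D`. -/
theorem exists_pair (hP : IsProjSkeleton P)
    (hX : ¬ Function.Surjective (NormedSpace.inclusionInDoubleDual 𝕜 X)) :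
    ∃ (F : StrongDual 𝕜 (StrongDual 𝕜 X)) (b : StrongDual 𝕜 X), F b ≠ 0 ∧
      b ∈ WStarClosure (Induced P ∩ {a | F a = 0}) := by
  by_cases hD : Induced P = univ
  · obtain ⟨F, hF⟩ : ∃ F, F ∉ range (NormedSpace.inclusionInDoubleDual 𝕜 X) := by
      by_contra hcon
      push Not at hcon
      exact hX hcon
    obtain ⟨b, hb⟩ : ∃ b, F b ≠ 0 := by
      by_contra hcon
      push Not at hcon
      exact hF ⟨0, by rw [map_zero]; exact (ContinuousLinearMap.ext hcon).symm⟩
    refine ⟨F, b, hb, wstar_of_finset (fun t => ?_)⟩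
    obtain ⟨g, hg, hgt⟩ := exists_interpolation hF b t
    exact ⟨g, ⟨by rw [hD]; trivial, hg⟩, hgt⟩
  · obtain ⟨b, hb⟩ : ∃ b, b ∉ Induced P := by
      by_contra hcon
      push Not at hcon
      exact hD (eq_univ_of_forall hcon)
    obtain ⟨V, hV⟩ := induced_submodule hP
    have hbV : b ∉ V := fun h => hb (by rw [← hV]; exact h)
    obtain ⟨F, hFV, hFb⟩ := exists_annihilator V (by rw [hV]; exact induced_closed hP) hbV
    refine ⟨F, b, hFb, wstar_of_finset (fun t => ?_)⟩
    obtain ⟨s, hs⟩ := exists_fix_finset hP t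
    have hmem : b.comp (P s) ∈ Induced P := ⟨s, b, rfl⟩
    refine ⟨b.comp (P s), ⟨hmem, hFV _ ?_⟩, fun x hx => ?_⟩
    · have : b.comp (P s) ∈ (V : Set (StrongDual 𝕜 X)) := by rw [hV]; exact hmem
      exact this
    · change b (P s x) = b x
      rw [hs x hx]

/-- In a nonreflexive space every projectional skeleton can be enlarged, without changing the
induced subspace, so that the recipe fails for a suitable choice of the indices and every choice of
the dense sets. -/
theorem exists_bad (hP : IsProjSkeleton P) (hM : IsUniformlyBounded P)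
    (hX : ¬ Function.Surjective (NormedSpace.inclusionInDoubleDual 𝕜 X)) :
    ∃ (Δ : Type u) (_ : PartialOrder Δ) (Q : Δ → X →L[𝕜] X), IsProjSkeleton Q ∧
      IsUniformlyBounded Q ∧ Induced Q = Induced P ∧ ∃ σ : StrongDual 𝕜 X → Δ,
        (∀ f ∈ Induced Q, f.comp (Q (σ f)) = f) ∧
        ∀ Φ : StrongDual 𝕜 X → Set X, IsRecipe Q σ Φ → ¬ IsProjGenerator (Induced Q) Φ := by
  obtain ⟨F, b, hFb, hbcl⟩ := exists_pair hP hX
  obtain ⟨M, hbad⟩ := bad_vec hFb
  set A : Set (StrongDual 𝕜 X) := Induced P ∩ {a | F a = 0} with hAdef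
  choose xv hx1 hx2 hx3 hx4 using fun a : A => hbad (a : StrongDual 𝕜 X) a.2.2
  have hAD : A ⊆ Induced P := fun _ h => h.1
  classical
  obtain ⟨s₀⟩ := hP.nonempty
  let τ : StrongDual 𝕜 X → Γ := fun f =>
    if h : f ∈ Induced P then ((mem_induced hP).1 h).choose else s₀
  have hτ : ∀ f ∈ Induced P, f.comp (P (τ f)) = f := by
    intro f hf
    simp only [τ, dif_pos hf]
    exact ((mem_induced hP).1 hf).choose_spec
  let σ : StrongDual 𝕜 X → Ext Γ A := fun f => if h : f ∈ A then .new ⟨f, h⟩ else .old (τ f)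
  have hind : Induced (extP P A xv) = Induced P := ext_induced hP hAD
  refine ⟨Ext Γ A, extOrder (xv := xv) hP, extP P A xv, ext_skeleton hP hAD hx2,
    ext_bounded hM hx4, hind, σ, ?_, ?_⟩
  · intro f hf
    rw [hind] at hf
    by_cases hfA : f ∈ A
    · simp only [σ, dif_pos hfA]
      ext x
      change f (f x • xv ⟨f, hfA⟩) = f x
      have h1 := congrArg (fun g : StrongDual 𝕜 X => g x) (hx3 ⟨f, hfA⟩)
      have h2 : f (xv ⟨f, hfA⟩) • f x = f x := h1
      rw [map_smul, smul_eq_mul, mul_comm]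
      exact h2
    · simp only [σ, dif_neg hfA]
      exact hτ f hf
  · rintro Φ hR ⟨-, -, -, hgen⟩
    have hAcl : IsClosed A := (induced_closed hP).inter (isClosed_eq F.continuous continuous_const)
    obtain ⟨V, hV⟩ := induced_submodule hP
    have hAV : ((V ⊓ LinearMap.ker F.toLinearMap : Submodule 𝕜 (StrongDual 𝕜 X)) :
        Set (StrongDual 𝕜 X)) = closure A := by
      rw [hAcl.closure_eq, Submodule.coe_inf, hV]
      rfl
    have hb0 : b = 0 := by
      refine hgen A (by rw [hind]; exact hAD) ⟨_, hAV⟩ b (wstar_mono subset_closure hbcl) ?_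
      intro a ha x hxΦ
      have haD : a ∈ Induced (extP P A xv) := by rw [hind]; exact hAD ha
      obtain ⟨y, hy⟩ := hR.subset a haD hxΦ
      simp only [σ, dif_pos ha] at hy
      have h1 : a y • xv ⟨a, ha⟩ = x := hy
      rw [← h1, map_smul, hx1, smul_zero]
    rw [hb0, map_zero] at hFb
    exact hFb rfl

end Nonreflexive

section Main

variable {𝕜 : Type} [RCLike 𝕜] {X : Type u} [NormedAddCommGroup X] [NormedSpace 𝕜 X]

theorem recipeWorks_iff (h : HasSkeleton 𝕜 X) :
    RecipeWorks 𝕜 X ↔ Function.Surjective (NormedSpace.inclusionInDoubleDual 𝕜 X) := by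
  refine ⟨fun hR => ?_, recipeWorks_of_reflexive⟩
  by_contra hX
  obtain ⟨Γ, _, P, hP, hM⟩ := h
  obtain ⟨Δ, hΔ, Q, hQ, hQM, -, σ, hσ, hbad⟩ := exists_bad hP hM hX
  -- choose countable dense subsets
  have hdense : ∀ s : Δ, ∃ c : Set X, c.Countable ∧ c ⊆ range (Q s) ∧ range (Q s) ⊆ closure c :=
    fun s => by
      obtain ⟨c, hc, hcr, hcl⟩ := (hQ.separable s).exists_countable_dense_subset
      exact ⟨c, hcr, hc, hcl⟩
  choose C hC1 hC2 hC3 using hdense
  have hrec : IsRecipe Q σ (fun f => C (σ f)) :=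
    ⟨hσ, fun f _ => hC1 _, fun f _ => hC2 _, fun f _ => hC3 _⟩
  exact hbad _ hrec (hR Δ hΔ Q hQ hQM σ _ hrec)

/-- The one-element skeleton of a separable space. -/
theorem hasSkeleton_of_separable [TopologicalSpace.SeparableSpace X] : HasSkeleton 𝕜 X := by
  refine ⟨PUnit.{u + 1}, inferInstance, fun _ => ContinuousLinearMap.id 𝕜 X, ?_,
    ⟨1, fun _ => ContinuousLinearMap.norm_id_le⟩⟩
  refine ⟨⟨PUnit.unit⟩, fun s _ => ⟨s, le_rfl, le_rfl⟩, fun _ _ => rfl, fun _ => ?_,
    fun _ _ _ _ => ⟨rfl, rfl⟩, fun r _ => ?_, ?_⟩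
  · exact TopologicalSpace.IsSeparable.of_separableSpace _
  · refine ⟨PUnit.unit, ⟨fun _ _ => le_rfl, fun _ _ => le_rfl⟩, ?_⟩
    have h1 : range (ContinuousLinearMap.id 𝕜 X) = univ := range_eq_univ.2 (fun x => ⟨x, rfl⟩)
    rw [h1, iUnion_const, closure_univ]
  · exact iUnion_eq_univ_iff.2 (fun x => ⟨PUnit.unit, x, rfl⟩)

end Main

section Ell1

variable (𝕜 : Type) [RCLike 𝕜]

theorem not_reflexive_of {Y : Type*} [NormedAddCommGroup Y] [NormedSpace 𝕜 Y] {e : ℕ → Y}
    (he : ∀ n, ‖e n‖ ≤ 1) {c : ℕ → StrongDual 𝕜 Y} (hc : ∀ k, ∀ᶠ n in atTop, c k (e n) = 0)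
    (hsep : ∀ y, (∀ k, c k y = 0) → y = 0) {b : StrongDual 𝕜 Y} (hb : ∀ n, b (e n) = 1) :
    ¬ Function.Surjective (NormedSpace.inclusionInDoubleDual 𝕜 Y) := by
  intro hsurj
  set ι := NormedSpace.inclusionInDoubleDual 𝕜 Y with hι
  let w : ℕ → WeakDual 𝕜 (StrongDual 𝕜 Y) := fun n => StrongDual.toWeakDual (ι (e n))
  have hcomp := WeakDual.isCompact_polar (𝕜 := 𝕜) (E := StrongDual 𝕜 Y)
    (Metric.closedBall_mem_nhds (0 : StrongDual 𝕜 Y) one_pos)
  have hw : ∀ n, w n ∈ WeakDual.polar 𝕜 (Metric.closedBall (0 : StrongDual 𝕜 Y) 1) := by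
    intro n
    rw [WeakDual.polar_def]
    intro g hg
    rw [mem_closedBall_zero_iff] at hg
    change ‖g (e n)‖ ≤ 1
    calc ‖g (e n)‖ ≤ ‖g‖ * ‖e n‖ := g.le_opNorm _
      _ ≤ 1 * 1 := mul_le_mul hg (he n) (norm_nonneg _) zero_le_one
      _ = 1 := one_mul 1
  obtain ⟨G, -, hG⟩ := hcomp.exists_mapClusterPt_of_frequently
    (l := atTop) (f := w) (Frequently.of_forall hw)
  obtain ⟨x, hx⟩ := hsurj (WeakDual.toStrongDual G)
  have heval : ∀ g : StrongDual 𝕜 Y, G g = g x := by
    intro g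
    have := congrArg (fun H : StrongDual 𝕜 (StrongDual 𝕜 Y) => H g) hx
    exact this.symm
  -- coordinates vanish
  have hx0 : x = 0 := by
    refine hsep x (fun k => ?_)
    have hcl : IsClosed {H : WeakDual 𝕜 (StrongDual 𝕜 Y) | H (c k) = 0} :=
      isClosed_eq (WeakDual.eval_continuous _) continuous_const
    have hmem := hcl.mem_of_mapClusterPt hG (hc k)
    have h1 : G (c k) = 0 := hmem
    rw [heval] at h1
    exact h1
  have hb : G b = 1 := by
    have hcl : IsClosed {H : WeakDual 𝕜 (StrongDual 𝕜 Y) | H b = 1} :=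
      isClosed_eq (WeakDual.eval_continuous _) continuous_const
    exact hcl.mem_of_mapClusterPt hG (Eventually.of_forall fun n => hb n)
  rw [heval, hx0, map_zero] at hb
  exact zero_ne_one hb

/-- The space `ℓ¹`. -/
abbrev L1 : Type := lp (fun _ : ℕ => 𝕜) 1

theorem not_reflexive : ¬ Function.Surjective (NormedSpace.inclusionInDoubleDual 𝕜 (L1 𝕜)) := by
  refine not_reflexive_of 𝕜 (e := fun n => (lp.single 1 n 1 : L1 𝕜))
    (c := fun k => lp.evalCLM 𝕜 (fun _ : ℕ => 𝕜) 1 k) (b := lp.tsumCLM 𝕜 ℕ 𝕜) ?_ ?_ ?_ ?_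
  · intro n
    have := lp.norm_single (E := fun _ : ℕ => 𝕜) (p := 1) (by norm_num) n (1 : 𝕜)
    rw [norm_one] at this
    exact this.le
  · intro k
    filter_upwards [eventually_gt_atTop k] with n hn
    exact lp.single_apply_ne (E := fun _ : ℕ => 𝕜) 1 n 1 (by omega)
  · intro y hy
    ext k
    exact hy k
  · intro n
    simp [lp.tsumCLM_apply]

theorem separable_l1 : TopologicalSpace.SeparableSpace (L1 𝕜) := by
  rw [← TopologicalSpace.isSeparable_univ_iff]
  have h1 : TopologicalSpace.IsSeparable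
      (closure (Submodule.span 𝕜 (range fun n : ℕ => (lp.single 1 n 1 : L1 𝕜)) : Set (L1 𝕜))) :=
    ((countable_range _).isSeparable.span (R := 𝕜)).closure
  refine h1.mono (fun v _ => ?_)
  have hs : HasSum (fun k : ℕ => (lp.single 1 k (v k) : L1 𝕜)) v := lp.hasSum_single (by norm_num) v
  refine mem_closure_of_tendsto hs.tendsto_sum_nat (Eventually.of_forall (fun n => ?_))
  refine Submodule.sum_mem _ (fun i _ => ?_)
  have h2 : (lp.single 1 i (v i) : L1 𝕜) = (v i) • lp.single 1 i (1 : 𝕜) := by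
    have := lp.single_smul (E := fun _ : ℕ => 𝕜) 1 i (v i) (1 : 𝕜)
    rw [smul_eq_mul, mul_one] at this
    exact this
  rw [h2]
  exact Submodule.smul_mem _ _ (Submodule.subset_span ⟨i, rfl⟩)

theorem l1_fails : HasSkeleton 𝕜 (L1 𝕜) ∧ ¬ RecipeWorks 𝕜 (L1 𝕜) := by
  have := separable_l1 𝕜
  have h : HasSkeleton 𝕜 (L1 𝕜) := hasSkeleton_of_separable
  exact ⟨h, fun hR => not_reflexive 𝕜 ((recipeWorks_iff h).1 hR)⟩

end Ell1

end Pool.Agent.Q196.ProjGen
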