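import Pool.Agent.Q196.PermBasis

open Filter Finset Topology

namespace Pool.Agent.Q196.RenormBasis

open Pool.Agent.Q196.PermBasis (SumsTo IsBasis coeff_eq)

section Defs

variable {𝕜 : Type*} [RCLike 𝕜] {B : Type*} [NormedAddCommGroup B] [NormedSpace 𝕜 B]

/-- The seminorm `N` is a norm on `B` equivalent to the given norm. -/
def IsEquivNorm (N : Seminorm 𝕜 B) : Prop :=
  ∃ c C : ℝ, 0 < c ∧ ∀ v, c * ‖v‖ ≤ N v ∧ N v ≤ C * ‖v‖

/-- The sequence `x` is monotone with respect to `N`: the partial sums of an expansion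
`v = ∑ α i • x i` satisfy `N (s_n v) ≤ N v`. -/
def IsMonotoneFor (N : Seminorm 𝕜 B) (x : ℕ → B) : Prop :=
  ∀ (v : B) (α : ℕ → 𝕜), SumsTo 𝕜 x α v → ∀ n, N (∑ i ∈ range n, α i • x i) ≤ N v

/-- Some linear projection of `B` onto `E` has operator norm at most `1` with respect to `N`. -/
def HasContractiveProjection (N : Seminorm 𝕜 B) (E : Submodule 𝕜 B) : Prop :=
  ∃ p : B →ₗ[𝕜] B, LinearMap.range p = E ∧ (∀ v, p (p v) = p v) ∧ ∀ v, N (p v) ≤ N v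

end Defs

section Construction

variable (𝕜 : Type) [RCLike 𝕜]

/-- The space `ℓ⁴`. -/
abbrev L4 : Type := lp (fun _ : ℕ => 𝕜) 4

/-- The space `ℓ²`. -/
abbrev L2 : Type := lp (fun _ : ℕ => 𝕜) 2

instance : Fact ((1 : ENNReal) ≤ 4) := ⟨by norm_num⟩

theorem signs (T : L4 𝕜 →ₗ[𝕜] L2 𝕜) {δ : ℝ} (hδ : ∀ n, δ ≤ ‖T (lp.single 4 n 1)‖) (h0 : 0 ≤ δ) :
    ∀ n : ℕ, ∃ ε : ℕ → 𝕜, (∀ i, ‖ε i‖ = 1) ∧
      n * δ ^ 2 ≤ ‖T (∑ i ∈ range n, lp.single 4 i (ε i))‖ ^ 2 := by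
  intro n
  induction n with
  | zero => exact ⟨fun _ => 1, by simp, by simp⟩
  | succ n ih =>
    obtain ⟨ε, hε, hn⟩ := ih
    set S := T (∑ i ∈ range n, lp.single 4 i (ε i)) with hS
    set w := T (lp.single 4 n 1) with hw
    obtain ⟨s, hs, hsn⟩ : ∃ s : 𝕜, (‖s‖ = 1) ∧ 0 ≤ RCLike.re (inner 𝕜 S (s • w)) := by
      by_cases h : 0 ≤ RCLike.re (inner 𝕜 S w)
      · exact ⟨1, by simp, by simpa using h⟩
      · refine ⟨-1, by simp, ?_⟩
        rw [neg_smul, one_smul, inner_neg_right, map_neg]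
        linarith
    refine ⟨fun i => if i = n then s else ε i, fun i => ?_, ?_⟩
    · simp only
      split_ifs
      · exact hs
      · exact hε i
    · rw [Finset.sum_range_succ, map_add]
      have e1 : T (∑ i ∈ range n, lp.single 4 i (if i = n then s else ε i)) = S := by
        rw [hS]
        congr 1
        refine Finset.sum_congr rfl (fun i hi => ?_)
        have : i ≠ n := (mem_range.1 hi).ne
        rw [if_neg this]
      have e2 : T (lp.single 4 n (if n = n then s else ε n)) = s • w := by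
        rw [if_pos rfl, hw, ← map_smul]
        congr 1
        have := lp.single_smul (E := fun _ : ℕ => 𝕜) 4 n s (1 : 𝕜)
        rw [smul_eq_mul, mul_one] at this
        exact this
      rw [e1, e2, @norm_add_sq 𝕜, norm_smul, hs, one_mul]
      have h1 : δ ^ 2 ≤ ‖w‖ ^ 2 := pow_le_pow_left₀ h0 (hδ n) 2
      push_cast
      linarith

/-- A bounded operator from `ℓ⁴` to `ℓ²` maps some unit vector to a vector of small norm. -/
theorem exists_small (T : L4 𝕜 →ₗ[𝕜] L2 𝕜) {M : ℝ} (hM : ∀ u, ‖T u‖ ≤ M * ‖u‖) {δ : ℝ}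
    (hδ : 0 < δ) : ∃ n, ‖T (lp.single 4 n 1)‖ < δ := by
  by_contra hcon
  push Not at hcon
  have key : ∀ n : ℕ, n * δ ^ 4 ≤ M ^ 4 := by
    intro n
    obtain ⟨ε, hε, hn⟩ := signs 𝕜 T hcon hδ.le n
    set u := ∑ i ∈ range n, (lp.single 4 i (ε i) : L4 𝕜) with hu
    have hu4 : ‖u‖ ^ 4 = n := by
      have h := lp.norm_sum_single (E := fun _ : ℕ => 𝕜) (p := 4) (by norm_num) ε (range n)
      have h4 : (4 : ENNReal).toReal = 4 := by norm_num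
      rw [h4] at h
      have h5 : ‖u‖ ^ 4 = ∑ i ∈ range n, ‖ε i‖ ^ 4 := by
        have e1 : ‖u‖ ^ (4 : ℝ) = ‖u‖ ^ 4 := by
          rw [← Real.rpow_natCast]; norm_num
        rw [← e1, hu, h]
        refine Finset.sum_congr rfl (fun i _ => ?_)
        rw [← Real.rpow_natCast]; norm_num
      rw [h5]
      simp [hε]
    have h1 := hM u
    have h2 : ‖T u‖ ^ 2 ≤ (M * ‖u‖) ^ 2 := pow_le_pow_left₀ (norm_nonneg _) h1 2
    have h3 : (n * δ ^ 2) ≤ (M * ‖u‖) ^ 2 := hn.trans h2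
    have h4 : (n * δ ^ 2) ^ 2 ≤ ((M * ‖u‖) ^ 2) ^ 2 := pow_le_pow_left₀ (by positivity) h3 2
    have h5 : ((M * ‖u‖) ^ 2) ^ 2 = M ^ 4 * n := by rw [← hu4]; ring
    rw [h5] at h4
    rcases Nat.eq_zero_or_pos n with h0 | hpos
    · subst h0
      simp only [Nat.cast_zero, zero_mul]
      positivity
    · have hn' : (0 : ℝ) < n := by exact_mod_cast hpos
      have h6 : n * (n * δ ^ 4) ≤ n * M ^ 4 := by nlinarith
      exact le_of_mul_le_mul_left h6 hn'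
  obtain ⟨n, hn⟩ := exists_nat_gt (M ^ 4 / δ ^ 4)
  have h1 := key n
  rw [div_lt_iff₀ (by positivity)] at hn
  linarith

/-- The space `ℓ⁴ ⊕ ℓ²`. -/
abbrev B : Type := L4 𝕜 × L2 𝕜

noncomputable def e (n : ℕ) : B 𝕜 := (lp.single 4 n 1, 0)
noncomputable def f (n : ℕ) : B 𝕜 := (0, lp.single 2 n 1)

/-- The basis: `x (2 n) = - e n + 2 f n` and `x (2 n + 1) = e n - f n`. -/
noncomputable def x (m : ℕ) : B 𝕜 :=
  if m % 2 = 0 then -e 𝕜 (m / 2) + (2 : 𝕜) • f 𝕜 (m / 2) else e 𝕜 (m / 2) - f 𝕜 (m / 2)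

theorem x_even (n : ℕ) : x 𝕜 (2 * n) = -e 𝕜 n + (2 : 𝕜) • f 𝕜 n := by
  unfold x
  rw [if_pos (by omega)]
  have : 2 * n / 2 = n := by omega
  rw [this]

theorem x_odd (n : ℕ) : x 𝕜 (2 * n + 1) = e 𝕜 n - f 𝕜 n := by
  unfold x
  rw [if_neg (by omega)]
  have : (2 * n + 1) / 2 = n := by omega
  rw [this]

noncomputable def ca (n : ℕ) : B 𝕜 →L[𝕜] 𝕜 :=
  (lp.evalCLM 𝕜 (fun _ : ℕ => 𝕜) 4 n).comp (ContinuousLinearMap.fst 𝕜 (L4 𝕜) (L2 𝕜))

noncomputable def cb (n : ℕ) : B 𝕜 →L[𝕜] 𝕜 :=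
  (lp.evalCLM 𝕜 (fun _ : ℕ => 𝕜) 2 n).comp (ContinuousLinearMap.snd 𝕜 (L4 𝕜) (L2 𝕜))

theorem ca_apply (n : ℕ) (v : B 𝕜) : ca 𝕜 n v = v.1 n := rfl
theorem cb_apply (n : ℕ) (v : B 𝕜) : cb 𝕜 n v = v.2 n := rfl

theorem ca_e (m n : ℕ) : ca 𝕜 m (e 𝕜 n) = if m = n then 1 else 0 := by
  rw [ca_apply]
  have h : (e 𝕜 n).1 m = (Pi.single n (1 : 𝕜) : ℕ → 𝕜) m :=
    lp.single_apply (E := fun _ : ℕ => 𝕜) 4 n 1 m
  rw [h, Pi.single_apply]

theorem ca_f (m n : ℕ) : ca 𝕜 m (f 𝕜 n) = 0 := rfl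

theorem cb_e (m n : ℕ) : cb 𝕜 m (e 𝕜 n) = 0 := rfl

theorem cb_f (m n : ℕ) : cb 𝕜 m (f 𝕜 n) = if m = n then 1 else 0 := by
  rw [cb_apply]
  have h : (f 𝕜 n).2 m = (Pi.single n (1 : 𝕜) : ℕ → 𝕜) m :=
    lp.single_apply (E := fun _ : ℕ => 𝕜) 2 n 1 m
  rw [h, Pi.single_apply]

/-- Coordinate functionals of the basis. -/
noncomputable def F (m : ℕ) : B 𝕜 →L[𝕜] 𝕜 :=
  if m % 2 = 0 then ca 𝕜 (m / 2) + cb 𝕜 (m / 2) else (2 : 𝕜) • ca 𝕜 (m / 2) + cb 𝕜 (m / 2)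

theorem F_even (n : ℕ) (v : B 𝕜) : F 𝕜 (2 * n) v = v.1 n + v.2 n := by
  unfold F
  rw [if_pos (by omega)]
  have : 2 * n / 2 = n := by omega
  rw [this]
  rfl

theorem F_odd (n : ℕ) (v : B 𝕜) : F 𝕜 (2 * n + 1) v = 2 * v.1 n + v.2 n := by
  unfold F
  rw [if_neg (by omega)]
  have : (2 * n + 1) / 2 = n := by omega
  rw [this]
  rfl

theorem F_x (m n : ℕ) : F 𝕜 m (x 𝕜 n) = if m = n then 1 else 0 := by
  rcases Nat.even_or_odd' m with ⟨k, rfl | rfl⟩ <;> rcases Nat.even_or_odd' n with ⟨l, rfl | rfl⟩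
  · rw [F_even, x_even, ← ca_apply, ← cb_apply]
    simp only [map_add, map_neg, map_smul, ca_e, ca_f, cb_e, cb_f, smul_eq_mul]
    by_cases h : k = l
    · subst h; simp; ring
    · rw [if_neg h, if_neg (by omega)]; simp
  · rw [F_even, x_odd, ← ca_apply, ← cb_apply]
    simp only [map_sub, ca_e, ca_f, cb_e, cb_f]
    rw [if_neg (show ¬ (2 * k = 2 * l + 1) by omega)]
    ring
  · rw [F_odd, x_even, ← ca_apply, ← cb_apply]
    simp only [map_add, map_neg, map_smul, ca_e, ca_f, cb_e, cb_f, smul_eq_mul]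
    rw [if_neg (show ¬ (2 * k + 1 = 2 * l) by omega)]
    ring
  · rw [F_odd, x_odd, ← ca_apply, ← cb_apply]
    simp only [map_sub, ca_e, ca_f, cb_e, cb_f]
    by_cases h : k = l
    · subst h; simp; ring
    · rw [if_neg h, if_neg (by omega)]; simp

theorem partial_even (v : B 𝕜) (n : ℕ) :
    ∑ i ∈ range (2 * n), F 𝕜 i v • x 𝕜 i =
      (∑ i ∈ range n, (lp.single 4 i (v.1 i) : L4 𝕜), ∑ i ∈ range n, (lp.single 2 i (v.2 i) : L2 𝕜)) := by
  induction n with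
  | zero =>
    simp only [mul_zero, range_zero, sum_empty]
    rfl
  | succ n ih =>
    rw [show 2 * (n + 1) = 2 * n + 1 + 1 by ring, Finset.sum_range_succ, Finset.sum_range_succ, ih,
      F_even, F_odd, x_even, x_odd, Finset.sum_range_succ, Finset.sum_range_succ]
    have h1 : (lp.single 4 n (v.1 n) : L4 𝕜) = (v.1 n) • lp.single 4 n (1 : 𝕜) := by
      have := lp.single_smul (E := fun _ : ℕ => 𝕜) 4 n (v.1 n) (1 : 𝕜)
      rw [smul_eq_mul, mul_one] at this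
      exact this
    have h2 : (lp.single 2 n (v.2 n) : L2 𝕜) = (v.2 n) • lp.single 2 n (1 : 𝕜) := by
      have := lp.single_smul (E := fun _ : ℕ => 𝕜) 2 n (v.2 n) (1 : 𝕜)
      rw [smul_eq_mul, mul_one] at this
      exact this
    rw [h1, h2]
    have h3 : ((∑ i ∈ range n, (lp.single 4 i (v.1 i) : L4 𝕜)) + (v.1 n) • lp.single 4 n (1 : 𝕜),
        (∑ i ∈ range n, (lp.single 2 i (v.2 i) : L2 𝕜)) + (v.2 n) • lp.single 2 n (1 : 𝕜)) =
        ((∑ i ∈ range n, (lp.single 4 i (v.1 i) : L4 𝕜),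
          ∑ i ∈ range n, (lp.single 2 i (v.2 i) : L2 𝕜)) : B 𝕜) +
        ((v.1 n) • e 𝕜 n + (v.2 n) • f 𝕜 n) := by
      unfold e f
      ext1
      · simp
      · simp
    rw [h3]
    module

theorem sumsTo (v : B 𝕜) : SumsTo 𝕜 (x 𝕜) (fun n => F 𝕜 n v) v := by
  have hs4 : HasSum (fun k : ℕ => (lp.single 4 k (v.1 k) : L4 𝕜)) v.1 :=
    lp.hasSum_single (by norm_num) v.1
  have hs2 : HasSum (fun k : ℕ => (lp.single 2 k (v.2 k) : L2 𝕜)) v.2 :=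
    lp.hasSum_single (by norm_num) v.2
  have hev : Tendsto (fun n => ∑ i ∈ range (2 * n), F 𝕜 i v • x 𝕜 i) atTop (𝓝 v) := by
    simp_rw [partial_even]
    exact hs4.tendsto_sum_nat.prodMk_nhds hs2.tendsto_sum_nat
  have hz4 : Tendsto (fun n => ‖v.1 n‖) atTop (𝓝 0) := by
    have := hs4.summable.tendsto_atTop_zero.norm
    rw [norm_zero] at this
    refine this.congr (fun k => ?_)
    exact lp.norm_single (E := fun _ : ℕ => 𝕜) (by norm_num) k _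
  have hz2 : Tendsto (fun n => ‖v.2 n‖) atTop (𝓝 0) := by
    have := hs2.summable.tendsto_atTop_zero.norm
    rw [norm_zero] at this
    refine this.congr (fun k => ?_)
    exact lp.norm_single (E := fun _ : ℕ => 𝕜) (by norm_num) k _
  have hz : Tendsto (fun n => (v.1 n + v.2 n) • x 𝕜 (2 * n)) atTop (𝓝 0) := by
    have hbx : ∀ n, ‖x 𝕜 (2 * n)‖ ≤ 3 := by
      intro n
      rw [x_even]
      have he : ‖e 𝕜 n‖ ≤ 1 := by
        unfold e
        rw [Prod.norm_mk, norm_zero]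
        have := lp.norm_single (E := fun _ : ℕ => 𝕜) (p := 4) (by norm_num) n (1 : 𝕜)
        rw [this]
        simp
      have hf : ‖f 𝕜 n‖ ≤ 1 := by
        unfold f
        rw [Prod.norm_mk, norm_zero]
        have := lp.norm_single (E := fun _ : ℕ => 𝕜) (p := 2) (by norm_num) n (1 : 𝕜)
        rw [this]
        simp
      calc ‖-e 𝕜 n + (2 : 𝕜) • f 𝕜 n‖ ≤ ‖-e 𝕜 n‖ + ‖(2 : 𝕜) • f 𝕜 n‖ := norm_add_le _ _
        _ = ‖e 𝕜 n‖ + 2 * ‖f 𝕜 n‖ := by rw [norm_neg, norm_smul]; simp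
        _ ≤ 3 := by linarith
    rw [tendsto_zero_iff_norm_tendsto_zero]
    have hlim : Tendsto (fun n => (‖v.1 n‖ + ‖v.2 n‖) * 3) atTop (𝓝 0) := by
      simpa using (hz4.add hz2).mul_const 3
    refine squeeze_zero (fun _ => norm_nonneg _) (fun n => ?_) hlim
    rw [norm_smul]
    exact mul_le_mul (norm_add_le _ _) (hbx n) (norm_nonneg _) (by positivity)
  have hodd : Tendsto (fun n => ∑ i ∈ range (2 * n + 1), F 𝕜 i v • x 𝕜 i) atTop (𝓝 v) := by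
    have := hev.add hz
    rw [add_zero] at this
    refine this.congr (fun n => ?_)
    rw [Finset.sum_range_succ, F_even]
  unfold SumsTo
  rw [Metric.tendsto_atTop] at hev hodd ⊢
  intro ε hε
  obtain ⟨N₁, h₁⟩ := hev ε hε
  obtain ⟨N₂, h₂⟩ := hodd ε hε
  refine ⟨2 * max N₁ N₂ + 1, fun m hm => ?_⟩
  rcases Nat.even_or_odd' m with ⟨k, rfl | rfl⟩
  · exact h₁ k (by have := le_max_left N₁ N₂; omega)
  · exact h₂ k (by have := le_max_right N₁ N₂; omega)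

theorem isBasis_x : IsBasis 𝕜 (x 𝕜) := by
  intro v
  refine ⟨fun n => F 𝕜 n v, sumsTo 𝕜 v, fun α hα => ?_⟩
  funext m
  exact coeff_eq (F_x 𝕜) (π := 1) hα m

/-- The complemented subspace `{0} ⊕ ℓ²`. -/
noncomputable def E : Submodule 𝕜 (B 𝕜) := LinearMap.ker (ContinuousLinearMap.fst 𝕜 (L4 𝕜) (L2 𝕜)).toLinearMap

theorem E_complemented : (E 𝕜).ClosedComplemented :=
  (ContinuousLinearMap.fst 𝕜 (L4 𝕜) (L2 𝕜)).closedComplemented_ker_of_rightInverse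
    (ContinuousLinearMap.inl 𝕜 (L4 𝕜) (L2 𝕜)) (fun _ => rfl)

theorem no_renorming (N : Seminorm 𝕜 (B 𝕜)) (hN : IsEquivNorm N)
    (hmono : IsMonotoneFor N (x 𝕜)) (hproj : HasContractiveProjection N (E 𝕜)) : False := by
  obtain ⟨c, C, hc, hcC⟩ := hN
  obtain ⟨p, hpE, hpp, hpN⟩ := hproj
  have hC : 0 ≤ C := by
    have h1 := (hcC (f 𝕜 0)).2
    have h2 := (hcC (f 𝕜 0)).1
    have h3 : ‖f 𝕜 0‖ = 1 := by
      unfold f
      rw [Prod.norm_mk, norm_zero]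
      have := lp.norm_single (E := fun _ : ℕ => 𝕜) (p := 2) (by norm_num) 0 (1 : 𝕜)
      rw [this]
      simp
    rw [h3] at h1 h2
    linarith
  let T : L4 𝕜 →ₗ[𝕜] L2 𝕜 := (LinearMap.snd 𝕜 (L4 𝕜) (L2 𝕜)).comp (p.comp (LinearMap.inl 𝕜 (L4 𝕜) (L2 𝕜)))
  have hT : ∀ u, T u = (p (u, 0)).2 := fun u => rfl
  have hTb : ∀ u, ‖T u‖ ≤ (C / c) * ‖u‖ := by
    intro u
    have h1 : ‖T u‖ ≤ ‖p (u, 0)‖ := by
      rw [hT]; exact norm_snd_le _
    have h2 : ‖p (u, 0)‖ ≤ N (p (u, 0)) / c := by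
      rw [le_div_iff₀ hc, mul_comm]
      exact (hcC _).1
    have h3 : N (p (u, 0)) ≤ C * ‖((u, 0) : B 𝕜)‖ := (hpN _).trans (hcC _).2
    have h4 : ‖((u, 0) : B 𝕜)‖ = ‖u‖ := by
      rw [Prod.norm_mk, norm_zero]
      exact max_eq_left (norm_nonneg _)
    rw [h4] at h3
    calc ‖T u‖ ≤ N (p (u, 0)) / c := h1.trans h2
      _ ≤ (C * ‖u‖) / c := by gcongr
      _ = (C / c) * ‖u‖ := by ring
  have hfn : ∀ n, ‖f 𝕜 n‖ = 1 := by
    intro n
    unfold f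
    rw [Prod.norm_mk, norm_zero]
    have := lp.norm_single (E := fun _ : ℕ => 𝕜) (p := 2) (by norm_num) n (1 : 𝕜)
    rw [this]
    simp
  obtain ⟨n, hn⟩ := exists_small 𝕜 T hTb (show 0 < c / (C + 1) by positivity)
  -- `p` on the two vectors
  have hpf : p (f 𝕜 n) = f 𝕜 n := by
    have hmem : f 𝕜 n ∈ LinearMap.range p := by
      rw [hpE]
      show (f 𝕜 n).1 = 0
      rfl
    obtain ⟨w, hw⟩ := hmem
    rw [← hw, hpp]
  have hpe : p (e 𝕜 n) = (0, T (lp.single 4 n 1)) := by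
    have hmem : p (e 𝕜 n) ∈ E 𝕜 := by
      rw [← hpE]; exact ⟨_, rfl⟩
    have h1 : (p (e 𝕜 n)).1 = 0 := hmem
    exact Prod.ext h1 rfl
  -- the partial sum of `f n`
  have hsum : ∑ i ∈ range (2 * n + 1), F 𝕜 i (f 𝕜 n) • x 𝕜 i = x 𝕜 (2 * n) := by
    have hf1 : ∀ i, (f 𝕜 n).1 i = 0 := fun i => ca_f 𝕜 i n
    have hf2 : ∀ i, (f 𝕜 n).2 i = if i = n then 1 else 0 := fun i => cb_f 𝕜 i n
    rw [Finset.sum_range_succ, F_even, hf1, hf2, if_pos rfl, zero_add, one_smul]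
    have : ∑ i ∈ range (2 * n), F 𝕜 i (f 𝕜 n) • x 𝕜 i = 0 := by
      refine Finset.sum_eq_zero (fun i hi => ?_)
      have hi' := mem_range.1 hi
      rcases Nat.even_or_odd' i with ⟨k, rfl | rfl⟩
      · rw [F_even, hf1, hf2, if_neg (by omega), add_zero, zero_smul]
      · rw [F_odd, hf1, hf2, if_neg (by omega), mul_zero, add_zero, zero_smul]
    rw [this, zero_add]
  have h1 : N (x 𝕜 (2 * n)) ≤ N (f 𝕜 n) := by
    have := hmono (f 𝕜 n) _ (sumsTo 𝕜 (f 𝕜 n)) (2 * n + 1)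
    rw [hsum] at this
    exact this
  have h2 : N (p (x 𝕜 (2 * n))) ≤ N (f 𝕜 n) := (hpN _).trans h1
  have h3 : p (x 𝕜 (2 * n)) = (2 : 𝕜) • f 𝕜 n - (0, T (lp.single 4 n 1)) := by
    rw [x_even, map_add, map_neg, map_smul, hpf, hpe]
    abel
  have h4 : N ((2 : 𝕜) • f 𝕜 n) ≤ N (f 𝕜 n) + N ((0, T (lp.single 4 n 1)) : B 𝕜) := by
    have h5 : (2 : 𝕜) • f 𝕜 n = p (x 𝕜 (2 * n)) + ((0, T (lp.single 4 n 1)) : B 𝕜) := by
      rw [h3]; abel
    rw [h5]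
    exact (map_add_le_add N _ _).trans (by linarith)
  rw [map_smul_eq_mul] at h4
  have h6 : ‖(2 : 𝕜)‖ = 2 := by simp
  rw [h6] at h4
  have h7 : c ≤ N (f 𝕜 n) := by
    have := (hcC (f 𝕜 n)).1
    rw [hfn, mul_one] at this
    exact this
  have h8 : N ((0, T (lp.single 4 n 1)) : B 𝕜) ≤ C * ‖T (lp.single 4 n 1)‖ := by
    refine (hcC _).2.trans (le_of_eq ?_)
    rw [Prod.norm_mk, norm_zero]
    rw [max_eq_right (norm_nonneg _)]
  have h9 : C * ‖T (lp.single 4 n 1)‖ < c := by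
    rw [lt_div_iff₀ (by linarith)] at hn
    nlinarith [norm_nonneg (T (lp.single 4 n 1))]
  linarith

end Construction

end Pool.Agent.Q196.RenormBasis
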